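import Pool.Agent.U270.FT14.Final14
import Pool.Agent.Y2.Cw.EvenH4

/-!
# Hodge characters with at most six entries of all degrees
-/

set_option autoImplicit false

namespace Pool.Agent.U270.FT14

open Finset Pool.Agent.H916R2 Pool.Agent.N992 Pool.Agent.N993 Pool.Agent.Y2 Pool.Agent.Y2.Cv
  Pool.Agent.Y2.Cw Pool.Agent.U270.SX

lemma threePrimes_110 : ThreePrimes 110 := by
  have hpr : ∀ q : ℕ, q.Prime → q ∣ 110 → q = 2 ∨ q = 5 ∨ q = 11 := by
    intro q hq hqe
    have h1 : (110 : ℕ) = 2 * (5 * 11) := by norm_num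
    rw [h1] at hqe
    rcases (Nat.Prime.dvd_mul hq).mp hqe with h2 | h2
    · exact Or.inl ((Nat.prime_dvd_prime_iff_eq hq Nat.prime_two).mp h2)
    · rcases (Nat.Prime.dvd_mul hq).mp h2 with h3 | h3
      · exact Or.inr (Or.inl ((Nat.prime_dvd_prime_iff_eq hq (by norm_num)).mp h3))
      · exact Or.inr (Or.inr ((Nat.prime_dvd_prime_iff_eq hq (by norm_num)).mp h3))
  refine ⟨?_, ?_⟩
  · rw [if_neg (by norm_num)]
    have hsub : (Nat.primeFactors 110).erase 2 ⊆ {5, 11} := by
      intro q hq
      have hq' := mem_of_mem_erase hq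
      have hq2 := ne_of_mem_erase hq
      rcases hpr q (Nat.prime_of_mem_primeFactors hq') (Nat.dvd_of_mem_primeFactors hq') with
        h1 | h1 | h1
      · exact absurd h1 hq2
      · rw [h1]; exact mem_insert_self _ _
      · rw [h1]; exact mem_insert_of_mem (mem_singleton_self _)
    have h5 := card_le_card hsub
    have h6 : ({5, 11} : Finset ℕ).card ≤ 2 := card_le_two
    omega
  · intro q hq hqe hq4
    right
    rcases hpr q hq hqe with h1 | h1 | h1 <;> omega

/-- the character of degree 110 -/
lemma hodge110 (t : ℕ) (ht : Nat.Coprime t 110) :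
    IsHodge 110 (Multiset.map (fun a : ℕ => ((t * a : ℕ) : ZMod 110)) {1, 31, 55, 71, 81, 91}) := by
  have h1 : IsHodge 110 (Multiset.map (fun a : ℕ => ((a : ℕ) : ZMod 110))
      {1, 31, 55, 71, 81, 91}) := by
    refine ⟨by decide, by decide, by decide, ?_⟩
    decide +kernel
  have h2 := IsHodge.mul' h1 (ZMod.unitOfCoprime t ht)
  rw [Multiset.map_map] at h2
  have h3 : (Multiset.map (fun a : ℕ => ((t * a : ℕ) : ZMod 110))
      ({1, 31, 55, 71, 81, 91} : Multiset ℕ)) =
      Multiset.map ((fun a => ((ZMod.unitOfCoprime t ht : (ZMod 110)ˣ) : ZMod 110) * a) ∘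
        fun a : ℕ => ((a : ℕ) : ZMod 110)) {1, 31, 55, 71, 81, 91} := by
    refine Multiset.map_congr rfl fun a _ => ?_
    simp only [Function.comp_apply, ZMod.coe_unitOfCoprime]
    push_cast
    rfl
  rw [h3]
  exact h2

/-- **Hodge characters with at most six entries of even degree.** -/
theorem main_six_even {m : ℕ} (hm : m ≠ 0) (heven : m % 2 = 0) :
    ∃ L : ℕ, ∃ _ : NeZero (L * m), ∀ s : Multiset (ZMod m), IsHodge m s →
      Multiset.card s ≤ 6 → s ≠ 0 →
      Generated (L * m) (FourBase (L * m)) (s.map fun a => ((L * a.val : ℕ) : ZMod (L * m))) := by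
  have hN : NeZero m := ⟨hm⟩
  obtain ⟨l, hl, hgen⟩ := main3 110 threePrimes_110
  have hl0 : l ≠ 0 := by
    rintro rfl
    exact hl.out (zero_mul _)
  have hNL : NeZero (l * m) := ⟨Nat.mul_ne_zero hl0 hm⟩
  refine ⟨l, hNL, fun s hs hcard hne => ?_⟩
  have hiota : (s.map fun a => ((l * a.val : ℕ) : ZMod (l * m))) =
      s.map (iota l : ZMod m → ZMod (l * m)) := rfl
  have hsl : IsHodge (l * m) (s.map (iota l : ZMod m → ZMod (l * m))) := hs.iota rfl
  set C : ZMod m → _ := fun b : ZMod m => cQ (l * m) (FourBase (l * m)) (iota l b) with hC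
  have hodd : OddDist C := cQ_oddDist.comp_iota rfl
  have hb' : ∀ u, SurfaceOrCurveProduct m u → (u.map C).sum = 0 := by
    intro u hu
    have h1 : FourBase (l * m) (u.map (iota l : ZMod m → ZMod (l * m))) := by
      rcases hu with hu | hu
      · left; left
        exact ⟨hu.1.iota rfl, by rw [Multiset.card_map]; exact hu.2⟩
      · left; right
        exact hu.lift rfl
    have h3 := cQ_sum_eq_zero (Generated.ofBase (m := l * m) (base := FourBase (l * m)) _ h1)
    rw [Multiset.map_map] at h3
    exact h3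
  have hb : ∀ u, Base110 m u → (u.map C).sum = 0 := by
    rintro u (hu | ⟨l0, t, hl0', ht, rfl⟩)
    · exact hb' u hu
    · have hlev : l0 * (l * 110) = l * m := by rw [← hl0']; ring
      have hH := hodge110 t ht
      have h2 := hgen _ hH (by
        intro h
        have h3 := congrArg Multiset.card h
        rw [Multiset.card_map, Multiset.card_zero] at h3
        revert h3
        decide)
      have h4 := gen_sum_zero ((cQ_oddDist (m := l * m) (base := FourBase (l * m))).comp_iota hlev) (by
        intro u hu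
        have h3 := cQ_sum_eq_zero (Generated.ofBase (m := l * m) (base := FourBase (l * m))
          (u.map (iota l0)) (FourBase.lift hlev hu))
        rw [Multiset.map_map] at h3
        exact h3) h2
      rw [Multiset.map_map, Multiset.map_map] at h4
      rw [← h4, Multiset.map_map]
      congr 1
      apply Multiset.map_congr rfl
      intro a _
      simp only [Function.comp_apply, hC]
      have e1 : (((l * (((t * a : ℕ) : ZMod 110)).val : ℕ)) : ZMod (l * 110)) =
          iota l (((t * a : ℕ)) : ZMod 110) := rfl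
      rw [e1, iota_natCast rfl, iota_natCast rfl, iota_natCast hlev]
      congr 2
      ring
  have h1 := six_zero4 m hm heven (s.map ZMod.val) (by rwa [Multiset.card_map])
    (fun t ht => saw_rel s hs t ht) _ C hodd (killsC_of hm hodd hb')
    (kills420_of hm hodd hb') (kills110_of hm hodd hb)
  rw [Multiset.map_map] at h1
  have h4 : ((s.map (iota l : ZMod m → ZMod (l * m))).map
      (cQ (l * m) (FourBase (l * m)))).sum = 0 := by
    rw [Multiset.map_map, ← h1]
    congr 1
    apply Multiset.map_congr rfl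
    intro a _
    simp only [Function.comp_apply, hC]
    rw [ZMod.natCast_zmod_val]
  rw [cQ_sum, QuotientAddGroup.eq_zero_iff] at h4
  rw [hiota]
  refine generated_of_mem_LL ?_ ?_ hsl.1 hsl.2.1 ?_ h4
  · rintro s (hs | hs)
    · exact Pool.Agent.Y2.Cv.base_good s hs
    · exact ⟨hs.1.1, hs.1.2.1⟩
  · rintro s (hs | hs)
    · exact Or.inl (Pool.Agent.Y2.Cv.base_neg s hs)
    · exact Or.inr hs.neg
  · intro h5
    exact hne (Multiset.map_eq_zero.mp h5)

/-- **Hodge characters with at most six entries of any degree, with at most fourteen entries of odd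
degree.** -/
theorem main_all {m : ℕ} (hm : m ≠ 0) :
    ∃ L : ℕ, ∃ _ : NeZero (L * m), ∀ s : Multiset (ZMod m), IsHodge m s → s ≠ 0 →
      (Multiset.card s ≤ 6 ∨ (Odd m ∧ Multiset.card s ≤ 14)) →
      Generated (L * m) (FourBase (L * m)) (s.map fun a => ((L * a.val : ℕ) : ZMod (L * m))) := by
  rcases Nat.even_or_odd m with h | h
  · obtain ⟨L, hL, h2⟩ := main_six_even hm (Nat.even_iff.mp h)
    refine ⟨L, hL, fun s hs hne hc => h2 s hs ?_ hne⟩
    rcases hc with hc | hc
    · exact hc
    · exact absurd h (Nat.not_even_iff_odd.mpr hc.1)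
  · obtain ⟨L, hL, h2⟩ := main_fourteen (Nat.odd_iff.mp h)
    refine ⟨L, hL, fun s hs hne hc => h2 s hs ?_ hne⟩
    rcases hc with hc | hc
    · omega
    · exact hc.2

end Pool.Agent.U270.FT14
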