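import Pool.Agent.U270.FT14.Two8
import Pool.Agent.U270.FT14.Six

/-!
# Hodge characters with at most eight entries of the degrees not divisible by 420
-/

set_option autoImplicit false

namespace Pool.Agent.U270.FT14

open Finset Pool.Agent.H916R2 Pool.Agent.N992 Pool.Agent.N993 Pool.Agent.Y2 Pool.Agent.U270.SX

lemma killsR_three {m L : ℕ} [NeZero m] [NeZero (L * m)]
    (hL : ∀ e : ℕ, ∀ _ : NeZero e, e ∣ m → ThreePrimes e → ∃ l k : ℕ, k * l = L ∧
      ∃ _ : NeZero (l * e), ∀ s : Multiset (ZMod e), IsHodge e s → s ≠ 0 →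
        Generated (l * e) (FourBase (l * e)) (s.map (iota l : ZMod e → ZMod (l * e)))) :
    KillsR ThreePrimes m (fun b : ZMod m => cQ (L * m) (FourBase (L * m)) (iota L b)) := by
  classical
  intro l0 e hle hg A hrel
  have he0 : e ≠ 0 := by
    rintro rfl
    exact NeZero.ne m (by rw [← hle, mul_zero])
  have hNe : NeZero e := ⟨he0⟩
  obtain ⟨l, k, hkl, hNle, hgen⟩ := hL e hNe (Dvd.intro_left l0 hle) hg
  set s : Multiset (ZMod e) := A.map fun a : ℕ => (a : ZMod e) with hs
  have hx : Rel (fun a : ZMod e => ((s.count a : ℕ) : ℤ)) := by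
    intro t
    have h := sum_count s (fun a => saw ((t : ZMod e) * a))
    have h1 : (s.map fun a => saw ((t : ZMod e) * a)).sum = 0 := by
      have h2 := hrel (t : ZMod e).val (ZMod.val_coe_unit_coprime t)
      unfold SW at h2
      rw [hs, Multiset.map_map, ← h2]
      congr 1
      apply Multiset.map_congr rfl
      intro a _
      simp only [Function.comp_apply]
      push_cast
      rw [ZMod.natCast_zmod_val]
    rw [h1] at h
    simpa using h
  obtain ⟨u, hu, h1⟩ := exists_hodge _ hx
  have hodd : OddDist (fun b : ZMod e =>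
      cQ (L * m) (FourBase (L * m)) (iota L (iota l0 b : ZMod m))) :=
    (cQ_oddDist.comp_iota rfl).comp_iota hle
  have h2 := h1 _ _ hodd
  rw [sum_count s (fun b : ZMod e =>
      cQ (L * m) (FourBase (L * m)) (iota L (iota l0 b : ZMod m))), hs, Multiset.map_map] at h2
  have h3 : (A.map fun a : ℕ => cQ (L * m) (FourBase (L * m))
      (iota L ((l0 * a : ℕ) : ZMod m))).sum =
      (u.map fun b : ZMod e =>
        cQ (L * m) (FourBase (L * m)) (iota L (iota l0 b : ZMod m))).sum := by
    rw [← h2]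
    congr 1
    apply Multiset.map_congr rfl
    intro a _
    simp only [Function.comp_apply]
    rw [iota_natCast hle]
  rw [h3]
  by_cases hu0 : u = 0
  · rw [hu0]; simp
  have hg2 := hgen u hu hu0
  have hlev : (k * l0) * (l * e) = L * m := by rw [← hkl, ← hle]; ring
  have h4 := gen_sum_zero ((cQ_oddDist (m := L * m) (base := FourBase (L * m))).comp_iota hlev) (by
    intro u hu
    have h3 := cQ_sum_eq_zero (Generated.ofBase (m := L * m) (base := FourBase (L * m))
      (u.map (iota (k * l0))) (FourBase.lift hlev hu))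
    rw [Multiset.map_map] at h3
    exact h3) hg2
  rw [Multiset.map_map] at h4
  rw [← h4]
  congr 1
  apply Multiset.map_congr rfl
  intro b _
  simp only [Function.comp_apply]
  have e1 : (iota L (iota l0 b : ZMod m) : ZMod (L * m)) = iota (L * l0) b := iota_comp rfl b
  have e2 : (iota (k * l0) (iota l b : ZMod (l * e)) : ZMod (L * m)) = iota (k * l0 * l) b :=
    iota_comp hlev b
  rw [e1, e2]
  congr 2
  rw [← hkl]; ring

/-- **Hodge characters with at most eight entries of even degree not divisible by 420.** -/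
theorem main_eight_even {m : ℕ} (hm : m ≠ 0) (heven : m % 2 = 0) (h420 : ¬ 420 ∣ m) :
    ∃ L : ℕ, ∃ _ : NeZero (L * m), ∀ s : Multiset (ZMod m), IsHodge m s →
      Multiset.card s ≤ 8 → s ≠ 0 →
      Generated (L * m) (FourBase (L * m)) (s.map fun a => ((L * a.val : ℕ) : ZMod (L * m))) := by
  classical
  have hN : NeZero m := ⟨hm⟩
  -- the multipliers
  have hex : ∀ e : ℕ, ∃ l : ℕ, l ≠ 0 ∧ ∀ _ : NeZero e, ThreePrimes e →
      ∃ _ : NeZero (l * e), ∀ s : Multiset (ZMod e), IsHodge e s → s ≠ 0 →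
        Generated (l * e) (FourBase (l * e)) (s.map (iota l : ZMod e → ZMod (l * e))) := by
    intro e
    by_cases he : e ≠ 0 ∧ ThreePrimes e
    · have hNe : NeZero e := ⟨he.1⟩
      obtain ⟨l, hl, h⟩ := main3 e he.2
      refine ⟨l, ?_, fun _ _ => ⟨hl, h⟩⟩
      rintro rfl
      rw [zero_mul] at hl
      exact hl.out rfl
    · exact ⟨1, one_ne_zero, fun hNe h3 => absurd ⟨hNe.out, h3⟩ he⟩
  choose lf hlf0 hlf using hex
  set L : ℕ := ∏ e ∈ m.divisors, lf e with hL
  have hL0 : L ≠ 0 := prod_ne_zero_iff.mpr fun e _ => hlf0 e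
  have hNL : NeZero (L * m) := ⟨Nat.mul_ne_zero hL0 hm⟩
  have hK := killsR_three (m := m) (L := L) (by
    intro e hNe hem h3
    obtain ⟨k, hk⟩ : lf e ∣ L := dvd_prod_of_mem lf (Nat.mem_divisors.mpr ⟨hem, hm⟩)
    exact ⟨lf e, k, by rw [hk]; ring, hlf e hNe h3⟩)
  refine ⟨L, hNL, fun s hs hcard hne => ?_⟩
  have hiota : (s.map fun a => ((L * a.val : ℕ) : ZMod (L * m))) =
      s.map (iota L : ZMod m → ZMod (L * m)) := rfl
  have hsl : IsHodge (L * m) (s.map (iota L : ZMod m → ZMod (L * m))) := hs.iota rfl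
  have h1 := eight_all hm heven h420 (s.map ZMod.val) (by rwa [Multiset.card_map])
    (fun t ht => saw_rel s hs t ht) _
    (fun b : ZMod m => cQ (L * m) (FourBase (L * m)) (iota L b))
    (cQ_oddDist.comp_iota rfl) hK
  rw [Multiset.map_map] at h1
  have h4 : ((s.map (iota L : ZMod m → ZMod (L * m))).map
      (cQ (L * m) (FourBase (L * m)))).sum = 0 := by
    rw [Multiset.map_map, ← h1]
    congr 1
    apply Multiset.map_congr rfl
    intro a _
    simp only [Function.comp_apply]
    rw [ZMod.natCast_zmod_val]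
  rw [cQ_sum, QuotientAddGroup.eq_zero_iff] at h4
  rw [hiota]
  refine generated_of_mem_LL ?_ ?_ hsl.1 hsl.2.1 ?_ h4
  · rintro s (hs | hs)
    · exact Pool.Agent.Y2.Cv.base_good s hs
    · exact ⟨hs.1.1, hs.1.2.1⟩
  · rintro s (hs | hs)
    · exact Or.inl (Pool.Agent.Y2.Cv.base_neg s hs)
    · exact Or.inr hs.neg
  · intro h5
    exact hne (Multiset.map_eq_zero.mp h5)

/-- **Hodge characters with at most six entries of any degree, with at most eight entries of any degree
not divisible by 420, and with at most fourteen entries of any odd degree.** -/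
theorem main_all8 {m : ℕ} (hm : m ≠ 0) :
    ∃ L : ℕ, ∃ _ : NeZero (L * m), ∀ s : Multiset (ZMod m), IsHodge m s → s ≠ 0 →
      (Multiset.card s ≤ 6 ∨ (¬ 420 ∣ m ∧ Multiset.card s ≤ 8) ∨
        (Odd m ∧ Multiset.card s ≤ 14)) →
      Generated (L * m) (FourBase (L * m)) (s.map fun a => ((L * a.val : ℕ) : ZMod (L * m))) := by
  rcases Nat.even_or_odd m with h | h
  · have hno : ¬ Odd m := Nat.not_odd_iff_even.mpr h
    by_cases h420 : 420 ∣ m
    · obtain ⟨L, hL, h2⟩ := main_six_even hm (Nat.even_iff.mp h)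
      refine ⟨L, hL, fun s hs hne hc => h2 s hs ?_ hne⟩
      rcases hc with hc | hc | hc
      · exact hc
      · exact absurd h420 hc.1
      · exact absurd hc.1 hno
    · obtain ⟨L, hL, h2⟩ := main_eight_even hm (Nat.even_iff.mp h) h420
      refine ⟨L, hL, fun s hs hne hc => h2 s hs ?_ hne⟩
      rcases hc with hc | hc | hc
      · omega
      · exact hc.2
      · exact absurd hc.1 hno
  · obtain ⟨L, hL, h2⟩ := main_fourteen (Nat.odd_iff.mp h)
    refine ⟨L, hL, fun s hs hne hc => h2 s hs ?_ hne⟩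
    rcases hc with hc | hc | hc
    · omega
    · omega
    · exact hc.2

end Pool.Agent.U270.FT14
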