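import Pool.Agent.U270.FT14.Count3

/-!
# Avoiding a short relation with two primes and one more prime, the count
-/

set_option autoImplicit false

namespace Pool.Agent.U270.FT14

open Finset Pool.Agent.H916R2

lemma param_eq' {m m0 : ℕ} [NeZero m] {S : Finset ℕ} (hS : ∀ p ∈ S, p.Prime)
    (hm0 : ∏ p ∈ S, p = m0) (h : m0 ∣ m) {v1 v2 : (ZMod m)ˣ}
    (hv : ∀ p ∈ S, (p : ℤ) ∣ (UU v1 : ℤ) - UU v2) :
    ZMod.unitsMap h v1 = ZMod.unitsMap h v2 := by
  have h1 : ((m0 : ℕ) : ℤ) ∣ (UU v1 : ℤ) - UU v2 := by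
    rw [← hm0]
    push_cast
    apply Finset.prod_dvd_of_coprime _ hv
    intro a ha b hb hab
    exact Nat.isCoprime_iff_coprime.mpr ((Nat.coprime_primes (hS a ha) (hS b hb)).mpr hab)
  have h2 : ((UU v1 : ℕ) : ZMod m0) = ((UU v2 : ℕ) : ZMod m0) := by
    have h3 := (ZMod.intCast_zmod_eq_zero_iff_dvd ((UU v1 : ℤ) - UU v2) m0).mpr h1
    push_cast at h3
    exact sub_eq_zero.mp h3
  apply Units.ext
  unfold UU at h2
  rw [ZMod.unitsMap_val, ZMod.unitsMap_val, ← ZMod.natCast_val, ← ZMod.natCast_val]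
  exact h2

lemma sum_card_filter {V : Type} [Fintype V] (A : Multiset ℕ) (P : V → ℕ → Prop)
    [∀ v, DecidablePred (P v)] :
    ∑ v, Multiset.card (A.filter (P v)) =
      (A.map fun a => (univ.filter fun v => P v a).card).sum := by
  induction A using Multiset.induction_on with
  | empty => simp
  | cons a A ih =>
    rw [Multiset.map_cons, Multiset.sum_cons, ← ih, Finset.card_filter, ← Finset.sum_add_distrib]
    refine Finset.sum_congr rfl fun v _ => ?_
    by_cases h : P v a
    · rw [Multiset.filter_cons_of_pos _ h, Multiset.card_cons, if_pos h, add_comm]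
    · rw [Multiset.filter_cons_of_neg _ h, if_neg h, zero_add]

theorem avoid3 {m r p q : ℕ} [NeZero m] (hr : r.Prime) (hp : p.Prime) (hq : q.Prime)
    (hrp : r ≠ p) (hrq : r ≠ q) (hpq : p ≠ q) (hrm : r ∣ m) (hpm : p ∣ m) (hqm : q ∣ m)
    (hpr : ∀ l, l.Prime → l ∣ m → l = r ∨ l = p ∨ l = q) (hodd : m % 2 = 1)
    (A : Multiset ℕ) {K : ℕ} (hA : Multiset.card A ≤ K) (hK : 4 * K < (p - 1) * (q - 1))
    (hev : ∀ u : ℕ, Nat.Coprime u m → (A.map (II m [r, p, q] u)).sum = 0) :
    ∃ u : ℕ, Nat.Coprime u m ∧ (A.map (DD m [p, q] r u)).sum = 0 := by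
  classical
  by_contra hcon
  push Not at hcon
  have hodd' : ∀ l, l ∣ m → l % 2 = 1 := by
    rintro l ⟨z, hz⟩
    by_contra h
    have h1 : l = 2 * (l / 2) := by omega
    rw [h1, mul_assoc] at hz
    omega
  have hr2 := hodd' r hrm
  have hp2 := hodd' p hpm
  have hq2 := hodd' q hqm
  have hr3 : 3 ≤ r := by
    have := hr.two_le
    omega
  have hUc : ∀ v : (ZMod m)ˣ, Nat.Coprime (UU v) m := fun v => ZMod.val_coe_unit_coprime v
  obtain ⟨k1, k2, hk1, hk2, ⟨a1, a2, a3⟩, ⟨b1, b2, b3⟩⟩ :=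
    exists_tau (m := m) hr hp hq hrp hrq hpq hrm hpm hqm hpr
  set τ1 : (ZMod m)ˣ := ZMod.unitOfCoprime k1 hk1 with hτ1
  set τ2 : (ZMod m)ˣ := ZMod.unitOfCoprime k2 hk2 with hτ2
  have hsplit : ∀ (v : (ZMod m)ˣ) (x : ℕ), DD m [p, q] r (UU v) x =
      zr m r x * II m [p, q] (UU v) x + (PA m r p q (UU (τ1 * v)) x +
        PC m r p q (UU (τ2 * v)) x + PB m r p q (UU v) x) := by
    intro v x
    rw [DD_split]
    unfold PA PC
    obtain ⟨e1, e2⟩ := dl_tau hk1 a1 v x
    obtain ⟨e3, e4⟩ := dl_tau hk1 a2 v x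
    obtain ⟨e5, e6⟩ := dl_tau hk1 a3 v x
    obtain ⟨f1, f2⟩ := dl_tau hk2 b1 v x
    obtain ⟨f3, f4⟩ := dl_tau hk2 b2 v x
    obtain ⟨f5, f6⟩ := dl_tau hk2 b3 v x
    rw [e1, e2, e3, e4, e5, e6, f1, f2, f3, f4, f5, f6]
    simp only [Nat.cast_one, one_mul]
  let z : (ZMod m)ˣ → ZMod 2 := fun v => (A.map fun x => zr m r x * II m [p, q] (UU v) x).sum
  let α : (ZMod m)ˣ → ZMod 2 := fun v => (A.map (PA m r p q (UU v))).sum
  let β : (ZMod m)ˣ → ZMod 2 := fun v => (A.map (PB m r p q (UU v))).sum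
  let γ : (ZMod m)ˣ → ZMod 2 := fun v => (A.map (PC m r p q (UU v))).sum
  have hsum : ∀ v, (A.map (DD m [p, q] r (UU v))).sum = z v + (α (τ1 * v) + γ (τ2 * v) + β v) := by
    intro v
    change _ = (A.map _).sum + ((A.map _).sum + (A.map _).sum + (A.map _).sum)
    rw [← Multiset.sum_map_add, ← Multiset.sum_map_add, ← Multiset.sum_map_add]
    congr 1
    apply Multiset.map_congr rfl
    intro x _
    exact hsplit v x
  have h0 : ∀ v, α v + β v + γ v = 0 := by
    intro v
    change (A.map _).sum + (A.map _).sum + (A.map _).sum = 0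
    rw [← Multiset.sum_map_add, ← Multiset.sum_map_add]
    apply Multiset.sum_eq_zero
    intro y hy
    obtain ⟨x, _, rfl⟩ := Multiset.mem_map.mp hy
    exact P_sum _ _
  let I : ZMod 2 → ℕ := fun y => if y ≠ 0 then 1 else 0
  have hI : ∀ a b c d : ZMod 2, a + (b + c + d) ≠ 0 → 1 ≤ I a + (I b + I c + I d) := by
    decide
  have hI2 : ∀ a b c : ZMod 2, a + b + c = 0 → I a + I c + I b ≤ 2 := by
    decide
  have h1 : ∀ v, 1 ≤ I (z v) + (I (α (τ1 * v)) + I (γ (τ2 * v)) + I (β v)) := fun v =>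
    hI _ _ _ _ (by rw [← hsum v]; exact hcon _ (hUc v))
  have h2 : Fintype.card (ZMod m)ˣ ≤ ∑ v, (I (z v) + (I (α v) + I (γ v) + I (β v))) := by
    have e1 : Fintype.card (ZMod m)ˣ = ∑ _v : (ZMod m)ˣ, 1 := by simp
    rw [e1]
    refine (Finset.sum_le_sum fun v _ => h1 v).trans (le_of_eq ?_)
    simp only [Finset.sum_add_distrib]
    have e2 := Equiv.sum_comp (Equiv.mulLeft τ1) (fun v => I (α v))
    have e3 := Equiv.sum_comp (Equiv.mulLeft τ2) (fun v => I (γ v))
    simp only [Equiv.coe_mulLeft] at e2 e3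
    rw [e2, e3]
  have h3 : ∀ v, I (z v) ≤
      Multiset.card (A.filter fun a => zr m r a * II m [p, q] (UU v) a ≠ 0) := by
    intro v
    exact sum_ne_filter A _ (fun a => zr m r a * II m [p, q] (UU v) a ≠ 0)
      (fun a _ h => not_not.mp h)
  have h4 : ∀ v, I (α v) + I (γ v) + I (β v) ≤
      Multiset.card (A.filter fun a => II m [r, p, q] (UU v) a ≠ 0) := by
    intro v
    have c1 : I (α v) ≤ Multiset.card (A.filter fun a => II m [r, p, q] (UU v) a ≠ 0) :=
      sum_ne_filter A _ (fun a => II m [r, p, q] (UU v) a ≠ 0)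
        (fun a _ h => (P_supp hr2 hp2 hq2 (not_not.mp h)).1)
    have c2 : I (β v) ≤ Multiset.card (A.filter fun a => II m [r, p, q] (UU v) a ≠ 0) :=
      sum_ne_filter A _ (fun a => II m [r, p, q] (UU v) a ≠ 0)
        (fun a _ h => (P_supp hr2 hp2 hq2 (not_not.mp h)).2.1)
    have c3 : I (γ v) ≤ Multiset.card (A.filter fun a => II m [r, p, q] (UU v) a ≠ 0) :=
      sum_ne_filter A _ (fun a => II m [r, p, q] (UU v) a ≠ 0)
        (fun a _ h => (P_supp hr2 hp2 hq2 (not_not.mp h)).2.2)
    have c4 := hI2 _ _ _ (h0 v)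
    have c5 := even_filter A (II m [r, p, q] (UU v)) (hev _ (hUc v))
    omega
  -- the fibres
  let S : Finset ℕ := {r, p, q}
  have hSp : ∀ l ∈ S, l.Prime := by
    intro l hl
    simp only [S, mem_insert, mem_singleton] at hl
    rcases hl with h | h | h <;> rw [h] <;> assumption
  have hm0m : ∏ l ∈ S, l ∣ m := by
    refine Finset.prod_primes_dvd m (fun l hl => Nat.Prime.prime (hSp l hl)) ?_
    intro l hl
    simp only [S, mem_insert, mem_singleton] at hl
    rcases hl with h | h | h <;> rw [h] <;> assumption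
  have hN0 : NeZero (∏ l ∈ S, l) := ⟨fun h => NeZero.ne m (Nat.eq_zero_of_zero_dvd (h ▸ hm0m))⟩
  obtain ⟨n0, hn0, hV⟩ := fibres hm0m
  have hcard0 : Fintype.card (ZMod (∏ l ∈ S, l))ˣ = (r - 1) * ((p - 1) * (q - 1)) := by
    rw [card_param hSp rfl]
    have e1 : r ∉ ({p, q} : Finset ℕ) := by
      simp only [mem_insert, mem_singleton, not_or]; exact ⟨hrp, hrq⟩
    have e2 : p ∉ ({q} : Finset ℕ) := by
      simp only [mem_singleton]; exact hpq
    rw [prod_insert e1, prod_insert e2, prod_singleton]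
  have hinS : ∀ l, l = r ∨ l = p ∨ l = q → l ∈ S := by
    intro l hl
    simp only [S, mem_insert, mem_singleton]
    exact hl
  have hall : ∀ v1 v2 : (ZMod m)ˣ, (r : ℤ) ∣ (UU v1 : ℤ) - UU v2 → (p : ℤ) ∣ (UU v1 : ℤ) - UU v2 →
      (q : ℤ) ∣ (UU v1 : ℤ) - UU v2 → ZMod.unitsMap hm0m v1 = ZMod.unitsMap hm0m v2 := by
    intro v1 v2 g1 g2 g3
    apply param_eq' hSp rfl
    intro l hl
    simp only [S, mem_insert, mem_singleton] at hl
    rcases hl with h | h | h <;> rw [h] <;> assumption
  -- the bounds for one entry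
  have h5 : ∀ a : ℕ, (univ.filter fun v : (ZMod m)ˣ => zr m r a * II m [p, q] (UU v) a ≠ 0).card +
      (univ.filter fun v : (ZMod m)ˣ => II m [r, p, q] (UU v) a ≠ 0).card ≤
      4 * (r - 1) * n0 := by
    intro a
    by_cases hR : pp m r ∣ a
    · have e1 : (univ.filter fun v : (ZMod m)ˣ => II m [r, p, q] (UU v) a ≠ 0) = ∅ := by
        apply Finset.filter_false_of_mem
        intro v _
        rw [not_not, II_three, dl_of_dvd hR, dl_of_dvd hR, add_zero, zero_mul]
      rw [e1, card_empty, add_zero]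
      have h6 := card_bad' hm0m hn0
        (univ.filter fun v : (ZMod m)ˣ => zr m r a * II m [p, q] (UU v) a ≠ 0)
        (CI 2 ×ˢ (range r).erase 0)
        (fun v c => Hit m (UU v) a [p, q] c.1 ∧ (UU v) % r = c.2)
        (fun v hv => by
          have h7 : II m [p, q] (UU v) a ≠ 0 := fun h => (mem_filter.mp hv).2 (by rw [h, mul_zero])
          obtain ⟨κ, hκ, hH⟩ := II_ne (L := [p, q]) (by
            intro l hl
            simp only [List.mem_cons, List.not_mem_nil, or_false] at hl
            rcases hl with h | h <;> rw [h] <;> assumption) h7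
          refine ⟨(κ, (UU v) % r), mem_product.mpr ⟨hκ, mem_erase.mpr ⟨?_,
            mem_range.mpr (Nat.mod_lt _ hr.pos)⟩⟩, hH, rfl⟩
          intro h8
          have h9 : r ∣ UU v := Nat.dvd_of_mod_eq_zero h8
          have h10 := Nat.dvd_gcd h9 hrm
          rw [hUc v] at h10
          exact hr.one_lt.ne' (Nat.dvd_one.mp h10))
        (fun v1 v2 c hv1 hv2 => by
          have h7 := det_all (L := [p, q]) (by
            intro l hl
            simp only [List.mem_cons, List.not_mem_nil, or_false] at hl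
            rcases hl with h | h <;> rw [h] <;> assumption) hv1.1 hv2.1
          refine hall v1 v2 ?_ (h7 p List.mem_cons_self)
            (h7 q (List.mem_cons_of_mem _ List.mem_cons_self))
          have h8 : (UU v2) ≡ (UU v1) [MOD r] := hv2.2.trans hv1.2.symm
          exact Nat.modEq_iff_dvd.mp h8)
      have h7 := card_CI 2
      rw [card_product, card_erase_of_mem (mem_range.mpr hr.pos), card_range] at h6
      refine h6.trans (Nat.mul_le_mul_right _ (Nat.mul_le_mul_right _ ?_))
      omega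
    · have e1 : (univ.filter fun v : (ZMod m)ˣ => zr m r a * II m [p, q] (UU v) a ≠ 0) = ∅ := by
        apply Finset.filter_false_of_mem
        intro v _
        have e2 : zr m r a = 0 := if_neg hR
        rw [not_not, e2, zero_mul]
      rw [e1, card_empty, zero_add]
      have hL : ∀ l ∈ [r, p, q], l.Prime := by
        intro l hl
        simp only [List.mem_cons, List.not_mem_nil, or_false] at hl
        rcases hl with h | h | h <;> rw [h] <;> assumption
      have h6 := card_bad' hm0m hn0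
        (univ.filter fun v : (ZMod m)ˣ => II m [r, p, q] (UU v) a ≠ 0)
        (CI 3) (fun v c => Hit m (UU v) a [r, p, q] c)
        (fun v hv => II_ne hL (mem_filter.mp hv).2)
        (fun v1 v2 c hv1 hv2 => by
          have h7 := det_all hL hv1 hv2
          exact hall v1 v2 (h7 r List.mem_cons_self)
            (h7 p (List.mem_cons_of_mem _ List.mem_cons_self))
            (h7 q (List.mem_cons_of_mem _ (List.mem_cons_of_mem _ List.mem_cons_self))))
      have h7 := card_CI 3
      refine h6.trans (Nat.mul_le_mul_right _ ?_)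
      have : 2 ≤ r - 1 := by omega
      omega
  have h6 : ∑ v, (I (z v) + (I (α v) + I (γ v) + I (β v))) ≤ K * (4 * (r - 1) * n0) := by
    calc ∑ v, (I (z v) + (I (α v) + I (γ v) + I (β v))) ≤
        ∑ v, (Multiset.card (A.filter fun a => zr m r a * II m [p, q] (UU v) a ≠ 0) +
          Multiset.card (A.filter fun a => II m [r, p, q] (UU v) a ≠ 0)) :=
          Finset.sum_le_sum fun v _ => Nat.add_le_add (h3 v) (h4 v)
      _ = (A.map fun a => (univ.filter fun v : (ZMod m)ˣ =>
            zr m r a * II m [p, q] (UU v) a ≠ 0).card +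
          (univ.filter fun v : (ZMod m)ˣ => II m [r, p, q] (UU v) a ≠ 0).card).sum := by
          rw [Finset.sum_add_distrib, Multiset.sum_map_add,
            sum_card_filter A (fun v a => zr m r a * II m [p, q] (UU v) a ≠ 0),
            sum_card_filter A (fun v a => II m [r, p, q] (UU v) a ≠ 0)]
      _ ≤ Multiset.card (A.map fun a => (univ.filter fun v : (ZMod m)ˣ =>
            zr m r a * II m [p, q] (UU v) a ≠ 0).card +
          (univ.filter fun v : (ZMod m)ˣ => II m [r, p, q] (UU v) a ≠ 0).card) •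
            (4 * (r - 1) * n0) := by
          apply Multiset.sum_le_card_nsmul
          intro x hx
          obtain ⟨a, _, rfl⟩ := Multiset.mem_map.mp hx
          exact h5 a
      _ ≤ K * (4 * (r - 1) * n0) := by
          rw [Multiset.card_map, smul_eq_mul]
          exact Nat.mul_le_mul_right _ hA
  have h7 := h2.trans h6
  rw [hV, hcard0] at h7
  have hn0p : 0 < n0 := by
    rcases Nat.eq_zero_or_pos n0 with h | h
    · rw [h, mul_zero] at hV
      have : 0 < Fintype.card (ZMod m)ˣ := Fintype.card_pos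
      omega
    · exact h
  have e : K * (4 * (r - 1) * n0) = (r - 1) * (4 * K) * n0 := by ring
  rw [e] at h7
  have h8 := Nat.le_of_mul_le_mul_right h7 hn0p
  have h9 := Nat.le_of_mul_le_mul_left h8 (by omega : 0 < r - 1)
  omega

end Pool.Agent.U270.FT14
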