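import Pool.Agent.U270.SX.Fine

/-!
# The residue does not have order nine
-/

set_option autoImplicit false

namespace Pool.Agent.U270.FT14

open Finset Pool.Agent.H916R2 Pool.Agent.Y2 Pool.Agent.U270.SX

/-- **The order of the residue is not nine.** -/
theorem fine_nine {q d m : ℕ} {A1 A2 : Multiset ℕ} (H : Setting q d m A1 A2) (hnd : ¬ q ∣ d)
    {h : ℕ} (hh : 2 * h = q - 1) {c : ℕ} (hc3 : ¬ d ∣ 3 * c) (hrc : d ∣ 9 * c)
    (hS : ∀ z, Nat.Coprime z d → SW d A1 z = h * sv d (z * c)) : False := by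
  have hq := H.hq
  have hqd := H.hqd
  have hm := H.hm
  have hd := H.hd
  have hqdm : q ∣ m := Dvd.intro _ hqd
  have hdm : d ∣ m := Dvd.intro_left _ hqd
  have hqcop : Nat.Coprime q d := (Nat.Prime.coprime_iff_not_dvd hq).mpr hnd
  have hr : Nat.Prime 3 := Nat.prime_three
  have hc : ¬ d ∣ c := fun h => hc3 (h.mul_left 3)
  have h9d : 9 ∣ d := by
    by_contra h1
    apply hc3
    by_cases h3 : 3 ∣ d
    · obtain ⟨d1, hd1⟩ := h3
      have h2 : ¬ 3 ∣ d1 := by
        rintro ⟨w, hw⟩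
        exact h1 ⟨w, by rw [hd1, hw]; ring⟩
      have h4 : d1 ∣ 3 * c := by
        have h5 : 3 * d1 ∣ 3 * (3 * c) := by
          rw [← hd1]; convert hrc using 1; ring
        exact Nat.dvd_of_mul_dvd_mul_left (by norm_num) h5
      have h5 : d1 ∣ c := by
        have h6 : Nat.Coprime d1 3 := by
          rw [Nat.coprime_comm, Nat.Prime.coprime_iff_not_dvd hr]; exact h2
        exact h6.dvd_of_dvd_mul_left h4
      rw [hd1]
      exact Nat.mul_dvd_mul_left 3 h5
    · have h6 : Nat.Coprime d 9 := by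
        rw [show 9 = 3 ^ 2 by norm_num]
        apply Nat.Coprime.pow_right
        rw [Nat.coprime_comm, Nat.Prime.coprime_iff_not_dvd hr]; exact h3
      exact (h6.dvd_of_dvd_mul_left hrc).mul_left 3
  have h3d : 3 ∣ d := dvd_trans (by norm_num) h9d
  have hrq : 3 ≠ q := by rintro rfl; exact hnd h3d
  have hrm : 3 ∣ m := h3d.trans hdm
  obtain ⟨f, hf⟩ : ∃ f, m.factorization 3 = f + 2 :=
    ⟨m.factorization 3 - 2, by
      have h1 : 3 ^ 2 ∣ m := (show 3 ^ 2 ∣ d by norm_num; exact h9d).trans hdm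
      have := (hr.pow_dvd_iff_le_factorization hm).mp h1
      omega⟩
  have hrPO : 3 ∈ PO q m := by
    rw [PO, Finset.mem_erase, Nat.mem_primeFactors]
    exact ⟨hrq, hr, hrm, hm⟩
  have hrf : 3 ^ (f + 2) ∣ d := by rw [← hf]; exact pow_dvd_d hq hqd hrPO
  obtain ⟨d', hd'⟩ := hrf
  have hrd' : ¬ 3 ∣ d' := by
    rintro ⟨w, hw⟩
    have h1 : 3 ^ (f + 3) ∣ m := by
      refine Dvd.dvd.trans ?_ hdm
      rw [hd', hw]
      exact ⟨w, by ring⟩
    have h2 := (hr.pow_dvd_iff_le_factorization hm).mp h1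
    omega
  obtain ⟨k, hk⟩ := hrc
  have hck : c = 3 ^ f * (d' * k) := by
    have h1 : 9 * c = 9 * (3 ^ f * (d' * k)) := by
      rw [hk, hd', pow_succ, pow_succ]; ring
    exact Nat.eq_of_mul_eq_mul_left (by norm_num) h1
  have hrk : ¬ 3 ∣ k := by
    rintro ⟨w, hw⟩
    apply hc3
    rw [hck, hd', hw]
    exact ⟨w, by rw [pow_succ, pow_succ]; ring⟩
  have hcop : Nat.Coprime (d' * k) 9 := by
    rw [show 9 = 3 ^ 2 by norm_num]
    apply Nat.Coprime.pow_right
    rw [Nat.coprime_comm, Nat.Prime.coprime_iff_not_dvd hr]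
    intro h1
    rcases (Nat.Prime.dvd_mul hr).mp h1 with h1 | h1
    · exact hrd' h1
    · exact hrk h1
  obtain ⟨w, _, hw⟩ := Nat.exists_mul_mod_eq_of_coprime 4 hcop (by norm_num)
  have hw2 : (d' * k) * w ≡ 4 [MOD 9] := hw
  have hwr : Nat.Coprime w 9 := by
    rw [show 9 = 3 ^ 2 by norm_num]
    apply Nat.Coprime.pow_right
    rw [Nat.coprime_comm, Nat.Prime.coprime_iff_not_dvd hr]
    intro h1
    have h2 : 3 ∣ 4 := ((hw2.of_dvd (by norm_num : 3 ∣ 9)).dvd_iff dvd_rfl).mp (h1.mul_left _)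
    omega
  have h9m : 9 ∣ m := h9d.trans hdm
  obtain ⟨z, hz, hzw⟩ := lift_coprime h9m hm hwr
  -- the new residue
  let x := (Nat.chineseRemainder hqcop 1 (z * c) : ℕ)
  have hxq : x ≡ 1 [MOD q] := (Nat.chineseRemainder hqcop 1 (z * c)).2.1
  have hxd : x ≡ z * c [MOD d] := (Nat.chineseRemainder hqcop 1 (z * c)).2.2
  have hzd : Nat.Coprime z d := Nat.Coprime.coprime_dvd_right hdm hz
  have hqx : ¬ q ∣ x := by
    intro h1
    have h2 : q ∣ 1 := (hxq.dvd_iff dvd_rfl).mp h1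
    exact hq.one_lt.ne' (Nat.dvd_one.mp h2)
  have hdx : ¬ d ∣ x := by
    intro h1
    have h2 : d ∣ z * c := (hxd.dvd_iff dvd_rfl).mp h1
    rw [dvd_coprime_mul hzd] at h2
    exact hc h2
  have hm1 : 1 ≤ m := Nat.one_le_iff_ne_zero.mpr hm
  have hm1s : ∀ x, x + (m - 1) * x = m * x := by
    intro x
    obtain ⟨k, hk⟩ : ∃ k, m = k + 1 := ⟨m - 1, by omega⟩
    rw [hk]
    simp; ring
  refine fine0 (Setting_mul H hz) hnd hh hqx hdx ?_ ?_
  · intro r' hr'
    obtain ⟨hr'1, hr'2, hr'3⟩ := PO_prime hr'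
    by_cases hrr : r' = 3
    · subst hrr
      have hpow : 3 ^ (f + 2) = 9 * 3 ^ f := by rw [pow_succ, pow_succ]; ring
      have hpow1 : 3 ^ (f + 2 - 1) = 3 * 3 ^ f := by
        rw [show f + 2 - 1 = f + 1 by omega, pow_succ]; ring
      have hp0 : 0 < 3 ^ f := pow_pos (by norm_num) f
      have h1 : x ≡ 4 * 3 ^ f [MOD 3 ^ (f + 2)] := by
        have h2 : x ≡ z * c [MOD 3 ^ (f + 2)] := hxd.of_dvd ⟨d', hd'⟩
        refine h2.trans ?_
        have h3 : z * c = 3 ^ f * (z * (d' * k)) := by rw [hck]; ring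
        have h4 : z * (d' * k) ≡ 4 [MOD 9] := by
          refine (hzw.mul_right (d' * k)).trans ?_
          rw [mul_comm]; exact hw2
        rw [h3, hpow, mul_comm 9 (3 ^ f), mul_comm 4 (3 ^ f)]
        exact Nat.ModEq.mul_left' _ h4
      have h2lt : 4 * 3 ^ f < 3 ^ (f + 2) := by rw [hpow]; omega
      have h2 : x % 3 ^ (f + 2) = 4 * 3 ^ f := by
        have : x % 3 ^ (f + 2) = (4 * 3 ^ f) % 3 ^ (f + 2) := h1
        rw [this, Nat.mod_eq_of_lt h2lt]
      constructor
      · right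
        rw [hf, hpow1, h2]
        omega
      · right
        rw [hf, hpow1]
        have h3 : (x + (m - 1) * x) % 3 ^ (f + 2) = 0 := by
          rw [hm1s]
          exact Nat.mod_eq_zero_of_dvd (((Dvd.intro _ hd'.symm).trans hdm).mul_right x)
        rw [Nat.add_mod, h2] at h3
        have h4 : ((m - 1) * x) % 3 ^ (f + 2) < 3 ^ (f + 2) := Nat.mod_lt _ (pow_pos (by norm_num) _)
        obtain ⟨y, hy⟩ := Nat.dvd_of_mod_eq_zero h3
        clear_value x
        generalize 3 ^ (f + 2) = R at *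
        generalize ((m - 1) * x) % R = X at *
        generalize 3 ^ f = F at *
        rcases Nat.eq_zero_or_pos y with h0 | h0
        · rw [h0, mul_zero] at hy
          omega
        · have h6 : R * 1 ≤ R * y := Nat.mul_le_mul_left _ h0
          omega
    · have h1 : r' ^ (m.factorization r') ∣ d := pow_dvd_d hq hqd hr'
      have h2 : r' ^ (m.factorization r') ∣ c := by
        have h3 : r' ^ (m.factorization r') ∣ 9 * c := h1.trans ⟨k, hk⟩
        apply Nat.Coprime.dvd_of_dvd_mul_left _ h3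
        apply Nat.Coprime.pow_left _
        rw [show 9 = 3 ^ 2 by norm_num]
        exact Nat.Coprime.pow_right _ ((Nat.coprime_primes hr'1 hr).mpr hrr)
      have h3 : r' ^ (m.factorization r') ∣ x :=
        ((hxd.of_dvd h1).dvd_iff dvd_rfl).mpr (h2.mul_left z)
      exact ⟨Or.inl (Nat.mod_eq_zero_of_dvd h3), Or.inl (Nat.mod_eq_zero_of_dvd (h3.mul_left _))⟩
  · intro t ht
    rw [SW_map_mul, hS _ (Nat.Coprime.mul_left ht hzd)]
    congr 1
    apply sv_per
    rw [mul_assoc]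
    exact (hxd.mul_left t).symm

end Pool.Agent.U270.FT14
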