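import Pool.Agent.U270.FT14.NoConst
import Pool.Agent.U270.FT14.FineNine

/-!
# Relations with at most fourteen entries of odd level: reduction to the primes 3, 5, 7, 11, 13
-/

set_option autoImplicit false

namespace Pool.Agent.U270.FT14

open Finset Pool.Agent.H916R2 Pool.Agent.Y2 Pool.Agent.U270.SX

lemma checkE {e : ℕ} (he : e ≠ 0) (h3 : 3 ∣ e) (E : List ℕ) (τ : ℕ) (κ : ℤ)
    (h : ∀ r < e, Nat.Coprime r e → (E.map fun x => sv e (r * x)).sum = κ * sv 3 (r * τ)) :
    ∀ t, Nat.Coprime t e → SW e (E : Multiset ℕ) t = κ * sv 3 (t * τ) := by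
  intro t ht
  have hmod : t % e ≡ t [MOD e] := Nat.mod_modEq t e
  have hc : Nat.Coprime (t % e) e := by
    have : Nat.gcd (t % e) e = Nat.gcd t e := hmod.gcd_eq
    rw [Nat.Coprime, this]; exact ht
  have h1 := h (t % e) (Nat.mod_lt _ (Nat.pos_of_ne_zero he)) hc
  rw [← SW_congr _ hmod, ← sv_per ((hmod.of_dvd h3).mul_right τ), ← h1, SW_sv he]
  rw [Multiset.map_coe, Multiset.sum_coe]

set_option maxRecDepth 100000 in
lemma exists_E17 (τ : ℕ) (hτ : τ = 1 ∨ τ = 2) :
    ∃ E : Multiset ℕ, (∀ x ∈ E, ¬ 17 ∣ x) ∧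
      (∀ t, Nat.Coprime t (17 * 3) → SW (17 * 3) E t = (17 : ℕ) * sv 3 (t * τ)) ∧
      ∀ z, Nat.Coprime z 3 → SW 3 E z = (8 : ℕ) * sv 3 (z * τ) := by
  rcases hτ with rfl | rfl
  · refine ⟨([10, 13, 16, 22, 28, 31, 43, 49, 9] : List ℕ), ?_,
      checkE (by norm_num) (by norm_num) _ _ _ (by decide +kernel),
      checkE (by norm_num) (by norm_num) _ _ _ (by decide +kernel)⟩
    intro x hx
    simp only [Multiset.mem_coe, List.mem_cons, List.not_mem_nil, or_false] at hx
    omega
  · refine ⟨([5, 11, 14, 26, 32, 44, 47, 50, 9] : List ℕ), ?_,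
      checkE (by norm_num) (by norm_num) _ _ _ (by decide +kernel),
      checkE (by norm_num) (by norm_num) _ _ _ (by decide +kernel)⟩
    intro x hx
    simp only [Multiset.mem_coe, List.mem_cons, List.not_mem_nil, or_false] at hx
    omega

set_option maxRecDepth 100000 in
lemma exists_E23 (τ : ℕ) (hτ : τ = 1 ∨ τ = 2) :
    ∃ E : Multiset ℕ, (∀ x ∈ E, ¬ 23 ∣ x) ∧
      (∀ t, Nat.Coprime t (23 * 3) → SW (23 * 3) E t = (23 : ℕ) * sv 3 (t * τ)) ∧
      ∀ z, Nat.Coprime z 3 → SW 3 E z = (11 : ℕ) * sv 3 (z * τ) := by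
  rcases hτ with rfl | rfl
  · refine ⟨([1, 4, 13, 16, 25, 31, 49, 52, 55, 58, 64] : List ℕ), ?_,
      checkE (by norm_num) (by norm_num) _ _ _ (by decide +kernel),
      checkE (by norm_num) (by norm_num) _ _ _ (by decide +kernel)⟩
    intro x hx
    simp only [Multiset.mem_coe, List.mem_cons, List.not_mem_nil, or_false] at hx
    omega
  · refine ⟨([2, 8, 26, 29, 32, 35, 41, 47, 50, 59, 62] : List ℕ), ?_,
      checkE (by norm_num) (by norm_num) _ _ _ (by decide +kernel),
      checkE (by norm_num) (by norm_num) _ _ _ (by decide +kernel)⟩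
    intro x hx
    simp only [Multiset.mem_coe, List.mem_cons, List.not_mem_nil, or_false] at hx
    omega

set_option maxRecDepth 100000 in
lemma exists_E19 (τ : ℕ) (hτ : τ = 1 ∨ τ = 2) :
    ∃ E : Multiset ℕ, (∀ x ∈ E, ¬ 19 ∣ x) ∧
      (∀ t, Nat.Coprime t (19 * 3) → SW (19 * 3) E t = (0 : ℕ) * sv 3 (t * τ)) ∧
      ∀ z, Nat.Coprime z 3 → SW 3 E z = (9 : ℕ) * sv 3 (z * τ) := by
  rcases hτ with rfl | rfl
  · refine ⟨([4, 10, 13, 16, 31, 37, 49, 52, 55, 18] : List ℕ), ?_,
      checkE (by norm_num) (by norm_num) _ _ _ (by decide +kernel),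
      checkE (by norm_num) (by norm_num) _ _ _ (by decide +kernel)⟩
    intro x hx
    simp only [Multiset.mem_coe, List.mem_cons, List.not_mem_nil, or_false] at hx
    omega
  · refine ⟨([11, 14, 17, 23, 29, 32, 35, 50, 56, 18] : List ℕ), ?_,
      checkE (by norm_num) (by norm_num) _ _ _ (by decide +kernel),
      checkE (by norm_num) (by norm_num) _ _ _ (by decide +kernel)⟩
    intro x hx
    simp only [Multiset.mem_coe, List.mem_cons, List.not_mem_nil, or_false] at hx
    omega

/-- the outcome with an odd complement -/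
lemma out_odd {q d m : ℕ} {A1 A2 : Multiset ℕ} (H : Setting q d m A1 A2) (hnd : ¬ q ∣ d)
    {G : ℕ → Prop} (hG : G (q * 3)) {h c : ℕ} (hc : ¬ d ∣ c) (h3c : d ∣ 3 * c)
    (hS : ∀ z, Nat.Coprime z d → SW d A1 z = h * sv d (z * c))
    (hS2 : ∀ z, Nat.Coprime z d → SW d A2 z = - sv d (z * c))
    (hE : ∀ τ, τ = 1 ∨ τ = 2 → ∃ E : Multiset ℕ, (∀ x ∈ E, ¬ q ∣ x) ∧
      (∀ t, Nat.Coprime t (q * 3) → SW (q * 3) E t = (q : ℕ) * sv 3 (t * τ)) ∧
      ∀ z, Nat.Coprime z 3 → SW 3 E z = (h : ℕ) * sv 3 (z * τ))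
    (Q : Type) [AddCommGroup Q] (C : ZMod m → Q) (hC : OddDist C) (hK : KillsG G m C)
    (hA2 : ∀ b ∈ A2, ¬ d ∣ b)
    (hIH : ∀ B : Multiset ℕ, Multiset.card B ≤ Multiset.card A2 + 1 → (∀ b ∈ B, ¬ d ∣ b) →
      (∀ t, Nat.Coprime t d → SW d B t = 0) →
      (B.map fun b : ℕ => C ((q * b : ℕ) : ZMod m)).sum = 0) :
    (A1.map fun a : ℕ => C (a : ZMod m)).sum +
      (A2.map fun b : ℕ => C ((q * b : ℕ) : ZMod m)).sum = 0 := by
  have hq := H.hq
  have hd := H.hqd
  have hm := H.hm
  have hdne := H.hd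
  have hq0 : q * 3 ≠ 0 := by have := hq.pos; omega
  have hdm : d ∣ m := Dvd.intro_left _ hd
  obtain ⟨l, τ, hl, hτ, hcτ⟩ := order_three hdne h3c hc
  obtain ⟨E, hE1, hE2, hE3⟩ := hE τ hτ
  have hlm : l * (q * 3) = m := by rw [← hd, hl]; ring
  have hl3 : l * 3 = d := by rw [hl]; ring
  have hsvl : ∀ z, sv d (z * c) = l * sv 3 (z * τ) := by
    intro z
    rw [← sv_level hdne hl3, sv_per (hcτ.mul_left z)]
    congr 1; ring
  have h1 := compare H hnd hl hcτ hS E hE1 (fun z hz => by rw [hE3 z hz]) (by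
    intro t ht
    have h2 := H.hrel t ht
    rw [hS2 t (Nat.Coprime.coprime_dvd_right hdm ht), hsvl] at h2
    rw [hE2 t (Nat.Coprime.coprime_dvd_right (Dvd.intro_left l hlm) ht)]
    linear_combination h2) Q C hC
  have h2 := hIH (A2 + {c}) (by rw [Multiset.card_add, Multiset.card_singleton])
    (by
      intro b hb
      rcases Multiset.mem_add.mp hb with hb | hb
      · exact hA2 b hb
      · rw [Multiset.mem_singleton] at hb; rw [hb]; exact hc)
    (by
      intro t ht
      rw [SW_add, hS2 t ht, SW_single hdne]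
      ring)
  rw [Multiset.map_add, Multiset.sum_add, Multiset.map_singleton, Multiset.sum_singleton] at h2
  have h3 := hK l (q * 3) hlm hG (E + {q * (3 - τ)}) (by
    intro b hb
    rcases Multiset.mem_add.mp hb with hb | hb
    · exact fun h => hE1 b hb (dvd_trans (Dvd.intro _ rfl) h)
    · rw [Multiset.mem_singleton] at hb; rw [hb]
      intro h
      have h4 := Nat.dvd_of_mul_dvd_mul_left hq.pos h
      rcases hτ with rfl | rfl
      · norm_num at h4
      · norm_num at h4) (by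
    intro t ht
    rw [SW_add, hE2 t ht, SW_single hq0]
    have h4 := sv_level (q := q) (d := 3) (m := q * 3) hq0 rfl (t * (3 - τ))
    have h5 : t * (q * (3 - τ)) = q * (t * (3 - τ)) := by ring
    rw [h5, h4]
    have h6 : sv 3 (t * (3 - τ)) = - sv 3 (t * τ) := by
      apply sv_neg (by norm_num)
      have : t * τ + t * (3 - τ) = 3 * t := by
        rcases hτ with rfl | rfl
        · norm_num; ring
        · norm_num; ring
      rw [this]; exact Dvd.intro t rfl
    rw [h6]; ring)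
  rw [Multiset.map_add, Multiset.sum_add, Multiset.map_singleton,
    Multiset.sum_singleton] at h3
  have h4 : ((l * (q * (3 - τ)) : ℕ) : ZMod m) = - ((q * c : ℕ) : ZMod m) := by
    have h5 : q * c ≡ q * (l * τ) [MOD m] := by
      have := Nat.ModEq.mul_left' q hcτ
      rwa [hd] at this
    have h6 : ((q * c : ℕ) : ZMod m) = ((q * (l * τ) : ℕ) : ZMod m) :=
      (ZMod.natCast_eq_natCast_iff _ _ _).mpr h5
    rw [h6]
    have h7 : ((l * (q * (3 - τ)) + q * (l * τ) : ℕ) : ZMod m) = 0 := by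
      rw [ZMod.natCast_eq_zero_iff, ← hlm]
      rcases hτ with rfl | rfl
      · exact ⟨1, by norm_num; ring⟩
      · exact ⟨1, by norm_num; ring⟩
    rw [Nat.cast_add] at h7
    exact eq_neg_of_add_eq_zero_left h7
  rw [h4, hC.neg] at h3
  have h5 : (E.map fun x : ℕ => C ((l * x : ℕ) : ZMod m)).sum = C ((q * c : ℕ) : ZMod m) := by
    have := h3
    rwa [← sub_eq_add_neg, sub_eq_zero] at this
  rw [h1, h5, add_comm]
  exact h2

/-- the outcome with an even complement -/
lemma out_even {q d m : ℕ} {A1 A2 : Multiset ℕ} (H : Setting q d m A1 A2) (hnd : ¬ q ∣ d)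
    {G : ℕ → Prop} (hG : G (q * 3)) {h c : ℕ} (hc : ¬ d ∣ c) (h3c : d ∣ 3 * c)
    (hS : ∀ z, Nat.Coprime z d → SW d A1 z = h * sv d (z * c))
    (hS2 : ∀ z, Nat.Coprime z d → SW d A2 z = 0)
    (hE : ∀ τ, τ = 1 ∨ τ = 2 → ∃ E : Multiset ℕ, (∀ x ∈ E, ¬ q ∣ x) ∧
      (∀ t, Nat.Coprime t (q * 3) → SW (q * 3) E t = (0 : ℕ) * sv 3 (t * τ)) ∧
      ∀ z, Nat.Coprime z 3 → SW 3 E z = (h : ℕ) * sv 3 (z * τ))
    (Q : Type) [AddCommGroup Q] (C : ZMod m → Q) (hC : OddDist C) (hK : KillsG G m C)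
    (hIH : (A2.map fun b : ℕ => C ((q * b : ℕ) : ZMod m)).sum = 0) :
    (A1.map fun a : ℕ => C (a : ZMod m)).sum +
      (A2.map fun b : ℕ => C ((q * b : ℕ) : ZMod m)).sum = 0 := by
  have hd := H.hqd
  have hdne := H.hd
  have hdm : d ∣ m := Dvd.intro_left _ hd
  obtain ⟨l, τ, hl, hτ, hcτ⟩ := order_three hdne h3c hc
  obtain ⟨E, hE1, hE2, hE3⟩ := hE τ hτ
  have hlm : l * (q * 3) = m := by rw [← hd, hl]; ring
  have h1 := compare H hnd hl hcτ hS E hE1 (fun z hz => by rw [hE3 z hz]) (by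
    intro t ht
    have h2 := H.hrel t ht
    rw [hS2 t (Nat.Coprime.coprime_dvd_right hdm ht)] at h2
    rw [hE2 t (Nat.Coprime.coprime_dvd_right (Dvd.intro_left l hlm) ht)]
    push_cast
    linear_combination h2) Q C hC
  have h2 := hK l (q * 3) hlm hG E (fun x hx h => hE1 x hx (dvd_trans (Dvd.intro _ rfl) h))
    (fun t ht => by rw [hE2 t ht]; push_cast; ring)
  rw [h1, h2, hIH, add_zero]

/-- **Relations with at most fourteen entries.** -/
theorem fourteen_zero (G : ℕ → Prop) (h51 : G 51) (h57 : G 57) (h69 : G 69)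
    (hbase : ∀ e, e % 2 = 1 →
      (∀ p, p.Prime → p ∣ e → p ∈ ({3, 5, 7, 11, 13} : Finset ℕ)) →
      ∀ A : Multiset ℕ, Multiset.card A ≤ 14 →
      (∀ a ∈ A, ¬ e ∣ a) → (∀ t, Nat.Coprime t e → SW e A t = 0) →
      ∀ (Q : Type) [AddCommGroup Q] (C : ZMod e → Q), OddDist C → KillsG G e C →
        (A.map fun a : ℕ => C (a : ZMod e)).sum = 0) :
    ∀ m : ℕ, m % 2 = 1 → ∀ A : Multiset ℕ, Multiset.card A ≤ 14 →
    (∀ a ∈ A, ¬ m ∣ a) → (∀ t, Nat.Coprime t m → SW m A t = 0) →
    ∀ (Q : Type) [AddCommGroup Q] (C : ZMod m → Q), OddDist C → KillsG G m C →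
      (A.map fun a : ℕ => C (a : ZMod m)).sum = 0 := by
  intro m
  induction m using Nat.strong_induction_on with
  | _ m ih =>
  intro hodd A hcard hA hrel Q _ C hC hK
  have hm : m ≠ 0 := by rintro rfl; simp at hodd
  have hN : NeZero m := ⟨hm⟩
  by_cases hg : ∀ p, p.Prime → p ∣ m → p ∈ ({3, 5, 7, 11, 13} : Finset ℕ)
  · exact hbase m hodd hg A hcard hA hrel Q C hC hK
  have hev := card_even hodd hA hrel
  -- the induction hypothesis at level `d`
  have hIH : ∀ q d : ℕ, q.Prime → q * d = m → ∀ B : Multiset ℕ, Multiset.card B ≤ 14 →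
      (∀ b ∈ B, ¬ d ∣ b) → (∀ t, Nat.Coprime t d → SW d B t = 0) →
      (B.map fun b : ℕ => C ((q * b : ℕ) : ZMod m)).sum = 0 := by
    intro q d hq hqd B hB hB0 hBrel
    have hd0 : d ≠ 0 := by rintro rfl; rw [mul_zero] at hqd; exact hm hqd.symm
    have hdodd : d % 2 = 1 := by
      rw [← hqd, ← Nat.odd_iff, Nat.odd_mul] at hodd
      exact Nat.odd_iff.mp hodd.2
    have hdm : d < m := by
      rw [← hqd]
      have h3 := hq.two_le
      have h4 : 0 < d := Nat.pos_of_ne_zero hd0
      nlinarith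
    have hNd : NeZero d := ⟨hd0⟩
    have h5 := ih d hdm hdodd B hB hB0 hBrel Q (fun b : ZMod d => C (iota q b))
      (hC.comp_iota hqd) (hK.comp hqd)
    rw [← h5]
    congr 1
    apply Multiset.map_congr rfl
    intro b _
    rw [iota_natCast hqd]
  -- the case of vanishing signs
  have hzero : ∀ q d : ℕ, q.Prime → q * d = m →
      (∀ z, Nat.Coprime z d → ST d (A.filter fun a => ¬ q ∣ a) z = 0) →
      (¬ q ∣ d ∨ 28 < q * (q - 1)) →
      (A.map fun a : ℕ => C (a : ZMod m)).sum = 0 := by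
    intro q d hq hqd h0 hsm
    have H := mkSetting hq hqd hodd A hrel
    have hc1 := card_split q A
    obtain ⟨h1, h2⟩ := H.peel0 h0 (hsm.imp id fun h => by omega)
    rw [split_sumE (q := q), h2 Q C hC, zero_add]
    exact hIH q d hq hqd _ (by omega) (ndvd_split hqd hA) h1
  -- large primes
  have hlarge : ∀ q, q.Prime → q ∣ m → 31 ≤ q → (A.map fun a : ℕ => C (a : ZMod m)).sum = 0 := by
    intro q hq hqm h19
    obtain ⟨d, hd⟩ := hqm
    have H := mkSetting hq hd.symm hodd A hrel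
    have hc1 := card_split q A
    refine hzero q d hq hd.symm (case_big8 H (N := 14) (by omega) (Or.inr (by omega))) (Or.inr ?_)
    have : 30 ≤ q - 1 := by omega
    nlinarith
  by_cases h31 : ∃ q, q.Prime ∧ q ∣ m ∧ 31 ≤ q
  · obtain ⟨q, hq, hqm, h⟩ := h31
    exact hlarge q hq hqm h
  push Not at h31
  have hpow : ∀ q d : ℕ, q.Prime → q * d = m → 17 ≤ q → q ∣ d →
      (A.map fun a : ℕ => C (a : ZMod m)).sum = 0 := by
    intro q d hq hqd h11 hqdd
    have H := mkSetting hq hqd hodd A hrel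
    have hc1 := card_split q A
    refine hzero q d hq hqd (case_big8 H (N := 14) (by omega) (Or.inl ⟨hqdd, by omega⟩)) (Or.inr ?_)
    have : 16 ≤ q - 1 := by omega
    nlinarith
  -- the prime divisors
  have hprimes : ∀ p, p.Prime → p ∣ m →
      p = 3 ∨ p = 5 ∨ p = 7 ∨ p = 11 ∨ p = 13 ∨ p = 17 ∨ p = 19 ∨ p = 23 ∨ p = 29 := by
    intro p hp hpd
    have h1 := h31 p hp hpd
    have h2 := hp.two_le
    have h3 : p ≠ 2 := by
      rintro rfl
      omega
    interval_cases p
    all_goals first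
      | (exfalso; revert hp; norm_num; done)
      | omega
  -- the dichotomy
  have key : ∀ q d h : ℕ, q.Prime → q * d = m → ¬ q ∣ d → 2 * h = q - 1 → 8 ≤ h →
      (∀ j, 1 ≤ j → h + 2 * j ≤ 14 → Chain d h j) →
      (A.map fun a : ℕ => C (a : ZMod m)).sum = 0 ∨
      ∃ c, ¬ d ∣ c ∧
        (∀ z, Nat.Coprime z d → SW d (A.filter fun a => ¬ q ∣ a) z = h * sv d (z * c)) ∧
        h ≤ Multiset.card (A.filter fun a => ¬ q ∣ a) ∧
        ((Multiset.card ((A.filter fun a => q ∣ a).map fun a => a / q) % 2 = 0 ∧ d ∣ (q - 1) * c ∧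
          ∀ z, Nat.Coprime z d → SW d ((A.filter fun a => q ∣ a).map fun a => a / q) z = 0) ∨
        (Multiset.card ((A.filter fun a => q ∣ a).map fun a => a / q) % 2 = 1 ∧ d ∣ (q + 1) * c ∧
          ∀ z, Nat.Coprime z d → SW d ((A.filter fun a => q ∣ a).map fun a => a / q) z =
            - sv d (z * c))) := by
    intro q d h hq hqd hnd hh h8 hch
    have H := mkSetting hq hqd hodd A hrel
    have hc1 := card_split q A
    have hdne := H.hd
    rcases dichotomy H hnd hh (by omega) (by omega) (ndvd_split hqd hA) (by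
      intro hex
      by_cases hd1 : d = 1
      · have h1 := hex 1 (Nat.coprime_one_left d)
        have h2 := SW_abs hdne ((A.filter fun a => ¬ q ∣ a).filter fun a => ¬ d ∣ a) 1
        rw [h1, hd1] at h2
        have h3 : (8 : ℤ) ≤ h := by exact_mod_cast h8
        norm_num at h2
        omega
      · refine no_const_gen (by have := H.dodd; omega) H.dodd _
          (fun a ha => (Multiset.mem_filter.mp ha).2) h (by omega) ?_ hex
        intro j hj1 hj2
        apply hch j hj1
        have h4 : Multiset.card ((A.filter fun a => ¬ q ∣ a).filter fun a => ¬ d ∣ a) ≤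
          Multiset.card (A.filter fun a => ¬ q ∣ a) := Multiset.card_le_card (Multiset.filter_le _ _)
        omega) with h0 | ⟨c, hc, hS, hc8, h9⟩
    · exact Or.inl (hzero q d hq hqd h0 (Or.inl hnd))
    · exact Or.inr ⟨c, hc, hS, hc8, h9⟩
  by_cases h29 : 29 ∣ m
  · obtain ⟨d, hd⟩ := h29
    have hq : Nat.Prime 29 := by norm_num
    by_cases hqd : 29 ∣ d
    · exact hpow 29 d hq hd.symm (by norm_num) hqd
    have H := mkSetting hq hd.symm hodd A hrel
    have hc1 := card_split 29 A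
    rcases key 29 d 14 hq hd.symm hqd (by norm_num) (by norm_num) (fun j h1 h2 => by omega) with
      h0 | ⟨c, hc, hS, hc8, ⟨-, h10, -⟩ | ⟨h2, -, -⟩⟩
    · exact h0
    · exfalso
      have h7c : d ∣ 7 * c := dvd_odd_mul (k := 2) H.dodd (by norm_num : 4 = 2 ^ 2) (by
        rw [← mul_assoc]; exact h10)
      exact fine H hqd (h := 14) rfl hc (by norm_num : Nat.Prime 7) (by norm_num) h7c hS
    · omega
  by_cases h23 : 23 ∣ m
  · obtain ⟨d, hd⟩ := h23
    have hq : Nat.Prime 23 := by norm_num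
    by_cases hqd : 23 ∣ d
    · exact hpow 23 d hq hd.symm (by norm_num) hqd
    have H := mkSetting hq hd.symm hodd A hrel
    have hc1 := card_split 23 A
    have hdm : d ∣ m := ⟨23, by rw [hd]; ring⟩
    have hP : ∀ p, p.Prime → p ∣ d → p ∈ ({3, 5, 7, 11, 13, 17, 19} : Finset ℕ) := by
      intro p hp hpd
      simp only [mem_insert, mem_singleton]
      rcases hprimes p hp (hpd.trans hdm) with h | h | h | h | h | h | h | h | h
      all_goals first
        | (exfalso; subst h; exact hqd hpd)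
        | (exfalso; subst h; exact h29 (hpd.trans hdm))
        | omega
    rcases key 23 d 11 hq hd.symm hqd (by norm_num) (by norm_num)
      (fun j h1 h2 => chain_eleven H.dodd hP (by omega)) with
      h0 | ⟨c, hc, hS, hc8, ⟨-, h10, -⟩ | ⟨-, h10, hS2⟩⟩
    · exact h0
    · exfalso
      have h7c : d ∣ 11 * c := dvd_odd_mul (k := 1) H.dodd (by norm_num : 2 = 2 ^ 1) (by
        rw [← mul_assoc]; exact h10)
      exact fine H hqd (h := 11) rfl hc (by norm_num : Nat.Prime 11) (by norm_num) h7c hS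
    · have h3c : d ∣ 3 * c := dvd_odd_mul (k := 3) H.dodd (by norm_num : 8 = 2 ^ 3) (by
        rw [← mul_assoc]; exact h10)
      rw [split_sumE (q := 23)]
      exact out_odd H hqd h69 hc h3c hS hS2 exists_E23 Q C hC hK (ndvd_split hd.symm hA)
        (fun B hB => hIH 23 d hq hd.symm B (by omega))
  by_cases h19 : 19 ∣ m
  · obtain ⟨d, hd⟩ := h19
    have hq : Nat.Prime 19 := by norm_num
    by_cases hqd : 19 ∣ d
    · exact hpow 19 d hq hd.symm (by norm_num) hqd
    have H := mkSetting hq hd.symm hodd A hrel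
    have hc1 := card_split 19 A
    have hdm : d ∣ m := ⟨19, by rw [hd]; ring⟩
    have hP : ∀ p, p.Prime → p ∣ d → p ∈ ({3, 5, 7, 11, 13, 17} : Finset ℕ) := by
      intro p hp hpd
      simp only [mem_insert, mem_singleton]
      rcases hprimes p hp (hpd.trans hdm) with h | h | h | h | h | h | h | h | h
      all_goals first
        | (exfalso; subst h; exact hqd hpd)
        | (exfalso; subst h; exact h29 (hpd.trans hdm))
        | (exfalso; subst h; exact h23 (hpd.trans hdm))
        | omega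
    rcases key 19 d 9 hq hd.symm hqd (by norm_num) (by norm_num)
      (fun j h1 h2 => chain_nine H.dodd hP (by omega)) with
      h0 | ⟨c, hc, hS, hc8, ⟨-, h10, hS2⟩ | ⟨-, h10, -⟩⟩
    · exact h0
    · have h9c : d ∣ 9 * c := dvd_odd_mul (k := 1) H.dodd (by norm_num : 2 = 2 ^ 1) (by
        rw [← mul_assoc]; exact h10)
      by_cases h3c : d ∣ 3 * c
      · rw [split_sumE (q := 19)]
        exact out_even H hqd h57 hc h3c hS hS2 exists_E19 Q C hC hK
          (hIH 19 d hq hd.symm _ (by omega) (ndvd_split hd.symm hA) hS2)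
      · exact (fine_nine H hqd (h := 9) rfl h3c h9c hS).elim
    · exfalso
      have h7c : d ∣ 5 * c := dvd_odd_mul (k := 2) H.dodd (by norm_num : 4 = 2 ^ 2) (by
        rw [← mul_assoc]; exact h10)
      exact fine H hqd (h := 9) rfl hc (by norm_num : Nat.Prime 5) (by norm_num) h7c hS
  by_cases h17 : 17 ∣ m
  · obtain ⟨d, hd⟩ := h17
    have hq : Nat.Prime 17 := by norm_num
    by_cases hqd : 17 ∣ d
    · exact hpow 17 d hq hd.symm (by norm_num) hqd
    have H := mkSetting hq hd.symm hodd A hrel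
    have hc1 := card_split 17 A
    have hdm : d ∣ m := ⟨17, by rw [hd]; ring⟩
    have hP : ∀ p, p.Prime → p ∣ d → p ∈ ({3, 5, 7, 11, 13} : Finset ℕ) := by
      intro p hp hpd
      simp only [mem_insert, mem_singleton]
      rcases hprimes p hp (hpd.trans hdm) with h | h | h | h | h | h | h | h | h
      all_goals first
        | (exfalso; subst h; exact hqd hpd)
        | (exfalso; subst h; exact h29 (hpd.trans hdm))
        | (exfalso; subst h; exact h23 (hpd.trans hdm))
        | (exfalso; subst h; exact h19 (hpd.trans hdm))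
        | omega
    rcases key 17 d 8 hq hd.symm hqd (by norm_num) (by norm_num)
      (fun j h1 h2 => chain_small H.dodd hP (by omega)) with
      h0 | ⟨c, hc, hS, hc8, ⟨-, h10, -⟩ | ⟨-, h10, hS2⟩⟩
    · exact h0
    · exact absurd (dvd_odd_mul (k := 4) H.dodd (by norm_num) h10) hc
    · have h9c : d ∣ 9 * c := dvd_odd_mul (k := 1) H.dodd (by norm_num : 2 = 2 ^ 1) (by
        rw [← mul_assoc]; exact h10)
      by_cases h3c : d ∣ 3 * c
      · rw [split_sumE (q := 17)]
        exact out_odd H hqd h51 hc h3c hS hS2 exists_E17 Q C hC hK (ndvd_split hd.symm hA)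
          (fun B hB => hIH 17 d hq hd.symm B (by omega))
      · exact (fine_nine H hqd (h := 8) rfl h3c h9c hS).elim
  -- no large prime factor
  exfalso
  apply hg
  intro p hp hpm
  simp only [mem_insert, mem_singleton]
  rcases hprimes p hp hpm with h | h | h | h | h | h | h | h | h
  all_goals first
    | (exfalso; subst h; exact h29 hpm)
    | (exfalso; subst h; exact h23 hpm)
    | (exfalso; subst h; exact h19 hpm)
    | (exfalso; subst h; exact h17 hpm)
    | omega

end Pool.Agent.U270.FT14
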