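import Pool.Agent.U270.FT14.Eval5
import Pool.Agent.U270.FT14.Main14
import Pool.Agent.Y2.Fin

/-!
# Short relations of the levels with the primes 3, 5, 7, 11, 13
-/

set_option autoImplicit false
set_option linter.unusedSectionVars false

namespace Pool.Agent.U270.FT14

open Finset Pool.Agent.H916R2 Pool.Agent.N992 Pool.Agent.N993 Pool.Agent.N993.Dat Pool.Agent.Y2
  Pool.Agent.U270.SX

lemma kills_rel {G : ℕ → Prop} {m l e : ℕ} [NeZero m] [NeZero e] (hle : l * e = m) {Q : Type}
    [AddCommGroup Q] {C : ZMod m → Q} (hC : OddDist C) (hK : KillsG G m C) (hG : G e)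
    (x : ZMod e → ℤ) (hx : Rel x) : ∑ b, x b • C (iota l b) = 0 := by
  obtain ⟨s, hs, h1⟩ := exists_hodge x hx
  rw [h1 Q (fun b => C (iota l b)) (hC.comp_iota hle)]
  have h2 := hK l e hle hG (s.map ZMod.val) (by
    intro a ha h
    obtain ⟨b, hb', rfl⟩ := Multiset.mem_map.mp ha
    have h3 := (ZMod.natCast_eq_zero_iff b.val e).mpr h
    rw [ZMod.natCast_zmod_val] at h3
    exact hs.1 (h3 ▸ hb')) (fun t ht => saw_rel s hs t ht)
  rw [Multiset.map_map] at h2
  exact h2

theorem base_core {G : ℕ → Prop} {S : Finset ℕ} [∀ i : Ix S, NeZero (nn S i)]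
    (hn : Adm' (nn S)) (hco : Pairwise (fun i j : Ix S => (nn S i).Coprime (nn S j)))
    (hcard : S.card ≤ 5) {m m0 k : ℕ} [NeZero m] [NeZero m0] (hN : ∏ i : Ix S, nn S i = m0)
    (E : (∀ i, ZMod (nn S i)) ≃+* ZMod m0) (hk : k * m0 = m) (hodd : m % 2 = 1)
    (hpr : ∀ p, p.Prime → p ∣ m → p ∣ m0)
    (F : Finset (Ix S) → ℕ → ZMod 2)
    (hFper : ∀ T : Finset (Ix S), T.card = 4 → ∀ x y, x ≡ y [MOD m] → F T x = F T y)
    (hFneg : ∀ T : Finset (Ix S), T.card = 4 → ∀ x y, m ∣ x + y → F T y = F T x)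
    (hF0 : ∀ T : Finset (Ix S), T.card = 4 → F T 0 = 0)
    (hFrel : ∀ T : Finset (Ix S), T.card = 4 → ∀ q d : ℕ, q.Prime → q * d = m → ∀ A,
      ∑ i ∈ range q, F T (A + i * d) = F T (q * A))
    (w : Finset (Ix S) → (cyc (nn S)).GG)
    (hF1 : ∀ T : Finset (Ix S), T.card = 4 → ∀ y, (cyc (nn S)).Supp T y →
      F T (k * (E (emb y)).val) = ((top (w T) T y : ℤ) : ZMod 2))
    (hF2 : ∀ T : Finset (Ix S), T.card = 4 → ∀ (y : (cyc (nn S)).Pt) (i : Ix S), i ∈ T →
      y i = none → F T (k * (E (emb y)).val) = 0)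
    (A : Multiset ℕ) (hrel : ∀ t, Nat.Coprime t m → SW m A t = 0)
    (hFA : ∀ T : Finset (Ix S), T.card = 4 → ∀ a ∈ A, F T a = 0)
    (hG : ∀ T : Finset (Ix S), T.card ≤ 3 → G (∏ i ∈ T, nn S i))
    {Q : Type} [AddCommGroup Q] {C : ZMod m → Q} (hC : OddDist C) (hK : KillsG G m C) :
    (A.map fun a : ℕ => C (a : ZMod m)).sum = 0 := by
  classical
  have hm : m ≠ 0 := NeZero.ne m
  have hDm : ∀ T : Finset (Ix S), T.card = 4 → OddDist (fun a : ZMod m => F T a.val) := fun T hT =>
    oddDist_of hodd (F T) (hFper T hT) (hFneg T hT) (hF0 T hT) (hFrel T hT)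
  let c2 : ZMod m → Q × (Finset (Ix S) → ZMod 2) :=
    fun a => (C a, fun T => if T.card = 4 then F T a.val else 0)
  have hc2 : OddDist c2 := by
    refine ⟨fun a => ?_, fun a ha => ?_, fun p d hp hpd a => ?_⟩
    · refine Prod.ext (hC.neg a) (funext fun T => ?_)
      change (if T.card = 4 then F T (-a).val else 0) = -(if T.card = 4 then F T a.val else 0)
      by_cases hT4 : T.card = 4
      · rw [if_pos hT4, if_pos hT4]; exact (hDm T hT4).neg a
      · rw [if_neg hT4, if_neg hT4, neg_zero]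
    · refine Prod.ext (hC.half a ha) (funext fun T => ?_)
      change (if T.card = 4 then F T a.val else 0) = 0
      by_cases hT4 : T.card = 4
      · rw [if_pos hT4]; exact (hDm T hT4).half a ha
      · rw [if_neg hT4]
    · refine Prod.ext ?_ (funext fun T => ?_)
      · rw [Prod.fst_sum]; exact hC.dist p d hp hpd a
      · rw [Prod.snd_sum, Finset.sum_apply]
        change ∑ i ∈ range p, (if T.card = 4 then F T (a + (i : ZMod m) * (d : ZMod m)).val else 0) =
          (if T.card = 4 then F T ((p : ZMod m) * a).val else 0)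
        by_cases hT4 : T.card = 4
        · simp only [if_pos hT4]; exact (hDm T hT4).dist p d hp hpd a
        · simp only [if_neg hT4, sum_const_zero]
  set s : Multiset (ZMod m) := A.map (fun a : ℕ => (a : ZMod m)) with hs
  have hx : Rel (fun a : ZMod m => ((s.count a : ℕ) : ℤ)) := by
    intro t
    have h := sum_count s (fun a => saw ((t : ZMod m) * a))
    have h1 : (s.map fun a => saw ((t : ZMod m) * a)).sum = 0 := by
      have h2 := hrel (t : ZMod m).val (ZMod.val_coe_unit_coprime t)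
      unfold SW at h2
      rw [hs, Multiset.map_map, ← h2]
      congr 1
      apply Multiset.map_congr rfl
      intro a _
      simp only [Function.comp_apply]
      push_cast
      rw [ZMod.natCast_zmod_val]
    rw [h1] at h
    simpa using h
  have h4 : 4 ∣ m → 4 ∣ m0 := fun h => by
    exfalso
    obtain ⟨z, hz⟩ := h
    omega
  obtain ⟨x0, hx0, he⟩ := red_exists k m m0 k rfl hk hpr h4 _ c2 hc2 _ hx
  have he1 : ∑ a, ((s.count a : ℕ) : ℤ) • C a = ∑ b : ZMod m0, x0 b • C (iota k b) := by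
    have := congrArg Prod.fst he
    rw [Prod.fst_sum, Prod.fst_sum] at this
    exact this
  have he2 : ∀ T : Finset (Ix S), T.card = 4 →
      ∑ a, ((s.count a : ℕ) : ℤ) • F T a.val =
        ∑ b : ZMod m0, x0 b • F T (iota k b : ZMod m).val := by
    intro T hT4
    have := congrArg (fun z => (Prod.snd z) T) he
    change (∑ a, ((s.count a : ℕ) : ℤ) • c2 a).2 T = (∑ b : ZMod m0, x0 b • c2 (iota k b)).2 T at this
    rw [Prod.snd_sum, Prod.snd_sum, Finset.sum_apply, Finset.sum_apply] at this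
    have e1 : ∀ a : ZMod m, (((s.count a : ℕ) : ℤ) • c2 a).2 T =
        ((s.count a : ℕ) : ℤ) • F T a.val := by
      intro a
      change ((s.count a : ℕ) : ℤ) • (if T.card = 4 then F T a.val else 0) = _
      rw [if_pos hT4]
    have e2 : ∀ b : ZMod m0, (x0 b • c2 (iota k b)).2 T = x0 b • F T (iota k b : ZMod m).val := by
      intro b
      change x0 b • (if T.card = 4 then F T (iota k b : ZMod m).val else 0) = _
      rw [if_pos hT4]
    simp only [e1, e2] at this
    exact this
  have hzero : ∀ T : Finset (Ix S), T.card = 4 →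
      ∑ b : ZMod m0, x0 b • F T (iota k b : ZMod m).val = 0 := by
    intro T hT4
    rw [← he2 T hT4, sum_count s (fun a : ZMod m => F T a.val), hs, Multiset.map_map]
    apply Multiset.sum_eq_zero
    intro z hz
    obtain ⟨a, ha, rfl⟩ := Multiset.mem_map.mp hz
    simp only [Function.comp_apply]
    rw [ZMod.val_natCast, hFper T hT4 _ a (Nat.mod_modEq a m)]
    exact hFA T hT4 a ha
  have hval : ∀ T : Finset (Ix S), T.card = 4 → ∀ b : ZMod m0,
      F T (iota k b : ZMod m).val = F T (k * b.val) := by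
    intro T hT4 b
    apply hFper T hT4
    unfold iota
    rw [ZMod.val_natCast]
    exact Nat.mod_modEq _ _
  have hfin := coreH hn hco hN E (by rw [Fintype.card_coe]; exact hcard)
    (c := fun b : ZMod m0 => C (iota k b)) (hC.comp_iota hk)
    (by
      intro T hT mT l _ hmT hl x hx
      have h1 : ∀ b : ZMod mT, C (iota k (iota l b : ZMod m0)) = C (iota (k * l) b) := by
        intro b; rw [iota_comp hk]
      simp only [h1]
      have h2 : k * l * mT = m := by rw [mul_assoc, hl, hk]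
      refine kills_rel h2 hC hK ?_ x hx
      rw [← hmT]
      exact hG T hT)
    w (fun T b => F T (iota k b : ZMod m).val)
    (fun T hT4 => (hDm T hT4).comp_iota hk)
    (fun T hT4 y hy => by
      beta_reduce
      rw [hval T hT4]
      exact hF1 T hT4 y hy)
    (fun T hT4 y i hi hyi => by
      beta_reduce
      rw [hval T hT4]
      exact hF2 T hT4 y i hi hyi)
    x0 hx0 hzero
  rw [← he1, sum_count, hs, Multiset.map_map] at hfin
  exact hfin

section

variable {m : ℕ}

lemma nd_unit {u p : ℕ} (hp : p.Prime) (hpm : p ∣ m) (hu : Nat.Coprime u m) : ¬ (p : ℤ) ∣ (u : ℤ) := by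
  intro h
  have h1 : p ∣ u := by exact_mod_cast h
  have h2 := Nat.dvd_gcd h1 hpm
  rw [hu] at h2
  exact hp.one_lt.ne' (Nat.dvd_one.mp h2)

lemma DD_one {r : ℕ} {L : List ℕ} {u : ℤ} {x : ℕ} (hx : pp m r ∣ x) : DD m L r u x = II m L u x := by
  unfold DD
  have e1 : zr m r x = 1 := if_pos hx
  rw [dl_of_dvd hx, dl_of_dvd hx, e1]
  ring

end

/-- four or five primes -/
theorem base_many {G : ℕ → Prop} {S : Finset ℕ} (hS13 : S ⊆ {3, 5, 7, 11, 13}) (h4 : 4 ≤ S.card)
    {m : ℕ} [NeZero m] (hodd : m % 2 = 1) (hSm : m.primeFactors = S)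
    (hG : ∀ e, e % 2 = 1 → (∀ p, p.Prime → p ∣ e → p ∈ ({3, 5, 7, 11, 13} : Finset ℕ)) →
      e.primeFactors.card ≤ 3 → G e)
    (A : Multiset ℕ) (hcardA : Multiset.card A ≤ 14) (hrel : ∀ t, Nat.Coprime t m → SW m A t = 0)
    {Q : Type} [AddCommGroup Q] {C : ZMod m → Q} (hC : OddDist C) (hK : KillsG G m C) :
    (A.map fun a : ℕ => C (a : ZMod m)).sum = 0 := by
  classical
  have hm : m ≠ 0 := NeZero.ne m
  have hSp : ∀ p ∈ S, p.Prime := fun p hp => by
    rw [← hSm] at hp; exact Nat.prime_of_mem_primeFactors hp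
  have hSd : ∀ p ∈ S, p ∣ m := fun p hp => by
    rw [← hSm] at hp; exact Nat.dvd_of_mem_primeFactors hp
  have hSo : ∀ p ∈ S, p % 2 = 1 := fun p hp => by
    obtain ⟨z, hz⟩ := hSd p hp
    rcases (hSp p hp).eq_two_or_odd with h | h
    · rw [h] at hz; omega
    · exact h
  have hmem : ∀ p, p.Prime → p ∣ m → p ∈ S := fun p hp hpm => by
    rw [← hSm]; exact Nat.mem_primeFactors.mpr ⟨hp, hpm, hm⟩
  have hadm : ∀ x ∈ S, (x.Prime ∧ x % 2 = 1) ∨ x = 4 := fun x hx => Or.inl ⟨hSp x hx, hSo x hx⟩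
  have hnz : ∀ i : Ix S, NeZero (nn S i) := fun i => ⟨(hSp i i.2).ne_zero⟩
  have hn : Adm' (nn S) := fun i => hadm i i.2
  have hco : Pairwise (fun i j : Ix S => (nn S i).Coprime (nn S j)) := fun i j hij =>
    (Nat.coprime_primes (hSp i i.2) (hSp j j.2)).mpr (fun h => hij (Subtype.ext h))
  have hprod : ∏ i : Ix S, nn S i = ∏ p ∈ S, p := Finset.prod_coe_sort S (fun p => p)
  have hN0 : ∏ i : Ix S, nn S i ≠ 0 := prod_ne_zero_iff.mpr fun i _ => (hnz i).out
  have hNZ : NeZero (∏ i : Ix S, nn S i) := ⟨hN0⟩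
  have hdvd : ∏ i : Ix S, nn S i ∣ m := by
    rw [hprod, ← hSm]; exact Nat.prod_primeFactors_dvd m
  obtain ⟨k, hk⟩ := hdvd
  have hk' : k * ∏ i : Ix S, nn S i = m := (mul_comm _ _).trans hk.symm
  have hk'' : k * ∏ p ∈ S, p = m := by rw [← hprod]; exact hk'
  have hpr : ∀ p, p.Prime → p ∣ m → p ∣ ∏ i : Ix S, nn S i := fun p hp hpm => by
    rw [hprod]; exact dvd_prod_of_mem (fun p => p) (hmem p hp hpm)
  have hcard5 : S.card ≤ 5 := by
    have := card_le_card hS13
    simpa using this
  let E : (∀ i, ZMod (nn S i)) ≃+* ZMod (∏ i : Ix S, nn S i) := (ZMod.prodEquivPi (nn S) hco).symm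
  obtain ⟨U, hU1, hU2⟩ := exists_lifts (m := m) (m0 := ∏ i : Ix S, nn S i) hm ⟨k, hk⟩
  have hGT : ∀ T : Finset (Ix S), T.card ≤ 3 → G (∏ i ∈ T, nn S i) := by
    intro T hT
    have hdT : ∏ i ∈ T, nn S i ∣ m :=
      (prod_dvd_prod_of_subset _ _ _ (subset_univ T)).trans ⟨k, hk⟩
    apply hG
    · obtain ⟨z, hz⟩ := hdT
      by_contra hcon
      have h5 : 2 ∣ ∏ i ∈ T, nn S i := by omega
      obtain ⟨y, hy⟩ := h5
      rw [hy] at hz
      have : m = 2 * (y * z) := by rw [hz]; ring
      omega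
    · intro p hp hpd
      exact hS13 (hmem p hp (hpd.trans hdT))
    · have hsub : (∏ i ∈ T, nn S i).primeFactors ⊆ T.map (Function.Embedding.subtype _) := by
        intro p hp
        have hp1 := Nat.prime_of_mem_primeFactors hp
        obtain ⟨i, hi, hpi⟩ := (Nat.Prime.prime hp1).exists_mem_finset_dvd
          (Nat.dvd_of_mem_primeFactors hp)
        rw [mem_map]
        exact ⟨i, hi, ((Nat.prime_dvd_prime_iff_eq hp1 (hSp i i.2)).mp hpi).symm⟩
      have := card_le_card hsub
      rw [card_map] at this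
      omega
  have hpp : ∀ p ∈ S, ∀ B : ℕ, p ∣ B → pp m p ∣ k * B := fun p hp B h =>
    (pp_iff_nat hSp hm hk'' hp B).mpr h
  by_cases h5 : S.card = 4
  · -- four primes
    have huniv : ∀ T : Finset (Ix S), T.card = 4 → T = univ := by
      intro T hT
      apply Finset.eq_univ_of_card
      rw [hT, Fintype.card_coe, h5]
    have hmap : (univ : Finset (Ix S)).map (Function.Embedding.subtype _) = S := by
      ext p
      simp
    obtain ⟨v, hv⟩ := exists_avoid (V := (ZMod (∏ i : Ix S, nn S i))ˣ) (K := 14) (B := 16) A hcardA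
      (fun v a => II m S.toList (U v) a)
      (fun a _ => bad_four (m := m) hSp hprod.symm h5 hU2 a) (by
        rw [card_param hSp hprod.symm]
        have := prod_bound S (mem_powerset.mpr hS13) h5
        omega)
    have hL : ∀ p ∈ S.toList, p.Prime := fun p hp => hSp p (Finset.mem_toList.mp hp)
    refine base_core hn hco hcard5 rfl E hk' hodd hpr (fun _ => II m S.toList (U v))
      (fun _ _ x y h => II_per h) (fun _ _ x y h => II_neg h) ?_ ?_
      (fun T => fun i => unOf ((∏ q ∈ S \ S, q) * U v) (nn S i)) ?_ ?_ A hrel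
      (fun _ _ a ha => hv a ha) hGT hC hK
    · intro _ _
      obtain ⟨p, hp⟩ : S.Nonempty := card_pos.mp (by omega)
      exact II_zero (q := p) (Finset.mem_toList.mpr hp) (dvd_zero _)
    · intro _ _ q d hq hqd B
      have hqm : q ∣ m := Dvd.intro d hqd
      exact (II_lin hq hqd hm (nd_unit hq hqm (hU1 v)) hL (Finset.nodup_toList S)
        (Finset.mem_toList.mpr (hmem q hq hqm))).2 B
    · intro T hT y hy
      have hTu := huniv T hT
      subst hTu
      exact II_eval hSp hm hprod.symm hk' E univ S hmap (hU1 v) y hy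
    · intro T hT y i _ hyi
      exact II_zero (q := (i : ℕ)) (Finset.mem_toList.mpr i.2) (hpp i i.2 _ (coord_none E y hyi))
  · -- five primes
    have h5' : S.card = 5 := by omega
    have hS5 : S = {3, 5, 7, 11, 13} := by
      apply Finset.eq_of_subset_of_card_le hS13
      rw [h5']; rfl
    have hr0 : ∀ T : Finset (Ix S), ∃ r : Ix S, T.card = 4 → T = univ.erase r := by
      intro T
      by_cases hT : T.card = 4
      · have h6 : (univ \ T).card = 1 := by
          rw [card_sdiff_of_subset (subset_univ T), card_univ, Fintype.card_coe, h5', hT]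
        obtain ⟨r, hr⟩ := card_eq_one.mp h6
        refine ⟨r, fun _ => ?_⟩
        ext i
        rw [mem_erase]
        constructor
        · intro hi
          refine ⟨fun e => ?_, mem_univ _⟩
          have : r ∈ univ \ T := by rw [hr]; exact mem_singleton_self r
          exact (mem_sdiff.mp this).2 (e ▸ hi)
        · rintro ⟨hi, _⟩
          by_contra h7
          have : i ∈ univ \ T := mem_sdiff.mpr ⟨mem_univ _, h7⟩
          rw [hr, mem_singleton] at this
          exact hi this
      · obtain ⟨p, hp⟩ : S.Nonempty := card_pos.mp (by omega)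
        exact ⟨⟨p, hp⟩, fun h => absurd h hT⟩
    choose r hr using hr0
    have hmap : ∀ T : Finset (Ix S), T.card = 4 →
        T.map (Function.Embedding.subtype _) = S.erase (r T : ℕ) := by
      intro T hT
      have h6 := hr T hT
      ext p
      rw [mem_map, mem_erase]
      constructor
      · rintro ⟨i, hi, rfl⟩
        rw [h6, mem_erase] at hi
        exact ⟨fun e => hi.1 (Subtype.ext e), i.2⟩
      · rintro ⟨hp1, hp2⟩
        refine ⟨⟨p, hp2⟩, ?_, rfl⟩
        rw [h6, mem_erase]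
        exact ⟨fun e => hp1 (congrArg Subtype.val e), mem_univ _⟩
    have hr13 : ∀ i : Ix S, (i : ℕ) ≤ 13 := by
      intro i
      have := hS13 i.2
      simp only [mem_insert, mem_singleton] at this
      omega
    have hv0 : ∀ i : Ix S, ∃ v : (ZMod (∏ i : Ix S, nn S i))ˣ, ∀ a ∈ A,
        DD m (S.erase (i : ℕ)).toList (i : ℕ) (U v) a = 0 := by
      intro i
      exact exists_avoid (V := (ZMod (∏ i : Ix S, nn S i))ˣ) (K := 14) (B := 208) A hcardA
        (fun v a => DD m (S.erase (i : ℕ)).toList (i : ℕ) (U v) a)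
        (fun a _ => bad_five (m := m) hSp hprod.symm h5' i.2 (hr13 i) hU2 a) (by
          rw [card_param hSp hprod.symm, hS5]
          decide)
    choose v hv using hv0
    have hL : ∀ j : Ix S, ∀ p ∈ (S.erase (j : ℕ)).toList, p.Prime ∧ p ≠ (j : ℕ) := fun j p hp => by
      have := Finset.mem_toList.mp hp
      exact ⟨hSp p (mem_of_mem_erase this), ne_of_mem_erase this⟩
    have hzero : ∀ (j : Ix S) (q : ℕ), q.Prime → q ∣ m → q ≠ (j : ℕ) → ∀ x, pp m q ∣ x →
        DD m (S.erase (j : ℕ)).toList (j : ℕ) (U (v j)) x = 0 := by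
      intro j q hq hqm hqj x hx
      obtain ⟨d, hd⟩ := hqm
      exact (DD_lin hq hd.symm hm (nd_unit hq (Dvd.intro d hd.symm) (hU1 (v j))) (hSp j j.2)
        (fun e => hqj e.symm) (fun p hp => (hL j p hp).1) (Finset.nodup_toList _)
        (Finset.mem_toList.mpr (mem_erase.mpr ⟨hqj, hmem q hq (Dvd.intro d hd.symm)⟩))).1 x hx
    refine base_core hn hco hcard5 rfl E hk' hodd hpr
      (fun T => DD m (S.erase (r T : ℕ)).toList (r T : ℕ) (U (v (r T))))
      (fun _ _ x y h => DD_per h) (fun _ _ x y h => DD_neg h) ?_ ?_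
      (fun T => fun i => unOf ((∏ q ∈ S \ S.erase (r T : ℕ), q) * U (v (r T))) (nn S i)) ?_ ?_ A hrel
      (fun T _ a ha => hv (r T) a ha) hGT hC hK
    · intro T _
      obtain ⟨p, hp⟩ : (S.erase (r T : ℕ)).Nonempty := card_pos.mp (by
        rw [card_erase_of_mem (r T).2]; omega)
      exact hzero (r T) p (hSp p (mem_of_mem_erase hp)) (hSd p (mem_of_mem_erase hp))
        (ne_of_mem_erase hp) 0 (dvd_zero _)
    · intro T _ q d hq hqd B
      have hqm : q ∣ m := Dvd.intro d hqd
      by_cases hqr : q = (r T : ℕ)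
      · rw [← hqr]
        exact DD_rel hq hqd hm (nd_unit hq hqm (hU1 (v (r T)))) (fun p hp => by
          have := hL (r T) p (by rw [← hqr]; exact hp)
          exact ⟨this.1, hqr ▸ this.2⟩) B
      · exact (DD_lin hq hqd hm (nd_unit hq hqm (hU1 (v (r T)))) (hSp (r T) (r T).2)
          (fun e => hqr e.symm) (fun p hp => (hL (r T) p hp).1) (Finset.nodup_toList _)
          (Finset.mem_toList.mpr (mem_erase.mpr ⟨hqr, hmem q hq hqm⟩))).2 B
    · intro T hT y hy
      have hrn : r T ∉ T := by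
        intro h
        exact (Finset.mem_erase.mp ((Finset.ext_iff.mp (hr T hT) (r T)).mp h)).1 rfl
      have hrT : y (r T) = none := hy _ hrn
      rw [DD_one (hpp (r T) (r T).2 _ (coord_none E y hrT))]
      exact II_eval hSp hm hprod.symm hk' E T (S.erase (r T : ℕ)) (hmap T hT) (hU1 (v (r T))) y hy
    · intro T hT y i hi hyi
      have hir : (i : ℕ) ≠ (r T : ℕ) := by
        intro e
        rw [hr T hT, mem_erase] at hi
        exact hi.1 (Subtype.ext e)
      exact hzero (r T) (i : ℕ) (hSp i i.2) (hSd i i.2) hir _ (hpp i i.2 _ (coord_none E y hyi))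

/-- the base of the induction -/
theorem base_all {G : ℕ → Prop}
    (hG : ∀ e, e % 2 = 1 → (∀ p, p.Prime → p ∣ e → p ∈ ({3, 5, 7, 11, 13} : Finset ℕ)) →
      e.primeFactors.card ≤ 3 → G e) :
    ∀ e, e % 2 = 1 →
      (∀ p, p.Prime → p ∣ e → p ∈ ({3, 5, 7, 11, 13} : Finset ℕ)) →
      ∀ A : Multiset ℕ, Multiset.card A ≤ 14 →
      (∀ a ∈ A, ¬ e ∣ a) → (∀ t, Nat.Coprime t e → SW e A t = 0) →
      ∀ (Q : Type) [AddCommGroup Q] (C : ZMod e → Q), OddDist C → KillsG G e C →
        (A.map fun a : ℕ => C (a : ZMod e)).sum = 0 := by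
  intro e hodd hpr A hcard hA hrel Q _ C hC hK
  have he : e ≠ 0 := by rintro rfl; simp at hodd
  have hN : NeZero e := ⟨he⟩
  by_cases h3 : e.primeFactors.card ≤ 3
  · have h1 := hK 1 e (one_mul e) (hG e hodd hpr h3) A hA hrel
    simpa only [one_mul] using h1
  · refine base_many (S := e.primeFactors) (fun p hp => hpr p (Nat.prime_of_mem_primeFactors hp)
      (Nat.dvd_of_mem_primeFactors hp)) (by omega) hodd rfl hG A hcard hrel hC hK

end Pool.Agent.U270.FT14
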