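import Pool.Agent.U270.FT14.Core3
import Pool.Agent.U270.FT14.Base5
import Pool.Agent.U270.FT14.Avoid3

/-!
# Levels with at most three prime factors
-/

set_option autoImplicit false
set_option linter.unusedSectionVars false

namespace Pool.Agent.U270.FT14

open Finset Pool.Agent.H916R2 Pool.Agent.N992 Pool.Agent.N993 Pool.Agent.N993.Dat Pool.Agent.Y2
  Pool.Agent.U270.SX

theorem base_core3 {G : ℕ → Prop} {S : Finset ℕ} [∀ i : Ix S, NeZero (nn S i)]
    (hn : Adm' (nn S)) (hco : Pairwise (fun i j : Ix S => (nn S i).Coprime (nn S j)))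
    (hcard : S.card ≤ 3) (B : Finset (Ix S) → Prop) (hB : ∀ T, B T → T.card = 2) {m m0 k : ℕ} [NeZero m] [NeZero m0] (hN : ∏ i : Ix S, nn S i = m0)
    (E : (∀ i, ZMod (nn S i)) ≃+* ZMod m0) (hk : k * m0 = m) (hodd : m % 2 = 1)
    (hpr : ∀ p, p.Prime → p ∣ m → p ∣ m0)
    (F : Finset (Ix S) → ℕ → ZMod 2)
    (hFper : ∀ T : Finset (Ix S), B T → ∀ x y, x ≡ y [MOD m] → F T x = F T y)
    (hFneg : ∀ T : Finset (Ix S), B T → ∀ x y, m ∣ x + y → F T y = F T x)
    (hF0 : ∀ T : Finset (Ix S), B T → F T 0 = 0)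
    (hFrel : ∀ T : Finset (Ix S), B T → ∀ q d : ℕ, q.Prime → q * d = m → ∀ A,
      ∑ i ∈ range q, F T (A + i * d) = F T (q * A))
    (w : Finset (Ix S) → (cyc (nn S)).GG)
    (hF1 : ∀ T : Finset (Ix S), B T → ∀ y, (cyc (nn S)).Supp T y →
      F T (k * (E (emb y)).val) = ((top (w T) T y : ℤ) : ZMod 2))
    (hF2 : ∀ T : Finset (Ix S), B T → ∀ (y : (cyc (nn S)).Pt) (i : Ix S), i ∈ T →
      y i = none → F T (k * (E (emb y)).val) = 0)
    (A : Multiset ℕ) (hrel : ∀ t, Nat.Coprime t m → SW m A t = 0)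
    (hFA : ∀ T : Finset (Ix S), B T → (A.map (F T)).sum = 0)
    (hG : ∀ T : Finset (Ix S), T.card ≤ 2 → ¬ B T → G (∏ i ∈ T, nn S i))
    {Q : Type} [AddCommGroup Q] {C : ZMod m → Q} (hC : OddDist C) (hK : KillsG G m C) :
    (A.map fun a : ℕ => C (a : ZMod m)).sum = 0 := by
  classical
  have hm : m ≠ 0 := NeZero.ne m
  have hDm : ∀ T : Finset (Ix S), B T → OddDist (fun a : ZMod m => F T a.val) := fun T hT =>
    oddDist_of hodd (F T) (hFper T hT) (hFneg T hT) (hF0 T hT) (hFrel T hT)
  let c2 : ZMod m → Q × (Finset (Ix S) → ZMod 2) :=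
    fun a => (C a, fun T => if B T then F T a.val else 0)
  have hc2 : OddDist c2 := by
    refine ⟨fun a => ?_, fun a ha => ?_, fun p d hp hpd a => ?_⟩
    · refine Prod.ext (hC.neg a) (funext fun T => ?_)
      change (if B T then F T (-a).val else 0) = -(if B T then F T a.val else 0)
      by_cases hT4 : B T
      · rw [if_pos hT4, if_pos hT4]; exact (hDm T hT4).neg a
      · rw [if_neg hT4, if_neg hT4, neg_zero]
    · refine Prod.ext (hC.half a ha) (funext fun T => ?_)
      change (if B T then F T a.val else 0) = 0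
      by_cases hT4 : B T
      · rw [if_pos hT4]; exact (hDm T hT4).half a ha
      · rw [if_neg hT4]
    · refine Prod.ext ?_ (funext fun T => ?_)
      · rw [Prod.fst_sum]; exact hC.dist p d hp hpd a
      · rw [Prod.snd_sum, Finset.sum_apply]
        change ∑ i ∈ range p, (if B T then F T (a + (i : ZMod m) * (d : ZMod m)).val else 0) =
          (if B T then F T ((p : ZMod m) * a).val else 0)
        by_cases hT4 : B T
        · simp only [if_pos hT4]; exact (hDm T hT4).dist p d hp hpd a
        · simp only [if_neg hT4, sum_const_zero]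
  set s : Multiset (ZMod m) := A.map (fun a : ℕ => (a : ZMod m)) with hs
  have hx : Rel (fun a : ZMod m => ((s.count a : ℕ) : ℤ)) := by
    intro t
    have h := sum_count s (fun a => saw ((t : ZMod m) * a))
    have h1 : (s.map fun a => saw ((t : ZMod m) * a)).sum = 0 := by
      have h2 := hrel (t : ZMod m).val (ZMod.val_coe_unit_coprime t)
      unfold SW at h2
      rw [hs, Multiset.map_map, ← h2]
      congr 1
      apply Multiset.map_congr rfl
      intro a _
      simp only [Function.comp_apply]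
      push_cast
      rw [ZMod.natCast_zmod_val]
    rw [h1] at h
    simpa using h
  have h4 : 4 ∣ m → 4 ∣ m0 := fun h => by
    exfalso
    obtain ⟨z, hz⟩ := h
    omega
  obtain ⟨x0, hx0, he⟩ := red_exists k m m0 k rfl hk hpr h4 _ c2 hc2 _ hx
  have he1 : ∑ a, ((s.count a : ℕ) : ℤ) • C a = ∑ b : ZMod m0, x0 b • C (iota k b) := by
    have := congrArg Prod.fst he
    rw [Prod.fst_sum, Prod.fst_sum] at this
    exact this
  have he2 : ∀ T : Finset (Ix S), B T →
      ∑ a, ((s.count a : ℕ) : ℤ) • F T a.val =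
        ∑ b : ZMod m0, x0 b • F T (iota k b : ZMod m).val := by
    intro T hT4
    have := congrArg (fun z => (Prod.snd z) T) he
    change (∑ a, ((s.count a : ℕ) : ℤ) • c2 a).2 T = (∑ b : ZMod m0, x0 b • c2 (iota k b)).2 T at this
    rw [Prod.snd_sum, Prod.snd_sum, Finset.sum_apply, Finset.sum_apply] at this
    have e1 : ∀ a : ZMod m, (((s.count a : ℕ) : ℤ) • c2 a).2 T =
        ((s.count a : ℕ) : ℤ) • F T a.val := by
      intro a
      change ((s.count a : ℕ) : ℤ) • (if B T then F T a.val else 0) = _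
      rw [if_pos hT4]
    have e2 : ∀ b : ZMod m0, (x0 b • c2 (iota k b)).2 T = x0 b • F T (iota k b : ZMod m).val := by
      intro b
      change x0 b • (if B T then F T (iota k b : ZMod m).val else 0) = _
      rw [if_pos hT4]
    simp only [e1, e2] at this
    exact this
  have hzero : ∀ T : Finset (Ix S), B T →
      ∑ b : ZMod m0, x0 b • F T (iota k b : ZMod m).val = 0 := by
    intro T hT4
    rw [← he2 T hT4, sum_count s (fun a : ZMod m => F T a.val), hs, Multiset.map_map,
      ← hFA T hT4]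
    congr 1
    apply Multiset.map_congr rfl
    intro a _
    simp only [Function.comp_apply]
    rw [ZMod.val_natCast, hFper T hT4 _ a (Nat.mod_modEq a m)]
  have hval : ∀ T : Finset (Ix S), B T → ∀ b : ZMod m0,
      F T (iota k b : ZMod m).val = F T (k * b.val) := by
    intro T hT4 b
    apply hFper T hT4
    unfold iota
    rw [ZMod.val_natCast]
    exact Nat.mod_modEq _ _
  have hfin := core2 hn hco hN E (by rw [Fintype.card_coe]; exact hcard) B hB
    (c := fun b : ZMod m0 => C (iota k b)) (hC.comp_iota hk)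
    (by
      intro T hT hTB mT l _ hmT hl x hx
      have h1 : ∀ b : ZMod mT, C (iota k (iota l b : ZMod m0)) = C (iota (k * l) b) := by
        intro b; rw [iota_comp hk]
      simp only [h1]
      have h2 : k * l * mT = m := by rw [mul_assoc, hl, hk]
      refine kills_rel h2 hC hK ?_ x hx
      rw [← hmT]
      exact hG T hT hTB)
    w (fun T b => F T (iota k b : ZMod m).val)
    (fun T hT4 => (hDm T hT4).comp_iota hk)
    (fun T hT4 y hy => by
      beta_reduce
      rw [hval T hT4]
      exact hF1 T hT4 y hy)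
    (fun T hT4 y i hi hyi => by
      beta_reduce
      rw [hval T hT4]
      exact hF2 T hT4 y i hi hyi)
    x0 hx0 hzero
  rw [← he1, sum_count, hs, Multiset.map_map] at hfin
  exact hfin


/-- two primes -/
lemma bad_two {m m0 : ℕ} {S : Finset ℕ} (hS : ∀ p ∈ S, p.Prime) (hm0 : ∏ p ∈ S, p = m0)
    [NeZero m0] (hcard : S.card = 2)
    {U : (ZMod m0)ˣ → ℕ} (hU : ∀ v, ((U v : ℕ) : ZMod m0) = (v : ZMod m0)) (a : ℕ) :
    (univ.filter fun v : (ZMod m0)ˣ => II m S.toList (U v) a ≠ 0).card ≤ 4 := by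
  have hL : ∀ p ∈ S.toList, p.Prime := fun p hp => hS p (Finset.mem_toList.mp hp)
  have h1 := card_bad (univ.filter fun v : (ZMod m0)ˣ => II m S.toList (U v) a ≠ 0)
    (CI S.toList.length) (fun v κ => Hit m (U v) a S.toList κ)
    (fun v hv => II_ne hL (mem_filter.mp hv).2) (fun v1 v2 κ hv1 hv2 => by
      apply param_eq hS hm0 hU
      intro p hp
      exact det_all hL hv1 hv2 p (Finset.mem_toList.mpr hp))
  have h2 := card_CI S.toList.length
  rw [Finset.length_toList, hcard] at h1 h2
  omega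

lemma oddDist_zero {m : ℕ} : OddDist (fun _ : ZMod m => (0 : ZMod 2)) where
  neg := fun _ => by simp
  half := fun _ _ => rfl
  dist := fun p d _ _ _ => by simp

/-- at most three primes -/
theorem base_three {G : ℕ → Prop} {S : Finset ℕ} {m : ℕ} [NeZero m] (hodd : m % 2 = 1)
    (hSm : m.primeFactors = S) (hcard : S.card ≤ 3) {K : ℕ}
    (hG : ∀ T ⊆ S, T.card ≤ 2 → ¬ (T.card = 2 ∧ 4 * K < ∏ p ∈ T, (p - 1)) → G (∏ p ∈ T, p))
    (A : Multiset ℕ) (hcardA : Multiset.card A ≤ K) (hrel : ∀ t, Nat.Coprime t m → SW m A t = 0)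
    {Q : Type} [AddCommGroup Q] {C : ZMod m → Q} (hC : OddDist C) (hK : KillsG G m C)
    (hev : ∀ T ⊆ S, T.card = 2 → 4 * K < ∏ p ∈ T, (p - 1) → S.card = 3 →
      ∀ u : ℕ, Nat.Coprime u m → (A.map (II m S.toList u)).sum = 0) :
    (A.map fun a : ℕ => C (a : ZMod m)).sum = 0 := by
  classical
  have hm : m ≠ 0 := NeZero.ne m
  have hSp : ∀ p ∈ S, p.Prime := fun p hp => by
    rw [← hSm] at hp; exact Nat.prime_of_mem_primeFactors hp
  have hSd : ∀ p ∈ S, p ∣ m := fun p hp => by
    rw [← hSm] at hp; exact Nat.dvd_of_mem_primeFactors hp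
  have hSo : ∀ p ∈ S, p % 2 = 1 := fun p hp => by
    obtain ⟨z, hz⟩ := hSd p hp
    rcases (hSp p hp).eq_two_or_odd with h | h
    · rw [h] at hz; omega
    · exact h
  have hmem : ∀ p, p.Prime → p ∣ m → p ∈ S := fun p hp hpm => by
    rw [← hSm]; exact Nat.mem_primeFactors.mpr ⟨hp, hpm, hm⟩
  have hadm : ∀ x ∈ S, (x.Prime ∧ x % 2 = 1) ∨ x = 4 := fun x hx => Or.inl ⟨hSp x hx, hSo x hx⟩
  have hnz : ∀ i : Ix S, NeZero (nn S i) := fun i => ⟨(hSp i i.2).ne_zero⟩
  have hn : Adm' (nn S) := fun i => hadm i i.2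
  have hco : Pairwise (fun i j : Ix S => (nn S i).Coprime (nn S j)) := fun i j hij =>
    (Nat.coprime_primes (hSp i i.2) (hSp j j.2)).mpr (fun h => hij (Subtype.ext h))
  have hprod : ∏ i : Ix S, nn S i = ∏ p ∈ S, p := Finset.prod_coe_sort S (fun p => p)
  have hN0 : ∏ i : Ix S, nn S i ≠ 0 := prod_ne_zero_iff.mpr fun i _ => (hnz i).out
  have hNZ : NeZero (∏ i : Ix S, nn S i) := ⟨hN0⟩
  have hdvd : ∏ i : Ix S, nn S i ∣ m := by
    rw [hprod, ← hSm]; exact Nat.prod_primeFactors_dvd m
  obtain ⟨k, hk⟩ := hdvd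
  have hk' : k * ∏ i : Ix S, nn S i = m := (mul_comm _ _).trans hk.symm
  have hk'' : k * ∏ p ∈ S, p = m := by rw [← hprod]; exact hk'
  have hpr : ∀ p, p.Prime → p ∣ m → p ∣ ∏ i : Ix S, nn S i := fun p hp hpm => by
    rw [hprod]; exact dvd_prod_of_mem (fun p => p) (hmem p hp hpm)
  let E : (∀ i, ZMod (nn S i)) ≃+* ZMod (∏ i : Ix S, nn S i) := (ZMod.prodEquivPi (nn S) hco).symm
  have hpp : ∀ p ∈ S, ∀ B : ℕ, p ∣ B → pp m p ∣ k * B := fun p hp B h =>
    (pp_iff_nat hSp hm hk'' hp B).mpr h
  let B : Finset (Ix S) → Prop := fun T => T.card = 2 ∧ 4 * K < ∏ i ∈ T, (nn S i - 1)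
  have hGT : ∀ T : Finset (Ix S), T.card ≤ 2 → ¬ B T → G (∏ i ∈ T, nn S i) := by
    intro T hT hB
    have e1 : ∏ i ∈ T, nn S i = ∏ p ∈ T.map (Function.Embedding.subtype _), p := by
      rw [prod_map]; rfl
    have e2 : ∏ i ∈ T, (nn S i - 1) = ∏ p ∈ T.map (Function.Embedding.subtype _), (p - 1) := by
      rw [prod_map]; rfl
    rw [e1]
    apply hG
    · intro p hp
      obtain ⟨i, _, rfl⟩ := mem_map.mp hp
      exact i.2
    · rw [card_map]; exact hT
    · rw [card_map, ← e2]; exact hB
  have hF : ∀ T : Finset (Ix S), ∃ (F : ℕ → ZMod 2) (w : (cyc (nn S)).GG), B T →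
      (∀ x y, x ≡ y [MOD m] → F x = F y) ∧ (∀ x y, m ∣ x + y → F y = F x) ∧ F 0 = 0 ∧
      (∀ q d : ℕ, q.Prime → q * d = m → ∀ A, ∑ i ∈ range q, F (A + i * d) = F (q * A)) ∧
      (∀ y, (cyc (nn S)).Supp T y → F (k * (E (emb y)).val) = ((top w T y : ℤ) : ZMod 2)) ∧
      (∀ (y : (cyc (nn S)).Pt) (i : Ix S), i ∈ T → y i = none → F (k * (E (emb y)).val) = 0) ∧
      (A.map F).sum = 0 := by
    intro T
    by_cases hT : B T
    swap
    · exact ⟨fun _ => 0, 1, fun h => absurd h hT⟩
    obtain ⟨hT2, hTK⟩ := hT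
    have hS2 : 2 ≤ S.card := by
      have := card_le_univ T
      rw [Fintype.card_coe] at this
      omega
    by_cases h3 : S.card = 3
    · -- three primes
      have h6 : (univ \ T).card = 1 := by
        rw [card_sdiff_of_subset (subset_univ T), card_univ, Fintype.card_coe, h3, hT2]
      obtain ⟨r, hr⟩ := card_eq_one.mp h6
      have hTr : T = univ.erase r := by
        ext i
        rw [mem_erase]
        constructor
        · intro hi
          refine ⟨fun e => ?_, mem_univ _⟩
          have : r ∈ univ \ T := by rw [hr]; exact mem_singleton_self r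
          exact (mem_sdiff.mp this).2 (e ▸ hi)
        · rintro ⟨hi, _⟩
          by_contra h7
          have : i ∈ univ \ T := mem_sdiff.mpr ⟨mem_univ _, h7⟩
          rw [hr, mem_singleton] at this
          exact hi this
      have hmap : T.map (Function.Embedding.subtype _) = S.erase (r : ℕ) := by
        ext p
        rw [mem_map, mem_erase]
        constructor
        · rintro ⟨i, hi, rfl⟩
          rw [hTr, mem_erase] at hi
          exact ⟨fun e => hi.1 (Subtype.ext e), i.2⟩
        · rintro ⟨hp1, hp2⟩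
          refine ⟨⟨p, hp2⟩, ?_, rfl⟩
          rw [hTr, mem_erase]
          exact ⟨fun e => hp1 (congrArg Subtype.val e), mem_univ _⟩
      have hlen : (S.erase (r : ℕ)).toList.length = 2 := by
        rw [Finset.length_toList, card_erase_of_mem r.2, h3]
      obtain ⟨p, q, hL⟩ := List.length_eq_two.mp hlen
      have hmemL : ∀ l, l ∈ S.erase (r : ℕ) ↔ l = p ∨ l = q := by
        intro l
        rw [← Finset.mem_toList, hL]
        simp
      have hpE := (hmemL p).mpr (Or.inl rfl)
      have hqE := (hmemL q).mpr (Or.inr rfl)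
      have hnd : p ≠ q := by
        have := Finset.nodup_toList (S.erase (r : ℕ))
        rw [hL] at this
        simpa using this
      have hpS := mem_of_mem_erase hpE
      have hqS := mem_of_mem_erase hqE
      have hrp : (r : ℕ) ≠ p := (ne_of_mem_erase hpE).symm
      have hrq : (r : ℕ) ≠ q := (ne_of_mem_erase hqE).symm
      have hSe : S.erase (r : ℕ) = {p, q} := by
        ext l
        rw [hmemL, mem_insert, mem_singleton]
      have hprodpq : ∏ i ∈ T, (nn S i - 1) = (p - 1) * (q - 1) := by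
        have e2 : ∏ i ∈ T, (nn S i - 1) = ∏ p ∈ T.map (Function.Embedding.subtype _), (p - 1) := by
          rw [prod_map]; rfl
        rw [e2, hmap, hSe, prod_pair hnd]
      rw [hprodpq] at hTK
      obtain ⟨u, hu, hsum⟩ := avoid3 (m := m) (hSp r r.2) (hSp p hpS) (hSp q hqS) hrp hrq hnd
        (hSd r r.2) (hSd p hpS) (hSd q hqS) (by
          intro l hl hlm
          have h7 := hmem l hl hlm
          by_cases h8 : l = r
          · exact Or.inl h8
          · exact Or.inr ((hmemL l).mp (mem_erase.mpr ⟨h8, h7⟩))) hodd A hcardA hTK (by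
          intro u hu
          rw [← hev (S.erase (r : ℕ)) (erase_subset _ _)
            (by rw [card_erase_of_mem r.2, h3]) (by rw [hSe, prod_pair hnd]; exact hTK) h3 u hu]
          congr 1
          apply Multiset.map_congr rfl
          intro x _
          rw [II_prod, II_cons, ← hL, II_prod,
            mul_prod_erase S (fun p => dl m p (u : ℤ) x + dl m p (-(u : ℤ)) x) r.2])
      rw [← hL] at hsum
      have hLp : ∀ p ∈ (S.erase (r : ℕ)).toList, p.Prime ∧ p ≠ (r : ℕ) := fun p hp => by
        have := Finset.mem_toList.mp hp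
        exact ⟨hSp p (mem_of_mem_erase this), ne_of_mem_erase this⟩
      have hzero : ∀ (q : ℕ), q.Prime → q ∣ m → q ≠ (r : ℕ) → ∀ x, pp m q ∣ x →
          DD m (S.erase (r : ℕ)).toList (r : ℕ) u x = 0 := by
        intro q hq hqm hqj x hx
        obtain ⟨d, hd⟩ := hqm
        exact (DD_lin hq hd.symm hm (nd_unit hq (Dvd.intro d hd.symm) hu) (hSp r r.2)
          (fun e => hqj e.symm) (fun p hp => (hLp p hp).1) (Finset.nodup_toList _)
          (Finset.mem_toList.mpr (mem_erase.mpr ⟨hqj, hmem q hq (Dvd.intro d hd.symm)⟩))).1 x hx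
      refine ⟨DD m (S.erase (r : ℕ)).toList (r : ℕ) u,
        fun i => unOf ((∏ q ∈ S \ S.erase (r : ℕ), q) * u) (nn S i), fun _ =>
        ⟨fun x y h => DD_per h, fun x y h => DD_neg h, ?_, ?_, ?_, ?_, hsum⟩⟩
      · exact hzero p (hSp p hpS) (hSd p hpS) hrp.symm 0 (dvd_zero _)
      · intro q d hq hqd B
        have hqm : q ∣ m := Dvd.intro d hqd
        by_cases hqr : q = (r : ℕ)
        · rw [← hqr]
          exact DD_rel hq hqd hm (nd_unit hq hqm hu) (fun p hp => by
            have := hLp p (by rw [← hqr]; exact hp)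
            exact ⟨this.1, hqr ▸ this.2⟩) B
        · exact (DD_lin hq hqd hm (nd_unit hq hqm hu) (hSp r r.2)
            (fun e => hqr e.symm) (fun p hp => (hLp p hp).1) (Finset.nodup_toList _)
            (Finset.mem_toList.mpr (mem_erase.mpr ⟨hqr, hmem q hq hqm⟩))).2 B
      · intro y hy
        have hrn : r ∉ T := by
          intro h
          exact (Finset.mem_erase.mp ((Finset.ext_iff.mp hTr r).mp h)).1 rfl
        have hrT : y r = none := hy _ hrn
        rw [DD_one (hpp r r.2 _ (coord_none E y hrT))]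
        exact II_eval hSp hm hprod.symm hk' E T (S.erase (r : ℕ)) hmap hu y hy
      · intro y i hi hyi
        have hir : (i : ℕ) ≠ (r : ℕ) := by
          intro e
          rw [hTr, mem_erase] at hi
          exact hi.1 (Subtype.ext e)
        exact hzero (i : ℕ) (hSp i i.2) (hSd i i.2) hir _ (hpp i i.2 _ (coord_none E y hyi))
    · -- two primes
      have h2 : S.card = 2 := by omega
      have hTu : T = univ := by
        apply Finset.eq_univ_of_card
        rw [hT2, Fintype.card_coe, h2]
      subst hTu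
      have hmap : (univ : Finset (Ix S)).map (Function.Embedding.subtype _) = S := by
        ext p
        simp
      obtain ⟨U, hU1, hU2⟩ := exists_lifts (m := m) (m0 := ∏ i : Ix S, nn S i) hm ⟨k, hk⟩
      obtain ⟨v, hv⟩ := exists_avoid (V := (ZMod (∏ i : Ix S, nn S i))ˣ) (K := K) (B := 4) A hcardA
        (fun v a => II m S.toList (U v) a)
        (fun a _ => bad_two (m := m) hSp hprod.symm h2 hU2 a) (by
          rw [card_param hSp hprod.symm]
          have e2 : ∏ i : Ix S, (nn S i - 1) = ∏ p ∈ S, (p - 1) :=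
            Finset.prod_coe_sort S (fun p => p - 1)
          rw [← e2]
          omega)
      have hL : ∀ p ∈ S.toList, p.Prime := fun p hp => hSp p (Finset.mem_toList.mp hp)
      refine ⟨II m S.toList (U v), fun i => unOf ((∏ q ∈ S \ S, q) * U v) (nn S i), fun _ =>
        ⟨fun x y h => II_per h, fun x y h => II_neg h, ?_, ?_, ?_, ?_, ?_⟩⟩
      · obtain ⟨p, hp⟩ : S.Nonempty := card_pos.mp (by omega)
        exact II_zero (q := p) (Finset.mem_toList.mpr hp) (dvd_zero _)
      · intro q d hq hqd B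
        have hqm : q ∣ m := Dvd.intro d hqd
        exact (II_lin hq hqd hm (nd_unit hq hqm (hU1 v)) hL (Finset.nodup_toList S)
          (Finset.mem_toList.mpr (hmem q hq hqm))).2 B
      · intro y hy
        exact II_eval hSp hm hprod.symm hk' E univ S hmap (hU1 v) y hy
      · intro y i _ hyi
        exact II_zero (q := (i : ℕ)) (Finset.mem_toList.mpr i.2) (hpp i i.2 _ (coord_none E y hyi))
      · apply Multiset.sum_eq_zero
        intro z hz
        obtain ⟨a, ha, rfl⟩ := Multiset.mem_map.mp hz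
        exact hv a ha
  choose F w hFw using hF
  exact base_core3 hn hco hcard B (fun T h => h.1) rfl E hk' hodd hpr F
    (fun T hT => (hFw T hT).1) (fun T hT => (hFw T hT).2.1) (fun T hT => (hFw T hT).2.2.1)
    (fun T hT => (hFw T hT).2.2.2.1) w (fun T hT => (hFw T hT).2.2.2.2.1)
    (fun T hT => (hFw T hT).2.2.2.2.2.1) A hrel (fun T hT => (hFw T hT).2.2.2.2.2.2) hGT hC hK

/-- the classes of the units modulo the signs contain an even number of entries -/
lemma II_even {m : ℕ} [NeZero m] (hodd : m % 2 = 1) {S : Finset ℕ} (hSm : m.primeFactors = S)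
    (h3 : S.card = 3) (A : Multiset ℕ) (hrel : ∀ t, Nat.Coprime t m → SW m A t = 0)
    (u : ℕ) (hu : Nat.Coprime u m) : (A.map (II m S.toList u)).sum = 0 := by
  classical
  have hm : m ≠ 0 := NeZero.ne m
  have hSp : ∀ p ∈ S, p.Prime := fun p hp => by
    rw [← hSm] at hp; exact Nat.prime_of_mem_primeFactors hp
  have hSd : ∀ p ∈ S, p ∣ m := fun p hp => by
    rw [← hSm] at hp; exact Nat.dvd_of_mem_primeFactors hp
  have hmem : ∀ p, p.Prime → p ∣ m → p ∈ S := fun p hp hpm => by
    rw [← hSm]; exact Nat.mem_primeFactors.mpr ⟨hp, hpm, hm⟩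
  have hL : ∀ p ∈ S.toList, p.Prime := fun p hp => hSp p (Finset.mem_toList.mp hp)
  obtain ⟨p0, hp0⟩ : S.Nonempty := card_pos.mp (by omega)
  have hD : OddDist (fun a : ZMod m => II m S.toList (u : ℤ) a.val) := by
    refine oddDist_of hodd _ (fun x y h => II_per h) (fun x y h => II_neg h)
      (II_zero (Finset.mem_toList.mpr hp0) (dvd_zero _)) ?_
    intro q d hq hqd B
    have hqm : q ∣ m := Dvd.intro d hqd
    exact (II_lin hq hqd hm (nd_unit hq hqm hu) hL (Finset.nodup_toList S)
      (Finset.mem_toList.mpr (hmem q hq hqm))).2 B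
  have hK : KillsG (fun e => e.primeFactors.card ≤ 2) m
      (fun a : ZMod m => II m S.toList (u : ℤ) a.val) := by
    intro l e hle hg A' _ _
    have he0 : e ≠ 0 := by rintro rfl; rw [mul_zero] at hle; exact hm hle.symm
    obtain ⟨r, hrS, hre⟩ : ∃ r ∈ S, r ∉ e.primeFactors := by
      by_contra hcon
      push Not at hcon
      have h4 : S ⊆ e.primeFactors := hcon
      have := card_le_card h4
      omega
    have hr := hSp r hrS
    have hrne : ¬ r ∣ e := fun h => hre (Nat.mem_primeFactors.mpr ⟨hr, h, he0⟩)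
    have hcop : Nat.Coprime (pp m r) e :=
      Nat.Coprime.pow_left _ ((Nat.Prime.coprime_iff_not_dvd hr).mpr hrne)
    have hpl : pp m r ∣ l := by
      apply hcop.dvd_of_dvd_mul_right
      rw [hle]; exact pp_dvd m r
    apply Multiset.sum_eq_zero
    intro z hz
    obtain ⟨a, _, rfl⟩ := Multiset.mem_map.mp hz
    beta_reduce
    rw [ZMod.val_natCast, II_per (Nat.mod_modEq (l * a) m)]
    exact II_zero (Finset.mem_toList.mpr hrS) (hpl.mul_right a)
  have h1 := base_three (G := fun e => e.primeFactors.card ≤ 2) (K := Multiset.card A + ∏ p ∈ S, p)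
    hodd hSm h3.le (by
      intro T hT hT2 _
      beta_reduce
      rw [Nat.primeFactors_prod fun p hp => hSp p (hT hp)]
      exact hT2) A (Nat.le_add_right _ _) hrel hD hK (by
      intro T hT _ hbig
      exfalso
      have h4 : ∏ p ∈ T, (p - 1) ≤ ∏ p ∈ T, p :=
        Finset.prod_le_prod' fun p _ => Nat.sub_le p 1
      have h5 : ∏ p ∈ T, p ≤ ∏ p ∈ S, p :=
        Nat.le_of_dvd (prod_pos fun p hp => (hSp p hp).pos) (prod_dvd_prod_of_subset _ _ _ hT)
      omega)
  rw [← h1]
  congr 1
  apply Multiset.map_congr rfl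
  intro a _
  rw [ZMod.val_natCast, II_per (Nat.mod_modEq a m)]

/-- **At most three primes.** -/
theorem base_small {G : ℕ → Prop} {m : ℕ} [NeZero m] (hodd : m % 2 = 1)
    (hcard : m.primeFactors.card ≤ 3) {K : ℕ}
    (hG : ∀ T ⊆ m.primeFactors, T.card ≤ 2 → ¬ (T.card = 2 ∧ 4 * K < ∏ p ∈ T, (p - 1)) →
      G (∏ p ∈ T, p))
    (A : Multiset ℕ) (hcardA : Multiset.card A ≤ K) (hrel : ∀ t, Nat.Coprime t m → SW m A t = 0)
    {Q : Type} [AddCommGroup Q] {C : ZMod m → Q} (hC : OddDist C) (hK : KillsG G m C) :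
    (A.map fun a : ℕ => C (a : ZMod m)).sum = 0 :=
  base_three hodd rfl hcard hG A hcardA hrel hC hK (fun _ _ _ _ h3 u hu =>
    II_even hodd rfl h3 A hrel u hu)

end Pool.Agent.U270.FT14
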