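import Pool.Agent.U270.FT14.MainP
import Pool.Agent.U270.FT14.Base3
import Pool.Agent.U270.SX.Final

/-!
# Hodge characters with at most fourteen entries of odd degree, published generators only
-/

set_option autoImplicit false

namespace Pool.Agent.U270.FT14

open Finset Pool.Agent.H916R2 Pool.Agent.Y2 Pool.Agent.Y2.Cv Pool.Agent.U270.SX

lemma gd_dvd {e : ℕ} (h : e ∣ 105 ∨ e ∣ 33 ∨ e ∣ 39) : GoodDegree2 (2 * e) := by
  rcases h with h | h | h
  · refine good2_smooth ?_ ?_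
    · obtain ⟨z, hz⟩ := h
      by_contra h2
      have : e = 2 * (e / 2) := by omega
      rw [this, mul_assoc] at hz
      omega
    · intro p hp hpe
      have h3 : p ∣ 3 * 5 * 7 := hpe.trans h
      rcases hp.dvd_mul.mp h3 with h4 | h4
      · rcases hp.dvd_mul.mp h4 with h5 | h5
        · exact Or.inl ((Nat.prime_dvd_prime_iff_eq hp Nat.prime_three).mp h5)
        · exact Or.inr (Or.inl ((Nat.prime_dvd_prime_iff_eq hp Nat.prime_five).mp h5))
      · exact Or.inr (Or.inr ((Nat.prime_dvd_prime_iff_eq hp (by norm_num)).mp h4))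
  · right; right; right; left
    intro p hp hpe
    have h3 : p ∣ 2 * (3 * 11) := hpe.trans (Nat.mul_dvd_mul_left 2 h)
    rcases hp.dvd_mul.mp h3 with h4 | h4
    · exact Or.inl ((Nat.prime_dvd_prime_iff_eq hp Nat.prime_two).mp h4)
    · rcases hp.dvd_mul.mp h4 with h5 | h5
      · exact Or.inr (Or.inl ((Nat.prime_dvd_prime_iff_eq hp Nat.prime_three).mp h5))
      · exact Or.inr (Or.inr ((Nat.prime_dvd_prime_iff_eq hp (by norm_num)).mp h5))
  · right; right; right; right; left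
    intro p hp hpe
    have h3 : p ∣ 2 * (3 * 13) := hpe.trans (Nat.mul_dvd_mul_left 2 h)
    rcases hp.dvd_mul.mp h3 with h4 | h4
    · exact Or.inl ((Nat.prime_dvd_prime_iff_eq hp Nat.prime_two).mp h4)
    · rcases hp.dvd_mul.mp h4 with h5 | h5
      · exact Or.inr (Or.inl ((Nat.prime_dvd_prime_iff_eq hp Nat.prime_three).mp h5))
      · exact Or.inr (Or.inr ((Nat.prime_dvd_prime_iff_eq hp (by norm_num)).mp h5))

lemma good102 : GoodDegree2 (2 * 51) := by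
  right; right; right; right; right; left
  refine ⟨by norm_num, Or.inr (Or.inl ?_)⟩
  intro p hp hpm
  have h : p ∣ 2 * (3 * 17) := hpm
  rcases hp.dvd_mul.mp h with h | h
  · exact Or.inl ((Nat.prime_dvd_prime_iff_eq hp Nat.prime_two).mp h)
  · rcases hp.dvd_mul.mp h with h | h
    · exact Or.inr (Or.inl ((Nat.prime_dvd_prime_iff_eq hp Nat.prime_three).mp h))
    · exact Or.inr (Or.inr ((Nat.prime_dvd_prime_iff_eq hp (by norm_num)).mp h))

lemma good_sets14 : ∀ T ∈ ({3, 5, 7, 11, 13} : Finset ℕ).powerset, T.card ≤ 2 →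
    ¬ (T.card = 2 ∧ 4 * 14 < ∏ p ∈ T, (p - 1)) → ¬ (5 ∈ T ∧ 11 ∈ T) → ¬ (5 ∈ T ∧ 13 ∈ T) →
    (∏ p ∈ T, p ∣ 105 ∨ ∏ p ∈ T, p ∣ 33 ∨ ∏ p ∈ T, p ∣ 39) := by
  decide +kernel

lemma good_sets10 : ∀ T ∈ ({3, 5, 7, 11, 13} : Finset ℕ).powerset, T.card ≤ 2 →
    ¬ (T.card = 2 ∧ 4 * 10 < ∏ p ∈ T, (p - 1)) → ¬ (5 ∈ T ∧ 11 ∈ T) →
    (∏ p ∈ T, p ∣ 105 ∨ ∏ p ∈ T, p ∣ 33 ∨ ∏ p ∈ T, p ∣ 39) := by
  decide +kernel

lemma card_sets : ∀ S ∈ ({3, 5, 7, 11, 13} : Finset ℕ).powerset, ¬ (5 ∈ S ∧ 11 ∈ S) →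
    ¬ (3 ∈ S ∧ 5 ∈ S ∧ 7 ∈ S ∧ 13 ∈ S) → ¬ (3 ∈ S ∧ 7 ∈ S ∧ 11 ∈ S ∧ 13 ∈ S) → S.card ≤ 3 := by
  decide +kernel

/-- the degrees for at most fourteen entries -/
def P14 (m : ℕ) : Prop := ¬ 55 ∣ m ∧ ¬ 65 ∣ m ∧ ¬ 69 ∣ m ∧ ¬ 3003 ∣ m

/-- the degrees for at most ten entries -/
def P10 (m : ℕ) : Prop := ¬ 55 ∣ m ∧ ¬ 1365 ∣ m ∧ ¬ 3003 ∣ m

lemma dvd_of_mem {e : ℕ} {a b : ℕ} (ha : a ∈ e.primeFactors) (hb : b ∈ e.primeFactors)
    (hab : a ≠ b) : a * b ∣ e :=
  Nat.Coprime.mul_dvd_of_dvd_of_dvd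
    ((Nat.coprime_primes (Nat.prime_of_mem_primeFactors ha) (Nat.prime_of_mem_primeFactors hb)).mpr
      hab) (Nat.dvd_of_mem_primeFactors ha) (Nat.dvd_of_mem_primeFactors hb)

lemma dvd_of_mem4 {e : ℕ} {T : Finset ℕ} (hT : T ⊆ e.primeFactors) : ∏ p ∈ T, p ∣ e :=
  Finset.prod_primes_dvd e (fun p hp => Nat.Prime.prime (Nat.prime_of_mem_primeFactors (hT hp)))
    (fun p hp => Nat.dvd_of_mem_primeFactors (hT hp))

lemma base_P {P : ℕ → Prop} {K : ℕ}
    (h1 : ∀ S ∈ ({3, 5, 7, 11, 13} : Finset ℕ).powerset, ∀ e, P e → e.primeFactors = S → S.card ≤ 3)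
    (h2 : ∀ T ∈ ({3, 5, 7, 11, 13} : Finset ℕ).powerset, T.card ≤ 2 →
      ¬ (T.card = 2 ∧ 4 * K < ∏ p ∈ T, (p - 1)) → ∀ e, P e → T ⊆ e.primeFactors →
      (∏ p ∈ T, p ∣ 105 ∨ ∏ p ∈ T, p ∣ 33 ∨ ∏ p ∈ T, p ∣ 39)) :
    ∀ e, e % 2 = 1 → P e →
      (∀ p, p.Prime → p ∣ e → p ∈ ({3, 5, 7, 11, 13} : Finset ℕ)) →
      ∀ A : Multiset ℕ, Multiset.card A ≤ K →
      (∀ a ∈ A, ¬ e ∣ a) → (∀ t, Nat.Coprime t e → SW e A t = 0) →
      ∀ (Q : Type) [AddCommGroup Q] (C : ZMod e → Q), OddDist C →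
        KillsG (fun e => GoodDegree2 (2 * e)) e C →
        (A.map fun a : ℕ => C (a : ZMod e)).sum = 0 := by
  intro e hodd hP hpr A hcard hA hrel Q _ C hC hK
  have he : e ≠ 0 := by rintro rfl; simp at hodd
  have hN : NeZero e := ⟨he⟩
  have hsub : e.primeFactors ⊆ {3, 5, 7, 11, 13} := fun p hp =>
    hpr p (Nat.prime_of_mem_primeFactors hp) (Nat.dvd_of_mem_primeFactors hp)
  refine base_small hodd (h1 _ (mem_powerset.mpr hsub) e hP rfl) (K := K) ?_ A hcard hrel hC hK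
  intro T hT hT2 hB
  exact gd_dvd (h2 T (mem_powerset.mpr (hT.trans hsub)) hT2 hB e hP hT)

lemma base14 : ∀ e, e % 2 = 1 → P14 e →
      (∀ p, p.Prime → p ∣ e → p ∈ ({3, 5, 7, 11, 13} : Finset ℕ)) →
      ∀ A : Multiset ℕ, Multiset.card A ≤ 14 →
      (∀ a ∈ A, ¬ e ∣ a) → (∀ t, Nat.Coprime t e → SW e A t = 0) →
      ∀ (Q : Type) [AddCommGroup Q] (C : ZMod e → Q), OddDist C →
        KillsG (fun e => GoodDegree2 (2 * e)) e C →
        (A.map fun a : ℕ => C (a : ZMod e)).sum = 0 := by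
  apply base_P
  · rintro S hS e ⟨h55, h65, -, h3003⟩ rfl
    refine card_sets _ hS (fun h => h55 (dvd_of_mem h.1 h.2 (by norm_num)))
      (fun h => h65 (dvd_of_mem h.2.1 h.2.2.2 (by norm_num))) (fun h => h3003 ?_)
    have h4 : ({3, 7, 11, 13} : Finset ℕ) ⊆ e.primeFactors := by
      intro p hp
      simp only [mem_insert, mem_singleton] at hp
      rcases hp with rfl | rfl | rfl | rfl
      exacts [h.1, h.2.1, h.2.2.1, h.2.2.2]
    have h5 := dvd_of_mem4 h4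
    have h6 : ∏ p ∈ ({3, 7, 11, 13} : Finset ℕ), p = 3003 := by decide +kernel
    rwa [h6] at h5
  · rintro T hT hT2 hB e ⟨h55, h65, -, h3003⟩ hTe
    exact good_sets14 T hT hT2 hB (fun h => h55 (dvd_of_mem (hTe h.1) (hTe h.2) (by norm_num)))
      (fun h => h65 (dvd_of_mem (hTe h.1) (hTe h.2) (by norm_num)))

lemma base10 : ∀ e, e % 2 = 1 → P10 e →
      (∀ p, p.Prime → p ∣ e → p ∈ ({3, 5, 7, 11, 13} : Finset ℕ)) →
      ∀ A : Multiset ℕ, Multiset.card A ≤ 10 →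
      (∀ a ∈ A, ¬ e ∣ a) → (∀ t, Nat.Coprime t e → SW e A t = 0) →
      ∀ (Q : Type) [AddCommGroup Q] (C : ZMod e → Q), OddDist C →
        KillsG (fun e => GoodDegree2 (2 * e)) e C →
        (A.map fun a : ℕ => C (a : ZMod e)).sum = 0 := by
  apply base_P
  · rintro S hS e ⟨h55, h1365, h3003⟩ rfl
    refine card_sets _ hS (fun h => h55 (dvd_of_mem h.1 h.2 (by norm_num)))
      (fun h => h1365 ?_) (fun h => h3003 ?_)
    · have h4 : ({3, 5, 7, 13} : Finset ℕ) ⊆ e.primeFactors := by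
        intro p hp
        simp only [mem_insert, mem_singleton] at hp
        rcases hp with rfl | rfl | rfl | rfl
        exacts [h.1, h.2.1, h.2.2.1, h.2.2.2]
      have h5 := dvd_of_mem4 h4
      have h6 : ∏ p ∈ ({3, 5, 7, 13} : Finset ℕ), p = 1365 := by decide +kernel
      rwa [h6] at h5
    · have h4 : ({3, 7, 11, 13} : Finset ℕ) ⊆ e.primeFactors := by
        intro p hp
        simp only [mem_insert, mem_singleton] at hp
        rcases hp with rfl | rfl | rfl | rfl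
        exacts [h.1, h.2.1, h.2.2.1, h.2.2.2]
      have h5 := dvd_of_mem4 h4
      have h6 : ∏ p ∈ ({3, 7, 11, 13} : Finset ℕ), p = 3003 := by decide +kernel
      rwa [h6] at h5
  · rintro T hT hT2 hB e ⟨h55, h1365, h3003⟩ hTe
    exact good_sets10 T hT hT2 hB (fun h => h55 (dvd_of_mem (hTe h.1) (hTe h.2) (by norm_num)))

/-- **Hodge characters of odd degree, published generators only.** -/
theorem main_published {m : ℕ} (hodd : m % 2 = 1) (s : Multiset (ZMod m)) (hs : IsHodge m s)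
    (hcard : Multiset.card s ≤ 8 ∨ (P10 m ∧ Multiset.card s ≤ 10) ∨
      (P14 m ∧ Multiset.card s ≤ 14)) (hne : s ≠ 0) :
    Generated (2 * m) (SurfaceOrCurveProduct (2 * m))
      (s.map fun a => ((2 * a.val : ℕ) : ZMod (2 * m))) := by
  by_cases h8 : Multiset.card s ≤ 8
  · exact main_eight hodd s hs h8 hne
  have hm : m ≠ 0 := by rintro rfl; simp at hodd
  have hN : NeZero m := ⟨hm⟩
  have hN' : NeZero (2 * m) := ⟨by omega⟩
  have hiota : (s.map fun a => ((2 * a.val : ℕ) : ZMod (2 * m))) =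
      s.map (iota 2 : ZMod m → ZMod (2 * m)) := rfl
  have h2s := hs.iota (m := 2 * m) (k := 2) rfl
  have hA0 : ∀ a ∈ s.map ZMod.val, ¬ m ∣ a := by
    intro a ha h
    obtain ⟨b, hb', rfl⟩ := Multiset.mem_map.mp ha
    have h3 := (ZMod.natCast_eq_zero_iff b.val m).mpr h
    rw [ZMod.natCast_zmod_val] at h3
    exact hs.1 (h3 ▸ hb')
  have h1 : ((s.map ZMod.val).map fun a : ℕ =>
      cQ (2 * m) (SurfaceOrCurveProduct (2 * m)) (iota 2 ((a : ℕ) : ZMod m))).sum = 0 := by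
    rcases hcard with h | ⟨hP, h⟩ | ⟨hP, h⟩
    · exact absurd h h8
    · exact zero_of_base (fun e => GoodDegree2 (2 * e)) good102 good114 (K := 10) (by norm_num)
        P10 (fun e m he hP => ⟨fun h => hP.1 (h.trans he), fun h => hP.2.1 (h.trans he),
          fun h => hP.2.2 (h.trans he)⟩) (fun _ _ h => absurd h (by norm_num)) base10 m hodd hP
        (s.map ZMod.val) (by rwa [Multiset.card_map]) hA0 (fun t ht => saw_rel s hs t ht) _
        (fun b : ZMod m => cQ (2 * m) (SurfaceOrCurveProduct (2 * m)) (iota 2 b))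
        (cQ_oddDist.comp_iota rfl) (killsG_cQ hm)
    · exact zero_of_base (fun e => GoodDegree2 (2 * e)) good102 good114 (K := 14) (by norm_num)
        P14 (fun e m he hP => ⟨fun h => hP.1 (h.trans he), fun h => hP.2.1 (h.trans he),
          fun h => hP.2.2.1 (h.trans he), fun h => hP.2.2.2 (h.trans he)⟩)
        (fun m hP _ => hP.2.2.1) base14 m hodd hP
        (s.map ZMod.val) (by rwa [Multiset.card_map]) hA0 (fun t ht => saw_rel s hs t ht) _
        (fun b : ZMod m => cQ (2 * m) (SurfaceOrCurveProduct (2 * m)) (iota 2 b))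
        (cQ_oddDist.comp_iota rfl) (killsG_cQ hm)
  rw [Multiset.map_map] at h1
  have h2 : ((s.map fun a => ((2 * a.val : ℕ) : ZMod (2 * m))).map
      (cQ (2 * m) (SurfaceOrCurveProduct (2 * m)))).sum = 0 := by
    rw [hiota, Multiset.map_map, ← h1]
    congr 1
    apply Multiset.map_congr rfl
    intro a _
    simp only [Function.comp_apply]
    rw [ZMod.natCast_zmod_val]
  rw [cQ_sum, QuotientAddGroup.eq_zero_iff] at h2
  rw [hiota] at h2 ⊢
  exact generated_of_mem_LL base_good base_neg h2s.1 h2s.2.1 (by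
    intro h
    rw [Multiset.map_eq_zero] at h
    exact hne h) h2

end Pool.Agent.U270.FT14
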