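import Pool.Agent.U270.FT14.Base5
import Pool.Agent.N993.ThreeP

/-!
# Hodge characters with at most fourteen entries of odd degree
-/

set_option autoImplicit false

namespace Pool.Agent.U270.FT14

open Finset Pool.Agent.H916R2 Pool.Agent.N992 Pool.Agent.N993 Pool.Agent.Y2 Pool.Agent.U270.SX

/-- the levels of the induction base -/
def G14 (e : ℕ) : Prop := e % 2 = 1 ∧ ThreePrimes e

lemma threePrimes_small {e : ℕ} (hodd : e % 2 = 1)
    (hp : ∀ p, p.Prime → p ∣ e → p ∈ ({3, 5, 7, 11, 13} : Finset ℕ))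
    (hc : e.primeFactors.card ≤ 3) : ThreePrimes e := by
  refine ⟨?_, ?_⟩
  · have h4 : ¬ 4 ∣ e := by
      rintro ⟨z, hz⟩; omega
    rw [if_neg h4]
    have := card_le_card (erase_subset 2 e.primeFactors)
    omega
  · intro p hpp hpe hp4
    right
    have := hp p hpp hpe
    simp only [mem_insert, mem_singleton] at this
    omega

lemma threePrimes_two {e p : ℕ} (hp : p.Prime) (he : e = 3 * p) (hp2 : p % 2 = 1)
    (h : p % 4 = 3 ∨ p = 17) : ThreePrimes e := by
  have hpr : ∀ q, q.Prime → q ∣ e → q = 3 ∨ q = p := by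
    intro q hq hqe
    rw [he] at hqe
    rcases (Nat.Prime.dvd_mul hq).mp hqe with h1 | h1
    · exact Or.inl ((Nat.prime_dvd_prime_iff_eq hq Nat.prime_three).mp h1)
    · exact Or.inr ((Nat.prime_dvd_prime_iff_eq hq hp).mp h1)
  refine ⟨?_, ?_⟩
  · have h4 : ¬ 4 ∣ e := by
      rintro ⟨z, hz⟩; omega
    rw [if_neg h4]
    have hsub : e.primeFactors.erase 2 ⊆ {3, p} := by
      intro q hq
      have hq' := mem_of_mem_erase hq
      rcases hpr q (Nat.prime_of_mem_primeFactors hq') (Nat.dvd_of_mem_primeFactors hq') with h1 | h1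
      · rw [h1]; exact mem_insert_self _ _
      · rw [h1]; exact mem_insert_of_mem (mem_singleton_self _)
    have h5 := card_le_card hsub
    have h6 : ({3, p} : Finset ℕ).card ≤ 2 := card_le_two
    omega
  · intro q hq hqe hq4
    right
    rcases hpr q hq hqe with h1 | h1
    · omega
    · omega

lemma killsG14 {m L : ℕ} [NeZero m] [NeZero (L * m)]
    (hL : ∀ e : ℕ, ∀ _ : NeZero e, e ∣ m → ThreePrimes e → ∃ l k : ℕ, k * l = L ∧
      ∃ _ : NeZero (l * e), ∀ s : Multiset (ZMod e), IsHodge e s → s ≠ 0 →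
        Generated (l * e) (FourBase (l * e)) (s.map (iota l : ZMod e → ZMod (l * e)))) :
    KillsG G14 m (fun b : ZMod m => cQ (L * m) (FourBase (L * m)) (iota L b)) := by
  intro l0 e hle hg A hA hrel
  obtain ⟨hodd, h3⟩ := hg
  have he0 : e ≠ 0 := by rintro rfl; simp at hodd
  have hNe : NeZero e := ⟨he0⟩
  obtain ⟨l, k, hkl, hNle, hgen⟩ := hL e hNe (Dvd.intro_left l0 hle) h3
  by_cases hA0 : A = 0
  · rw [hA0]; simp
  set s : Multiset (ZMod e) := A.map fun a : ℕ => (a : ZMod e) with hs
  have hsH : IsHodge e s := by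
    apply isHodge_of_saw
    · intro h
      obtain ⟨a, ha, ha0⟩ := Multiset.mem_map.mp h
      rw [ZMod.natCast_eq_zero_iff] at ha0
      exact hA a ha ha0
    · rw [hs, Multiset.card_map]
      exact Nat.even_iff.mpr (card_even hodd hA hrel)
    · intro t
      have ht := ZMod.val_coe_unit_coprime t
      have h1 := hrel (t : ZMod e).val ht
      rw [hs, Multiset.map_map]
      unfold SW at h1
      rw [← h1]
      congr 1
      apply Multiset.map_congr rfl
      intro a _
      simp only [Function.comp_apply]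
      congr 1
      push_cast
      rw [ZMod.natCast_zmod_val]
  have hsne : s ≠ 0 := by
    intro h
    rw [hs, Multiset.map_eq_zero] at h
    exact hA0 h
  have hg2 := hgen s hsH hsne
  have hlev : (k * l0) * (l * e) = L * m := by rw [← hkl, ← hle]; ring
  have h4 := gen_sum_zero ((cQ_oddDist (m := L * m) (base := FourBase (L * m))).comp_iota hlev) (by
    intro u hu
    have h3 := cQ_sum_eq_zero (Generated.ofBase (m := L * m) (base := FourBase (L * m))
      (u.map (iota (k * l0))) (FourBase.lift hlev hu))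
    rw [Multiset.map_map] at h3
    exact h3) hg2
  rw [hs, Multiset.map_map, Multiset.map_map] at h4
  rw [← h4]
  congr 1
  apply Multiset.map_congr rfl
  intro a _
  simp only [Function.comp_apply]
  rw [iota_natCast rfl, iota_comp hlev]
  rw [iota_natCast (show k * l0 * l * e = L * m by rw [← hlev]; ring)]
  congr 2
  rw [← hkl]; ring

/-- **Hodge characters with at most fourteen entries of odd degree.** -/
theorem main_fourteen {m : ℕ} (hodd : m % 2 = 1) :
    ∃ L : ℕ, ∃ _ : NeZero (L * m), ∀ s : Multiset (ZMod m), IsHodge m s →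
      Multiset.card s ≤ 14 → s ≠ 0 →
      Generated (L * m) (FourBase (L * m)) (s.map fun a => ((L * a.val : ℕ) : ZMod (L * m))) := by
  classical
  have hm : m ≠ 0 := by rintro rfl; simp at hodd
  have hN : NeZero m := ⟨hm⟩
  -- the multipliers
  have hex : ∀ e : ℕ, ∃ l : ℕ, l ≠ 0 ∧ ∀ _ : NeZero e, ThreePrimes e →
      ∃ _ : NeZero (l * e), ∀ s : Multiset (ZMod e), IsHodge e s → s ≠ 0 →
        Generated (l * e) (FourBase (l * e)) (s.map (iota l : ZMod e → ZMod (l * e))) := by
    intro e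
    by_cases he : e ≠ 0 ∧ ThreePrimes e
    · have hNe : NeZero e := ⟨he.1⟩
      obtain ⟨l, hl, h⟩ := main3 e he.2
      refine ⟨l, ?_, fun _ _ => ⟨hl, h⟩⟩
      rintro rfl
      rw [zero_mul] at hl
      exact hl.out rfl
    · exact ⟨1, one_ne_zero, fun hNe h3 => absurd ⟨hNe.out, h3⟩ he⟩
  choose lf hlf0 hlf using hex
  set L : ℕ := ∏ e ∈ m.divisors, lf e with hL
  have hL0 : L ≠ 0 := prod_ne_zero_iff.mpr fun e _ => hlf0 e
  have hNL : NeZero (L * m) := ⟨Nat.mul_ne_zero hL0 hm⟩
  have hK := killsG14 (m := m) (L := L) (by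
    intro e hNe hem h3
    obtain ⟨k, hk⟩ : lf e ∣ L := dvd_prod_of_mem lf (Nat.mem_divisors.mpr ⟨hem, hm⟩)
    exact ⟨lf e, k, by rw [hk]; ring, hlf e hNe h3⟩)
  refine ⟨L, hNL, fun s hs hcard hne => ?_⟩
  have hiota : (s.map fun a => ((L * a.val : ℕ) : ZMod (L * m))) =
      s.map (iota L : ZMod m → ZMod (L * m)) := rfl
  have hsl : IsHodge (L * m) (s.map (iota L : ZMod m → ZMod (L * m))) := hs.iota rfl
  have h1 := fourteen_zero G14
    ⟨by norm_num, threePrimes_two (p := 17) (by norm_num) rfl (by norm_num) (Or.inr rfl)⟩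
    ⟨by norm_num, threePrimes_two (p := 19) (by norm_num) rfl (by norm_num) (Or.inl rfl)⟩
    ⟨by norm_num, threePrimes_two (p := 23) (by norm_num) rfl (by norm_num) (Or.inl rfl)⟩
    (base_all fun e he hp hc => ⟨he, threePrimes_small he hp hc⟩)
    m hodd (s.map ZMod.val) (by rwa [Multiset.card_map]) (by
    intro a ha h
    obtain ⟨b, hb', rfl⟩ := Multiset.mem_map.mp ha
    have h3 := (ZMod.natCast_eq_zero_iff b.val m).mpr h
    rw [ZMod.natCast_zmod_val] at h3
    exact hs.1 (h3 ▸ hb')) (fun t ht => saw_rel s hs t ht) _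
    (fun b : ZMod m => cQ (L * m) (FourBase (L * m)) (iota L b))
    (cQ_oddDist.comp_iota rfl) hK
  rw [Multiset.map_map] at h1
  have h4 : ((s.map (iota L : ZMod m → ZMod (L * m))).map
      (cQ (L * m) (FourBase (L * m)))).sum = 0 := by
    rw [Multiset.map_map, ← h1]
    congr 1
    apply Multiset.map_congr rfl
    intro a _
    simp only [Function.comp_apply]
    rw [ZMod.natCast_zmod_val]
  rw [cQ_sum, QuotientAddGroup.eq_zero_iff] at h4
  rw [hiota]
  refine generated_of_mem_LL ?_ ?_ hsl.1 hsl.2.1 ?_ h4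
  · rintro s (hs | hs)
    · exact Pool.Agent.Y2.Cv.base_good s hs
    · exact ⟨hs.1.1, hs.1.2.1⟩
  · rintro s (hs | hs)
    · exact Or.inl (Pool.Agent.Y2.Cv.base_neg s hs)
    · exact Or.inr hs.neg
  · intro h5
    exact hne (Multiset.map_eq_zero.mp h5)

end Pool.Agent.U270.FT14
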