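import Pool.Agent.U270.FT14.Main14
import Pool.Agent.Y2.Cw.EvenH4

/-!
# Relations with at most eight entries of even level: reduction to the primes up to 13
-/

set_option autoImplicit false

namespace Pool.Agent.U270.FT14

open Finset Pool.Agent.H916R2 Pool.Agent.Y2 Pool.Agent.Y2.Cv Pool.Agent.Y2.Cw Pool.Agent.U270.SX

/-- all relations of the levels in `G` are killed -/
def KillsR (G : ℕ → Prop) (m : ℕ) {Q : Type} [AddCommGroup Q] (C : ZMod m → Q) : Prop :=
  ∀ l e : ℕ, l * e = m → G e → ∀ A : Multiset ℕ, (∀ t, Nat.Coprime t e → SW e A t = 0) →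
      (A.map fun a : ℕ => C ((l * a : ℕ) : ZMod m)).sum = 0

lemma KillsR.comp {G : ℕ → Prop} {q d m : ℕ} (hqd : q * d = m) {Q : Type} [AddCommGroup Q]
    {C : ZMod m → Q} (h : KillsR G m C) : KillsR G d (fun b : ZMod d => C (iota q b)) := by
  intro l e hle hg A hrel
  rw [← h (q * l) e (by rw [mul_assoc, hle, hqd]) hg A hrel]
  congr 1
  apply Multiset.map_congr rfl
  intro a _
  change C (iota q ((l * a : ℕ) : ZMod d)) = _
  rw [iota_natCast hqd]
  congr 2; ring

/-- comparison of the part prime to `q` with a multiset of level `q n` -/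
lemma compareE {q d m : ℕ} {A1 A2 : Multiset ℕ} (H : SetE q d m A1 A2) (hnd : ¬ q ∣ d)
    {h n l τ c : ℕ} (hl : l * n = d) (hcτ : c ≡ l * τ [MOD d])
    (hS : ∀ z, Nat.Coprime z d → SW d A1 z = h * sv d (z * c)) (E : Multiset ℕ)
    (hE1 : ∀ x ∈ E, ¬ q ∣ x) (hE3 : ∀ z, Nat.Coprime z n → SW n E z = h * sv n (z * τ))
    (hEm : ∀ t, Nat.Coprime t m → SW m A1 t = l * SW (q * n) E t)
    (Q : Type) [AddCommGroup Q] (C : ZMod m → Q) (hC : OddDist C) :
    (A1.map fun a : ℕ => C (a : ZMod m)).sum =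
      (E.map fun x : ℕ => C ((l * x : ℕ) : ZMod m)).sum := by
  have hq := H.hq
  have hqd := H.hqd
  have hm := H.hm
  have hd := H.hd
  have hqo := H.hqo
  have hq2 := hq.two_le
  have hlm : l * (q * n) = m := by rw [← hqd, ← hl]; ring
  have hqc : Nat.Coprime q d := (Nat.Prime.coprime_iff_not_dvd hq).mpr hnd
  have hcopd : ∀ t, Nat.Coprime t m → Nat.Coprime t d := fun t ht =>
    Nat.Coprime.coprime_dvd_right (Dvd.intro_left q hqd) ht
  have hcop3 : ∀ z, Nat.Coprime z d → Nat.Coprime z n := fun z hz =>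
    Nat.Coprime.coprime_dvd_right (Dvd.intro_left l hl) hz
  have hsvl : ∀ z, sv d (z * c) = l * sv n (z * τ) := by
    intro z
    rw [← sv_level hd hl, sv_per (hcτ.mul_left z)]
    congr 1; ring
  have hB : ∀ x ∈ (E.map fun x => l * x), ¬ q ∣ x := by
    intro x hx h
    obtain ⟨y, hy, rfl⟩ := Multiset.mem_map.mp hx
    rcases (Nat.Prime.dvd_mul hq).mp h with h | h
    · exact hnd (by rw [← hl]; exact h.mul_right n)
    · exact hE1 y hy h
  have h1 := kill2 hq (Dvd.intro d hqd) hm (factor_pos hq (Dvd.intro d hqd) hm (by omega))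
    (A := A1) (B := E.map fun x => l * x) H.hA hB (by
      intro j t ht
      rcases Nat.eq_zero_or_pos j with rfl | hj
      · rw [pow_zero, one_mul, hEm t ht, SW_lmul hm hlm]
      · obtain ⟨i, rfl⟩ : ∃ i, j = i + 1 := ⟨j - 1, by omega⟩
        have hc : Nat.Coprime (q ^ i * t) d := Nat.Coprime.mul_left
          (Nat.Coprime.pow_left _ hqc) (hcopd t ht)
        rw [show q ^ (i + 1) * t = q * (q ^ i * t) by ring, SW_level hm hqd, SW_level hm hqd,
          hS _ hc, hsvl, SW_lmul hd hl, hE3 _ (hcop3 _ hc)]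
        ring) Q C hC
  rw [h1, Multiset.map_map]
  rfl

lemma S2_add {q d m : ℕ} {A1 A2 : Multiset ℕ} (H : SetE q d m A1 A2) (hnd : ¬ q ∣ d) {h c : ℕ}
    (hh : 2 * h = q - 1) (hS : ∀ z, Nat.Coprime z d → SW d A1 z = h * sv d (z * c))
    (hc : d ∣ (q + 1) * c) : ∀ z, Nat.Coprime z d → SW d A2 z = - sv d (z * c) := by
  intro z hz
  obtain ⟨u, hu, huz⟩ := H.exists_inv hnd hz
  have h1 := H.relE hnd hh hS hu
  have h2 : sv d (q * u * c) = - sv d (u * c) := by
    apply sv_neg H.hd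
    have e : u * c + q * u * c = u * ((q + 1) * c) := by ring
    rw [e]; exact hc.mul_left u
  have h3 : sv d (z * c) = sv d (q * u * c) := sv_per (huz.symm.mul_right c)
  rw [← SW_congr _ huz, h3]
  linarith

lemma S2_sub {q d m : ℕ} {A1 A2 : Multiset ℕ} (H : SetE q d m A1 A2) (hnd : ¬ q ∣ d) {h c : ℕ}
    (hh : 2 * h = q - 1) (hS : ∀ z, Nat.Coprime z d → SW d A1 z = h * sv d (z * c))
    (hc : d ∣ (q - 1) * c) : ∀ z, Nat.Coprime z d → SW d A2 z = 0 := by
  intro z hz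
  obtain ⟨u, hu, huz⟩ := H.exists_inv hnd hz
  have h1 := H.relE hnd hh hS hu
  have h2 : sv d (q * u * c) = sv d (u * c) := by
    apply sv_per
    have hq1 : 1 ≤ q := H.hq.one_lt.le
    have e : q * u * c = u * c + u * ((q - 1) * c) := by
      obtain ⟨k, hk⟩ : ∃ k, q = k + 1 := ⟨q - 1, by omega⟩
      rw [hk]; simp only [Nat.add_sub_cancel]; ring
    rw [e]
    have h3 := Nat.ModEq.add_left (u * c) ((Nat.modEq_zero_iff_dvd).mpr (hc.mul_left u))
    rwa [add_zero] at h3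
  rw [← SW_congr _ huz]
  linarith

/-- the outcome with an odd complement -/
lemma out_oddE {q d m : ℕ} {A1 A2 : Multiset ℕ} (H : SetE q d m A1 A2) (hnd : ¬ q ∣ d)
    {G : ℕ → Prop} (hG : G (q * 3)) {h c : ℕ} (hc : ¬ d ∣ c) (h3c : d ∣ 3 * c)
    (hS : ∀ z, Nat.Coprime z d → SW d A1 z = h * sv d (z * c))
    (hS2 : ∀ z, Nat.Coprime z d → SW d A2 z = - sv d (z * c))
    (hE : ∀ τ, τ = 1 ∨ τ = 2 → ∃ E : Multiset ℕ, (∀ x ∈ E, ¬ q ∣ x) ∧
      (∀ t, Nat.Coprime t (q * 3) → SW (q * 3) E t = (q : ℕ) * sv 3 (t * τ)) ∧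
      ∀ z, Nat.Coprime z 3 → SW 3 E z = (h : ℕ) * sv 3 (z * τ))
    (Q : Type) [AddCommGroup Q] (C : ZMod m → Q) (hC : OddDist C) (hK : KillsR G m C)
    (hIH : ∀ B : Multiset ℕ, Multiset.card B ≤ Multiset.card A2 + 1 →
      (∀ t, Nat.Coprime t d → SW d B t = 0) →
      (B.map fun b : ℕ => C ((q * b : ℕ) : ZMod m)).sum = 0) :
    (A1.map fun a : ℕ => C (a : ZMod m)).sum +
      (A2.map fun b : ℕ => C ((q * b : ℕ) : ZMod m)).sum = 0 := by
  have hq := H.hq
  have hd := H.hqd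
  have hm := H.hm
  have hdne := H.hd
  have hq0 : q * 3 ≠ 0 := by have := hq.pos; omega
  have hdm : d ∣ m := Dvd.intro_left _ hd
  obtain ⟨l, τ, hl, hτ, hcτ⟩ := order_three hdne h3c hc
  obtain ⟨E, hE1, hE2, hE3⟩ := hE τ hτ
  have hlm : l * (q * 3) = m := by rw [← hd, hl]; ring
  have hl3 : l * 3 = d := by rw [hl]; ring
  have hsvl : ∀ z, sv d (z * c) = l * sv 3 (z * τ) := by
    intro z
    rw [← sv_level hdne hl3, sv_per (hcτ.mul_left z)]
    congr 1; ring
  have h1 := compareE H hnd hl3 hcτ hS E hE1 (fun z hz => by rw [hE3 z hz]) (by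
    intro t ht
    have h2 := H.hrel t ht
    rw [hS2 t (Nat.Coprime.coprime_dvd_right hdm ht), hsvl] at h2
    rw [hE2 t (Nat.Coprime.coprime_dvd_right (Dvd.intro_left l hlm) ht)]
    linear_combination h2) Q C hC
  have h2 := hIH (A2 + {c}) (by rw [Multiset.card_add, Multiset.card_singleton])
    (by
      intro t ht
      rw [SW_add, hS2 t ht, SW_single hdne]
      ring)
  rw [Multiset.map_add, Multiset.sum_add, Multiset.map_singleton, Multiset.sum_singleton] at h2
  have h3 := hK l (q * 3) hlm hG (E + {q * (3 - τ)}) (by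
    intro t ht
    rw [SW_add, hE2 t ht, SW_single hq0]
    have h4 := sv_level (q := q) (d := 3) (m := q * 3) hq0 rfl (t * (3 - τ))
    have h5 : t * (q * (3 - τ)) = q * (t * (3 - τ)) := by ring
    rw [h5, h4]
    have h6 : sv 3 (t * (3 - τ)) = - sv 3 (t * τ) := by
      apply sv_neg (by norm_num)
      have : t * τ + t * (3 - τ) = 3 * t := by
        rcases hτ with rfl | rfl
        · norm_num; ring
        · norm_num; ring
      rw [this]; exact Dvd.intro t rfl
    rw [h6]; ring)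
  rw [Multiset.map_add, Multiset.sum_add, Multiset.map_singleton,
    Multiset.sum_singleton] at h3
  have h4 : ((l * (q * (3 - τ)) : ℕ) : ZMod m) = - ((q * c : ℕ) : ZMod m) := by
    have h5 : q * c ≡ q * (l * τ) [MOD m] := by
      have := Nat.ModEq.mul_left' q hcτ
      rwa [hd] at this
    have h6 : ((q * c : ℕ) : ZMod m) = ((q * (l * τ) : ℕ) : ZMod m) :=
      (ZMod.natCast_eq_natCast_iff _ _ _).mpr h5
    rw [h6]
    have h7 : ((l * (q * (3 - τ)) + q * (l * τ) : ℕ) : ZMod m) = 0 := by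
      rw [ZMod.natCast_eq_zero_iff, ← hlm]
      rcases hτ with rfl | rfl
      · exact ⟨1, by norm_num; ring⟩
      · exact ⟨1, by norm_num; ring⟩
    rw [Nat.cast_add] at h7
    exact eq_neg_of_add_eq_zero_left h7
  rw [h4, hC.neg] at h3
  have h5 : (E.map fun x : ℕ => C ((l * x : ℕ) : ZMod m)).sum = C ((q * c : ℕ) : ZMod m) := by
    have := h3
    rwa [← sub_eq_add_neg, sub_eq_zero] at this
  rw [h1, h5, add_comm]
  exact h2

/-- the outcome with an even complement -/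
lemma out_evenE {q d m n : ℕ} {A1 A2 : Multiset ℕ} (H : SetE q d m A1 A2) (hnd : ¬ q ∣ d)
    {G : ℕ → Prop} (hG : G (q * n)) {h l τ c : ℕ} (hl : l * n = d) (hcτ : c ≡ l * τ [MOD d])
    (hS : ∀ z, Nat.Coprime z d → SW d A1 z = h * sv d (z * c))
    (hS2 : ∀ z, Nat.Coprime z d → SW d A2 z = 0)
    (hE : ∃ E : Multiset ℕ, (∀ x ∈ E, ¬ q ∣ x) ∧
      (∀ t, Nat.Coprime t (q * n) → SW (q * n) E t = 0) ∧
      ∀ z, Nat.Coprime z n → SW n E z = (h : ℕ) * sv n (z * τ))
    (Q : Type) [AddCommGroup Q] (C : ZMod m → Q) (hC : OddDist C) (hK : KillsR G m C)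
    (hIH : (A2.map fun b : ℕ => C ((q * b : ℕ) : ZMod m)).sum = 0) :
    (A1.map fun a : ℕ => C (a : ZMod m)).sum +
      (A2.map fun b : ℕ => C ((q * b : ℕ) : ZMod m)).sum = 0 := by
  have hd := H.hqd
  have hdne := H.hd
  have hdm : d ∣ m := Dvd.intro_left _ hd
  obtain ⟨E, hE1, hE2, hE3⟩ := hE
  have hlm : l * (q * n) = m := by rw [← hd, ← hl]; ring
  have h1 := compareE H hnd hl hcτ hS E hE1 (fun z hz => by rw [hE3 z hz]) (by
    intro t ht
    have h2 := H.hrel t ht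
    rw [hS2 t (Nat.Coprime.coprime_dvd_right hdm ht)] at h2
    rw [hE2 t (Nat.Coprime.coprime_dvd_right (Dvd.intro_left l hlm) ht)]
    linear_combination h2) Q C hC
  have h2 := hK l (q * n) hlm hG E (fun t ht => by rw [hE2 t ht])
  rw [h1, h2, hIH, add_zero]

end Pool.Agent.U270.FT14
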