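import Pool.Agent.U270.FT14.Count8
import Pool.Agent.U270.FT14.Peel8
import Pool.Agent.U270.FT14.Base5
import Pool.Agent.U270.FT14.Final14
import Pool.Agent.N993.ThreeP

/-!
# Relations with at most eight entries: the levels with the primes up to 13
-/

set_option autoImplicit false
set_option linter.unusedSectionVars false

namespace Pool.Agent.U270.FT14

open Finset Pool.Agent.H916R2 Pool.Agent.N992 Pool.Agent.N993 Pool.Agent.N993.Dat Pool.Agent.Y2
  Pool.Agent.U270.SX

/-- from functions on the natural numbers to functions on the residues -/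
lemma oddDist_of4 {m : ℕ} [NeZero m] (F : ℕ → ZMod 2)
    (hper : ∀ x y, x ≡ y [MOD m] → F x = F y) (hneg : ∀ x y, m ∣ x + y → F y = F x)
    (hhalf : ∀ x, m ∣ 2 * x → F x = 0)
    (hrel : ∀ q d : ℕ, q.Prime → q * d = m → ∀ A, ∑ i ∈ range q, F (A + i * d) = F (q * A)) :
    OddDist (fun a : ZMod m => F a.val) where
  neg := fun a => by
    have h1 : F (-a).val = F a.val := by
      apply hneg
      rw [← ZMod.natCast_eq_zero_iff]
      push_cast
      rw [ZMod.natCast_zmod_val, ZMod.natCast_zmod_val, add_neg_cancel]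
    rw [h1]
    have h2 : ∀ b : ZMod 2, b = - b := by decide
    exact h2 _
  half := fun a ha => by
    apply hhalf
    rw [← ZMod.natCast_eq_zero_iff]
    push_cast
    rw [ZMod.natCast_zmod_val, two_mul, ha]
  dist := fun p d hp hpd a => by
    have h1 := hrel p d hp hpd a.val
    have h2 : ∀ i ∈ range p, F (a + (i : ZMod m) * (d : ZMod m)).val = F (a.val + i * d) := by
      intro i _
      apply hper
      rw [← ZMod.natCast_eq_natCast_iff]
      push_cast
      rw [ZMod.natCast_zmod_val, ZMod.natCast_zmod_val]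
    have h3 : F ((p : ZMod m) * a).val = F (p * a.val) := by
      apply hper
      rw [← ZMod.natCast_eq_natCast_iff]
      push_cast
      rw [ZMod.natCast_zmod_val, ZMod.natCast_zmod_val]
    rw [sum_congr rfl h2, h3]
    exact h1

lemma kills_relR {G : ℕ → Prop} {m l e : ℕ} [NeZero m] [NeZero e] (hle : l * e = m) {Q : Type}
    [AddCommGroup Q] {C : ZMod m → Q} (hC : OddDist C) (hK : KillsR G m C) (hG : G e)
    (x : ZMod e → ℤ) (hx : Rel x) : ∑ b, x b • C (iota l b) = 0 := by
  obtain ⟨s, hs, h1⟩ := exists_hodge x hx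
  rw [h1 Q (fun b => C (iota l b)) (hC.comp_iota hle)]
  have h2 := hK l e hle hG (s.map ZMod.val) (fun t ht => saw_rel s hs t ht)
  rw [Multiset.map_map] at h2
  exact h2

theorem base_core4 {G : ℕ → Prop} {S : Finset ℕ} [∀ i : Ix S, NeZero (nn S i)]
    (hn : Adm' (nn S)) (hco : Pairwise (fun i j : Ix S => (nn S i).Coprime (nn S j)))
    (hcard : S.card ≤ 5) {m m0 k : ℕ} [NeZero m] [NeZero m0] (hN : ∏ i : Ix S, nn S i = m0)
    (E : (∀ i, ZMod (nn S i)) ≃+* ZMod m0) (hk : k * m0 = m) (h4 : 4 ∣ m → 4 ∣ m0)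
    (hpr : ∀ p, p.Prime → p ∣ m → p ∣ m0)
    (F : Finset (Ix S) → ℕ → ZMod 2)
    (hFper : ∀ T : Finset (Ix S), T.card = 4 → ∀ x y, x ≡ y [MOD m] → F T x = F T y)
    (hFneg : ∀ T : Finset (Ix S), T.card = 4 → ∀ x y, m ∣ x + y → F T y = F T x)
    (hF0 : ∀ T : Finset (Ix S), T.card = 4 → ∀ x, m ∣ 2 * x → F T x = 0)
    (hFrel : ∀ T : Finset (Ix S), T.card = 4 → ∀ q d : ℕ, q.Prime → q * d = m → ∀ A,
      ∑ i ∈ range q, F T (A + i * d) = F T (q * A))
    (w : Finset (Ix S) → (cyc (nn S)).GG)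
    (hF1 : ∀ T : Finset (Ix S), T.card = 4 → ∀ y, (cyc (nn S)).Supp T y →
      F T (k * (E (emb y)).val) = ((top (w T) T y : ℤ) : ZMod 2))
    (hF2 : ∀ T : Finset (Ix S), T.card = 4 → ∀ (y : (cyc (nn S)).Pt) (i : Ix S), i ∈ T →
      y i = none → F T (k * (E (emb y)).val) = 0)
    (A : Multiset ℕ) (hrel : ∀ t, Nat.Coprime t m → SW m A t = 0)
    (hFA : ∀ T : Finset (Ix S), T.card = 4 → ∀ a ∈ A, F T a = 0)
    (hG : ∀ T : Finset (Ix S), T.card ≤ 3 → G (∏ i ∈ T, nn S i))
    {Q : Type} [AddCommGroup Q] {C : ZMod m → Q} (hC : OddDist C) (hK : KillsR G m C) :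
    (A.map fun a : ℕ => C (a : ZMod m)).sum = 0 := by
  classical
  have hm : m ≠ 0 := NeZero.ne m
  have hDm : ∀ T : Finset (Ix S), T.card = 4 → OddDist (fun a : ZMod m => F T a.val) := fun T hT =>
    oddDist_of4 (F T) (hFper T hT) (hFneg T hT) (hF0 T hT) (hFrel T hT)
  let c2 : ZMod m → Q × (Finset (Ix S) → ZMod 2) :=
    fun a => (C a, fun T => if T.card = 4 then F T a.val else 0)
  have hc2 : OddDist c2 := by
    refine ⟨fun a => ?_, fun a ha => ?_, fun p d hp hpd a => ?_⟩
    · refine Prod.ext (hC.neg a) (funext fun T => ?_)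
      change (if T.card = 4 then F T (-a).val else 0) = -(if T.card = 4 then F T a.val else 0)
      by_cases hT4 : T.card = 4
      · rw [if_pos hT4, if_pos hT4]; exact (hDm T hT4).neg a
      · rw [if_neg hT4, if_neg hT4, neg_zero]
    · refine Prod.ext (hC.half a ha) (funext fun T => ?_)
      change (if T.card = 4 then F T a.val else 0) = 0
      by_cases hT4 : T.card = 4
      · rw [if_pos hT4]; exact (hDm T hT4).half a ha
      · rw [if_neg hT4]
    · refine Prod.ext ?_ (funext fun T => ?_)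
      · rw [Prod.fst_sum]; exact hC.dist p d hp hpd a
      · rw [Prod.snd_sum, Finset.sum_apply]
        change ∑ i ∈ range p, (if T.card = 4 then F T (a + (i : ZMod m) * (d : ZMod m)).val else 0) =
          (if T.card = 4 then F T ((p : ZMod m) * a).val else 0)
        by_cases hT4 : T.card = 4
        · simp only [if_pos hT4]; exact (hDm T hT4).dist p d hp hpd a
        · simp only [if_neg hT4, sum_const_zero]
  set s : Multiset (ZMod m) := A.map (fun a : ℕ => (a : ZMod m)) with hs
  have hx : Rel (fun a : ZMod m => ((s.count a : ℕ) : ℤ)) := by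
    intro t
    have h := sum_count s (fun a => saw ((t : ZMod m) * a))
    have h1 : (s.map fun a => saw ((t : ZMod m) * a)).sum = 0 := by
      have h2 := hrel (t : ZMod m).val (ZMod.val_coe_unit_coprime t)
      unfold SW at h2
      rw [hs, Multiset.map_map, ← h2]
      congr 1
      apply Multiset.map_congr rfl
      intro a _
      simp only [Function.comp_apply]
      push_cast
      rw [ZMod.natCast_zmod_val]
    rw [h1] at h
    simpa using h
  obtain ⟨x0, hx0, he⟩ := red_exists k m m0 k rfl hk hpr h4 _ c2 hc2 _ hx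
  have he1 : ∑ a, ((s.count a : ℕ) : ℤ) • C a = ∑ b : ZMod m0, x0 b • C (iota k b) := by
    have := congrArg Prod.fst he
    rw [Prod.fst_sum, Prod.fst_sum] at this
    exact this
  have he2 : ∀ T : Finset (Ix S), T.card = 4 →
      ∑ a, ((s.count a : ℕ) : ℤ) • F T a.val =
        ∑ b : ZMod m0, x0 b • F T (iota k b : ZMod m).val := by
    intro T hT4
    have := congrArg (fun z => (Prod.snd z) T) he
    change (∑ a, ((s.count a : ℕ) : ℤ) • c2 a).2 T = (∑ b : ZMod m0, x0 b • c2 (iota k b)).2 T at this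
    rw [Prod.snd_sum, Prod.snd_sum, Finset.sum_apply, Finset.sum_apply] at this
    have e1 : ∀ a : ZMod m, (((s.count a : ℕ) : ℤ) • c2 a).2 T =
        ((s.count a : ℕ) : ℤ) • F T a.val := by
      intro a
      change ((s.count a : ℕ) : ℤ) • (if T.card = 4 then F T a.val else 0) = _
      rw [if_pos hT4]
    have e2 : ∀ b : ZMod m0, (x0 b • c2 (iota k b)).2 T = x0 b • F T (iota k b : ZMod m).val := by
      intro b
      change x0 b • (if T.card = 4 then F T (iota k b : ZMod m).val else 0) = _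
      rw [if_pos hT4]
    simp only [e1, e2] at this
    exact this
  have hzero : ∀ T : Finset (Ix S), T.card = 4 →
      ∑ b : ZMod m0, x0 b • F T (iota k b : ZMod m).val = 0 := by
    intro T hT4
    rw [← he2 T hT4, sum_count s (fun a : ZMod m => F T a.val), hs, Multiset.map_map]
    apply Multiset.sum_eq_zero
    intro z hz
    obtain ⟨a, ha, rfl⟩ := Multiset.mem_map.mp hz
    simp only [Function.comp_apply]
    rw [ZMod.val_natCast, hFper T hT4 _ a (Nat.mod_modEq a m)]
    exact hFA T hT4 a ha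
  have hval : ∀ T : Finset (Ix S), T.card = 4 → ∀ b : ZMod m0,
      F T (iota k b : ZMod m).val = F T (k * b.val) := by
    intro T hT4 b
    apply hFper T hT4
    unfold iota
    rw [ZMod.val_natCast]
    exact Nat.mod_modEq _ _
  have hfin := coreH hn hco hN E (by rw [Fintype.card_coe]; exact hcard)
    (c := fun b : ZMod m0 => C (iota k b)) (hC.comp_iota hk)
    (by
      intro T hT mT l _ hmT hl x hx
      have h1 : ∀ b : ZMod mT, C (iota k (iota l b : ZMod m0)) = C (iota (k * l) b) := by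
        intro b; rw [iota_comp hk]
      simp only [h1]
      have h2 : k * l * mT = m := by rw [mul_assoc, hl, hk]
      refine kills_relR h2 hC hK ?_ x hx
      rw [← hmT]
      exact hG T hT)
    w (fun T b => F T (iota k b : ZMod m).val)
    (fun T hT4 => (hDm T hT4).comp_iota hk)
    (fun T hT4 y hy => by
      beta_reduce
      rw [hval T hT4]
      exact hF1 T hT4 y hy)
    (fun T hT4 y i hi hyi => by
      beta_reduce
      rw [hval T hT4]
      exact hF2 T hT4 y i hi hyi)
    x0 hx0 hzero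
  rw [← he1, sum_count, hs, Multiset.map_map] at hfin
  exact hfin


/-- the sets of indices -/
def S6 : Finset ℕ := {4, 3, 5, 7, 11, 13}

lemma threePrimes_13 {e : ℕ} (hp : ∀ p, p.Prime → p ∣ e → p ≤ 13)
    (hc : (e.primeFactors.erase 2).card + (if 4 ∣ e then 1 else 0) ≤ 3) : ThreePrimes e := by
  refine ⟨hc, ?_⟩
  intro p hpp hpe hp4
  right
  have h1 := hp p hpp hpe
  have h2 := hpp.two_le
  interval_cases p <;> first | omega | (exfalso; revert hpp; norm_num; done)

lemma prod_small : ∀ T ∈ S6.powerset, T.card ≤ 3 →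
    ((∏ x ∈ T, x).primeFactors.erase 2).card + (if 4 ∣ ∏ x ∈ T, x then 1 else 0) ≤ 3 := by
  unfold S6
  decide +kernel

lemma threePrimes_prod {T : Finset ℕ} (hT : T ⊆ S6) (hc : T.card ≤ 3) :
    ThreePrimes (∏ x ∈ T, x) := by
  refine threePrimes_13 ?_ (prod_small T (mem_powerset.mpr hT) hc)
  intro p hp hpd
  obtain ⟨x, hx, hpx⟩ := (Nat.Prime.prime hp).exists_mem_finset_dvd hpd
  have h1 := hT hx
  simp only [S6, mem_insert, mem_singleton] at h1
  have h2 := Nat.le_of_dvd (by omega) hpx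
  omega

/-- the indices of a level divisible by four -/
def idx (m : ℕ) : Finset ℕ := insert 4 (m.primeFactors.erase 2)

lemma idx_good (m : ℕ) : Good4 (idx m) := by
  intro x hx
  unfold idx at hx
  rw [mem_insert, mem_erase] at hx
  rcases hx with h | h
  · exact Or.inr h
  · left
    have hp := Nat.prime_of_mem_primeFactors h.2
    exact ⟨hp, hp.eq_two_or_odd.resolve_left h.1⟩

lemma idx_sub {m : ℕ} (hP : ∀ p, p.Prime → p ∣ m → p ≤ 13) : idx m ⊆ S6 := by
  intro x hx
  unfold idx at hx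
  rw [mem_insert, mem_erase] at hx
  unfold S6
  rcases hx with h | h
  · rw [h]; decide
  · have hp := Nat.prime_of_mem_primeFactors h.2
    have h1 := hP x hp (Nat.dvd_of_mem_primeFactors h.2)
    have h2 := hp.two_le
    have h3 := h.1
    clear h
    interval_cases x <;> first | decide | omega | (exfalso; revert hp; norm_num; done)

lemma idx_dvd {m x : ℕ} (h4 : 4 ∣ m) (hx : x ∈ idx m) : x ∣ m := by
  unfold idx at hx
  rw [mem_insert, mem_erase] at hx
  rcases hx with h | h
  · rw [h]; exact h4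
  · exact Nat.dvd_of_mem_primeFactors h.2

lemma idx_prod_dvd {m : ℕ} (h4 : 4 ∣ m) : ∏ x ∈ idx m, x ∣ m := by
  have h3 : ((∏ p ∈ idx m, p : ℕ) : ℤ) ∣ (m : ℤ) := by
    push_cast
    apply Finset.prod_dvd_of_coprime
    · intro a ha b hb hab
      exact Nat.isCoprime_iff_coprime.mpr (coprime4 (idx_good m) ha hb hab)
    · intro i hi
      exact_mod_cast idx_dvd h4 hi
  exact_mod_cast h3

lemma idx_mem {m q : ℕ} (hm : m ≠ 0) (hq : q.Prime) (hqm : q ∣ m) : ∃ x ∈ idx m, P2 x = q := by
  by_cases h2 : q = 2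
  · exact ⟨4, mem_insert_self _ _, by rw [h2]; exact if_pos rfl⟩
  · refine ⟨q, mem_insert_of_mem (mem_erase.mpr ⟨h2, Nat.mem_primeFactors.mpr ⟨hq, hqm, hm⟩⟩), ?_⟩
    refine if_neg ?_
    rintro rfl
    revert hq; norm_num

lemma idx_357 {m : ℕ} (h4 : 4 ∣ m) (h420 : ¬ 420 ∣ m) : ¬ (3 ∈ idx m ∧ 5 ∈ idx m ∧ 7 ∈ idx m) := by
  rintro ⟨h3, h5, h7⟩
  apply h420
  have h3' := idx_dvd h4 h3
  have h5' := idx_dvd h4 h5
  have h7' := idx_dvd h4 h7
  omega

lemma half_odd {m q x : ℕ} (hq : q.Prime) (hq2 : q ≠ 2) (h : m ∣ 2 * x) : pp m q ∣ x := by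
  have h1 := (pp_dvd m q).trans h
  have h2 : Nat.Coprime (pp m q) 2 := pp_coprime Nat.prime_two hq hq2
  exact h2.dvd_of_dvd_mul_left h1

/-- four or five indices -/
theorem base_many4 {m : ℕ} [NeZero m] (h4m : 4 ∣ m)
    (hP : ∀ p, p.Prime → p ∣ m → p ≤ 13) (h420 : ¬ 420 ∣ m)
    (A : Multiset ℕ) (hcardA : Multiset.card A ≤ 8) (hrel : ∀ t, Nat.Coprime t m → SW m A t = 0)
    {Q : Type} [AddCommGroup Q] {C : ZMod m → Q} (hC : OddDist C) (hK : KillsR ThreePrimes m C) :
    (A.map fun a : ℕ => C (a : ZMod m)).sum = 0 := by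
  classical
  have hm : m ≠ 0 := NeZero.ne m
  obtain ⟨S, hSdef⟩ : ∃ S, S = idx m := ⟨_, rfl⟩
  have hS : Good4 S := by rw [hSdef]; exact idx_good m
  have hS6 : S ⊆ S6 := by rw [hSdef]; exact idx_sub hP
  have h4S : 4 ∈ S := by rw [hSdef]; exact mem_insert_self _ _
  have hSd : ∀ p ∈ S, p ∣ m := fun p hp => by rw [hSdef] at hp; exact idx_dvd h4m hp
  have hmem : ∀ q, q.Prime → q ∣ m → ∃ x ∈ S, P2 x = q := fun q hq hqm => by
    rw [hSdef]; exact idx_mem hm hq hqm
  obtain ⟨hcard5, hb4, hb5⟩ := prod_bound4 S (mem_powerset.mpr hS6) h4S (by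
    rw [hSdef]; exact idx_357 h4m h420)
  by_cases hc3 : S.card ≤ 3
  · have h3 : ThreePrimes m := by
      refine threePrimes_13 hP ?_
      rw [if_pos h4m]
      rw [hSdef] at hc3
      unfold idx at hc3
      rw [card_insert_of_notMem (by
        intro h
        have := Nat.prime_of_mem_primeFactors (mem_of_mem_erase h)
        revert this; norm_num)] at hc3
      exact hc3
    have h1 := hK 1 m (one_mul m) h3 A hrel
    simpa only [one_mul] using h1
  have hne0 : ∀ x ∈ S, x ≠ 0 := fun x hx h => by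
    have := hSd x hx
    rw [h] at this
    exact hm (Nat.eq_zero_of_zero_dvd this)
  have hnz : ∀ i : Ix S, NeZero (nn S i) := fun i => ⟨hne0 i i.2⟩
  have hn : Adm' (nn S) := fun i => hS i i.2
  have hco : Pairwise (fun i j : Ix S => (nn S i).Coprime (nn S j)) := fun i j hij =>
    coprime4 hS i.2 j.2 (fun h => hij (Subtype.ext h))
  have hprod : ∏ i : Ix S, nn S i = ∏ p ∈ S, p := Finset.prod_coe_sort S (fun p => p)
  have hN0 : ∏ i : Ix S, nn S i ≠ 0 := prod_ne_zero_iff.mpr fun i _ => (hnz i).out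
  have hNZ : NeZero (∏ i : Ix S, nn S i) := ⟨hN0⟩
  have hdvd : ∏ i : Ix S, nn S i ∣ m := by
    rw [hprod, hSdef]; exact idx_prod_dvd h4m
  obtain ⟨k, hk⟩ := hdvd
  have hk' : k * ∏ i : Ix S, nn S i = m := (mul_comm _ _).trans hk.symm
  have hk'' : k * ∏ p ∈ S, p = m := by rw [← hprod]; exact hk'
  have hpr : ∀ p, p.Prime → p ∣ m → p ∣ ∏ i : Ix S, nn S i := fun p hp hpm => by
    obtain ⟨x, hx, hxp⟩ := hmem p hp hpm
    rw [hprod, ← hxp]; exact (P2_dvd hS hx).trans (dvd_prod_of_mem (fun p => p) hx)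
  have h4m0 : 4 ∣ m → 4 ∣ ∏ i : Ix S, nn S i := fun _ => by
    rw [hprod]; exact dvd_prod_of_mem (fun p => p) h4S
  let E : (∀ i, ZMod (nn S i)) ≃+* ZMod (∏ i : Ix S, nn S i) := (ZMod.prodEquivPi (nn S) hco).symm
  obtain ⟨U, hU1, hU2⟩ := exists_lifts (m := m) (m0 := ∏ i : Ix S, nn S i) hm ⟨k, hk⟩
  have hGT : ∀ T : Finset (Ix S), T.card ≤ 3 → ThreePrimes (∏ i ∈ T, nn S i) := by
    intro T hT
    have e : ∏ i ∈ T, nn S i = ∏ x ∈ T.map (Function.Embedding.subtype _), x := by
      rw [prod_map]; rfl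
    rw [e]
    apply threePrimes_prod
    · intro x hx
      rw [mem_map] at hx
      obtain ⟨i, _, rfl⟩ := hx
      exact hS6 i.2
    · rw [card_map]; exact hT
  have hpp : ∀ p ∈ S, ∀ B : ℕ, p ∣ B → pp m (P2 p) ∣ k * B := fun p hp B h =>
    (pp_iff_nat4 hS hm hk'' hp B).mpr h
  have hodd' : ∀ R : Finset ℕ, R ⊆ S → 2 ≤ R.card → ∃ x ∈ R, x ≠ 4 := by
    intro R _ hR
    obtain ⟨x, hx, hx4⟩ := exists_mem_ne (by omega : 1 < R.card) 4
    exact ⟨x, hx, hx4⟩
  by_cases h5 : S.card = 4
  · -- four indices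
    have huniv : ∀ T : Finset (Ix S), T.card = 4 → T = univ := by
      intro T hT
      apply Finset.eq_univ_of_card
      rw [hT, Fintype.card_coe, h5]
    have hmap : (univ : Finset (Ix S)).map (Function.Embedding.subtype _) = S := by
      ext p
      simp
    obtain ⟨v, hv⟩ := exists_avoid (V := (ZMod (∏ i : Ix S, nn S i))ˣ) (K := 8) (B := 16) A hcardA
      (fun v a => II m (pl S) (U v) a)
      (fun a _ => bad_four4 (m := m) hS h4S hprod.symm h5 hU2 a) (by
        rw [card_param4 hS hprod.symm]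
        have := hb4 h5
        omega)
    refine base_core4 hn hco hcard5 rfl E hk' h4m0 hpr (fun _ => II m (pl S) (U v))
      (fun _ _ x y h => II_per h) (fun _ _ x y h => II_neg h) ?_ ?_
      (fun T => fun i => unOf ((∏ q ∈ S \ S, q) * U v) (nn S i)) ?_ ?_ A hrel
      (fun _ _ a ha => hv a ha) hGT hC hK
    · intro _ _ x hx
      obtain ⟨p, hp, hp4⟩ := hodd' S subset_rfl (by omega)
      have e : P2 p = p := if_neg hp4
      have hpp' := P2_prime hS hp
      rw [e] at hpp'
      apply II_zero (q := P2 p) (mem_pl hp)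
      rw [e]
      refine half_odd hpp' ?_ hx
      rcases hS p hp with h | h
      · omega
      · exact absurd h hp4
    · intro _ _ q d hq hqd B
      have hqm : q ∣ m := Dvd.intro d hqd
      obtain ⟨x, hx, hxq⟩ := hmem q hq hqm
      exact (II_lin hq hqd hm (nd_unit hq hqm (hU1 v)) (pl_prime hS subset_rfl)
        (pl_nodup hS subset_rfl) (hxq ▸ mem_pl hx)).2 B
    · intro T hT y hy
      have hTu := huniv T hT
      subst hTu
      exact II_eval4 hS hm hprod.symm hk' E univ S hmap (hU1 v) y hy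
    · intro T hT y i _ hyi
      exact II_zero (q := P2 (i : ℕ)) (mem_pl i.2) (hpp i i.2 _ (coord_none E y hyi))
  · -- five indices
    have h5' : S.card = 5 := by omega
    have hr0 : ∀ T : Finset (Ix S), ∃ r : Ix S, T.card = 4 → T = univ.erase r := by
      intro T
      by_cases hT : T.card = 4
      · have h6 : (univ \ T).card = 1 := by
          rw [card_sdiff_of_subset (subset_univ T), card_univ, Fintype.card_coe, h5', hT]
        obtain ⟨r, hr⟩ := card_eq_one.mp h6
        refine ⟨r, fun _ => ?_⟩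
        ext i
        rw [mem_erase]
        constructor
        · intro hi
          refine ⟨fun e => ?_, mem_univ _⟩
          have : r ∈ univ \ T := by rw [hr]; exact mem_singleton_self r
          exact (mem_sdiff.mp this).2 (e ▸ hi)
        · rintro ⟨hi, _⟩
          by_contra h7
          have : i ∈ univ \ T := mem_sdiff.mpr ⟨mem_univ _, h7⟩
          rw [hr, mem_singleton] at this
          exact hi this
      · exact ⟨⟨4, h4S⟩, fun h => absurd h hT⟩
    choose r hr using hr0
    have hmap : ∀ T : Finset (Ix S), T.card = 4 →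
        T.map (Function.Embedding.subtype _) = S.erase (r T : ℕ) := by
      intro T hT
      have h6 := hr T hT
      ext p
      rw [mem_map, mem_erase]
      constructor
      · rintro ⟨i, hi, rfl⟩
        rw [h6, mem_erase] at hi
        exact ⟨fun e => hi.1 (Subtype.ext e), i.2⟩
      · rintro ⟨hp1, hp2⟩
        refine ⟨⟨p, hp2⟩, ?_, rfl⟩
        rw [h6, mem_erase]
        exact ⟨fun e => hp1 (congrArg Subtype.val e), mem_univ _⟩
    have hr13 : ∀ i : Ix S, (i : ℕ) ≤ 13 := by
      intro i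
      have := hS6 i.2
      simp only [S6, mem_insert, mem_singleton] at this
      omega
    have hv0 : ∀ i : Ix S, ∃ v : (ZMod (∏ i : Ix S, nn S i))ˣ, ∀ a ∈ A,
        DD m (pl (S.erase (i : ℕ))) (P2 (i : ℕ)) (U v) a = 0 := by
      intro i
      exact exists_avoid (V := (ZMod (∏ i : Ix S, nn S i))ˣ) (K := 8) (B := 208) A hcardA
        (fun v a => DD m (pl (S.erase (i : ℕ))) (P2 (i : ℕ)) (U v) a)
        (fun a _ => bad_five4 (m := m) hS h4S (Dvd.dvd.trans ⟨2, by norm_num⟩ h4m) hprod.symm h5' i.2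
          (hr13 i) hU1 hU2 a) (by
          rw [card_param4 hS hprod.symm]
          have := hb5 h5'
          omega)
    choose v hv using hv0
    have hzero : ∀ (j : Ix S) (x : ℕ), x ∈ S → x ≠ (j : ℕ) → ∀ y, pp m (P2 x) ∣ y →
        DD m (pl (S.erase (j : ℕ))) (P2 (j : ℕ)) (U (v j)) y = 0 := by
      intro j x hx hxj y hy
      have hq := P2_prime hS hx
      have hqm : P2 x ∣ m := (P2_dvd hS hx).trans (hSd x hx)
      obtain ⟨d, hd⟩ := hqm
      exact (DD_lin hq hd.symm hm (nd_unit hq (Dvd.intro d hd.symm) (hU1 (v j))) (P2_prime hS j.2)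
        (fun e => hxj (P2_inj hS j.2 hx e).symm) (pl_prime hS (erase_subset _ _))
        (pl_nodup hS (erase_subset _ _)) (mem_pl (mem_erase.mpr ⟨hxj, hx⟩))).1 y hy
    refine base_core4 hn hco hcard5 rfl E hk' h4m0 hpr
      (fun T => DD m (pl (S.erase (r T : ℕ))) (P2 (r T : ℕ)) (U (v (r T))))
      (fun _ _ x y h => DD_per h) (fun _ _ x y h => DD_neg h) ?_ ?_
      (fun T => fun i => unOf ((∏ q ∈ S \ S.erase (r T : ℕ), q) * U (v (r T))) (nn S i)) ?_ ?_ A hrel
      (fun T _ a ha => hv (r T) a ha) hGT hC hK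
    · intro T _ x hx
      obtain ⟨p, hp, hp4⟩ := hodd' (S.erase (r T : ℕ)) (erase_subset _ _) (by
        rw [card_erase_of_mem (r T).2]; omega)
      have hpS := mem_of_mem_erase hp
      have e : P2 p = p := if_neg hp4
      have hpp' := P2_prime hS hpS
      rw [e] at hpp'
      refine hzero (r T) p hpS (ne_of_mem_erase hp) x ?_
      rw [e]
      refine half_odd hpp' ?_ hx
      rcases hS p hpS with h | h
      · omega
      · exact absurd h hp4
    · intro T _ q d hq hqd B
      have hqm : q ∣ m := Dvd.intro d hqd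
      by_cases hqr : q = P2 (r T : ℕ)
      · rw [← hqr]
        exact DD_rel hq hqd hm (nd_unit hq hqm (hU1 (v (r T)))) (fun p hp => by
          have := pl_ne hS (erase_subset _ _) (r T).2 (notMem_erase _ _) p hp
          rw [← hqr] at this
          exact this) B
      · obtain ⟨x, hx, hxq⟩ := hmem q hq hqm
        have hxr : x ≠ (r T : ℕ) := fun e => hqr (by rw [← hxq, e])
        exact (DD_lin hq hqd hm (nd_unit hq hqm (hU1 (v (r T)))) (P2_prime hS (r T).2)
          (fun e => hqr e.symm) (pl_prime hS (erase_subset _ _)) (pl_nodup hS (erase_subset _ _))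
          (hxq ▸ mem_pl (mem_erase.mpr ⟨hxr, hx⟩))).2 B
    · intro T hT y hy
      have hrn : r T ∉ T := by
        intro h
        exact (Finset.mem_erase.mp ((Finset.ext_iff.mp (hr T hT) (r T)).mp h)).1 rfl
      have hrT : y (r T) = none := hy _ hrn
      rw [DD_one (hpp (r T) (r T).2 _ (coord_none E y hrT))]
      exact II_eval4 hS hm hprod.symm hk' E T (S.erase (r T : ℕ)) (hmap T hT) (hU1 (v (r T))) y hy
    · intro T hT y i hi hyi
      have hir : (i : ℕ) ≠ (r T : ℕ) := by
        intro e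
        rw [hr T hT, mem_erase] at hi
        exact hi.1 (Subtype.ext e)
      exact hzero (r T) (i : ℕ) i.2 hir _ (hpp i i.2 _ (coord_none E y hyi))

end Pool.Agent.U270.FT14
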