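import Pool.Agent.U270.FT14.CoreH

/-!
# Levels with at most three prime factors

Relations of such a level on which the classes of some sets of two primes vanish follow from the
relations of the other levels with at most two primes.
-/

set_option linter.unusedSectionVars false

namespace Pool.Agent.U270.FT14

open Finset Pool.Agent.H916R2 Pool.Agent.N992 Pool.Agent.N993 Pool.Agent.N993.Dat

variable {ι : Type} [Fintype ι] [LinearOrder ι] {n : ι → ℕ} [∀ i, NeZero (n i)] {N : ℕ} [NeZero N]

theorem core2 (hn : Adm' n) (hco : Pairwise (fun i j => (n i).Coprime (n j)))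
    (hN : ∏ i, n i = N) (E : (∀ i, ZMod (n i)) ≃+* ZMod N) (hι : Fintype.card ι ≤ 3)
    (B : Finset ι → Prop) (hB : ∀ T, B T → T.card = 2)
    {Q : Type} [AddCommGroup Q] {c : ZMod N → Q} (hc : OddDist c)
    (hT3 : ∀ T : Finset ι, T.card ≤ 2 → ¬ B T → ∀ (mT l : ℕ) [NeZero mT], ∏ i ∈ T, n i = mT →
      l * mT = N → ∀ x : ZMod mT → ℤ, Rel x → ∑ b, x b • c (iota l b) = 0)
    (w : Finset ι → (cyc n).GG) (Dt : Finset ι → ZMod N → ZMod 2)
    (hDt : ∀ T : Finset ι, B T → OddDist (Dt T))
    (hD1 : ∀ T : Finset ι, B T → ∀ x, (cyc n).Supp T x →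
      Dt T (E (emb x)) = ((top (w T) T x : ℤ) : ZMod 2))
    (hD2 : ∀ T : Finset ι, B T → ∀ (x : (cyc n).Pt) (i : ι), i ∈ T → x i = none →
      Dt T (E (emb x)) = 0)
    (x : ZMod N → ℤ) (hx : Rel x) (hD3 : ∀ T : Finset ι, B T → ∑ b, x b • Dt T b = 0) :
    ∑ b, x b • c b = 0 := by
  classical
  refine CharacterModule.eq_zero_of_character_apply fun φ0 => ?_
  let φ : Q →+ AddCircle (1 : ℚ) := φ0
  change φ _ = 0
  let D := cyc n
  have hfree : ∀ i, D.c i ≠ 1 := fun i => neg_one_ne_one (hn i)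
  have hsupp : ∀ x : D.Pt, D.Supp univ x := fun x i hi => absurd (mem_univ i) hi
  -- the distribution with values in the circle
  have hcφ : OddDist (fun a => φ (c a)) := Pool.Agent.N998.oddDist_map hc φ
  set f : D.Pt → AddCircle (1 : ℚ) := fun x => φ (c (E (emb x))) with hf
  have hfD : D.IsD0 univ f := (isD0_of_oddDist hn hco hN E hcφ).1
  have hfo : ∀ x, f (D.act D.c x) = - f x := fun x => (isD0_of_oddDist hn hco hN E hcφ).2 x
  -- lift to the rational numbers
  let π : ℚ →+ AddCircle (1 : ℚ) := QuotientAddGroup.mk' (AddSubgroup.zmultiples (1 : ℚ))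
  have hπ : ∀ q : ℚ, π q = (q : AddCircle (1 : ℚ)) := fun q => rfl
  obtain ⟨ft, hft, hft'⟩ : ∃ g : D.Pt → ℚ, D.IsD0 univ g ∧ ∀ x, π (g x) = f x := by
    let _ := D.trivAct ℚ
    let _ := D.trivAct (AddCircle (1 : ℚ))
    obtain ⟨g, hg, hg'⟩ := Dat.exists_lift (D := D) univ π (fun _ _ => rfl)
      (QuotientAddGroup.mk'_surjective _) (f := f) hfD
    exact ⟨g, hg, fun x => hg' x (hsupp x)⟩
  have hker : ∀ q : ℚ, π q = 0 → ∃ k : ℤ, q = k := by
    intro q hq
    rw [hπ, AddCircle.coe_eq_zero_iff] at hq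
    obtain ⟨k, hk⟩ := hq
    exact ⟨k, by rw [← hk]; simp⟩
  -- the integral distribution
  have hν0 : ∀ x, ∃ k : ℤ, ft x + ft (D.act D.c x) = k := by
    intro x
    apply hker
    rw [map_add, hft', hft', hfo, add_neg_cancel]
  choose ν hν using hν0
  have hνD : D.IsD0 univ ν := by
    apply Dat.IsD0.of_cast
    have h1 : D.IsD0 univ (fun x => ft x + ft (D.act D.c x)) := hft.add (hft.act D.c)
    have h2 : (fun x => ft x + ft (D.act D.c x)) = fun x => (ν x : ℚ) := funext hν
    rwa [h2] at h1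
  have hνT : ∀ x, ν (D.act D.c x) = ν x := by
    intro x
    have h1 := hν x
    have h2 := hν (D.act D.c x)
    rw [Dat.act_c_c] at h2
    have : ((ν (D.act D.c x) : ℤ) : ℚ) = ν x := by rw [← h1, ← h2]; ring
    exact_mod_cast this
  -- the weights
  let X := (∀ i, ZMod (n i))ˣ
  let σ : X → D.Pt → ℤ := fun t x => saw (E ((t : ∀ i, ZMod (n i)) * emb x))
  have hσD : ∀ t, D.IsD0 univ (σ t) := by
    intro t
    have h1 := (isD0_of_oddDist hn hco hN E
      (saw_oddDist' (Units.mapEquiv E.toMulEquiv t))).1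
    have h2 : (fun x : D.Pt => saw (((Units.mapEquiv E.toMulEquiv t : (ZMod N)ˣ) : ZMod N) *
        E (emb x))) = σ t := by
      funext x
      change saw (E t * E (emb x)) = saw (E (t * emb x))
      rw [map_mul]
    rw [h2] at h1
    exact h1
  have hσo : ∀ t x, σ t (D.act D.c x) = - σ t x := by
    intro t x
    have h1 := (isD0_of_oddDist hn hco hN E
      (saw_oddDist' (Units.mapEquiv E.toMulEquiv t))).2 x
    have h2 : ∀ x : D.Pt, saw (((Units.mapEquiv E.toMulEquiv t : (ZMod N)ˣ) : ZMod N) *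
        E (emb x)) = σ t x := by
      intro x
      change saw (E t * E (emb x)) = saw (E (t * emb x))
      rw [map_mul]
    rw [h2, h2] at h1
    exact h1
  -- the good subsets
  have himgT : ∀ T : Finset ι, T.card ≤ 2 → ¬ B T → D.Img 1 T ν := by
    intro T hTT hTB
    have hmT0 : ∏ i ∈ T, n i ≠ 0 := prod_ne_zero_iff.mpr fun i _ => NeZero.ne (n i)
    have : NeZero (∏ i ∈ T, n i) := ⟨hmT0⟩
    have hlT : (∏ i ∈ univ \ T, n i) * (∏ i ∈ T, n i) = N := by
      rw [← hN]; exact prod_sdiff (subset_univ T)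
    obtain ⟨w, hw⟩ := exists_weights_T hco hN E (c := c) T rfl hlT (hT3 T hTT hTB _ _ rfl hlT) φ
    set ht : D.Pt → ℚ := fun x => ∑ t : X, ((σ t x : ℤ) : ℚ) * w t with hht
    have hhtD : D.IsD0 univ ht := by
      apply Dat.IsD0.sum
      intro t _
      exact (hσD t).cast.map (AddMonoidHom.mulRight (w t))
    have hhto : ∀ x, ht (D.act D.c x) = - ht x := by
      intro x
      rw [hht]
      beta_reduce
      rw [← sum_neg_distrib]
      refine sum_congr rfl fun t _ => ?_
      rw [hσo]; push_cast; ring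
    have hk0 : ∀ x, ∃ k : ℤ, D.Supp T x → ft x - ht x = k := by
      intro x
      by_cases hx : D.Supp T x
      · have h1 : π (ft x - ht x) = 0 := by
          rw [map_sub, sub_eq_zero, hft']
          exact hw x hx
        obtain ⟨k, hk⟩ := hker _ h1
        exact ⟨k, fun _ => hk⟩
      · exact ⟨0, fun h => absurd h hx⟩
    choose k hkk using hk0
    refine ⟨k, ?_, ?_⟩
    · change D.IsD0 T k
      apply Dat.IsD0.of_cast
      intro i hi x hx h0
      have h1 := (hft.sub hhtD) i (mem_univ i) x (hsupp x) h0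
      beta_reduce at h1 ⊢
      rw [← hkk _ (hx.act _), ← hkk _ (hx.act _), ← h1]
      exact sum_congr rfl fun u _ => (hkk _ (hx.update hi _)).symm
    · intro x hx
      change ν x = k x + 1 * k (D.act D.c x)
      have h1 := hkk x hx
      have h2 := hkk _ (hx.act D.c)
      have h3 := hν x
      rw [hhto] at h2
      have h4 : ((ν x : ℤ) : ℚ) = k x + 1 * k (D.act D.c x) := by
        rw [← h1, ← h2, ← h3]; ring
      exact_mod_cast h4
  have hνI : D.IsD univ ν := hνD
  have hνty : D.Ty 1 univ ν := fun x _ => by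
    change ν (D.act D.c x) = 1 * ν x
    rw [hνT, one_mul]
  -- the sets of two elements
  have hor : ∀ T : Finset ι, B T → D.Img 1 T ν ∨ D.Img 1 T (ν - top (w T) T) := by
    intro T hT4
    have hT2 := hB T hT4
    refine top_or hfree (w T) T 1 (by rw [hT2]; norm_num) ν (hνI.mono (subset_univ T))
      (hνty.mono (subset_univ T)) ?_
    intro T' hT' _
    have := card_lt_card hT'
    exact himgT T' (by omega) (fun h => by have := hB T' h; omega)
  let P4 : Finset (Finset ι) := univ.filter fun T => B T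
  have hP4 : ∀ T ∈ P4, B T := fun T hT => (mem_filter.mp hT).2
  let ε : Finset ι → ℤ := fun T => if D.Img 1 T ν then 0 else 1
  -- the lifts
  have hlift : ∀ T : Finset ι, ∃ g : D.Pt → ℤ, B T → (D.IsD0 univ g ∧
      ∀ x, ((g x : ℤ) : ZMod 2) = Dt T (E (emb x))) := by
    intro T
    by_cases hT4 : B T
    · let _ := D.trivAct ℤ
      let _ := D.trivAct (ZMod 2)
      have h1 := (isD0_of_oddDist hn hco hN E (hDt T hT4)).1
      obtain ⟨g, hg, hg'⟩ := Dat.exists_lift (D := D) univ (Int.castAddHom (ZMod 2))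
        (fun _ _ => rfl) (ZMod.intCast_surjective) (f := fun x => Dt T (E (emb x))) h1
      exact ⟨g, fun _ => ⟨hg, fun x => hg' x (hsupp x)⟩⟩
    · exact ⟨fun _ => 0, fun h => absurd h hT4⟩
  choose g hg using hlift
  have hgev : ∀ T : Finset ι, B T → ∀ x, (2 : ℤ) ∣ g T x + g T (D.act D.c x) := by
    intro T hT4 x
    have h1 := (hg T hT4).2 x
    have h2 := (hg T hT4).2 (D.act D.c x)
    have h3 := (isD0_of_oddDist hn hco hN E (hDt T hT4)).2 x
    have h4 : ((g T x + g T (D.act D.c x) : ℤ) : ZMod 2) = 0 := by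
      push_cast
      rw [h1, h2]
      change Dt T (E (emb x)) + Dt T (E (emb ((cyc n).act (cyc n).c x))) = 0
      rw [h3, add_neg_cancel]
    have h5 := (ZMod.intCast_zmod_eq_zero_iff_dvd (g T x + g T (D.act D.c x)) 2).mp h4
    exact_mod_cast h5
  let μ : Finset ι → D.Pt → ℤ := fun T x => (g T x + g T (D.act D.c x)) / 2
  have hμ : ∀ T : Finset ι, B T → ∀ x, 2 * μ T x = g T x + g T (D.act D.c x) :=
    fun T hT4 x => Int.mul_ediv_cancel' (hgev T hT4 x)
  let ft' : D.Pt → ℚ := fun x => ft x + ∑ T ∈ P4, ((ε T : ℚ) / 2) * (g T x : ℚ)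
  have hft'D : D.IsD0 univ ft' := by
    apply hft.add
    apply Dat.IsD0.sum
    intro T hT
    exact (hg T (hP4 T hT)).1.cast.map (AddMonoidHom.mulLeft ((ε T : ℚ) / 2))
  let ν' : D.Pt → ℤ := fun x => ν x + ∑ T ∈ P4, ε T * μ T x
  have hν' : ∀ x, ft' x + ft' (D.act D.c x) = (ν' x : ℤ) := by
    intro x
    have h1 : (ν' x : ℚ) = (ν x : ℚ) + ∑ T ∈ P4, (ε T : ℚ) * (μ T x : ℚ) := by
      change ((ν x + ∑ T ∈ P4, ε T * μ T x : ℤ) : ℚ) = _
      push_cast; rfl
    rw [h1, ← hν x]
    have h2 : ∑ T ∈ P4, (ε T : ℚ) * (μ T x : ℚ) =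
        ∑ T ∈ P4, ((ε T : ℚ) / 2) * (g T x : ℚ) +
        ∑ T ∈ P4, ((ε T : ℚ) / 2) * (g T (D.act D.c x) : ℚ) := by
      rw [← sum_add_distrib]
      refine sum_congr rfl fun T hT => ?_
      have h3 : (2 : ℚ) * (μ T x : ℚ) = (g T x : ℚ) + (g T (D.act D.c x) : ℚ) := by
        exact_mod_cast hμ T (hP4 T hT) x
      have h4 : (μ T x : ℚ) = ((g T x : ℚ) + (g T (D.act D.c x) : ℚ)) / 2 := by
        rw [← h3]; ring
      rw [h4]; ring
    rw [h2]
    change (ft x + ∑ T ∈ P4, ((ε T : ℚ) / 2) * (g T x : ℚ)) +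
      (ft (D.act D.c x) + ∑ T ∈ P4, ((ε T : ℚ) / 2) * (g T (D.act D.c x) : ℚ)) = _
    ring
  have hν'D : D.IsD0 univ ν' := by
    apply Dat.IsD0.of_cast
    have h1 : D.IsD0 univ (fun x => ft' x + ft' (D.act D.c x)) := hft'D.add (hft'D.act D.c)
    have h2 : (fun x => ft' x + ft' (D.act D.c x)) = fun x => (ν' x : ℚ) := funext hν'
    rwa [h2] at h1
  have hν'T : ∀ x, ν' (D.act D.c x) = ν' x := by
    intro x
    have h1 := hν' x
    have h2 := hν' (D.act D.c x)
    rw [Dat.act_c_c] at h2
    have : ((ν' (D.act D.c x) : ℤ) : ℚ) = ν' x := by rw [← h1, ← h2]; ring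
    exact_mod_cast this
  have hμD : ∀ T : Finset ι, B T → D.IsD0 univ (μ T) := by
    intro T hT4
    obtain ⟨h1, h2⟩ := half_isD (D := D) (S := univ)
      (f := fun x => g T x + g T (D.act D.c x))
      (show D.IsD0 univ (fun x => g T x + g T (D.act D.c x)) from
        (hg T hT4).1.add ((hg T hT4).1.act D.c)) (fun x _ => hgev T hT4 x)
    exact h1
  -- the even values
  have hμimg : ∀ T T' : Finset ι, B T → (∃ i ∈ T, i ∉ T') → D.Img 1 T' (μ T) := by
    intro T T' hT4 hTT'
    obtain ⟨i, hiT, hiT'⟩ := hTT'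
    have hgD : D.IsD T' (g T) := IsD.mono (show D.IsD univ (g T) from (hg T hT4).1) (subset_univ T')
    have h1 := img_mu (D := D) (S := T') (g := g T) (t := 0) (μ := μ T) hgD IsD.zero
      (fun x _ => rfl) (by
        intro x hx
        rw [Pi.zero_apply, sub_zero]
        have h2 := (hg T hT4).2 x
        rw [hD2 T hT4 x i hiT (hx i hiT')] at h2
        have h5 := (ZMod.intCast_zmod_eq_zero_iff_dvd (g T x) 2).mp h2
        exact_mod_cast h5) (fun x _ => hμ T hT4 x)
    rwa [sub_zero] at h1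
  have hμtop : ∀ T : Finset ι, B T → D.Img 1 T (μ T - top (w T) T) := by
    intro T hT4
    have hgD : D.IsD T (g T) := IsD.mono (show D.IsD univ (g T) from (hg T hT4).1) (subset_univ T)
    refine img_mu (D := D) (S := T) (g := g T) (t := top (w T) T) (μ := μ T) hgD
      (top_isD (w T) T) (fun x _ => ?_) (fun x hx => ?_) (fun x _ => hμ T hT4 x)
    · rw [top_act, hB T hT4]; norm_num
    · have h2 := (hg T hT4).2 x
      rw [hD1 T hT4 x hx] at h2
      have h3 : ((g T x - top (w T) T x : ℤ) : ZMod 2) = 0 := by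
        push_cast; rw [h2, sub_self]
      have h5 := (ZMod.intCast_zmod_eq_zero_iff_dvd (g T x - top (w T) T x) 2).mp h3
      exact_mod_cast h5
  have hsumimg : ∀ (T' : Finset ι) (P : Finset (Finset ι)), (∀ T ∈ P, D.Img 1 T' (μ T)) →
      D.Img 1 T' (fun x => ∑ T ∈ P, ε T * μ T x) := by
    intro T' P
    induction P using Finset.induction_on with
    | empty => intro _; exact Img.zero.congr fun x _ => by simp
    | insert T P hT ih =>
      intro h
      have h1 := ih fun T hT => h T (mem_insert_of_mem hT)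
      have h2 := (h T (mem_insert_self _ _)).zsmul (ε T)
      refine (h2.add h1).congr fun x _ => ?_
      rw [sum_insert hT, Pi.add_apply, Pi.smul_apply, smul_eq_mul]
  -- the main step
  have himg' : D.Img 1 univ ν' := by
    refine detect hfree univ 1 (by norm_num) ν' hν'D (fun x _ => by
      change ν' (D.act D.c x) = 1 * ν' x
      rw [hν'T, one_mul]) ?_
    intro T' _ hpar
    have hcard5 : T'.card ≤ 3 := (card_le_univ T').trans hι
    have hne5 : T'.card ≠ 3 := by
      intro h5
      rw [h5] at hpar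
      norm_num at hpar
    by_cases h4 : B T'
    · have hT'P : T' ∈ P4 := mem_filter.mpr ⟨mem_univ _, h4⟩
      have h1 : D.Img 1 T' (fun x => ∑ T ∈ P4.erase T', ε T * μ T x) := by
        apply hsumimg
        intro T hT
        have hT4 := hP4 T (mem_of_mem_erase hT)
        apply hμimg T T' hT4
        by_contra hcon
        push Not at hcon
        have h5 : T ⊆ T' := hcon
        have h6 := Finset.eq_of_subset_of_card_le h5 (by rw [hB T hT4, hB T' h4])
        exact ne_of_mem_erase hT h6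
      have hsplit : ∀ x, ν' x = ν x + ε T' * μ T' x + ∑ T ∈ P4.erase T', ε T * μ T x := by
        intro x
        change ν x + ∑ T ∈ P4, ε T * μ T x = _
        rw [← add_sum_erase P4 (fun T => ε T * μ T x) hT'P]
        ring
      by_cases hI : D.Img 1 T' ν
      · refine (hI.add h1).congr fun x _ => ?_
        rw [hsplit x, Pi.add_apply]
        have : ε T' = 0 := if_pos hI
        rw [this]; ring
      · have h2 := (hor T' h4).resolve_left hI
        have h3 := hμtop T' h4
        have htopty : D.Ty 1 T' (top (w T') T') := by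
          intro x _
          rw [T_triv (triv_int D), top_act, hB T' h4, one_smul]
          norm_num
        have h5 := htopty.two (by norm_num) (top_isD (w T') T')
        refine (((h2.add h3).add h5).add h1).congr fun x _ => ?_
        rw [hsplit x]
        have : ε T' = 1 := if_neg hI
        rw [this]
        simp only [Pi.add_apply, Pi.sub_apply, Pi.smul_apply, smul_eq_mul]
        ring
    · have h3 : T'.card ≤ 2 := by omega
      refine ((himgT T' h3 h4).add (hsumimg T' P4 fun T hT => ?_)).congr fun x _ => rfl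
      have hT4 := hP4 T hT
      apply hμimg T T' hT4
      by_contra hcon
      push Not at hcon
      have h5 : T ⊆ T' := hcon
      have h6 := Finset.eq_of_subset_of_card_le h5 (by rw [hB T hT4]; exact h3)
      exact h4 (h6 ▸ hT4)
  obtain ⟨k, hkD, hk2⟩ := himg'
  have hkD0 : D.IsD0 univ k := hkD
  -- the new distribution
  let Ψ : Q × (Finset ι → ZMod 2) →+ AddCircle (1 : ℚ) :=
    { toFun := fun z => φ z.1 + ∑ T ∈ P4, ε T • hom2 (z.2 T)
      map_zero' := by simp
      map_add' := by
        intro a b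
        simp only [Prod.fst_add, Prod.snd_add, map_add, Pi.add_apply, smul_add, sum_add_distrib]
        abel }
  let c2 : ZMod N → Q × (Finset ι → ZMod 2) := fun b => (c b, fun T => if B T then Dt T b else 0)
  have hc2 : OddDist c2 := by
    refine ⟨fun a => ?_, fun a ha => ?_, fun p d hp hpd a => ?_⟩
    · refine Prod.ext (hc.neg a) (funext fun T => ?_)
      change (if B T then Dt T (-a) else 0) = -(if B T then Dt T a else 0)
      by_cases hT4 : B T
      · rw [if_pos hT4, if_pos hT4, (hDt T hT4).neg]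
      · rw [if_neg hT4, if_neg hT4, neg_zero]
    · refine Prod.ext (hc.half a ha) (funext fun T => ?_)
      change (if B T then Dt T a else 0) = 0
      by_cases hT4 : B T
      · rw [if_pos hT4, (hDt T hT4).half a ha]
      · rw [if_neg hT4]
    · refine Prod.ext ?_ (funext fun T => ?_)
      · rw [Prod.fst_sum]; exact hc.dist p d hp hpd a
      · rw [Prod.snd_sum, Finset.sum_apply]
        change ∑ i ∈ range p, (if B T then Dt T (a + (i : ZMod N) * (d : ZMod N)) else 0) =
          (if B T then Dt T ((p : ZMod N) * a) else 0)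
        by_cases hT4 : B T
        · simp only [if_pos hT4]; exact (hDt T hT4).dist p d hp hpd a
        · simp only [if_neg hT4, sum_const_zero]
  have hc3 : OddDist (fun b => Ψ (c2 b)) := Pool.Agent.N998.oddDist_map hc2 Ψ
  have hfin := finish hn hco hN E hc3 hft'D (by
    intro y
    change (((ft y + ∑ T ∈ P4, ((ε T : ℚ) / 2) * (g T y : ℚ)) : ℚ) : AddCircle (1 : ℚ)) =
      φ (c (E (emb y))) + ∑ T ∈ P4, ε T • hom2 (if B T then Dt T (E (emb y)) else 0)
    have h1 : ((ft y : ℚ) : AddCircle (1 : ℚ)) = φ (c (E (emb y))) := hft' y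
    rw [← h1]
    have h2 : ∀ q1 q2 : ℚ, ((q1 + q2 : ℚ) : AddCircle (1 : ℚ)) = (q1 : AddCircle (1 : ℚ)) + q2 :=
      fun _ _ => rfl
    rw [h2]
    congr 1
    have h3 : ((∑ T ∈ P4, ((ε T : ℚ) / 2) * (g T y : ℚ) : ℚ) : AddCircle (1 : ℚ)) =
        ∑ T ∈ P4, ((((ε T : ℚ) / 2) * (g T y : ℚ) : ℚ) : AddCircle (1 : ℚ)) := map_sum π _ _
    rw [h3]
    refine sum_congr rfl fun T hT => ?_
    have hT4 := hP4 T hT
    rw [if_pos hT4, ← (hg T hT4).2 y, hom2_cast, ← AddCircle.coe_zsmul]
    congr 1
    rw [zsmul_eq_mul]; ring) hkD0 (by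
    intro y
    have h1 := hν' y
    have h2 := hk2 y (hsupp y)
    change ν' y = k y + 1 * k (D.act D.c y) at h2
    change ft' y + ft' (D.act D.c y) = _
    rw [h1, h2]
    push_cast
    ring) x hx
  have h1 : ∑ b, x b • Ψ (c2 b) = φ (∑ b, x b • c b) + ∑ T ∈ P4, ε T • hom2 (∑ b, x b • Dt T b) := by
    have h2 : ∀ b, x b • Ψ (c2 b) = φ (x b • c b) + ∑ T ∈ P4, ε T • hom2 (x b • Dt T b) := by
      intro b
      change x b • (φ (c b) + ∑ T ∈ P4, ε T • hom2 (if B T then Dt T b else 0)) = _
      rw [smul_add, ← map_zsmul, smul_sum]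
      congr 1
      refine sum_congr rfl fun T hT => ?_
      rw [if_pos (hP4 T hT), smul_comm, ← map_zsmul]
    simp only [h2]
    rw [sum_add_distrib, ← map_sum, sum_comm]
    congr 1
    refine sum_congr rfl fun T _ => ?_
    rw [← smul_sum, ← map_sum]
  rw [h1] at hfin
  have h2 : ∑ T ∈ P4, ε T • hom2 (∑ b, x b • Dt T b) = 0 := by
    apply sum_eq_zero
    intro T hT
    rw [hD3 T (hP4 T hT), map_zero, smul_zero]
  rwa [h2, add_zero] at hfin

end Pool.Agent.U270.FT14
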