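import Pool.Agent.U270.FT14.Count5

/-!
# Avoiding a short relation with two primes and one more prime

The entries of a relation lie in an even number in each of the classes of the units modulo the signs.
-/

set_option autoImplicit false

namespace Pool.Agent.U270.FT14

open Finset Pool.Agent.H916R2

section parts

variable {m r p q : ℕ}

lemma dl_congr {u u' : ℤ} {x : ℕ} (h : ((pp m p : ℕ) : ℤ) ∣ u - u') :
    dl m p u x = dl m p u' x := by
  unfold dl
  refine if_congr (and_congr Iff.rfl ?_) rfl rfl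
  have e : (x : ℤ) - (Nat.gcd x m : ℤ) * u' =
      ((x : ℤ) - (Nat.gcd x m : ℤ) * u) + (Nat.gcd x m : ℤ) * (u - u') := by ring
  rw [e]
  exact (dvd_add_left (h.mul_left _)).symm

lemma dl_excl (hp : p % 2 = 1) (u : ℤ) (x : ℕ) : dl m p u x = 0 ∨ dl m p (-u) x = 0 := by
  by_contra hcon
  push Not at hcon
  obtain ⟨h1, h2⟩ := dl_ne hcon.1
  obtain ⟨_, h3⟩ := dl_ne hcon.2
  have h4 := dvd_add h2 h3
  have e : (x : ℤ) - (Nat.gcd x m : ℤ) * u + (x - (Nat.gcd x m : ℤ) * (-u)) = ((2 * x : ℕ) : ℤ) := by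
    push_cast; ring
  rw [e, Int.natCast_dvd_natCast] at h4
  have h5 : Nat.Coprime (pp m p) 2 := by
    unfold pp
    apply Nat.Coprime.pow_left
    rw [Nat.coprime_two_right]
    exact Nat.odd_iff.mpr hp
  exact h1 (h5.dvd_of_dvd_mul_left h4)

/-- the three parts -/
def PA (m r p q : ℕ) (u : ℤ) (x : ℕ) : ZMod 2 :=
  (dl m r u x * dl m q u x + dl m r (-u) x * dl m q (-u) x) * (dl m p u x + dl m p (-u) x)

def PB (m r p q : ℕ) (u : ℤ) (x : ℕ) : ZMod 2 :=
  (dl m r u x * dl m p u x + dl m r (-u) x * dl m p (-u) x) * (dl m q u x + dl m q (-u) x)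

def PC (m r p q : ℕ) (u : ℤ) (x : ℕ) : ZMod 2 :=
  (dl m r u x + dl m r (-u) x) * (dl m p u x * dl m q (-u) x + dl m p (-u) x * dl m q u x)

lemma P_sum (u : ℤ) (x : ℕ) : PA m r p q u x + PB m r p q u x + PC m r p q u x = 0 := by
  unfold PA PB PC
  have h : ∀ a a' b b' c c' : ZMod 2, (a * c + a' * c') * (b + b') + (a * b + a' * b') * (c + c') +
      (a + a') * (b * c' + b' * c) = 0 := by decide +kernel
  exact h _ _ _ _ _ _

lemma II_three (u : ℤ) (x : ℕ) : II m [r, p, q] u x =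
    (dl m r u x + dl m r (-u) x) * ((dl m p u x + dl m p (-u) x) *
      (dl m q u x + dl m q (-u) x)) := by
  simp [II]

lemma P_supp (hr : r % 2 = 1) (hp : p % 2 = 1) (hq : q % 2 = 1) {u : ℤ} {x : ℕ}
    (h : II m [r, p, q] u x = 0) :
    PA m r p q u x = 0 ∧ PB m r p q u x = 0 ∧ PC m r p q u x = 0 := by
  rw [II_three] at h
  unfold PA PB PC
  have hd : ∀ a a' b b' c c' : ZMod 2, (a = 0 ∨ a' = 0) → (b = 0 ∨ b' = 0) → (c = 0 ∨ c' = 0) →
      (a + a') * ((b + b') * (c + c')) = 0 →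
      (a * c + a' * c') * (b + b') = 0 ∧ (a * b + a' * b') * (c + c') = 0 ∧
      (a + a') * (b * c' + b' * c) = 0 := by decide +kernel
  exact hd _ _ _ _ _ _ (dl_excl hr u x) (dl_excl hp u x) (dl_excl hq u x) h

/-- the decomposition of the distribution -/
lemma DD_split (u : ℤ) (x : ℕ) : DD m [p, q] r u x = zr m r x * II m [p, q] u x +
    ((dl m r u x * dl m q (r * u) x + dl m r (-u) x * dl m q (-(r * u)) x) *
        (dl m p (r * u) x + dl m p (-(r * u)) x) +
      (dl m r u x + dl m r (-u) x) * (dl m p (r * u) x * dl m q (-u) x +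
        dl m p (-(r * u)) x * dl m q u x) + PB m r p q u x) := by
  unfold DD PB
  simp only [YY, II, List.map_nil, List.map_cons, List.prod_nil, List.prod_cons, mul_zero, zero_add,
    mul_one, one_mul, neg_one_mul]
  generalize dl m r u x = a
  generalize dl m r (-u) x = a'
  generalize dl m p u x = b
  generalize dl m p (-u) x = b'
  generalize dl m q u x = c
  generalize dl m q (-u) x = c'
  generalize dl m p (r * u) x = d
  generalize dl m p (-(r * u)) x = d'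
  generalize dl m q (r * u) x = e
  generalize dl m q (-(r * u)) x = e'
  generalize zr m r x = z
  revert a a' b b' c c' d d' e e' z
  decide +kernel

end parts

section fibres

/-- the fibres of the reduction of the units -/
lemma fibres {m m0 : ℕ} [NeZero m] [NeZero m0] (h : m0 ∣ m) : ∃ n0 : ℕ,
    (∀ v0 : (ZMod m0)ˣ, (univ.filter fun v : (ZMod m)ˣ => ZMod.unitsMap h v = v0).card = n0) ∧
    Fintype.card (ZMod m)ˣ = Fintype.card (ZMod m0)ˣ * n0 := by
  classical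
  have hs := ZMod.unitsMap_surjective h
  refine ⟨(univ.filter fun v : (ZMod m)ˣ => ZMod.unitsMap h v = 1).card, fun v0 => ?_, ?_⟩
  · exact MonoidHom.card_fiber_eq_of_mem_range (ZMod.unitsMap h) (hs v0) (hs 1)
  · rw [← Finset.card_univ, Finset.card_eq_sum_card_fiberwise (f := ZMod.unitsMap h)
      (t := (univ : Finset (ZMod m0)ˣ)) (fun _ _ => Finset.mem_coe.mpr (mem_univ _))]
    rw [Finset.sum_congr rfl fun v0 _ =>
      MonoidHom.card_fiber_eq_of_mem_range (ZMod.unitsMap h) (hs v0) (hs 1)]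
    rw [Finset.sum_const, smul_eq_mul, Finset.card_univ]

lemma card_bad' {m m0 n0 : ℕ} [NeZero m] [NeZero m0] (h : m0 ∣ m)
    (hn0 : ∀ v0 : (ZMod m0)ˣ, (univ.filter fun v : (ZMod m)ˣ => ZMod.unitsMap h v = v0).card = n0)
    {X : Type} (bad : Finset (ZMod m)ˣ) (C : Finset X) (P : (ZMod m)ˣ → X → Prop)
    (h1 : ∀ v ∈ bad, ∃ c ∈ C, P v c)
    (h2 : ∀ v1 v2 c, P v1 c → P v2 c → ZMod.unitsMap h v1 = ZMod.unitsMap h v2) :
    bad.card ≤ C.card * n0 := by
  classical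
  have h3 : (bad.image (ZMod.unitsMap h)).card ≤ C.card := by
    refine card_bad _ C (fun v0 c => ∃ v, ZMod.unitsMap h v = v0 ∧ P v c) ?_ ?_
    · intro v0 hv0
      obtain ⟨v, hv, rfl⟩ := mem_image.mp hv0
      obtain ⟨c, hc, hP⟩ := h1 v hv
      exact ⟨c, hc, v, rfl, hP⟩
    · rintro v1 v2 c ⟨w1, rfl, hw1⟩ ⟨w2, rfl, hw2⟩
      exact h2 w1 w2 c hw1 hw2
  have h4 := Finset.card_le_mul_card_image (f := ZMod.unitsMap h) bad n0 (by
    intro v0 _
    rw [← hn0 v0]
    exact card_le_card (filter_subset_filter _ (subset_univ bad)))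
  calc bad.card ≤ n0 * (bad.image (ZMod.unitsMap h)).card := h4
    _ ≤ n0 * C.card := Nat.mul_le_mul_left _ h3
    _ = C.card * n0 := mul_comm _ _

end fibres

section tau

variable {m r p q : ℕ} [NeZero m]

/-- the parameter -/
def UU (v : (ZMod m)ˣ) : ℕ := (v : ZMod m).val

lemma UU_mul {k l c : ℕ} (hk : Nat.Coprime k m) (hkc : k ≡ c [MOD pp m l]) (v : (ZMod m)ˣ) :
    ((pp m l : ℕ) : ℤ) ∣ (UU (ZMod.unitOfCoprime k hk * v) : ℤ) - c * UU v := by
  have h1 : ((m : ℕ) : ℤ) ∣ (UU (ZMod.unitOfCoprime k hk * v) : ℤ) - k * UU v := by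
    rw [← ZMod.intCast_zmod_eq_zero_iff_dvd]
    unfold UU
    push_cast
    rw [ZMod.natCast_zmod_val, ZMod.natCast_zmod_val]
    rw [ZMod.coe_unitOfCoprime, sub_self]
  have h2 : ((pp m l : ℕ) : ℤ) ∣ (UU (ZMod.unitOfCoprime k hk * v) : ℤ) - k * UU v :=
    (Int.natCast_dvd_natCast.mpr (pp_dvd m l)).trans h1
  have h3 : ((pp m l : ℕ) : ℤ) ∣ (k : ℤ) - c := by
    have := Nat.modEq_iff_dvd.mp hkc
    have h4 := (dvd_neg).mpr this
    rwa [neg_sub] at h4
  have h4 := dvd_add h2 (h3.mul_right (UU v : ℤ))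
  have e : (UU (ZMod.unitOfCoprime k hk * v) : ℤ) - k * UU v + ((k : ℤ) - c) * UU v =
      (UU (ZMod.unitOfCoprime k hk * v) : ℤ) - c * UU v := by ring
  rwa [e] at h4

lemma dl_tau {k l c : ℕ} (hk : Nat.Coprime k m) (hkc : k ≡ c [MOD pp m l]) (v : (ZMod m)ˣ)
    (x : ℕ) : dl m l (UU (ZMod.unitOfCoprime k hk * v)) x = dl m l (c * UU v) x ∧
      dl m l (-(UU (ZMod.unitOfCoprime k hk * v) : ℤ)) x = dl m l (-(c * UU v)) x := by
  have h := UU_mul hk hkc v
  refine ⟨dl_congr h, dl_congr ?_⟩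
  have e : -(UU (ZMod.unitOfCoprime k hk * v) : ℤ) - -(c * UU v) =
      -((UU (ZMod.unitOfCoprime k hk * v) : ℤ) - c * UU v) := by ring
  rw [e]
  exact (dvd_neg).mpr h

omit [NeZero m] in
lemma pp_cop {a b : ℕ} (ha : a.Prime) (hb : b.Prime) (hab : a ≠ b) :
    Nat.Coprime (pp m a) (pp m b) :=
  Nat.Coprime.pow _ _ ((Nat.coprime_primes ha hb).mpr hab)

lemma dvd_pp {l : ℕ} (hl : l.Prime) (hlm : l ∣ m) : l ∣ pp m l := by
  unfold pp
  exact dvd_pow_self l (hl.factorization_pos_of_dvd (NeZero.ne m) hlm).ne'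

/-- the units -/
lemma exists_tau (hr : r.Prime) (hp : p.Prime) (hq : q.Prime) (hrp : r ≠ p) (hrq : r ≠ q)
    (hpq : p ≠ q) (hrm : r ∣ m) (hpm : p ∣ m) (hqm : q ∣ m)
    (hpr : ∀ l, l.Prime → l ∣ m → l = r ∨ l = p ∨ l = q) :
    ∃ k1 k2 : ℕ, Nat.Coprime k1 m ∧ Nat.Coprime k2 m ∧
      (k1 ≡ 1 [MOD pp m r] ∧ k1 ≡ r [MOD pp m p] ∧ k1 ≡ r [MOD pp m q]) ∧
      (k2 ≡ 1 [MOD pp m r] ∧ k2 ≡ r [MOD pp m p] ∧ k2 ≡ 1 [MOD pp m q]) := by
  have c1 := pp_cop (m := m) hr hp hrp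
  have c2 := pp_cop (m := m) hr hq hrq
  have c3 := pp_cop (m := m) hp hq hpq
  obtain ⟨k1, h1, h2⟩ := Nat.chineseRemainder (Nat.Coprime.mul_right c1 c2) 1 r
  obtain ⟨k2, h3, h4⟩ := Nat.chineseRemainder (Nat.Coprime.mul_right c1.symm c3) r 1
  have hcop : ∀ (k : ℕ) (c : ℕ → ℕ), k ≡ c r [MOD pp m r] → k ≡ c p [MOD pp m p] →
      k ≡ c q [MOD pp m q] → (∀ l, l = r ∨ l = p ∨ l = q → ¬ l ∣ c l) → Nat.Coprime k m := by
    intro k c e1 e2 e3 hc
    rw [Nat.coprime_comm]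
    apply Nat.Coprime.symm
    apply Nat.coprime_of_dvd
    intro l hl hlk hlm
    have h5 := hpr l hl hlm
    apply hc l h5
    have h6 : k ≡ c l [MOD l] := by
      rcases h5 with h | h | h
      · rw [h]; exact e1.of_dvd (dvd_pp hr hrm)
      · rw [h]; exact e2.of_dvd (dvd_pp hp hpm)
      · rw [h]; exact e3.of_dvd (dvd_pp hq hqm)
    exact (dvd_congr h6).mp hlk
  have g1 : k1 ≡ r [MOD pp m p] := h2.of_dvd (dvd_mul_right _ _)
  have g2 : k1 ≡ r [MOD pp m q] := h2.of_dvd (dvd_mul_left _ _)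
  have g3 : k2 ≡ 1 [MOD pp m r] := h4.of_dvd (dvd_mul_right _ _)
  have g4 : k2 ≡ 1 [MOD pp m q] := h4.of_dvd (dvd_mul_left _ _)
  have n1 : ∀ l, l.Prime → ¬ l ∣ 1 := fun l hl h => hl.one_lt.ne' (Nat.dvd_one.mp h)
  have n2 : ∀ l, l.Prime → l ≠ r → ¬ l ∣ r := fun l hl hne h =>
    hne ((Nat.prime_dvd_prime_iff_eq hl hr).mp h)
  refine ⟨k1, k2, ?_, ?_, ⟨h1, g1, g2⟩, ⟨g3, h3, g4⟩⟩
  · refine hcop k1 (fun l => if l = r then 1 else r) ?_ ?_ ?_ ?_
    · beta_reduce; rw [if_pos rfl]; exact h1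
    · beta_reduce; rw [if_neg (Ne.symm hrp)]; exact g1
    · beta_reduce; rw [if_neg (Ne.symm hrq)]; exact g2
    · rintro l (h | h | h)
      · rw [h]; beta_reduce; rw [if_pos rfl]; exact n1 r hr
      · rw [h]; beta_reduce; rw [if_neg (Ne.symm hrp)]; exact n2 p hp (Ne.symm hrp)
      · rw [h]; beta_reduce; rw [if_neg (Ne.symm hrq)]; exact n2 q hq (Ne.symm hrq)
  · refine hcop k2 (fun l => if l = p then r else 1) ?_ ?_ ?_ ?_
    · beta_reduce; rw [if_neg hrp]; exact g3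
    · beta_reduce; rw [if_pos rfl]; exact h3
    · beta_reduce; rw [if_neg (Ne.symm hpq)]; exact g4
    · rintro l (h | h | h)
      · rw [h]; beta_reduce; rw [if_neg hrp]; exact n1 r hr
      · rw [h]; beta_reduce; rw [if_pos rfl]; exact n2 p hp (Ne.symm hrp)
      · rw [h]; beta_reduce; rw [if_neg (Ne.symm hpq)]; exact n1 q hq

end tau

section counts

variable {m : ℕ}

lemma sum_ne_filter (A : Multiset ℕ) (f : ℕ → ZMod 2) (P : ℕ → Prop) [DecidablePred P]
    (h : ∀ a ∈ A, ¬ P a → f a = 0) : (if (A.map f).sum ≠ 0 then 1 else 0) ≤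
      Multiset.card (A.filter P) := by
  split_ifs with h1
  · by_contra hcon
    have h2 : A.filter P = 0 := Multiset.card_eq_zero.mp (by omega)
    apply h1
    apply Multiset.sum_eq_zero
    intro z hz
    obtain ⟨a, ha, rfl⟩ := Multiset.mem_map.mp hz
    apply h a ha
    intro hP
    have := Multiset.mem_filter.mpr ⟨ha, hP⟩
    rw [h2] at this
    exact absurd this (Multiset.notMem_zero a)
  · exact Nat.zero_le _

/-- an even number of entries -/
lemma even_filter (A : Multiset ℕ) (f : ℕ → ZMod 2) (h : (A.map f).sum = 0) :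
    Multiset.card (A.filter fun a => f a ≠ 0) % 2 = 0 := by
  have h1 : ∀ A : Multiset ℕ, (A.map f).sum =
      ((Multiset.card (A.filter fun a => f a ≠ 0) : ℕ) : ZMod 2) := by
    intro A
    induction A using Multiset.induction_on with
    | empty => simp
    | cons a A ih =>
      rw [Multiset.map_cons, Multiset.sum_cons, ih]
      by_cases ha : f a = 0
      · rw [Multiset.filter_cons_of_neg (p := fun a => f a ≠ 0) A (by simpa using ha), ha, zero_add]
      · rw [Multiset.filter_cons_of_pos (p := fun a => f a ≠ 0) A ha, Multiset.card_cons]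
        have h2 : ∀ z : ZMod 2, z ≠ 0 → z = 1 := by decide
        rw [h2 _ ha]
        push_cast
        ring
  rw [h1 A, ZMod.natCast_eq_zero_iff] at h
  omega

end counts

end Pool.Agent.U270.FT14
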