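import Pool.Agent.U270.FT14.Dist5

/-!
# Avoiding the entries of a short relation
-/

set_option autoImplicit false

namespace Pool.Agent.U270.FT14

open Finset Pool.Agent.H916R2

/-- sign codes -/
def CI : ℕ → Finset (List ℤ)
  | 0 => {[]}
  | (n + 1) => (CI n).image (List.cons 1) ∪ (CI n).image (List.cons (-1))

/-- codes of the terms of `YY` -/
def CY (s r : ℤ) : ℕ → Finset (List ℤ)
  | 0 => ∅
  | (n + 1) => ((CY s r n).image (List.cons r) ∪ (CY s r n).image (List.cons (-r))) ∪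
      ((CI n).image (List.cons (s * r)) ∪ (CI n).image (List.cons s))

lemma card_CI (n : ℕ) : (CI n).card ≤ 2 ^ n := by
  induction n with
  | zero => simp [CI]
  | succ n ih =>
    have h1 := card_union_le ((CI n).image (List.cons 1)) ((CI n).image (List.cons (-1)))
    have h2 : ((CI n).image (List.cons 1)).card ≤ (CI n).card := card_image_le
    have h3 : ((CI n).image (List.cons (-1))).card ≤ (CI n).card := card_image_le
    have h4 : (CI (n + 1)).card ≤ _ := h1
    rw [pow_succ]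
    omega

lemma card_CY (s r : ℤ) (n : ℕ) : (CY s r n).card ≤ n * 2 ^ n := by
  induction n with
  | zero => simp [CY]
  | succ n ih =>
    have h1 := card_union_le ((CY s r n).image (List.cons r) ∪ (CY s r n).image (List.cons (-r)))
      ((CI n).image (List.cons (s * r)) ∪ (CI n).image (List.cons s))
    have h2 := card_union_le ((CY s r n).image (List.cons r)) ((CY s r n).image (List.cons (-r)))
    have h3 := card_union_le ((CI n).image (List.cons (s * r))) ((CI n).image (List.cons s))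
    have h4 : ((CY s r n).image (List.cons r)).card ≤ (CY s r n).card := card_image_le
    have h5 : ((CY s r n).image (List.cons (-r))).card ≤ (CY s r n).card := card_image_le
    have h6 : ((CI n).image (List.cons (s * r))).card ≤ (CI n).card := card_image_le
    have h7 : ((CI n).image (List.cons s)).card ≤ (CI n).card := card_image_le
    have h8 := card_CI n
    have h9 : (CY s r (n + 1)).card ≤ _ := h1
    have h10 : (n + 1) * 2 ^ (n + 1) = 2 * (n * 2 ^ n) + 2 * 2 ^ n := by ring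
    omega

/-- the entry `a` is hit by the indicators with the given code -/
def Hit (m : ℕ) (u : ℤ) (a : ℕ) : List ℕ → List ℤ → Prop :=
  List.Forall₂ fun p k => dl m p (k * u) a ≠ 0 ∧ ¬ (p : ℤ) ∣ k

lemma one_nd {p : ℕ} (hp : p.Prime) : ¬ (p : ℤ) ∣ 1 := by
  intro h
  have : p ∣ 1 := by exact_mod_cast h
  exact hp.one_lt.ne' (Nat.dvd_one.mp this)

lemma II_ne {m : ℕ} {u : ℤ} {a : ℕ} {L : List ℕ} (hL : ∀ p ∈ L, p.Prime)
    (h : II m L u a ≠ 0) : ∃ κ ∈ CI L.length, Hit m u a L κ := by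
  induction L with
  | nil => exact ⟨[], by simp [CI], List.Forall₂.nil⟩
  | cons p L ih =>
    have hp := hL p List.mem_cons_self
    rw [II_cons] at h
    have h1 : II m L u a ≠ 0 := fun h0 => h (by rw [h0, mul_zero])
    have h2 : dl m p u a + dl m p (-u) a ≠ 0 := fun h0 => h (by rw [h0, zero_mul])
    obtain ⟨κ, hκ, hH⟩ := ih (fun p hp => hL p (List.mem_cons_of_mem _ hp)) h1
    by_cases h3 : dl m p u a = 0
    · have h4 : dl m p (-u) a ≠ 0 := fun h0 => h2 (by rw [h0, h3, add_zero])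
      refine ⟨(-1) :: κ, ?_, List.Forall₂.cons ⟨?_, ?_⟩ hH⟩
      · exact mem_union_right _ (mem_image_of_mem _ hκ)
      · rwa [neg_one_mul]
      · exact fun h => one_nd hp (dvd_neg.mp h)
    · refine ⟨1 :: κ, ?_, List.Forall₂.cons ⟨?_, one_nd hp⟩ hH⟩
      · exact mem_union_left _ (mem_image_of_mem _ hκ)
      · rwa [one_mul]

lemma YY_ne {m : ℕ} {s r u : ℤ} {a : ℕ} {L : List ℕ} (hL : ∀ p ∈ L, p.Prime)
    (hs : ∀ p ∈ L, ¬ (p : ℤ) ∣ s) (hr : ∀ p ∈ L, ¬ (p : ℤ) ∣ r)
    (h : YY m s r L u a ≠ 0) : ∃ κ ∈ CY s r L.length, Hit m u a L κ := by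
  induction L with
  | nil => exact absurd rfl h
  | cons p L ih =>
    have hp := hL p List.mem_cons_self
    have hps := hs p List.mem_cons_self
    have hpr := hr p List.mem_cons_self
    have hpi : Prime (p : ℤ) := Nat.prime_iff_prime_int.mp hp
    have hL' : ∀ p ∈ L, p.Prime := fun p hp => hL p (List.mem_cons_of_mem _ hp)
    simp only [YY] at h
    by_cases h1 : (dl m p (r * u) a + dl m p (-(r * u)) a) * YY m s r L u a = 0
    · rw [h1, zero_add] at h
      have h2 : II m L u a ≠ 0 := fun h0 => h (by rw [h0, mul_zero])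
      have h3 : dl m p (s * (r * u)) a + dl m p (s * u) a ≠ 0 := fun h0 => h (by rw [h0, zero_mul])
      obtain ⟨κ, hκ, hH⟩ := II_ne hL' h2
      by_cases h4 : dl m p (s * (r * u)) a = 0
      · have h5 : dl m p (s * u) a ≠ 0 := fun h0 => h3 (by rw [h0, h4, add_zero])
        refine ⟨s :: κ, ?_, List.Forall₂.cons ⟨h5, hps⟩ hH⟩
        exact mem_union_right _ (mem_union_right _ (mem_image_of_mem _ hκ))
      · refine ⟨(s * r) :: κ, ?_, List.Forall₂.cons ⟨by rwa [mul_assoc], fun h =>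
          (hpi.dvd_or_dvd h).elim hps hpr⟩ hH⟩
        exact mem_union_right _ (mem_union_left _ (mem_image_of_mem _ hκ))
    · have h2 : YY m s r L u a ≠ 0 := fun h0 => h1 (by rw [h0, mul_zero])
      have h3 : dl m p (r * u) a + dl m p (-(r * u)) a ≠ 0 := fun h0 => h1 (by rw [h0, zero_mul])
      obtain ⟨κ, hκ, hH⟩ := ih hL' (fun p hp => hs p (List.mem_cons_of_mem _ hp))
        (fun p hp => hr p (List.mem_cons_of_mem _ hp)) h2
      by_cases h4 : dl m p (r * u) a = 0
      · have h5 : dl m p (-(r * u)) a ≠ 0 := fun h0 => h3 (by rw [h0, h4, add_zero])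
        refine ⟨(-r) :: κ, ?_, List.Forall₂.cons ⟨by rwa [neg_mul], fun h => hpr (dvd_neg.mp h)⟩ hH⟩
        exact mem_union_left _ (mem_union_right _ (mem_image_of_mem _ hκ))
      · refine ⟨r :: κ, ?_, List.Forall₂.cons ⟨h4, hpr⟩ hH⟩
        exact mem_union_left _ (mem_union_left _ (mem_image_of_mem _ hκ))

lemma dl_ne {m p : ℕ} {u : ℤ} {a : ℕ} (h : dl m p u a ≠ 0) :
    ¬ pp m p ∣ a ∧ ((pp m p : ℕ) : ℤ) ∣ (a : ℤ) - (Nat.gcd a m : ℤ) * u := by
  by_contra hcon
  apply h
  unfold dl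
  rw [if_neg hcon]

/-- a code determines the parameter -/
lemma det_one {m p : ℕ} (hp : p.Prime) {k u1 u2 : ℤ} {a : ℕ} (hk : ¬ (p : ℤ) ∣ k)
    (h1 : dl m p (k * u1) a ≠ 0) (h2 : dl m p (k * u2) a ≠ 0) : (p : ℤ) ∣ u1 - u2 := by
  obtain ⟨h3, h4⟩ := dl_ne h1
  obtain ⟨_, h5⟩ := dl_ne h2
  have hpi : Prime (p : ℤ) := Nat.prime_iff_prime_int.mp hp
  by_contra hcon
  have h6 := dvd_sub h5 h4
  have e : (a : ℤ) - (Nat.gcd a m : ℤ) * (k * u2) - (a - (Nat.gcd a m : ℤ) * (k * u1)) =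
      (Nat.gcd a m : ℤ) * (k * (u1 - u2)) := by ring
  rw [e] at h6
  have h7 : ¬ (p : ℤ) ∣ k * (u1 - u2) := fun h => (hpi.dvd_or_dvd h).elim hk hcon
  have h8 : IsCoprime ((pp m p : ℕ) : ℤ) (k * (u1 - u2)) := by
    unfold pp
    push_cast
    apply IsCoprime.pow_left
    exact (Prime.coprime_iff_not_dvd hpi).mpr h7
  have h9 := h8.dvd_of_dvd_mul_right h6
  have h10 : pp m p ∣ Nat.gcd a m := by exact_mod_cast h9
  exact h3 (h10.trans (Nat.gcd_dvd_left _ _))

lemma det_all {m : ℕ} {u1 u2 : ℤ} {a : ℕ} {L : List ℕ} {κ : List ℤ} (hL : ∀ p ∈ L, p.Prime)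
    (h1 : Hit m u1 a L κ) (h2 : Hit m u2 a L κ) : ∀ p ∈ L, (p : ℤ) ∣ u1 - u2 := by
  unfold Hit at h1 h2
  induction h1 with
  | nil => intro p hp; exact absurd hp List.not_mem_nil
  | cons hh ht ih =>
    rw [List.forall₂_cons] at h2
    obtain ⟨hh', ht'⟩ := h2
    intro p hp
    rcases List.mem_cons.mp hp with h | h
    · subst h
      exact det_one (hL _ List.mem_cons_self) hh.2 hh.1 hh'.1
    · exact ih (fun p hp => hL p (List.mem_cons_of_mem _ hp)) ht' p h

/-- counting by codes -/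
lemma card_bad {V X : Type} (bad : Finset V)
    (C : Finset X) (P : V → X → Prop) (h1 : ∀ v ∈ bad, ∃ c ∈ C, P v c)
    (h2 : ∀ v1 v2 c, P v1 c → P v2 c → v1 = v2) : bad.card ≤ C.card := by
  refine Finset.card_le_card_of_forall_subsingleton P h1 ?_
  intro c _ v1 hv1 v2 hv2
  exact h2 v1 v2 c hv1.2 hv2.2

/-- avoiding all entries -/
lemma exists_avoid {V : Type} [Fintype V] (A : Multiset ℕ) {K B : ℕ} (hA : Multiset.card A ≤ K)
    (D : V → ℕ → ZMod 2)
    (hB : ∀ a ∈ A, (univ.filter fun v => D v a ≠ 0).card ≤ B) (hV : K * B < Fintype.card V) :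
    ∃ v, ∀ a ∈ A, D v a = 0 := by
  classical
  by_contra hcon
  push Not at hcon
  have h1 : (univ : Finset V) ⊆ A.toFinset.biUnion fun a => univ.filter fun v => D v a ≠ 0 := by
    intro v _
    obtain ⟨a, ha, hv⟩ := hcon v
    rw [mem_biUnion]
    exact ⟨a, Multiset.mem_toFinset.mpr ha, mem_filter.mpr ⟨mem_univ _, hv⟩⟩
  have h2 := card_le_card h1
  have h3 : (A.toFinset.biUnion fun a => univ.filter fun v => D v a ≠ 0).card ≤
      A.toFinset.card * B :=
    card_biUnion_le_card_mul _ _ _ fun a ha => hB a (Multiset.mem_toFinset.mp ha)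
  have h4 : A.toFinset.card ≤ K := (Multiset.toFinset_card_le A).trans hA
  have h5 : A.toFinset.card * B ≤ K * B := Nat.mul_le_mul_right B h4
  rw [card_univ] at h2
  omega

section param

variable {m m0 : ℕ}

/-- lifts of the units -/
lemma exists_lifts (hm : m ≠ 0) (hm0 : m0 ∣ m) : ∃ U : (ZMod m0)ˣ → ℕ,
    (∀ v, Nat.Coprime (U v) m) ∧ ∀ v, ((U v : ℕ) : ZMod m0) = (v : ZMod m0) := by
  have hNm : NeZero m := ⟨hm⟩
  have hm00 : m0 ≠ 0 := by rintro rfl; exact hm (Nat.eq_zero_of_zero_dvd hm0)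
  have hN0 : NeZero m0 := ⟨hm00⟩
  have h : ∀ v : (ZMod m0)ˣ, ∃ u : ℕ, Nat.Coprime u m ∧ ((u : ℕ) : ZMod m0) = (v : ZMod m0) := by
    intro v
    obtain ⟨w, hw⟩ := ZMod.unitsMap_surjective hm0 v
    refine ⟨(w : ZMod m).val, ZMod.val_coe_unit_coprime w, ?_⟩
    have h1 := congrArg (fun z : (ZMod m0)ˣ => (z : ZMod m0)) hw
    simp only [ZMod.unitsMap_val] at h1
    rw [← h1, ZMod.natCast_val]
  choose U h1 h2 using h
  exact ⟨U, h1, h2⟩

/-- equality of the parameters -/
lemma param_eq {S : Finset ℕ} (hS : ∀ p ∈ S, p.Prime) (hm0 : ∏ p ∈ S, p = m0)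
    {U : (ZMod m0)ˣ → ℕ} (hU : ∀ v, ((U v : ℕ) : ZMod m0) = (v : ZMod m0)) {v1 v2 : (ZMod m0)ˣ}
    (h : ∀ p ∈ S, (p : ℤ) ∣ (U v1 : ℤ) - U v2) : v1 = v2 := by
  have h1 : ((m0 : ℕ) : ℤ) ∣ (U v1 : ℤ) - U v2 := by
    rw [← hm0]
    push_cast
    apply Finset.prod_dvd_of_coprime _ h
    intro a ha b hb hab
    exact Nat.isCoprime_iff_coprime.mpr ((Nat.coprime_primes (hS a ha) (hS b hb)).mpr hab)
  have h2 : ((U v1 : ℕ) : ZMod m0) = ((U v2 : ℕ) : ZMod m0) := by
    have h3 := (ZMod.intCast_zmod_eq_zero_iff_dvd ((U v1 : ℤ) - U v2) m0).mpr h1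
    push_cast at h3
    exact sub_eq_zero.mp h3
  rw [hU, hU] at h2
  exact Units.ext h2

/-- four primes -/
lemma bad_four {S : Finset ℕ} (hS : ∀ p ∈ S, p.Prime) (hm0 : ∏ p ∈ S, p = m0) [NeZero m0]
    (hcard : S.card = 4)
    {U : (ZMod m0)ˣ → ℕ} (hU : ∀ v, ((U v : ℕ) : ZMod m0) = (v : ZMod m0)) (a : ℕ) :
    (univ.filter fun v : (ZMod m0)ˣ => II m S.toList (U v) a ≠ 0).card ≤ 16 := by
  have hL : ∀ p ∈ S.toList, p.Prime := fun p hp => hS p (Finset.mem_toList.mp hp)
  have h1 := card_bad (univ.filter fun v : (ZMod m0)ˣ => II m S.toList (U v) a ≠ 0)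
    (CI S.toList.length) (fun v κ => Hit m (U v) a S.toList κ)
    (fun v hv => II_ne hL (mem_filter.mp hv).2) (fun v1 v2 κ hv1 hv2 => by
      apply param_eq hS hm0 hU
      intro p hp
      exact det_all hL hv1 hv2 p (Finset.mem_toList.mpr hp))
  have h2 := card_CI S.toList.length
  rw [Finset.length_toList, hcard] at h1 h2
  omega

/-- five primes -/
lemma bad_five {S : Finset ℕ} (hS : ∀ p ∈ S, p.Prime) (hm0 : ∏ p ∈ S, p = m0) [NeZero m0]
    (hcard : S.card = 5) {r : ℕ} (hr : r ∈ S) (hr13 : r ≤ 13)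
    {U : (ZMod m0)ˣ → ℕ} (hU : ∀ v, ((U v : ℕ) : ZMod m0) = (v : ZMod m0)) (a : ℕ) :
    (univ.filter fun v : (ZMod m0)ˣ => DD m (S.erase r).toList r (U v) a ≠ 0).card ≤ 208 := by
  have hrp := hS r hr
  have hLe : ∀ p ∈ (S.erase r).toList, p ∈ S ∧ p ≠ r := fun p hp => by
    have := Finset.mem_toList.mp hp
    exact ⟨mem_of_mem_erase this, ne_of_mem_erase this⟩
  have hL : ∀ p ∈ (S.erase r).toList, p.Prime := fun p hp => hS p (hLe p hp).1
  have hLr : ∀ p ∈ (S.erase r).toList, ¬ (p : ℤ) ∣ (r : ℤ) := by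
    intro p hp h
    have h1 : p ∣ r := by exact_mod_cast h
    exact (hLe p hp).2 ((Nat.prime_dvd_prime_iff_eq (hL p hp) hrp).mp h1)
  have hL1 : ∀ p ∈ (S.erase r).toList, ¬ (p : ℤ) ∣ 1 := fun p hp => one_nd (hL p hp)
  have hL2 : ∀ p ∈ (S.erase r).toList, ¬ (p : ℤ) ∣ -1 := fun p hp h => one_nd (hL p hp) (dvd_neg.mp h)
  have hlen : (S.erase r).toList.length = 4 := by
    rw [Finset.length_toList, card_erase_of_mem hr, hcard]
  have hall : ∀ v1 v2 : (ZMod m0)ˣ, (∀ p ∈ (S.erase r).toList, (p : ℤ) ∣ (U v1 : ℤ) - U v2) →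
      (r : ℤ) ∣ (U v1 : ℤ) - U v2 → v1 = v2 := by
    intro v1 v2 h1 h2
    apply param_eq hS hm0 hU
    intro p hp
    by_cases hpr : p = r
    · rw [hpr]; exact h2
    · exact h1 p (Finset.mem_toList.mpr (mem_erase.mpr ⟨hpr, hp⟩))
  by_cases hR : pp m r ∣ a
  · have hDD : ∀ v : (ZMod m0)ˣ, DD m (S.erase r).toList r (U v) a ≠ 0 →
        II m (S.erase r).toList (U v) a ≠ 0 := by
      intro v h h0
      apply h
      unfold DD
      rw [dl_of_dvd hR, dl_of_dvd hR, h0]
      ring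
    have h1 := card_bad
      (univ.filter fun v : (ZMod m0)ˣ => DD m (S.erase r).toList r (U v) a ≠ 0)
      (CI (S.erase r).toList.length ×ˢ range r)
      (fun v c => Hit m (U v) a (S.erase r).toList c.1 ∧ (U v) % r = c.2)
      (fun v hv => by
        obtain ⟨κ, hκ, hH⟩ := II_ne hL (hDD v (mem_filter.mp hv).2)
        exact ⟨(κ, (U v) % r), mem_product.mpr ⟨hκ, mem_range.mpr (Nat.mod_lt _ hrp.pos)⟩, hH, rfl⟩)
      (fun v1 v2 c hv1 hv2 => by
        apply hall v1 v2 (det_all hL hv1.1 hv2.1)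
        have h2 : (U v2) ≡ (U v1) [MOD r] := hv2.2.trans hv1.2.symm
        exact Nat.modEq_iff_dvd.mp h2)
    have h2 := card_CI (S.erase r).toList.length
    rw [card_product, card_range] at h1
    rw [hlen] at h1 h2
    have h3 : (CI 4).card * r ≤ 16 * 13 := Nat.mul_le_mul (by omega) hr13
    omega
  · have h1 := card_bad
      (univ.filter fun v : (ZMod m0)ˣ => DD m (S.erase r).toList r (U v) a ≠ 0)
      ((CY 1 r (S.erase r).toList.length).image (fun κ => ((1 : ℤ), κ)) ∪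
        (CY (-1) r (S.erase r).toList.length).image (fun κ => ((-1 : ℤ), κ)))
      (fun v c => Hit m (U v) a (S.erase r).toList c.2 ∧ dl m r (c.1 * U v) a ≠ 0 ∧
        ¬ (r : ℤ) ∣ c.1)
      (fun v hv => by
        have h2 := (mem_filter.mp hv).2
        unfold DD at h2
        have e1 : zr m r a = 0 := if_neg hR
        rw [e1, zero_mul, zero_add] at h2
        by_cases h3 : dl m r (U v) a * YY m 1 r (S.erase r).toList (U v) a = 0
        · rw [h3, zero_add] at h2
          have h4 : YY m (-1) r (S.erase r).toList (U v) a ≠ 0 := fun h0 => h2 (by rw [h0, mul_zero])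
          have h5 : dl m r (-(U v : ℤ)) a ≠ 0 := fun h0 => h2 (by rw [h0, zero_mul])
          obtain ⟨κ, hκ, hH⟩ := YY_ne hL hL2 hLr h4
          refine ⟨(-1, κ), mem_union_right _ (mem_image_of_mem _ hκ), hH, ?_, ?_⟩
          · rwa [neg_one_mul]
          · exact fun h => one_nd hrp (dvd_neg.mp h)
        · have h4 : YY m 1 r (S.erase r).toList (U v) a ≠ 0 := fun h0 => h3 (by rw [h0, mul_zero])
          have h5 : dl m r (U v : ℤ) a ≠ 0 := fun h0 => h3 (by rw [h0, zero_mul])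
          obtain ⟨κ, hκ, hH⟩ := YY_ne hL hL1 hLr h4
          refine ⟨(1, κ), mem_union_left _ (mem_image_of_mem _ hκ), hH, ?_, one_nd hrp⟩
          rwa [one_mul])
      (fun v1 v2 c hv1 hv2 => by
        apply hall v1 v2 (det_all hL hv1.1 hv2.1)
        exact det_one hrp hv1.2.2 hv1.2.1 hv2.2.1)
    have h2 := card_union_le
      ((CY 1 r (S.erase r).toList.length).image (fun κ => ((1 : ℤ), κ)))
      ((CY (-1) r (S.erase r).toList.length).image (fun κ => ((-1 : ℤ), κ)))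
    have h3 : ((CY 1 r (S.erase r).toList.length).image (fun κ => ((1 : ℤ), κ))).card ≤
      (CY 1 r (S.erase r).toList.length).card := card_image_le
    have h4 : ((CY (-1) r (S.erase r).toList.length).image (fun κ => ((-1 : ℤ), κ))).card ≤
      (CY (-1) r (S.erase r).toList.length).card := card_image_le
    have h5 := card_CY 1 r (S.erase r).toList.length
    have h6 := card_CY (-1) r (S.erase r).toList.length
    rw [hlen] at h1 h2 h3 h4 h5 h6
    norm_num at h5 h6
    omega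

/-- the number of the parameters -/
lemma card_param {S : Finset ℕ} (hS : ∀ p ∈ S, p.Prime) (hm0 : ∏ p ∈ S, p = m0) [NeZero m0] :
    Fintype.card (ZMod m0)ˣ = ∏ p ∈ S, (p - 1) := by
  rw [ZMod.card_units_eq_totient, ← hm0]
  clear hm0
  induction S using Finset.induction_on with
  | empty => simp
  | insert p S hp ih =>
    rw [prod_insert hp, prod_insert hp, Nat.totient_mul, Nat.totient_prime (hS p (mem_insert_self _ _)),
      ih fun p hp => hS p (mem_insert_of_mem hp)]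
    apply Nat.Coprime.prod_right
    intro q hq
    exact (Nat.coprime_primes (hS p (mem_insert_self _ _)) (hS q (mem_insert_of_mem hq))).mpr
      (fun e => hp (e ▸ hq))

lemma prod_bound : ∀ S ∈ ({3, 5, 7, 11, 13} : Finset ℕ).powerset, S.card = 4 →
    480 ≤ ∏ p ∈ S, (p - 1) := by
  decide +kernel

end param

end Pool.Agent.U270.FT14
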