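import Pool.Agent.U270.FT14.Local4

/-!
# Avoiding the entries of a short relation at the levels divisible by four
-/

set_option autoImplicit false
set_option linter.unusedSectionVars false

namespace Pool.Agent.U270.FT14

open Finset Pool.Agent.H916R2

/-- at the half point the indicator does not see the parameter -/
lemma dl_two_half {m : ℕ} {v w : ℤ} {a : ℕ} (h2 : pp m 2 ∣ 2 * a) (hvw : (2 : ℤ) ∣ v - w) :
    dl m 2 v a = dl m 2 w a := by
  have h3 : pp m 2 ∣ 2 * Nat.gcd a m := by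
    rw [← Nat.gcd_mul_left]
    exact Nat.dvd_gcd h2 ((pp_dvd m 2).mul_left 2)
  obtain ⟨z, hz⟩ := hvw
  have h4 : ((pp m 2 : ℕ) : ℤ) ∣ (Nat.gcd a m : ℤ) * (v - w) := by
    rw [hz]
    have h5 : ((pp m 2 : ℕ) : ℤ) ∣ ((2 * Nat.gcd a m : ℕ) : ℤ) := by exact_mod_cast h3
    have e : (Nat.gcd a m : ℤ) * (2 * z) = ((2 * Nat.gcd a m : ℕ) : ℤ) * z := by push_cast; ring
    rw [e]; exact h5.mul_right z
  unfold dl
  refine if_congr (and_congr Iff.rfl ?_) rfl rfl
  have e : (a : ℤ) - (Nat.gcd a m : ℤ) * w =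
      (a - (Nat.gcd a m : ℤ) * v) + (Nat.gcd a m : ℤ) * (v - w) := by ring
  rw [e]
  exact (dvd_add_left h4).symm

lemma II_half {m : ℕ} {L : List ℕ} {u : ℤ} {a : ℕ} (h2 : pp m 2 ∣ 2 * a) (hL : 2 ∈ L) :
    II m L u a = 0 := by
  unfold II
  apply List.prod_eq_zero
  rw [List.mem_map]
  refine ⟨2, hL, ?_⟩
  rw [dl_two_half h2 (v := -u) (w := u) ⟨-u, by ring⟩]
  have h3 : ∀ b : ZMod 2, b + b = 0 := by decide
  exact h3 _

lemma YY_half {m : ℕ} {s r : ℤ} {L : List ℕ} {u : ℤ} {a : ℕ} (h2 : pp m 2 ∣ 2 * a) (hL : 2 ∈ L)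
    (hr : (2 : ℤ) ∣ r - 1) : YY m s r L u a = 0 := by
  have h3 : ∀ b : ZMod 2, b + b = 0 := by decide
  induction L with
  | nil => rfl
  | cons p L ih =>
    simp only [YY]
    by_cases hp : p = 2
    · subst hp
      obtain ⟨z, hz⟩ := hr
      rw [dl_two_half h2 (v := -(r * u)) (w := r * u) ⟨-(r * u), by ring⟩,
        dl_two_half h2 (v := s * (r * u)) (w := s * u) ⟨s * u * z, by
          have : s * (r * u) - s * u = s * u * (r - 1) := by ring
          rw [this, hz]; ring⟩, h3, h3]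
      ring
    · have h4 : 2 ∈ L := by
        rcases List.mem_cons.mp hL with h | h
        · exact absurd h.symm hp
        · exact h
      rw [ih h4, II_half h2 h4]
      ring

lemma cop_pp_two {m : ℕ} {z : ℤ} (hz : ¬ (2 : ℤ) ∣ z) : IsCoprime ((pp m 2 : ℕ) : ℤ) z := by
  unfold pp
  push_cast
  apply IsCoprime.pow_left
  exact (Prime.coprime_iff_not_dvd Int.prime_two).mpr hz

/-- a code determines the parameter modulo four -/
lemma det_two {m : ℕ} {k u1 u2 : ℤ} {a : ℕ} (h2 : ¬ pp m 2 ∣ 2 * a) (hk : ¬ (2 : ℤ) ∣ k)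
    (h1 : dl m 2 (k * u1) a ≠ 0) (h3 : dl m 2 (k * u2) a ≠ 0) : (4 : ℤ) ∣ u1 - u2 := by
  obtain ⟨_, h4⟩ := dl_ne h1
  obtain ⟨_, h5⟩ := dl_ne h3
  by_contra hcon
  have h6 := dvd_sub h5 h4
  have e : (a : ℤ) - (Nat.gcd a m : ℤ) * (k * u2) - (a - (Nat.gcd a m : ℤ) * (k * u1)) =
      (Nat.gcd a m : ℤ) * (k * (u1 - u2)) := by ring
  rw [e] at h6
  have h7 : ¬ (4 : ℤ) ∣ k * (u1 - u2) := by
    intro h
    apply hcon
    have h8 : IsCoprime (4 : ℤ) k := by
      have h9 : IsCoprime ((2 : ℤ) ^ 2) k :=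
        IsCoprime.pow_left ((Prime.coprime_iff_not_dvd Int.prime_two).mpr hk)
      have e4 : (4 : ℤ) = 2 ^ 2 := by norm_num
      rw [e4]; exact h9
    exact h8.dvd_of_dvd_mul_left h
  generalize k * (u1 - u2) = z at h6 h7
  have h8 : ((pp m 2 : ℕ) : ℤ) ∣ 2 * (Nat.gcd a m : ℤ) := by
    by_cases hz : (2 : ℤ) ∣ z
    · obtain ⟨z', rfl⟩ := hz
      have hz' : ¬ (2 : ℤ) ∣ z' := by
        rintro ⟨z'', rfl⟩
        exact h7 ⟨z'', by ring⟩
      apply (cop_pp_two hz').dvd_of_dvd_mul_right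
      have e2 : 2 * (Nat.gcd a m : ℤ) * z' = (Nat.gcd a m : ℤ) * (2 * z') := by ring
      rw [e2]; exact h6
    · exact ((cop_pp_two hz).dvd_of_dvd_mul_right h6).mul_left 2
  apply h2
  have h9 : pp m 2 ∣ 2 * Nat.gcd a m := by exact_mod_cast h8
  exact h9.trans (Nat.mul_dvd_mul_left 2 (Nat.gcd_dvd_left a m))

lemma hit_mem {m : ℕ} {u1 u2 : ℤ} {a : ℕ} {L : List ℕ} {κ : List ℤ}
    (h1 : Hit m u1 a L κ) (h2 : Hit m u2 a L κ) :
    ∀ p ∈ L, ∃ k : ℤ, dl m p (k * u1) a ≠ 0 ∧ dl m p (k * u2) a ≠ 0 ∧ ¬ (p : ℤ) ∣ k := by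
  unfold Hit at h1 h2
  induction h1 with
  | nil => intro p hp; exact absurd hp List.not_mem_nil
  | cons hh ht ih =>
    rw [List.forall₂_cons] at h2
    obtain ⟨hh', ht'⟩ := h2
    intro p hp
    rcases List.mem_cons.mp hp with h | h
    · subst h
      exact ⟨_, hh.1, hh'.1, hh.2⟩
    · exact ih ht' p h

lemma det_idx {S : Finset ℕ} (hS : Good4 S) {x : ℕ} (hx : x ∈ S) {m a : ℕ} {k u1 u2 : ℤ}
    (h4 : x = 4 → ¬ pp m 2 ∣ 2 * a) (h1 : dl m (P2 x) (k * u1) a ≠ 0)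
    (h2 : dl m (P2 x) (k * u2) a ≠ 0) (hk : ¬ ((P2 x : ℕ) : ℤ) ∣ k) : (x : ℤ) ∣ u1 - u2 := by
  by_cases hx4 : x = 4
  · subst hx4
    have e : P2 4 = 2 := if_pos rfl
    rw [e] at h1 h2 hk
    exact det_two (h4 rfl) hk h1 h2
  · have e : P2 x = x := if_neg hx4
    have hp := P2_prime hS hx
    rw [e] at h1 h2 hk hp
    exact det_one hp hk h1 h2

lemma det_all4 {S T : Finset ℕ} (hS : Good4 S) (hT : T ⊆ S) {m a : ℕ} {u1 u2 : ℤ}
    {κ : List ℤ} (h4 : 4 ∈ T → ¬ pp m 2 ∣ 2 * a) (h1 : Hit m u1 a (pl T) κ)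
    (h2 : Hit m u2 a (pl T) κ) : ∀ x ∈ T, (x : ℤ) ∣ u1 - u2 := by
  intro x hx
  obtain ⟨k, h3, h5, h6⟩ := hit_mem h1 h2 (P2 x) (mem_pl hx)
  exact det_idx hS (hT hx) (fun e => h4 (e ▸ hx)) h3 h5 h6

section param

variable {m m0 : ℕ}

/-- equality of the parameters -/
lemma param_eq4 {S : Finset ℕ} (hS : Good4 S) (hm0 : ∏ p ∈ S, p = m0)
    {U : (ZMod m0)ˣ → ℕ} (hU : ∀ v, ((U v : ℕ) : ZMod m0) = (v : ZMod m0)) {v1 v2 : (ZMod m0)ˣ}
    (h : ∀ p ∈ S, (p : ℤ) ∣ (U v1 : ℤ) - U v2) : v1 = v2 := by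
  have h1 : ((m0 : ℕ) : ℤ) ∣ (U v1 : ℤ) - U v2 := by
    rw [← hm0]
    push_cast
    apply Finset.prod_dvd_of_coprime _ h
    intro a ha b hb hab
    exact Nat.isCoprime_iff_coprime.mpr (coprime4 hS ha hb hab)
  have h2 : ((U v1 : ℕ) : ZMod m0) = ((U v2 : ℕ) : ZMod m0) := by
    have h3 := (ZMod.intCast_zmod_eq_zero_iff_dvd ((U v1 : ℤ) - U v2) m0).mpr h1
    push_cast at h3
    exact sub_eq_zero.mp h3
  rw [hU, hU] at h2
  exact Units.ext h2

/-- four indices -/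
lemma bad_four4 {S : Finset ℕ} (hS : Good4 S) (h4S : 4 ∈ S) (hm0 : ∏ p ∈ S, p = m0) [NeZero m0]
    (hcard : S.card = 4)
    {U : (ZMod m0)ˣ → ℕ} (hU : ∀ v, ((U v : ℕ) : ZMod m0) = (v : ZMod m0)) (a : ℕ) :
    (univ.filter fun v : (ZMod m0)ˣ => II m (pl S) (U v) a ≠ 0).card ≤ 16 := by
  have hL : ∀ p ∈ pl S, p.Prime := pl_prime hS subset_rfl
  by_cases hH : pp m 2 ∣ 2 * a
  · have h1 : (univ.filter fun v : (ZMod m0)ˣ => II m (pl S) (U v) a ≠ 0) = ∅ := by
      apply filter_eq_empty_iff.mpr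
      intro v _ h
      exact h (II_half hH (by have := mem_pl h4S; rwa [show P2 4 = 2 from if_pos rfl] at this))
    rw [h1, card_empty]; omega
  · have h1 := card_bad (univ.filter fun v : (ZMod m0)ˣ => II m (pl S) (U v) a ≠ 0)
      (CI (pl S).length) (fun v κ => Hit m (U v) a (pl S) κ)
      (fun v hv => II_ne hL (mem_filter.mp hv).2) (fun v1 v2 κ hv1 hv2 => by
        apply param_eq4 hS hm0 hU
        exact det_all4 hS subset_rfl (fun _ => hH) hv1 hv2)
    have h2 := card_CI (pl S).length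
    rw [pl_length, hcard] at h1 h2
    omega

/-- five indices -/
lemma bad_five4 {S : Finset ℕ} (hS : Good4 S) (h4S : 4 ∈ S) (h2m : 2 ∣ m) (hm0 : ∏ p ∈ S, p = m0)
    [NeZero m0] (hcard : S.card = 5) {r : ℕ} (hr : r ∈ S) (hr13 : r ≤ 13)
    {U : (ZMod m0)ˣ → ℕ} (hU1 : ∀ v, Nat.Coprime (U v) m)
    (hU : ∀ v, ((U v : ℕ) : ZMod m0) = (v : ZMod m0)) (a : ℕ) :
    (univ.filter fun v : (ZMod m0)ˣ =>
      DD m (pl (S.erase r)) (P2 r) (U v) a ≠ 0).card ≤ 208 := by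
  have hrp := P2_prime hS hr
  have hT : S.erase r ⊆ S := erase_subset r S
  have hL' := pl_ne hS hT hr (notMem_erase r S)
  have hL : ∀ p ∈ pl (S.erase r), p.Prime := fun p hp => (hL' p hp).1
  have hLr : ∀ p ∈ pl (S.erase r), ¬ (p : ℤ) ∣ ((P2 r : ℕ) : ℤ) := by
    intro p hp h
    have h1 : p ∣ P2 r := by exact_mod_cast h
    exact (hL' p hp).2 ((Nat.prime_dvd_prime_iff_eq (hL p hp) hrp).mp h1)
  have hL1 : ∀ p ∈ pl (S.erase r), ¬ (p : ℤ) ∣ 1 := fun p hp => one_nd (hL p hp)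
  have hL2 : ∀ p ∈ pl (S.erase r), ¬ (p : ℤ) ∣ -1 := fun p hp h => one_nd (hL p hp) (dvd_neg.mp h)
  have hlen : (pl (S.erase r)).length = 4 := by
    rw [pl_length, card_erase_of_mem hr, hcard]
  have hall : ∀ v1 v2 : (ZMod m0)ˣ, (∀ p ∈ S.erase r, (p : ℤ) ∣ (U v1 : ℤ) - U v2) →
      (r : ℤ) ∣ (U v1 : ℤ) - U v2 → v1 = v2 := by
    intro v1 v2 h1 h2
    apply param_eq4 hS hm0 hU
    intro p hp
    by_cases hpr : p = r
    · rw [hpr]; exact h2
    · exact h1 p (mem_erase.mpr ⟨hpr, hp⟩)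
  -- the half point with four in the list
  by_cases hE : r ≠ 4 ∧ pp m 2 ∣ 2 * a
  · have h2L : 2 ∈ pl (S.erase r) := by
      have := mem_pl (mem_erase.mpr ⟨fun e => hE.1 e.symm, h4S⟩)
      rwa [show P2 4 = 2 from if_pos rfl] at this
    have hro : (2 : ℤ) ∣ ((P2 r : ℕ) : ℤ) - 1 := by
      have e : P2 r = r := if_neg hE.1
      rw [e]
      rcases hS r hr with h | h
      · exact ⟨(r : ℤ) / 2, by omega⟩
      · exact absurd h hE.1
    have h1 : (univ.filter fun v : (ZMod m0)ˣ =>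
        DD m (pl (S.erase r)) (P2 r) (U v) a ≠ 0) = ∅ := by
      apply filter_eq_empty_iff.mpr
      intro v _ h
      apply h
      unfold DD
      rw [II_half hE.2 h2L, YY_half hE.2 h2L hro, YY_half hE.2 h2L hro]
      ring
    rw [h1, card_empty]; omega
  have hH4 : 4 ∈ S.erase r → ¬ pp m 2 ∣ 2 * a := by
    intro h h2
    exact hE ⟨fun e => (mem_erase.mp h).1 e.symm, h2⟩
  by_cases hR : pp m (P2 r) ∣ a
  · have hDD : ∀ v : (ZMod m0)ˣ, DD m (pl (S.erase r)) (P2 r) (U v) a ≠ 0 →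
        II m (pl (S.erase r)) (U v) a ≠ 0 := by
      intro v h h0
      apply h
      unfold DD
      rw [dl_of_dvd hR, dl_of_dvd hR, h0]
      ring
    have h1 := card_bad
      (univ.filter fun v : (ZMod m0)ˣ => DD m (pl (S.erase r)) (P2 r) (U v) a ≠ 0)
      (CI (pl (S.erase r)).length ×ˢ range r)
      (fun v c => Hit m (U v) a (pl (S.erase r)) c.1 ∧ (U v) % r = c.2)
      (fun v hv => by
        obtain ⟨κ, hκ, hH⟩ := II_ne hL (hDD v (mem_filter.mp hv).2)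
        have hr0 : 0 < r := by
          rcases hS r hr with h | h
          · exact h.1.pos
          · omega
        exact ⟨(κ, (U v) % r), mem_product.mpr ⟨hκ, mem_range.mpr (Nat.mod_lt _ hr0)⟩, hH, rfl⟩)
      (fun v1 v2 c hv1 hv2 => by
        apply hall v1 v2 (det_all4 hS hT hH4 hv1.1 hv2.1)
        have h2 : (U v2) ≡ (U v1) [MOD r] := hv2.2.trans hv1.2.symm
        exact Nat.modEq_iff_dvd.mp h2)
    have h2 := card_CI (pl (S.erase r)).length
    rw [card_product, card_range] at h1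
    rw [hlen] at h1 h2
    have h3 : (CI 4).card * r ≤ 16 * 13 := Nat.mul_le_mul (by omega) hr13
    omega
  by_cases hR2 : r = 4 ∧ pp m 2 ∣ 2 * a
  · -- the half point at the additional prime two
    obtain ⟨hr4, hh⟩ := hR2
    have e2 : P2 r = 2 := by rw [hr4]; exact if_pos rfl
    have hLo : ∀ p ∈ pl (S.erase r), ¬ (p : ℤ) ∣ 2 := by
      intro p hp
      have := hLr p hp
      rw [e2] at this
      exact this
    have hT4 : 4 ∉ S.erase r := by rw [hr4]; exact notMem_erase 4 S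
    have h1 := card_bad
      (univ.filter fun v : (ZMod m0)ˣ => DD m (pl (S.erase r)) (P2 r) (U v) a ≠ 0)
      ((CI (pl (S.erase r)).length ×ˢ range 4) ×ˢ ({1, 2} : Finset ℤ))
      (fun v c => Hit m (c.2 * U v) a (pl (S.erase r)) c.1.1 ∧ (U v) % 4 = c.1.2 ∧
        (c.2 = 1 ∨ c.2 = 2))
      (fun v hv => by
        have h2 := (mem_filter.mp hv).2
        unfold DD at h2
        have e1 : zr m (P2 r) a = 0 := if_neg hR
        have hodd : ¬ 2 ∣ U v := by
          intro h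
          have h3 := Nat.dvd_gcd h h2m
          rw [hU1 v] at h3
          omega
        have e3 : dl m 2 (-(U v : ℤ)) a = dl m 2 (U v : ℤ) a :=
          dl_two_half hh ⟨-(U v : ℤ), by ring⟩
        rw [e1, zero_mul, zero_add, e2] at h2
        rw [show (((2 : ℕ) : ℕ) : ℤ) = 2 from rfl, e3, ← mul_add, YY_sum] at h2
        have h4 : II m (pl (S.erase r)) (2 * (U v : ℤ)) a + II m (pl (S.erase r)) (U v) a ≠ 0 :=
          fun h0 => h2 (by rw [h0, mul_zero])
        by_cases h5 : II m (pl (S.erase r)) (U v) a = 0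
        · rw [h5, add_zero] at h4
          obtain ⟨κ, hκ, hH⟩ := II_ne hL h4
          exact ⟨((κ, (U v) % 4), 2), mem_product.mpr ⟨mem_product.mpr ⟨hκ,
            mem_range.mpr (Nat.mod_lt _ (by norm_num))⟩, by simp⟩, hH, rfl, Or.inr rfl⟩
        · obtain ⟨κ, hκ, hH⟩ := II_ne hL h5
          refine ⟨((κ, (U v) % 4), 1), mem_product.mpr ⟨mem_product.mpr ⟨hκ,
            mem_range.mpr (Nat.mod_lt _ (by norm_num))⟩, by simp⟩, ?_, rfl, Or.inl rfl⟩
          rw [one_mul]; exact hH)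
      (fun v1 v2 c hv1 hv2 => by
        obtain ⟨hv1a, hv1b, hv1c⟩ := hv1
        obtain ⟨hv2a, hv2b, hv2c⟩ := hv2
        apply hall v1 v2
        · intro x hx
          have h3 := det_all4 hS hT (fun h => absurd h hT4) hv1a hv2a x hx
          rw [← mul_sub] at h3
          rcases hv1c with h | h
          · rw [h, one_mul] at h3; exact h3
          · rw [h] at h3
            have hx4 : x ≠ 4 := fun e => hT4 (e ▸ hx)
            have hxp := P2_prime hS (hT hx)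
            have hxm := hLo _ (mem_pl hx)
            rw [show P2 x = x from if_neg hx4] at hxp hxm
            exact ((Nat.prime_iff_prime_int.mp hxp).dvd_or_dvd h3).resolve_left hxm
        · rw [hr4]
          have h2 : (U v2) ≡ (U v1) [MOD 4] := hv2b.trans hv1b.symm
          exact Nat.modEq_iff_dvd.mp h2)
    have h2 := card_CI (pl (S.erase r)).length
    rw [card_product, card_product, card_range] at h1
    rw [hlen] at h1 h2
    have h3 : ({1, 2} : Finset ℤ).card = 2 := by decide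
    rw [h3] at h1
    omega
  · have hHr : r = 4 → ¬ pp m 2 ∣ 2 * a := fun h h2 => hR2 ⟨h, h2⟩
    have h1 := card_bad
      (univ.filter fun v : (ZMod m0)ˣ => DD m (pl (S.erase r)) (P2 r) (U v) a ≠ 0)
      ((CY 1 ((P2 r : ℕ) : ℤ) (pl (S.erase r)).length).image (fun κ => ((1 : ℤ), κ)) ∪
        (CY (-1) ((P2 r : ℕ) : ℤ) (pl (S.erase r)).length).image (fun κ => ((-1 : ℤ), κ)))
      (fun v c => Hit m (U v) a (pl (S.erase r)) c.2 ∧ dl m (P2 r) (c.1 * U v) a ≠ 0 ∧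
        ¬ ((P2 r : ℕ) : ℤ) ∣ c.1)
      (fun v hv => by
        have h2 := (mem_filter.mp hv).2
        unfold DD at h2
        have e1 : zr m (P2 r) a = 0 := if_neg hR
        rw [e1, zero_mul, zero_add] at h2
        by_cases h3 : dl m (P2 r) (U v) a * YY m 1 (P2 r : ℕ) (pl (S.erase r)) (U v) a = 0
        · rw [h3, zero_add] at h2
          have h4 : YY m (-1) (P2 r : ℕ) (pl (S.erase r)) (U v) a ≠ 0 :=
            fun h0 => h2 (by rw [h0, mul_zero])
          have h5 : dl m (P2 r) (-(U v : ℤ)) a ≠ 0 := fun h0 => h2 (by rw [h0, zero_mul])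
          obtain ⟨κ, hκ, hH⟩ := YY_ne hL hL2 hLr h4
          refine ⟨(-1, κ), mem_union_right _ (mem_image_of_mem _ hκ), hH, ?_, ?_⟩
          · rwa [neg_one_mul]
          · exact fun h => one_nd hrp (dvd_neg.mp h)
        · have h4 : YY m 1 (P2 r : ℕ) (pl (S.erase r)) (U v) a ≠ 0 :=
            fun h0 => h3 (by rw [h0, mul_zero])
          have h5 : dl m (P2 r) (U v : ℤ) a ≠ 0 := fun h0 => h3 (by rw [h0, zero_mul])
          obtain ⟨κ, hκ, hH⟩ := YY_ne hL hL1 hLr h4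
          refine ⟨(1, κ), mem_union_left _ (mem_image_of_mem _ hκ), hH, ?_, one_nd hrp⟩
          rwa [one_mul])
      (fun v1 v2 c hv1 hv2 => by
        apply hall v1 v2 (det_all4 hS hT hH4 hv1.1 hv2.1)
        exact det_idx hS hr hHr hv1.2.1 hv2.2.1 hv1.2.2)
    have h2 := card_union_le
      ((CY 1 ((P2 r : ℕ) : ℤ) (pl (S.erase r)).length).image (fun κ => ((1 : ℤ), κ)))
      ((CY (-1) ((P2 r : ℕ) : ℤ) (pl (S.erase r)).length).image (fun κ => ((-1 : ℤ), κ)))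
    have h3 : ((CY 1 ((P2 r : ℕ) : ℤ) (pl (S.erase r)).length).image
      (fun κ => ((1 : ℤ), κ))).card ≤ (CY 1 ((P2 r : ℕ) : ℤ) (pl (S.erase r)).length).card :=
      card_image_le
    have h4 : ((CY (-1) ((P2 r : ℕ) : ℤ) (pl (S.erase r)).length).image
      (fun κ => ((-1 : ℤ), κ))).card ≤ (CY (-1) ((P2 r : ℕ) : ℤ) (pl (S.erase r)).length).card :=
      card_image_le
    have h5 := card_CY 1 ((P2 r : ℕ) : ℤ) (pl (S.erase r)).length
    have h6 := card_CY (-1) ((P2 r : ℕ) : ℤ) (pl (S.erase r)).length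
    rw [hlen] at h1 h2 h3 h4 h5 h6
    norm_num at h5 h6
    omega

/-- the number of the parameters -/
lemma card_param4 {S : Finset ℕ} (hS : Good4 S) (hm0 : ∏ p ∈ S, p = m0) [NeZero m0] :
    Fintype.card (ZMod m0)ˣ = ∏ p ∈ S, Nat.totient p := by
  rw [ZMod.card_units_eq_totient, ← hm0]
  clear hm0
  induction S using Finset.induction_on with
  | empty => simp
  | insert p S hp ih =>
    rw [prod_insert hp, prod_insert hp, Nat.totient_mul,
      ih fun p hp => hS p (mem_insert_of_mem hp)]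
    apply Nat.Coprime.prod_right
    intro q hq
    exact coprime4 hS (mem_insert_self _ _) (mem_insert_of_mem hq) (fun e => hp (e ▸ hq))

lemma prod_bound4 : ∀ S ∈ ({4, 3, 5, 7, 11, 13} : Finset ℕ).powerset,
    4 ∈ S → ¬ (3 ∈ S ∧ 5 ∈ S ∧ 7 ∈ S) →
    (S.card ≤ 5 ∧ (S.card = 4 → 160 ≤ ∏ p ∈ S, Nat.totient p) ∧
      (S.card = 5 → 1920 ≤ ∏ p ∈ S, Nat.totient p)) := by
  decide +kernel

end param

end Pool.Agent.U270.FT14
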