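import Pool.Agent.U270.FT14.Local
import Pool.Agent.H916R2.Descent

/-!
# The odd distributions modulo two of the classes of four primes
-/

set_option autoImplicit false

namespace Pool.Agent.U270.FT14

open Finset Pool.Agent.H916R2

/-- the product of the symmetric indicators -/
def II (m : ℕ) (L : List ℕ) (u : ℤ) (x : ℕ) : ZMod 2 :=
  (L.map fun p => dl m p u x + dl m p (-u) x).prod

/-- the half of the difference -/
def YY (m : ℕ) (s r : ℤ) : List ℕ → ℤ → ℕ → ZMod 2
  | [], _, _ => 0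
  | (p :: L), u, x => (dl m p (r * u) x + dl m p (-(r * u)) x) * YY m s r L u x +
      (dl m p (s * (r * u)) x + dl m p (s * u) x) * II m L u x

/-- the distribution with one more prime `r` -/
def DD (m : ℕ) (L : List ℕ) (r : ℕ) (u : ℤ) (x : ℕ) : ZMod 2 :=
  zr m r x * II m L u x + (dl m r u x * YY m 1 r L u x + dl m r (-u) x * YY m (-1) r L u x)

lemma II_cons (m p : ℕ) (L : List ℕ) (u : ℤ) (x : ℕ) :
    II m (p :: L) u x = (dl m p u x + dl m p (-u) x) * II m L u x := by
  simp [II]

lemma II_per {m : ℕ} {L : List ℕ} {u : ℤ} {x y : ℕ} (h : x ≡ y [MOD m]) :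
    II m L u x = II m L u y := by
  unfold II
  congr 1
  apply List.map_congr_left
  intro p _
  rw [dl_per h, dl_per h]

lemma YY_per {m : ℕ} {s r : ℤ} {L : List ℕ} {u : ℤ} {x y : ℕ} (h : x ≡ y [MOD m]) :
    YY m s r L u x = YY m s r L u y := by
  induction L with
  | nil => rfl
  | cons p L ih =>
    simp only [YY]
    rw [ih, II_per h, dl_per h, dl_per (u := -(r * u)) h, dl_per (u := s * (r * u)) h,
      dl_per (u := s * u) h]

lemma DD_per {m r : ℕ} {L : List ℕ} {u : ℤ} {x y : ℕ} (h : x ≡ y [MOD m]) :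
    DD m L r u x = DD m L r u y := by
  unfold DD
  rw [zr_per h, II_per h, dl_per h, YY_per h, dl_per (u := -u) h, YY_per (s := -1) h]

lemma II_neg {m : ℕ} {L : List ℕ} {u : ℤ} {x y : ℕ} (h : m ∣ x + y) :
    II m L u y = II m L u x := by
  unfold II
  congr 1
  apply List.map_congr_left
  intro p _
  rw [dl_neg h, dl_neg h, neg_neg, add_comm]

lemma YY_neg {m : ℕ} {s r : ℤ} {L : List ℕ} {u : ℤ} {x y : ℕ} (h : m ∣ x + y) :
    YY m s r L u y = YY m (-s) r L u x := by
  induction L with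
  | nil => rfl
  | cons p L ih =>
    simp only [YY]
    rw [ih, II_neg h, dl_neg h, dl_neg (u := -(r * u)) h, dl_neg (u := s * (r * u)) h,
      dl_neg (u := s * u) h, neg_neg, add_comm (dl m p (-(r * u)) x)]
    congr 3
    · ring_nf
    · ring_nf

lemma DD_neg {m r : ℕ} {L : List ℕ} {u : ℤ} {x y : ℕ} (h : m ∣ x + y) :
    DD m L r u y = DD m L r u x := by
  unfold DD
  rw [zr_neg h, II_neg h, dl_neg h, YY_neg h, dl_neg (u := -u) h, YY_neg (s := -1) h, neg_neg,
    neg_neg]
  ring

/-- telescoping -/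
lemma YY_sum {m : ℕ} {r : ℤ} {L : List ℕ} {u : ℤ} {x : ℕ} :
    YY m 1 r L u x + YY m (-1) r L u x = II m L (r * u) x + II m L u x := by
  induction L with
  | nil => simp [YY, II]; decide
  | cons p L ih =>
    simp only [YY]
    rw [II_cons, II_cons]
    have e1 : (1 : ℤ) * (r * u) = r * u := one_mul _
    have e2 : (1 : ℤ) * u = u := one_mul _
    have e3 : (-1 : ℤ) * (r * u) = -(r * u) := by ring
    have e4 : (-1 : ℤ) * u = - u := by ring
    rw [e1, e2, e3, e4]
    have h2 : ∀ a : ZMod 2, a + a = 0 := by decide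
    linear_combination (dl m p (r * u) x + dl m p (-(r * u)) x) * ih +
      h2 ((dl m p (r * u) x + dl m p (-(r * u)) x) * II m L u x)

section rel

variable {m q d : ℕ}

lemma II_cst (hq : q.Prime) (hqd : q * d = m) (hm : m ≠ 0) {L : List ℕ}
    (hL : ∀ p ∈ L, p.Prime ∧ p ≠ q) (u : ℤ) : Cst m q d (II m L u) := by
  induction L with
  | nil => intro A x _ _; rfl
  | cons p L ih =>
    have h1 := ih fun p hp => hL p (List.mem_cons_of_mem _ hp)
    obtain ⟨hp, hpq⟩ := hL p List.mem_cons_self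
    intro A x hx hQ
    rw [II_cons, II_cons, h1 A x hx hQ, dl_cst hq hqd hm hp hpq u A x hx hQ,
      dl_cst hq hqd hm hp hpq (-u) A x hx hQ]

lemma YY_cst (hq : q.Prime) (hqd : q * d = m) (hm : m ≠ 0) {L : List ℕ}
    (hL : ∀ p ∈ L, p.Prime ∧ p ≠ q) (s r u : ℤ) : Cst m q d (YY m s r L u) := by
  induction L with
  | nil => intro A x _ _; rfl
  | cons p L ih =>
    have hL' : ∀ p ∈ L, p.Prime ∧ p ≠ q := fun p hp => hL p (List.mem_cons_of_mem _ hp)
    have h1 := ih hL'
    obtain ⟨hp, hpq⟩ := hL p List.mem_cons_self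
    intro A x hx hQ
    simp only [YY]
    rw [h1 A x hx hQ, II_cst hq hqd hm hL' u A x hx hQ, dl_cst hq hqd hm hp hpq _ A x hx hQ,
      dl_cst hq hqd hm hp hpq (-(r * u)) A x hx hQ,
      dl_cst hq hqd hm hp hpq (s * (r * u)) A x hx hQ, dl_cst hq hqd hm hp hpq (s * u) A x hx hQ]

lemma nd_neg {u : ℤ} (hu : ¬ (q : ℤ) ∣ u) : ¬ (q : ℤ) ∣ -u := fun h => hu ((dvd_neg).mp h)

lemma II_lin (hq : q.Prime) (hqd : q * d = m) (hm : m ≠ 0) {u : ℤ} (hu : ¬ (q : ℤ) ∣ u)
    {L : List ℕ} (hL : ∀ p ∈ L, p.Prime) (hnd : L.Nodup) (hqL : q ∈ L) :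
    Lin m q d (II m L u) := by
  induction L with
  | nil => exact absurd hqL (List.not_mem_nil)
  | cons p L ih =>
    rw [List.nodup_cons] at hnd
    have hL' : ∀ p ∈ L, p.Prime := fun p hp => hL p (List.mem_cons_of_mem _ hp)
    have hfun : II m (p :: L) u = fun x => (dl m p u x + dl m p (-u) x) * II m L u x :=
      funext fun x => II_cons m p L u x
    rw [hfun]
    by_cases hpq : p = q
    · subst hpq
      have h1 : Cst m p d (II m L u) := II_cst hq hqd hm (fun p' hp' =>
        ⟨hL' p' hp', fun e => hnd.1 (e ▸ hp')⟩) u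
      have h2 := h1.mul_lin (dl_lin hq hqd hm hu (nd_neg hu))
      have e : (fun x => (dl m p u x + dl m p (-u) x) * II m L u x) =
          fun x => II m L u x * (dl m p u x + dl m p (-u) x) := funext fun x => mul_comm _ _
      rw [e]; exact h2
    · have hqL' : q ∈ L := by
        rcases List.mem_cons.mp hqL with h | h
        · exact absurd h.symm hpq
        · exact h
      have hp := hL p List.mem_cons_self
      exact ((dl_cst hq hqd hm hp hpq u).add (dl_cst hq hqd hm hp hpq (-u))).mul_lin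
        (ih hL' hnd.2 hqL')

lemma YY_lin (hq : q.Prime) (hqd : q * d = m) (hm : m ≠ 0) {u s r : ℤ} (hu : ¬ (q : ℤ) ∣ u)
    (hs : ¬ (q : ℤ) ∣ s) (hr : ¬ (q : ℤ) ∣ r) {L : List ℕ} (hL : ∀ p ∈ L, p.Prime)
    (hnd : L.Nodup) (hqL : q ∈ L) : Lin m q d (YY m s r L u) := by
  have hqi : Prime (q : ℤ) := Nat.prime_iff_prime_int.mp hq
  have hru : ¬ (q : ℤ) ∣ r * u := fun h => (hqi.dvd_or_dvd h).elim hr hu
  have hsu : ¬ (q : ℤ) ∣ s * u := fun h => (hqi.dvd_or_dvd h).elim hs hu
  have hsru : ¬ (q : ℤ) ∣ s * (r * u) := fun h => (hqi.dvd_or_dvd h).elim hs hru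
  induction L with
  | nil => exact absurd hqL (List.not_mem_nil)
  | cons p L ih =>
    rw [List.nodup_cons] at hnd
    have hL' : ∀ p ∈ L, p.Prime := fun p hp => hL p (List.mem_cons_of_mem _ hp)
    have hfun : YY m s r (p :: L) u = fun x =>
        (dl m p (r * u) x + dl m p (-(r * u)) x) * YY m s r L u x +
        (dl m p (s * (r * u)) x + dl m p (s * u) x) * II m L u x := funext fun x => rfl
    rw [hfun]
    by_cases hpq : p = q
    · subst hpq
      have hLn : ∀ p' ∈ L, p'.Prime ∧ p' ≠ p := fun p' hp' =>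
        ⟨hL' p' hp', fun e => hnd.1 (e ▸ hp')⟩
      have h1 := (YY_cst hq hqd hm hLn s r u).mul_lin (dl_lin hq hqd hm hru (nd_neg hru))
      have h2 := (II_cst hq hqd hm hLn u).mul_lin (dl_lin hq hqd hm hsru hsu)
      have e : (fun x =>
          (dl m p (r * u) x + dl m p (-(r * u)) x) * YY m s r L u x +
          (dl m p (s * (r * u)) x + dl m p (s * u) x) * II m L u x) =
          fun x => YY m s r L u x * (dl m p (r * u) x + dl m p (-(r * u)) x) +
            II m L u x * (dl m p (s * (r * u)) x + dl m p (s * u) x) := funext fun x => by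
        rw [mul_comm (YY m s r L u x), mul_comm (II m L u x)]
      rw [e]; exact h1.add h2
    · have hqL' : q ∈ L := by
        rcases List.mem_cons.mp hqL with h | h
        · exact absurd h.symm hpq
        · exact h
      have hp := hL p List.mem_cons_self
      exact (((dl_cst hq hqd hm hp hpq (r * u)).add
        (dl_cst hq hqd hm hp hpq (-(r * u)))).mul_lin (ih hL' hnd.2 hqL')).add
        (((dl_cst hq hqd hm hp hpq (s * (r * u))).add
        (dl_cst hq hqd hm hp hpq (s * u))).mul_lin (II_lin hq hqd hm hu hL' hnd.2 hqL'))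

/-- the relation at a prime of the set -/
lemma DD_lin (hq : q.Prime) (hqd : q * d = m) (hm : m ≠ 0) {u : ℤ} (hu : ¬ (q : ℤ) ∣ u) {r : ℕ}
    (hr : r.Prime) (hrq : r ≠ q) {L : List ℕ} (hL : ∀ p ∈ L, p.Prime)
    (hnd : L.Nodup) (hqL : q ∈ L) : Lin m q d (DD m L r u) := by
  have h1 : ¬ (q : ℤ) ∣ 1 := by
    intro h
    have : q ∣ 1 := by exact_mod_cast h
    exact hq.one_lt.ne' (Nat.dvd_one.mp this)
  have h2 : ¬ (q : ℤ) ∣ -1 := nd_neg h1
  have h3 : ¬ (q : ℤ) ∣ (r : ℤ) := by
    intro h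
    have h4 : q ∣ r := by exact_mod_cast h
    exact hrq ((Nat.prime_dvd_prime_iff_eq hq hr).mp h4).symm
  exact ((zr_cst hq hqd hm hr hrq).mul_lin (II_lin hq hqd hm hu hL hnd hqL)).add
    (((dl_cst hq hqd hm hr hrq u).mul_lin (YY_lin hq hqd hm hu h1 h3 hL hnd hqL)).add
    ((dl_cst hq hqd hm hr hrq (-u)).mul_lin (YY_lin hq hqd hm hu h2 h3 hL hnd hqL)))

/-- the relation at the additional prime -/
lemma DD_rel (hr : q.Prime) (hqd : q * d = m) (hm : m ≠ 0) {u : ℤ} (hu : ¬ (q : ℤ) ∣ u)
    {L : List ℕ} (hL : ∀ p ∈ L, p.Prime ∧ p ≠ q) (A : ℕ) :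
    ∑ i ∈ range q, DD m L q u (A + i * d) = DD m L q u (q * A) := by
  have hY : ∀ s : ℤ, Cst m q d (YY m s q L u) := fun s => YY_cst hr hqd hm hL s q u
  have hz : ∀ v : ℤ, ∀ s : ℤ, ∑ i ∈ range q, dl m q v (A + i * d) * YY m s q L u (A + i * d) =
      YY m s q L u (q * A) * ∑ i ∈ range q, dl m q v (A + i * d) := by
    intro v s
    rw [← sum_cst (hY s) (fun x hx => dl_of_dvd hx) A]
    exact sum_congr rfl fun i _ => mul_comm _ _
  have hsplit : ∑ i ∈ range q, DD m L q u (A + i * d) =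
      ∑ i ∈ range q, zr m q (A + i * d) * II m L u (A + i * d) +
      (YY m 1 q L u (q * A) * ∑ i ∈ range q, dl m q u (A + i * d) +
       YY m (-1) q L u (q * A) * ∑ i ∈ range q, dl m q (-u) (A + i * d)) := by
    rw [← hz u 1, ← hz (-u) (-1), ← sum_add_distrib, ← sum_add_distrib]
    exact sum_congr rfl fun i _ => rfl
  rw [hsplit, dl_sum hr hqd hm hu, dl_sum hr hqd hm (nd_neg hu)]
  by_cases hQ : pp m q ∣ q * A
  · rw [if_pos hQ, if_pos hQ, mul_one, mul_one]
    -- the index with zero part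
    obtain ⟨Q', d', h1, h2, h3, h4, a, ha⟩ := parts hr hqd hm
    have hQ'0 : 0 < Q' := by rw [ha]; exact pow_pos hr.pos a
    have hQ'A : Q' ∣ A := by
      rw [h1] at hQ
      exact Nat.dvd_of_mul_dvd_mul_left hr.pos hQ
    obtain ⟨w, hw⟩ := hQ'A
    have h5 : ∀ i ∈ range q, zr m q (A + i * d) * II m L u (A + i * d) =
        (if ((q : ℕ) : ℤ) ∣ (w : ℤ) + (i : ℤ) * d' then (1 : ZMod 2) else 0) *
          II m L (q * u) (q * A) := by
      intro i _
      have h6 : pp m q ∣ A + i * d ↔ ((q : ℕ) : ℤ) ∣ (w : ℤ) + (i : ℤ) * d' := by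
        have e : A + i * d = Q' * (w + i * d') := by rw [hw, h2]; ring
        rw [e, h1, mul_comm q Q']
        have e2 : (w : ℤ) + (i : ℤ) * d' = ((w + i * d' : ℕ) : ℤ) := by push_cast; rfl
        rw [e2, Int.natCast_dvd_natCast]
        exact Nat.mul_dvd_mul_iff_left hQ'0
      by_cases h7 : pp m q ∣ A + i * d
      · rw [if_pos (h6.mp h7)]
        have e1 : zr m q (A + i * d) = 1 := if_pos h7
        rw [e1]
        congr 1
        unfold II
        congr 1
        apply List.map_congr_left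
        intro p hp
        obtain ⟨hp1, hp2⟩ := hL p hp
        rw [dl_zero_part hr hqd hm hp1 hp2 u (shift_mod A i) h7,
          dl_zero_part hr hqd hm hp1 hp2 (-u) (shift_mod A i) h7, mul_neg]
      · rw [if_neg (fun h => h7 (h6.mpr h))]
        have e1 : zr m q (A + i * d) = 0 := if_neg h7
        rw [e1, zero_mul, zero_mul]
    rw [sum_congr rfl h5, ← sum_mul, sum_one hr h3, one_mul, YY_sum]
    have h6 : DD m L q u (q * A) = II m L u (q * A) := by
      unfold DD
      rw [dl_of_dvd hQ, dl_of_dvd hQ]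
      have e1 : zr m q (q * A) = 1 := if_pos hQ
      rw [e1]; ring
    rw [h6]
    have h2' : ∀ a : ZMod 2, a + a = 0 := by decide
    linear_combination h2' (II m L (q * u) (q * A))
  · rw [if_neg hQ, if_neg hQ]
    have h5 : ∀ i ∈ range q, zr m q (A + i * d) * II m L u (A + i * d) = 0 := by
      intro i _
      have h7 : ¬ pp m q ∣ A + i * d := by
        intro h
        apply hQ
        have h8 : q * (A + i * d) ≡ q * A [MOD m] := by
          have h9 := Nat.ModEq.mul_left' q (shift_mod (d := d) A i)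
          rwa [hqd] at h9
        exact (dvd_congr (h8.of_dvd (pp_dvd m q))).mp (h.mul_left q)
      have e1 : zr m q (A + i * d) = 0 := if_neg h7
      rw [e1, zero_mul]
    rw [sum_congr rfl h5, sum_const_zero, zero_add]
    unfold DD
    have e1 : zr m q (q * A) = 0 := if_neg hQ
    rw [e1]; ring

end rel

/-- from functions on the natural numbers to functions on the residues -/
lemma oddDist_of {m : ℕ} [NeZero m] (hodd : m % 2 = 1) (F : ℕ → ZMod 2)
    (hper : ∀ x y, x ≡ y [MOD m] → F x = F y) (hneg : ∀ x y, m ∣ x + y → F y = F x)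
    (h0 : F 0 = 0)
    (hrel : ∀ q d : ℕ, q.Prime → q * d = m → ∀ A, ∑ i ∈ range q, F (A + i * d) = F (q * A)) :
    OddDist (fun a : ZMod m => F a.val) where
  neg := fun a => by
    have h1 : F (-a).val = F a.val := by
      apply hneg
      rw [← ZMod.natCast_eq_zero_iff]
      push_cast
      rw [ZMod.natCast_zmod_val, ZMod.natCast_zmod_val, add_neg_cancel]
    rw [h1]
    have h2 : ∀ b : ZMod 2, b = - b := by decide
    exact h2 _
  half := fun a ha => by
    have h1 : m ∣ 2 * a.val := by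
      rw [← ZMod.natCast_eq_zero_iff]
      push_cast
      rw [ZMod.natCast_zmod_val, two_mul, ha]
    have h2 : Nat.Coprime m 2 := by
      rw [Nat.coprime_comm]
      exact (Nat.coprime_primes Nat.prime_two Nat.prime_two |>.not.mpr (by simp) |> fun _ => by
        rw [Nat.coprime_two_left]; exact Nat.odd_iff.mpr hodd)
    have h3 : m ∣ a.val := h2.dvd_of_dvd_mul_left h1
    have h4 : a.val = 0 := Nat.eq_zero_of_dvd_of_lt h3 (ZMod.val_lt a)
    change F a.val = 0
    rw [h4, h0]
  dist := fun p d hp hpd a => by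
    have h1 := hrel p d hp hpd a.val
    have h2 : ∀ i ∈ range p, F (a + (i : ZMod m) * (d : ZMod m)).val = F (a.val + i * d) := by
      intro i _
      apply hper
      rw [← ZMod.natCast_eq_natCast_iff]
      push_cast
      rw [ZMod.natCast_zmod_val, ZMod.natCast_zmod_val]
    have h3 : F ((p : ZMod m) * a).val = F (p * a.val) := by
      apply hper
      rw [← ZMod.natCast_eq_natCast_iff]
      push_cast
      rw [ZMod.natCast_zmod_val, ZMod.natCast_zmod_val]
    rw [sum_congr rfl h2, h3]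
    exact h1

end Pool.Agent.U270.FT14
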