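import Pool.Agent.U270.FT14.Peel8

/-!
# Elements of order eight
-/

set_option autoImplicit false

namespace Pool.Agent.U270.FT14

open Finset Pool.Agent.H916R2 Pool.Agent.Y2 Pool.Agent.Y2.Cv Pool.Agent.Y2.Cw Pool.Agent.U270.SX

lemma checkEn {e n : ℕ} (he : e ≠ 0) (hn : n ∣ e) (E : List ℕ) (τ : ℕ) (κ : ℤ)
    (h : ∀ r < e, Nat.Coprime r e → (E.map fun x => sv e (r * x)).sum = κ * sv n (r * τ)) :
    ∀ t, Nat.Coprime t e → SW e (E : Multiset ℕ) t = κ * sv n (t * τ) := by
  intro t ht
  have hmod : t % e ≡ t [MOD e] := Nat.mod_modEq t e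
  have hc : Nat.Coprime (t % e) e := by
    have : Nat.gcd (t % e) e = Nat.gcd t e := hmod.gcd_eq
    rw [Nat.Coprime, this]; exact ht
  have h1 := h (t % e) (Nat.mod_lt _ (Nat.pos_of_ne_zero he)) hc
  rw [← SW_congr _ hmod, ← sv_per ((hmod.of_dvd hn).mul_right τ), ← h1, SW_sv he]
  rw [Multiset.map_coe, Multiset.sum_coe]

set_option maxRecDepth 100000 in
lemma exists_E68 (τ : ℕ) (hτ : τ = 1 ∨ τ = 3) :
    ∃ E : Multiset ℕ, (∀ x ∈ E, ¬ 17 ∣ x) ∧
      (∀ t, Nat.Coprime t (17 * 4) → SW (17 * 4) E t = 0) ∧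
      ∀ z, Nat.Coprime z 4 → SW 4 E z = (8 : ℕ) * sv 4 (z * τ) := by
  rcases hτ with rfl | rfl
  · refine ⟨([1, 5, 9, 21, 37, 45, 52, 53, 56, 61] : List ℕ), ?_, fun t ht => ?_,
      checkEn (by norm_num) (by norm_num) _ _ _ (by decide +kernel)⟩
    · intro x hx
      simp only [Multiset.mem_coe, List.mem_cons, List.not_mem_nil, or_false] at hx
      omega
    · have := checkEn (e := 17 * 4) (n := 4) (by norm_num) (by norm_num)
        [1, 5, 9, 21, 37, 45, 52, 53, 56, 61] 1 0 (by decide +kernel) t ht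
      rw [this, zero_mul]
  · refine ⟨([67, 63, 59, 47, 31, 23, 16, 15, 12, 7] : List ℕ), ?_, fun t ht => ?_,
      checkEn (by norm_num) (by norm_num) _ _ _ (by decide +kernel)⟩
    · intro x hx
      simp only [Multiset.mem_coe, List.mem_cons, List.not_mem_nil, or_false] at hx
      omega
    · have := checkEn (e := 17 * 4) (n := 4) (by norm_num) (by norm_num)
        [67, 63, 59, 47, 31, 23, 16, 15, 12, 7] 3 0 (by decide +kernel) t ht
      rw [this, zero_mul]

/-- the relation at the lower level, for a prime whose square divides the level -/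
lemma low_rel {r d' d : ℕ} (hr : r.Prime) (hrd : r * d' = d) (hd : d ≠ 0) (hrd' : r ∣ d')
    {A : Multiset ℕ} {N c' : ℕ}
    (hrel : ∀ z, Nat.Coprime z d → SW d A z = N * sv d (z * (r * c'))) {t : ℕ}
    (ht : Nat.Coprime t d') :
    SW d' ((A.filter fun a => ¬ r ∣ a) + r • ((A.filter fun a => r ∣ a).map fun a => a / r)) t =
      ((r * N : ℕ) : ℤ) * sv d' (t * c') := by
  set A5 := A.filter fun a => ¬ r ∣ a with hA5
  set B := (A.filter fun a => r ∣ a).map fun a => a / r with hB
  have h1 := SW_sum_shift hr hrd hd (A := A5) (fun a ha => (Multiset.mem_filter.mp ha).2) t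
  have h2 : ∀ i ∈ range r, SW d A5 (t + i * d') = N * (r * sv d' (t * c')) - r * SW d' B t := by
    intro i _
    have hc1 : Nat.Coprime (t + i * d') d' := by
      rw [Nat.coprime_add_mul_right_left]; exact ht
    have hc2 : Nat.Coprime (t + i * d') d := by
      rw [← hrd]; exact Nat.Coprime.mul_right (Nat.Coprime.coprime_dvd_right hrd' hc1) hc1
    have hmod : t + i * d' ≡ t [MOD d'] := by
      have : t + i * d' ≡ t + 0 [MOD d'] :=
        Nat.ModEq.add_left t ((Nat.modEq_zero_iff_dvd).mpr (Dvd.intro_left _ rfl))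
      exact this
    have h3 := hrel _ hc2
    have h4 := SW_decomp hrd hd A (fun a => r ∣ a) (fun a _ h => h) (t + i * d')
    rw [h4] at h3
    have h5 : sv d ((t + i * d') * (r * c')) = r * sv d' (t * c') := by
      rw [show (t + i * d') * (r * c') = r * ((t + i * d') * c') by ring, sv_level hd hrd,
        sv_per (hmod.mul_right c')]
    rw [h5] at h3
    have h6 : SW d' ((A.filter fun a => r ∣ a).map fun a => a / r) (t + i * d') = SW d' B t :=
      SW_congr _ hmod
    rw [h6] at h3
    have h7 : SW d A5 (t + i * d') = SW d (A.filter fun a => ¬ r ∣ a) (t + i * d') := rfl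
    rw [h7]
    linear_combination h3
  rw [sum_congr rfl h2, sum_const, card_range, nsmul_eq_mul] at h1
  have hr0 : (r : ℤ) ≠ 0 := by exact_mod_cast hr.ne_zero
  have h3 : SW d' A5 t = N * (r * sv d' (t * c')) - r * SW d' B t :=
    (mul_left_cancel₀ hr0 h1).symm
  rw [SW_add, SW_nsmul, h3]
  push_cast
  ring

/-- all entries are divisible by `r`: pass to the lower level -/
lemma eq_step {r d' d : ℕ} (hr : r.Prime) (hrd : r * d' = d) (hd : d ≠ 0)
    {A : Multiset ℕ} {c' : ℕ} (hall : ∀ a ∈ A, r ∣ a)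
    (hrel : ∀ z, Nat.Coprime z d → SW d A z = Multiset.card A * sv d (z * (r * c')))
    (ih : ∀ B : Multiset ℕ, (∀ z, Nat.Coprime z d' → SW d' B z = Multiset.card B * sv d' (z * c')) →
      ∀ b ∈ B, b ≡ c' [MOD d']) : ∀ a ∈ A, a ≡ r * c' [MOD d] := by
  intro a ha
  obtain ⟨b, hb⟩ := hall a ha
  set B := A.map fun a => a / r with hB
  have hAB : A = B.map fun b => r * b := by
    rw [hB, Multiset.map_map]
    conv_lhs => rw [← Multiset.map_id A]
    apply Multiset.map_congr rfl
    intro x hx
    obtain ⟨y, hy⟩ := hall x hx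
    simp only [id_eq, Function.comp_apply]
    rw [hy, Nat.mul_div_cancel_left _ hr.pos]
  have hbB : b ∈ B := by
    rw [hB, Multiset.mem_map]
    exact ⟨a, ha, by rw [hb, Nat.mul_div_cancel_left _ hr.pos]⟩
  have h1 := ih B (by
    intro z hz
    obtain ⟨z', hz', hzz⟩ := lift_coprime (d := d') (m := d) (Dvd.intro_left r hrd) hd hz
    have h2 := hrel z' hz'
    have h3 : SW d A z' = r * SW d' B z' := by rw [hAB]; exact SW_lmul hd hrd B z'
    rw [h3, show z' * (r * c') = r * (z' * c') by ring, sv_level hd hrd] at h2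
    have hr0 : (r : ℤ) ≠ 0 := by exact_mod_cast hr.ne_zero
    have h4 : (r : ℤ) * SW d' B z' = r * (Multiset.card A * sv d' (z' * c')) := by
      rw [h2]; ring
    have h5 := mul_left_cancel₀ hr0 h4
    rw [← SW_congr _ hzz, h5, sv_per (hzz.mul_right c'), hB, Multiset.card_map]) b hbB
  rw [hb, ← hrd]
  exact Nat.ModEq.mul_left' r h1

lemma check24' : ∀ c < 24, Nat.gcd c 24 = 3 → ∃ z1 < 24, ∃ z2 < 24, Nat.gcd z1 24 = 1 ∧
    Nat.gcd z2 24 = 1 ∧ sv 24 (z1 * c) + sv 24 (z2 * c) = -36 ∧
    ∀ a < 24, |sv 24 (z1 * a) + sv 24 (z2 * a)| ≤ 36 ∧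
      (sv 24 (z1 * a) + sv 24 (z2 * a) = -36 → a = c) := by
  decide +kernel

lemma check8' : ∀ c < 8, Nat.gcd c 8 = 1 → ∃ z < 8, Nat.gcd z 8 = 1 ∧
    sv 8 (z * c) = -6 ∧ ∀ a < 8, |sv 8 (z * a)| ≤ 6 ∧ (sv 8 (z * a) = -6 → a = c) := by
  decide +kernel

/-- **Equality for elements of order eight.** -/
theorem all_eq8 : ∀ d : ℕ, d ≠ 0 → ∀ (c : ℕ), d = 8 * Nat.gcd c d → ∀ (A : Multiset ℕ),
    (∀ z, Nat.Coprime z d → SW d A z = Multiset.card A * sv d (z * c)) →
    ∀ a ∈ A, a ≡ c [MOD d] := by
  intro d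
  induction d using Nat.strong_induction_on with
  | _ d ih =>
  intro hd c hdn A hrel
  have hdp := Nat.pos_of_ne_zero hd
  have h8 : 8 ∣ d := Dvd.intro _ hdn.symm
  -- the step
  have step : ∀ r d' c' : ℕ, r.Prime → r * d' = d → c = r * c' → 8 ∣ d' → (r ∣ d' ∨ 5 ≤ r) →
      ∀ a ∈ A, a ≡ c [MOD d] := by
    intro r d' c' hr hrd hc' h8' hcase
    have hd'0 : d' ≠ 0 := by rintro rfl; exact hd (by rw [← hrd, mul_zero])
    have hlt : d' < d := by
      rw [← hrd]
      nlinarith [Nat.pos_of_ne_zero hd'0, hr.two_le]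
    have hdn' : d' = 8 * Nat.gcd c' d' := by
      have h1 : Nat.gcd c d = r * Nat.gcd c' d' := by rw [hc', ← hrd, Nat.gcd_mul_left]
      rw [h1] at hdn
      have h2 : r * d' = r * (8 * Nat.gcd c' d') := by rw [hrd]; rw [hdn]; ring_nf
      exact Nat.eq_of_mul_eq_mul_left hr.pos h2
    have h2' : 2 ∣ d' := Dvd.dvd.trans (by norm_num) h8'
    have hcard := card_split r A
    set A5 := A.filter fun a => ¬ r ∣ a with hA5
    set B := (A.filter fun a => r ∣ a).map fun a => a / r with hB
    have hzero : Multiset.card A5 = 0 := by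
      by_cases hrd' : r ∣ d'
      · have h3 := fun t (ht : Nat.Coprime t d') => low_rel (c' := c') hr hrd hd hrd'
          (A := A) (N := Multiset.card A) (by intro z hz; rw [hrel z hz, hc']) ht
        have h4 := order_four hd'0 h2' (by norm_num : 4 ≤ 8) hdn' h3
        have h5 := nz_add d' (A5 + r • B)
        have h6 : r * Multiset.card A ≤ Multiset.card (A5 + r • B) := by
          have : nz d' (A5 + r • B) ≤ Multiset.card (A5 + r • B) := by omega
          exact h4.trans this
        rw [Multiset.card_add, Multiset.card_nsmul, ← hcard] at h6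
        have hr2 := hr.two_le
        nlinarith
      · have hr5 : 5 ≤ r := hcase.resolve_left hrd'
        have hro : r % 2 = 1 := by
          rcases hr.eq_two_or_odd with h | h
          · omega
          · exact h
        have hcopw : Nat.Coprime r d' := (Nat.Prime.coprime_iff_not_dvd hr).mpr hrd'
        obtain ⟨k, hk⟩ : ∃ k, r = k + 1 := ⟨r - 1, by omega⟩
        have hSC : ∀ t, SW d' (Multiset.replicate (Multiset.card A) ((d' - 1) * c')) t =
            - (Multiset.card A * sv d' (t * c')) := by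
          intro t
          rw [SW_sv hd'0, Multiset.map_replicate, Multiset.sum_replicate, nsmul_eq_mul]
          have : sv d' (t * ((d' - 1) * c')) = - sv d' (t * c') := by
            apply sv_neg hd'0
            obtain ⟨k, hk⟩ : ∃ k, d' = k + 1 := ⟨d' - 1, by omega⟩
            rw [hk]
            exact ⟨t * c', by simp; ring⟩
          rw [this]; ring
        have H : SetE r d' d A5 (B + Multiset.replicate (Multiset.card A) ((d' - 1) * c')) := by
          refine ⟨hr, hrd, hro, hd, by omega, fun a ha => (Multiset.mem_filter.mp ha).2, ?_⟩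
          intro t ht
          have h6 := hrel t ht
          have h7 := SW_decomp hrd hd A (fun a => r ∣ a) (fun a _ h => h) t
          rw [h7] at h6
          have h8 : sv d (t * c) = r * sv d' (t * c') := by
            rw [hc', show t * (r * c') = r * (t * c') by ring, sv_level hd hrd]
          rw [h8] at h6
          rw [SW_add, hSC]
          have h9 : SW d' ((A.filter fun a => r ∣ a).map fun a => a / r) t = SW d' B t := rfl
          rw [h9] at h6
          have h10 : SW d A5 t = SW d (A.filter fun a => ¬ r ∣ a) t := rfl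
          rw [h10]
          linear_combination h6
        have h3 := order_four (A := (A5.map fun a => r * a) + (A5.map fun a => (d' - 1) * a) +
          k • (B.map fun a => r * a)) (N := k * Multiset.card A) (c := c) (n := 8) hd'0 h2'
          (by norm_num) (by
            have : Nat.gcd c d' = Nat.gcd c' d' := by
              rw [hc']; exact Nat.Coprime.gcd_mul_left_cancel c' hcopw
            rw [this]; exact hdn') (by
          intro z hz
          have h7 := H.rel1 hrd' hz
          rw [SW_add, hSC] at h7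
          rw [SW_add, SW_add, SW_nsmul, Pool.Agent.Y2.SW_map_mul, Pool.Agent.Y2.SW_map_mul,
            Pool.Agent.Y2.SW_map_mul]
          have h8 : SW d' A5 ((d' - 1) * z) = - SW d' A5 z := by
            apply SW_neg hd'0
            obtain ⟨k, hk⟩ : ∃ k, d' = k + 1 := ⟨d' - 1, by omega⟩
            rw [hk]
            exact ⟨z, by simp; ring⟩
          have h9 : sv d' (r * z * c') = sv d' (z * c) := by rw [hc']; congr 1; ring
          rw [h8]
          rw [h9] at h7
          have hkz : (r : ℤ) - 1 = k := by rw [hk]; push_cast; ring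
          rw [hkz] at h7
          push_cast at h7 ⊢
          linear_combination h7)
        have h4 := nz_add d' ((A5.map fun a => r * a) + (A5.map fun a => (d' - 1) * a) +
          k • (B.map fun a => r * a))
        rw [Multiset.card_add, Multiset.card_add, Multiset.card_nsmul, Multiset.card_map,
          Multiset.card_map, Multiset.card_map] at h4
        have h5 : k * Multiset.card A ≤ Multiset.card A5 + Multiset.card A5 +
            k * Multiset.card B := by omega
        rw [← hcard] at h5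
        have hk4 : 4 ≤ k := by omega
        nlinarith
    have hall : ∀ a ∈ A, r ∣ a := by
      intro a ha
      by_contra hcon
      have h1 : a ∈ A5 := Multiset.mem_filter.mpr ⟨ha, hcon⟩
      have h2 : A5 = 0 := Multiset.card_eq_zero.mp hzero
      rw [h2] at h1
      exact absurd h1 (Multiset.notMem_zero a)
    have h1 := eq_step hr hrd hd (c' := c') hall (by intro z hz; rw [hrel z hz, hc'])
      (fun B hB => ih d' hlt hd'0 c' hdn' B hB)
    intro a ha
    rw [hc']
    exact h1 a ha
  have hgc : Nat.gcd c d ∣ c := Nat.gcd_dvd_left c d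
  by_cases h5 : ∃ r, r.Prime ∧ 5 ≤ r ∧ r ∣ d
  · obtain ⟨r, hr, hr5, hrd⟩ := h5
    obtain ⟨d', hd'⟩ := hrd
    have hrg : r ∣ Nat.gcd c d := by
      have h1 : r ∣ 8 * Nat.gcd c d := by rw [← hdn]; exact Dvd.intro d' hd'.symm
      rcases (Nat.Prime.dvd_mul hr).mp h1 with h | h
      · exfalso
        have h2 : r ∣ 2 := hr.dvd_of_dvd_pow (show r ∣ 2 ^ 3 by norm_num; exact h)
        have := Nat.le_of_dvd two_pos h2
        omega
      · exact h
    obtain ⟨c', hc'⟩ := hrg.trans hgc
    refine step r d' c' hr hd'.symm hc' ?_ (Or.inr hr5)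
    have h1 : Nat.Coprime 8 r := by
      have : Nat.Coprime 2 r := (Nat.coprime_primes Nat.prime_two hr).mpr (by omega)
      exact Nat.Coprime.pow_left 3 this
    exact h1.dvd_of_dvd_mul_left (by rw [← hd']; exact h8)
  push Not at h5
  by_cases h9 : 9 ∣ d
  · obtain ⟨e, he⟩ := h9
    have h3g : 3 ∣ Nat.gcd c d := by
      have h1 : 3 ∣ 8 * Nat.gcd c d := by rw [← hdn, he]; exact ⟨3 * e, by ring⟩
      exact (Nat.Coprime.dvd_of_dvd_mul_left (by norm_num) h1)
    obtain ⟨c', hc'⟩ := h3g.trans hgc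
    exact step 3 (3 * e) c' Nat.prime_three (by rw [he]; ring) hc' (by omega)
      (Or.inl (Dvd.intro e rfl))
  by_cases h16 : 16 ∣ d
  · obtain ⟨e, he⟩ := h16
    have h2g : 2 ∣ Nat.gcd c d := by omega
    obtain ⟨c', hc'⟩ := h2g.trans hgc
    exact step 2 (8 * e) c' Nat.prime_two (by rw [he]; ring) hc' (Dvd.intro e rfl)
      (Or.inl ⟨4 * e, by ring⟩)
  -- the levels 8 and 24
  have hd24 : d = 8 ∨ d = 24 := by
    obtain ⟨e, he⟩ := h8
    have he0 : e ≠ 0 := by rintro rfl; exact hd (by rw [he])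
    have h2 : ¬ 2 ∣ e := by
      rintro ⟨f, hf⟩; exact h16 ⟨f, by rw [he, hf]; ring⟩
    by_cases h3 : 3 ∣ e
    · obtain ⟨f, hf⟩ := h3
      have hf1 : f = 1 := by
        by_contra hne
        obtain ⟨p, hp, hpf⟩ := Nat.exists_prime_and_dvd hne
        have hpd : p ∣ d := by rw [he, hf]; exact (hpf.mul_left 3).mul_left 8
        have h6 : p < 5 := by
          by_contra hcon
          exact h5 p hp (by omega) hpd
        have h7 := hp.two_le
        have h8 : p ≠ 4 := by rintro rfl; revert hp; norm_num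
        have h10 : p = 2 ∨ p = 3 := by omega
        rcases h10 with rfl | rfl
        · exact h2 (by rw [hf]; exact hpf.mul_left 3)
        · obtain ⟨g, hg⟩ := hpf
          exact h9 ⟨8 * g, by rw [he, hf, hg]; ring⟩
      right; rw [he, hf, hf1]
    · have he1 : e = 1 := by
        by_contra hne
        obtain ⟨p, hp, hpf⟩ := Nat.exists_prime_and_dvd hne
        have hpd : p ∣ d := by rw [he]; exact hpf.mul_left 8
        have h6 : p < 5 := by
          by_contra hcon
          exact h5 p hp (by omega) hpd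
        have h7 := hp.two_le
        have h8 : p ≠ 4 := by rintro rfl; revert hp; norm_num
        have h10 : p = 2 ∨ p = 3 := by omega
        rcases h10 with rfl | rfl
        · exact h2 hpf
        · exact h3 hpf
      left; rw [he, he1]
  have hmodc : c % d ≡ c [MOD d] := Nat.mod_modEq c d
  rcases hd24 with rfl | rfl
  · obtain ⟨z, _, hz1, hz2, hz3⟩ := check8' (c % 8) (Nat.mod_lt _ (by norm_num)) (by
      have h1 : Nat.gcd (c % 8) 8 = Nat.gcd c 8 := hmodc.gcd_eq
      omega)
    have h1 := hrel z hz1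
    rw [← sv_per (hmodc.mul_left z), hz2, SW_sv (by norm_num)] at h1
    have hper : ∀ a, sv 8 (z * a) = sv 8 (z * (a % 8)) := fun a =>
      sv_per ((Nat.mod_modEq a 8).symm.mul_left z)
    have h2 := all_extreme A (fun a => sv 8 (z * a)) 6 (-1) (Or.inr rfl) (fun a _ => by
      beta_reduce
      rw [hper a]; exact (hz3 (a % 8) (Nat.mod_lt _ (by norm_num))).1) (by rw [h1]; ring)
    intro a ha
    have h3 := h2 a ha
    beta_reduce at h3
    rw [hper a] at h3
    exact (hz3 (a % 8) (Nat.mod_lt _ (by norm_num))).2 (by rw [h3]; norm_num)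
  · obtain ⟨z1, _, z2, _, hz1, hz2, hz3, hz4⟩ := check24' (c % 24) (Nat.mod_lt _ (by norm_num)) (by
      have h1 : Nat.gcd (c % 24) 24 = Nat.gcd c 24 := hmodc.gcd_eq
      omega)
    have h1 := hrel z1 hz1
    have h2 := hrel z2 hz2
    rw [SW_sv (by norm_num), ← sv_per (hmodc.mul_left z1)] at h1
    rw [SW_sv (by norm_num), ← sv_per (hmodc.mul_left z2)] at h2
    have hper : ∀ z a, sv 24 (z * a) = sv 24 (z * (a % 24)) := fun z a =>
      sv_per ((Nat.mod_modEq a 24).symm.mul_left z)
    have h4 := all_extreme A (fun a => sv 24 (z1 * a) + sv 24 (z2 * a)) 36 (-1) (Or.inr rfl)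
      (fun a _ => by
        beta_reduce
        rw [hper z1 a, hper z2 a]; exact (hz4 (a % 24) (Nat.mod_lt _ (by norm_num))).1) (by
      rw [Multiset.sum_map_add, h1, h2, ← mul_add, hz3]; ring)
    intro a ha
    have h5 := h4 a ha
    beta_reduce at h5
    rw [hper z1 a, hper z2 a] at h5
    exact (hz4 (a % 24) (Nat.mod_lt _ (by norm_num))).2 (by rw [h5]; norm_num)

/-- the functional of level 136 -/
def L136 (y : ℕ) : ℤ := sv 136 (3 * y) + sv 136 (11 * y) + sv 136 (19 * y) + sv 136 (25 * y) +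
  sv 136 (27 * y)

lemma check136 : ∀ y < 136, y % 8 = 1 → y % 17 ≠ 0 → (544 : ℤ) ∣ L136 y - 34 := by
  decide +kernel

/-- no eight entries congruent to an element of order eight -/
theorem no_eight {d m c : ℕ} {A : Multiset ℕ} (hm : m ≠ 0) (hd : 17 * d = m) (hn17 : ¬ 17 ∣ d)
    (hdn : d = 8 * Nat.gcd c d) (hA17 : ∀ a ∈ A, ¬ 17 ∣ a) (hcard : Multiset.card A = 8)
    (hrel : ∀ t, Nat.Coprime t m → SW m A t = 0) (hc : ∀ a ∈ A, a ≡ c [MOD d]) : False := by
  have hd0 : d ≠ 0 := by rintro rfl; exact hm (by rw [← hd])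
  set g := Nat.gcd c d with hg
  have hgpos : 0 < g := Nat.gcd_pos_of_pos_right _ (Nat.pos_of_ne_zero hd0)
  have hgm : g * 136 = m := by rw [← hd, hdn]; ring
  have hg17 : ¬ 17 ∣ g := fun h => hn17 (by rw [hdn]; exact h.mul_left 8)
  obtain ⟨c', hc'⟩ : g ∣ c := Nat.gcd_dvd_left c d
  have hc8 : Nat.gcd c' 8 = 1 := by
    have h1 : Nat.gcd c d = g * Nat.gcd c' 8 := by
      conv_lhs => rw [hc', hdn, mul_comm 8 g, Nat.gcd_mul_left]
    rw [← hg] at h1
    have h2 : g * 1 = g * Nat.gcd c' 8 := by rw [mul_one]; exact h1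
    exact (Nat.eq_of_mul_eq_mul_left hgpos h2).symm
  have hga : ∀ a ∈ A, g ∣ a := by
    intro a ha
    have h1 := (hc a ha).of_dvd (Dvd.intro_left 8 hdn.symm)
    exact (h1.dvd_iff dvd_rfl).mpr (Dvd.intro c' hc'.symm)
  set B := A.map fun a => a / g with hB
  have hAB : A = B.map fun b => g * b := by
    rw [hB, Multiset.map_map]
    conv_lhs => rw [← Multiset.map_id A]
    apply Multiset.map_congr rfl
    intro x hx
    obtain ⟨y, hy⟩ := hga x hx
    simp only [id_eq, Function.comp_apply]
    rw [hy, Nat.mul_div_cancel_left _ hgpos]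
  have hBrel : ∀ t, Nat.Coprime t 136 → SW 136 B t = 0 := by
    intro t ht
    obtain ⟨t', ht', htt⟩ := lift_coprime (d := 136) (m := m) (Dvd.intro_left g hgm) hm ht
    have h2 := hrel t' ht'
    rw [hAB, SW_lmul hm hgm B t'] at h2
    rcases mul_eq_zero.mp h2 with h | h
    · exfalso
      have : g = 0 := by exact_mod_cast h
      omega
    · rw [← SW_congr _ htt]; exact h
  have hBe : ∀ b ∈ B, b ≡ c' [MOD 8] ∧ ¬ 17 ∣ b := by
    intro b hb
    rw [hB, Multiset.mem_map] at hb
    obtain ⟨a, ha, rfl⟩ := hb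
    obtain ⟨y, hy⟩ := hga a ha
    have h1 : a / g = y := by rw [hy, Nat.mul_div_cancel_left _ hgpos]
    rw [h1]
    constructor
    · have h2 := hc a ha
      rw [hy, hc', hdn, mul_comm 8 g] at h2
      exact Nat.ModEq.mul_left_cancel' hgpos.ne' h2
    · intro h
      exact hA17 a ha (by rw [hy]; exact h.mul_left g)
  -- the unit
  set u := c' % 8 with hu
  have hu8 : u = 1 ∨ u = 3 ∨ u = 5 ∨ u = 7 := by
    have h1 : Nat.gcd (c' % 8) 8 = Nat.gcd c' 8 := (Nat.mod_modEq c' 8).gcd_eq
    rw [hc8, ← hu] at h1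
    have h2 : u < 8 := Nat.mod_lt _ (by norm_num)
    have h3 : ∀ v < 8, Nat.gcd v 8 = 1 → v = 1 ∨ v = 3 ∨ v = 5 ∨ v = 7 := by decide
    exact h3 u h2 h1
  have hcop : ∀ s, Nat.Coprime s 136 → Nat.Coprime (s * u) 136 := by
    intro s hs
    apply Nat.Coprime.mul_left hs
    rcases hu8 with h | h | h | h <;> rw [h] <;> norm_num
  have hsum : (B.map fun b => L136 (u * b)).sum = 0 := by
    have h1 : ∀ s, Nat.Coprime s 136 → (B.map fun b => sv 136 (s * (u * b))).sum = 0 := by
      intro s hs
      have h2 := hBrel _ (hcop s hs)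
      rw [SW_sv (by norm_num)] at h2
      rw [← h2]
      congr 1
      apply Multiset.map_congr rfl
      intro b _
      rw [mul_assoc]
    unfold L136
    simp only [Multiset.sum_map_add]
    rw [h1 3 (by norm_num), h1 11 (by norm_num), h1 19 (by norm_num), h1 25 (by norm_num),
      h1 27 (by norm_num)]
    norm_num
  have hdiv : ∀ b ∈ B, (544 : ℤ) ∣ L136 (u * b) - 34 := by
    intro b hb
    obtain ⟨h1, h2⟩ := hBe b hb
    have hper : L136 (u * b) = L136 ((u * b) % 136) := by
      unfold L136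
      have h3 : u * b ≡ (u * b) % 136 [MOD 136] := (Nat.mod_modEq _ _).symm
      rw [sv_per (h3.mul_left 3), sv_per (h3.mul_left 11), sv_per (h3.mul_left 19),
        sv_per (h3.mul_left 25), sv_per (h3.mul_left 27)]
    rw [hper]
    apply check136 _ (Nat.mod_lt _ (by norm_num))
    · rw [Nat.mod_mod_of_dvd _ (by norm_num : 8 ∣ 136)]
      have h3 : b % 8 = u := h1
      rw [Nat.mul_mod, h3]
      rcases hu8 with h | h | h | h <;> rw [h]
    · rw [Nat.mod_mod_of_dvd _ (by norm_num : 17 ∣ 136)]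
      intro h3
      have h4 : 17 ∣ u * b := Nat.dvd_of_mod_eq_zero h3
      rcases (Nat.Prime.dvd_mul (by norm_num)).mp h4 with h5 | h5
      · rcases hu8 with h | h | h | h <;> rw [h] at h5 <;> norm_num at h5
      · exact h2 h5
  have hBcard : Multiset.card B = 8 := by rw [hB, Multiset.card_map, hcard]
  obtain ⟨k, hk⟩ := Multiset.dvd_sum (s := B.map fun b => L136 (u * b) - 34) (a := (544 : ℤ)) (by
    intro x hx
    obtain ⟨b, hb, rfl⟩ := Multiset.mem_map.mp hx
    exact hdiv b hb)
  rw [Multiset.sum_map_sub, hsum, Multiset.map_const', Multiset.sum_replicate, hBcard] at hk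
  norm_num at hk
  omega

end Pool.Agent.U270.FT14
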