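import Pool.Agent.U270.FT14.Count5
import Pool.Agent.U270.FT14.CoreH
import Pool.Agent.N993.Good

/-!
# The values of the distributions at the points of the product
-/

set_option autoImplicit false
set_option linter.unusedSectionVars false

namespace Pool.Agent.U270.FT14

open Finset Pool.Agent.H916R2 Pool.Agent.N992 Pool.Agent.N993 Pool.Agent.N993.Dat

lemma pp_dvd_iff {m k m1 p : ℕ} (hp : p.Prime) (hm : m ≠ 0) (hk : k * (p * m1) = m)
    (h1 : ¬ p ∣ m1) (z : ℤ) : ((pp m p : ℕ) : ℤ) ∣ (k : ℤ) * z ↔ (p : ℤ) ∣ z := by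
  have hk0 : k ≠ 0 := by rintro rfl; rw [zero_mul] at hk; exact hm hk.symm
  obtain ⟨v, k', hk', rfl⟩ := Nat.exists_eq_pow_mul_and_not_dvd hk0 p hp.ne_one
  have hv : m.factorization p = v + 1 := by
    apply le_antisymm
    · by_contra hcon
      have h2 : p ^ (v + 2) ∣ m := (hp.pow_dvd_iff_le_factorization hm).mpr (by omega)
      rw [← hk] at h2
      have h3 : p ^ (v + 1) * p ∣ p ^ (v + 1) * (k' * m1) := by
        have e1 : p ^ (v + 2) = p ^ (v + 1) * p := pow_succ _ _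
        have e2 : p ^ v * k' * (p * m1) = p ^ (v + 1) * (k' * m1) := by ring
        rw [e1, e2] at h2; exact h2
      have h4 := Nat.dvd_of_mul_dvd_mul_left (pow_pos hp.pos _) h3
      rcases (Nat.Prime.dvd_mul hp).mp h4 with h | h
      · exact hk' h
      · exact h1 h
    · rw [← hp.pow_dvd_iff_le_factorization hm, ← hk]
      exact ⟨k' * m1, by ring⟩
  have hpi := Nat.prime_iff_prime_int.mp hp
  unfold pp
  rw [hv]
  push_cast
  have e : (p : ℤ) ^ v * (k' : ℤ) * z = (p : ℤ) ^ v * (k' * z) := by ring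
  rw [e, pow_succ, mul_dvd_mul_iff_left (pow_ne_zero _ hpi.ne_zero)]
  constructor
  · intro h
    rcases hpi.dvd_or_dvd h with h | h
    · exact absurd (by exact_mod_cast h) hk'
    · exact h
  · intro h; exact h.mul_left _

lemma prod_erase_ndvd {S : Finset ℕ} (hS : ∀ p ∈ S, p.Prime) {p : ℕ} (hp : p ∈ S) :
    ∏ q ∈ S, q = p * ∏ q ∈ S.erase p, q ∧ ¬ p ∣ ∏ q ∈ S.erase p, q := by
  refine ⟨(mul_prod_erase S (fun q => q) hp).symm, ?_⟩
  intro h
  obtain ⟨q, hq, hpq⟩ := (Nat.Prime.prime (hS p hp)).exists_mem_finset_dvd h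
  have h1 := (Nat.prime_dvd_prime_iff_eq (hS p hp) (hS q (mem_of_mem_erase hq))).mp hpq
  exact ne_of_mem_erase hq h1.symm

lemma pp_iff {S : Finset ℕ} (hS : ∀ p ∈ S, p.Prime) {m k : ℕ} (hm : m ≠ 0)
    (hk : k * ∏ p ∈ S, p = m) {p : ℕ} (hp : p ∈ S) (z : ℤ) :
    ((pp m p : ℕ) : ℤ) ∣ (k : ℤ) * z ↔ (p : ℤ) ∣ z := by
  obtain ⟨h1, h2⟩ := prod_erase_ndvd hS hp
  exact pp_dvd_iff (hS p hp) hm (by rw [← h1]; exact hk) h2 z

lemma pp_iff_nat {S : Finset ℕ} (hS : ∀ p ∈ S, p.Prime) {m k : ℕ} (hm : m ≠ 0)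
    (hk : k * ∏ p ∈ S, p = m) {p : ℕ} (hp : p ∈ S) (B : ℕ) : pp m p ∣ k * B ↔ p ∣ B := by
  have h := pp_iff hS hm hk hp (B : ℤ)
  rw [← Nat.cast_mul, Int.natCast_dvd_natCast, Int.natCast_dvd_natCast] at h
  exact h

lemma gcd_prod {S T : Finset ℕ} (hS : ∀ p ∈ S, p.Prime) (hT : T ⊆ S) {B : ℕ}
    (h1 : ∀ p ∈ T, ¬ p ∣ B) (h2 : ∀ p ∈ S \ T, p ∣ B) :
    Nat.gcd B (∏ p ∈ S, p) = ∏ p ∈ S \ T, p := by
  have e : ∏ p ∈ S, p = (∏ p ∈ T, p) * ∏ p ∈ S \ T, p := by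
    rw [mul_comm]; exact (prod_sdiff hT).symm
  have hc : Nat.Coprime B (∏ p ∈ T, p) := Nat.Coprime.prod_right fun p hp =>
    ((Nat.Prime.coprime_iff_not_dvd (hS p (hT hp))).mpr (h1 p hp)).symm
  rw [e, Nat.Coprime.gcd_mul_left_cancel_right _ hc.symm]
  apply Nat.gcd_eq_right
  exact Finset.prod_primes_dvd _ (fun p hp => Nat.Prime.prime (hS p (mem_sdiff.mp hp).1)) h2

lemma dl_eval {S T : Finset ℕ} (hS : ∀ p ∈ S, p.Prime) (hT : T ⊆ S) {m k : ℕ} (hm : m ≠ 0)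
    (hk : k * ∏ p ∈ S, p = m) {B : ℕ} (h1 : ∀ p ∈ T, ¬ p ∣ B) (h2 : ∀ p ∈ S \ T, p ∣ B) (u : ℤ)
    {p : ℕ} (hp : p ∈ T) :
    dl m p u (k * B) = if ((B : ℕ) : ZMod p) = (((∏ q ∈ S \ T, q : ℕ) : ℤ) * u : ℤ) then 1 else 0 := by
  have hg : Nat.gcd (k * B) m = k * ∏ q ∈ S \ T, q := by
    rw [← hk, Nat.gcd_mul_left, gcd_prod hS hT h1 h2]
  unfold dl
  rw [hg]
  have h3 : ¬ pp m p ∣ k * B := by
    rw [pp_iff_nat hS hm hk (hT hp)]; exact h1 p hp
  have h4 : ((pp m p : ℕ) : ℤ) ∣ ((k * B : ℕ) : ℤ) - ((k * ∏ q ∈ S \ T, q : ℕ) : ℤ) * u ↔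
      ((B : ℕ) : ZMod p) = (((∏ q ∈ S \ T, q : ℕ) : ℤ) * u : ℤ) := by
    have e : ((k * B : ℕ) : ℤ) - ((k * ∏ q ∈ S \ T, q : ℕ) : ℤ) * u =
        (k : ℤ) * ((B : ℤ) - ((∏ q ∈ S \ T, q : ℕ) : ℤ) * u) := by
      rw [Nat.cast_mul, Nat.cast_mul]; ring
    rw [e, pp_iff hS hm hk (hT hp), ← ZMod.intCast_zmod_eq_zero_iff_dvd, Int.cast_sub, sub_eq_zero,
      Int.cast_natCast]
  exact if_congr (by rw [h4]; simp [h3]) rfl rfl

lemma II_zero {m q : ℕ} {L : List ℕ} {u : ℤ} {x : ℕ} (hq : q ∈ L) (hx : pp m q ∣ x) :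
    II m L u x = 0 := by
  unfold II
  apply List.prod_eq_zero
  rw [List.mem_map]
  refine ⟨q, hq, ?_⟩
  rw [dl_of_dvd hx, dl_of_dvd hx, add_zero]

lemma II_prod {m : ℕ} {T : Finset ℕ} {u : ℤ} {x : ℕ} :
    II m T.toList u x = ∏ p ∈ T, (dl m p u x + dl m p (-u) x) := by
  unfold II
  rw [Finset.prod_map_toList]

/-- the coordinates of a point -/
lemma coord {S : Finset ℕ} [∀ i : Ix S, NeZero (nn S i)] {m0 : ℕ} [NeZero m0]
    (E : (∀ i, ZMod (nn S i)) ≃+* ZMod m0) (y : (cyc (nn S)).Pt) (i : Ix S) :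
    (((E (emb y)).val : ℕ) : ZMod (nn S i)) = emb y i := by
  have h1 : E (fun j => (((E (emb y)).val : ℕ) : ZMod (nn S j))) = E (emb y) := by
    rw [← E_natCast E, ZMod.natCast_zmod_val]
  exact congrFun (E.injective h1) i

lemma coord_none {S : Finset ℕ} [∀ i : Ix S, NeZero (nn S i)] {m0 : ℕ} [NeZero m0]
    (E : (∀ i, ZMod (nn S i)) ≃+* ZMod m0) (y : (cyc (nn S)).Pt) {i : Ix S} (hi : y i = none) :
    (i : ℕ) ∣ (E (emb y)).val := by
  have h1 := coord E y i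
  have h2 : emb y i = 0 := by
    unfold emb
    rw [hi]
  rw [h2] at h1
  exact (ZMod.natCast_eq_zero_iff _ _).mp h1

lemma coord_some {S : Finset ℕ} [∀ i : Ix S, NeZero (nn S i)] (hS : ∀ p ∈ S, p.Prime) {m0 : ℕ}
    [NeZero m0] (E : (∀ i, ZMod (nn S i)) ≃+* ZMod m0) (y : (cyc (nn S)).Pt) {i : Ix S}
    {v : (ZMod (nn S i))ˣ} (hi : y i = some v) :
    (((E (emb y)).val : ℕ) : ZMod (nn S i)) = v ∧ ¬ (i : ℕ) ∣ (E (emb y)).val := by
  have h1 := coord E y i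
  have h2 : emb y i = v := by
    unfold emb
    rw [hi]
  rw [h2] at h1
  refine ⟨h1, fun h3 => ?_⟩
  have h4 := (ZMod.natCast_eq_zero_iff (E (emb y)).val (nn S i)).mpr h3
  rw [h1] at h4
  have hF : Fact (nn S i).Prime := ⟨hS i i.2⟩
  exact v.ne_zero h4

/-- the value at a point -/
lemma II_eval {S : Finset ℕ} [∀ i : Ix S, NeZero (nn S i)] (hS : ∀ p ∈ S, p.Prime) {m k m0 : ℕ}
    [NeZero m0] (hm : m ≠ 0) (hm0 : ∏ p ∈ S, p = m0) (hk : k * m0 = m)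
    (E : (∀ i, ZMod (nn S i)) ≃+* ZMod m0) (T : Finset (Ix S)) (T' : Finset ℕ)
    (hTT : T.map (Function.Embedding.subtype _) = T') {u : ℕ} (hu : Nat.Coprime u m)
    (y : (cyc (nn S)).Pt) (hy : (cyc (nn S)).Supp T y) :
    II m T'.toList u (k * (E (emb y)).val) =
      ((top (D := cyc (nn S)) (fun i => unOf ((∏ q ∈ S \ T', q) * u) (nn S i)) T y : ℤ) : ZMod 2) := by
  have hk' : k * ∏ p ∈ S, p = m := by rw [hm0]; exact hk
  have hT'S : T' ⊆ S := by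
    intro p hp
    rw [← hTT, mem_map] at hp
    obtain ⟨i, _, rfl⟩ := hp
    exact i.2
  have hmem : ∀ i : Ix S, i ∈ T ↔ (i : ℕ) ∈ T' := by
    intro i
    rw [← hTT, mem_map]
    constructor
    · intro h; exact ⟨i, h, rfl⟩
    · rintro ⟨j, hj, he⟩
      have : j = i := Subtype.ext he
      rwa [← this]
  by_cases hfull : ∀ i ∈ T, y i ≠ none
  · have h1 : ∀ p ∈ T', ¬ p ∣ (E (emb y)).val := by
      intro p hp
      have hiT : (⟨p, hT'S hp⟩ : Ix S) ∈ T := (hmem _).mpr hp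
      cases hyi : y ⟨p, hT'S hp⟩ with
      | none => exact absurd hyi (hfull _ hiT)
      | some v => exact (coord_some hS E y hyi).2
    have h2 : ∀ p ∈ S \ T', p ∣ (E (emb y)).val := by
      intro p hp
      obtain ⟨hp1, hp2⟩ := mem_sdiff.mp hp
      exact coord_none E y (i := ⟨p, hp1⟩) (hy _ (fun h => hp2 ((hmem _).mp h)))
    rw [II_prod, ← hTT, prod_map, hTT]
    unfold top
    push_cast
    refine prod_congr rfl fun i hi => ?_
    have hiT' : (i : ℕ) ∈ T' := (hmem i).mp hi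
    change dl m (i : ℕ) (u : ℤ) _ + dl m (i : ℕ) (-(u : ℤ)) _ = _
    rw [dl_eval hS hT'S hm hk' h1 h2 _ hiT', dl_eval hS hT'S hm hk' h1 h2 _ hiT']
    cases hyi : y i with
    | none => exact absurd hyi (hfull i hi)
    | some v =>
      have hv := (coord_some hS E y hyi).1
      have hcop : Nat.Coprime ((∏ q ∈ S \ T', q) * u) (nn S i) := by
        apply Nat.Coprime.mul_left
        · apply Nat.Coprime.prod_left
          intro q hq
          obtain ⟨hq1, hq2⟩ := mem_sdiff.mp hq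
          exact (Nat.coprime_primes (hS q hq1) (hS i i.2)).mpr (fun e => hq2 (e ▸ hiT'))
        · apply Nat.Coprime.coprime_dvd_right _ hu
          rw [← hk']
          exact (dvd_prod_of_mem (fun p => p) i.2).mul_left k
      have hw := unOf_val hcop
      have e1 : (((E (emb y)).val : ℕ) : ZMod (i : ℕ)) =
          ((((∏ q ∈ S \ T', q : ℕ) : ℤ) * (u : ℤ) : ℤ) : ZMod (i : ℕ)) ↔
          v = unOf ((∏ q ∈ S \ T', q) * u) (nn S i) := by
        rw [Units.ext_iff, hw]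
        have e2 : ((((∏ q ∈ S \ T', q : ℕ) : ℤ) * (u : ℤ) : ℤ) : ZMod (i : ℕ)) =
            (((∏ q ∈ S \ T', q) * u : ℕ) : ZMod (nn S i)) := by push_cast; rfl
        rw [e2]
        have e3 : (((E (emb y)).val : ℕ) : ZMod (i : ℕ)) = (v : ZMod (nn S i)) := hv
        rw [e3]
      have e4 : (((E (emb y)).val : ℕ) : ZMod (i : ℕ)) =
          ((((∏ q ∈ S \ T', q : ℕ) : ℤ) * (-(u : ℤ)) : ℤ) : ZMod (i : ℕ)) ↔
          v = (cyc (nn S)).c i * unOf ((∏ q ∈ S \ T', q) * u) (nn S i) := by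
        rw [Units.ext_iff]
        have e5 : (((cyc (nn S)).c i * unOf ((∏ q ∈ S \ T', q) * u) (nn S i) : (ZMod (nn S i))ˣ) :
            ZMod (nn S i)) = -(((∏ q ∈ S \ T', q) * u : ℕ) : ZMod (nn S i)) := by
          rw [Units.val_mul, hw]
          change ((-1 : (ZMod (nn S i))ˣ) : ZMod (nn S i)) * _ = _
          rw [Units.val_neg, Units.val_one, neg_one_mul]
        rw [e5]
        have e2 : ((((∏ q ∈ S \ T', q : ℕ) : ℤ) * (-(u : ℤ)) : ℤ) : ZMod (i : ℕ)) =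
            -(((∏ q ∈ S \ T', q) * u : ℕ) : ZMod (nn S i)) := by push_cast; ring
        rw [e2]
        have e3 : (((E (emb y)).val : ℕ) : ZMod (i : ℕ)) = (v : ZMod (nn S i)) := hv
        rw [e3]
      rw [if_congr e1 rfl rfl, if_congr e4 rfl rfl]
      unfold zt
      push_cast
      have h3 : ∀ a b : ZMod 2, a + b = a - b := by decide
      exact h3 _ _
  · push Not at hfull
    obtain ⟨i, hi, hyi⟩ := hfull
    rw [top_none hi hyi, Int.cast_zero]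
    apply II_zero (q := (i : ℕ)) (Finset.mem_toList.mpr ((hmem i).mp hi))
    rw [pp_iff_nat hS hm hk' i.2]
    exact coord_none E y hyi

end Pool.Agent.U270.FT14
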