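import Pool.Agent.U270.FT14.Eq8

/-!
# Relations with at most eight entries of even level: the induction
-/

set_option autoImplicit false

namespace Pool.Agent.U270.FT14

open Finset Pool.Agent.H916R2 Pool.Agent.Y2 Pool.Agent.Y2.Cv Pool.Agent.Y2.Cw Pool.Agent.U270.SX

lemma exists_w8 {q d m : ℕ} (hq : q.Prime) (hqd : q * d = m) (hd : d ≠ 0) (hq17 : 17 ≤ q)
    (hmax : ∀ r : ℕ, r.Prime → r ∣ m → r ≤ q) :
    ∃ w, w.Prime ∧ w % 2 = 1 ∧ ¬ w ∣ d ∧ (¬ q ∣ d ∨ 2 * (8 * (w / 2)) < q * (q - 1)) := by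
  by_cases hqd' : q ∣ d
  swap
  · obtain ⟨w, h1, h2, h3⟩ := exists_prime_not_dvd hd
    exact ⟨w, h1, h2, h3, Or.inl hqd'⟩
  have hnot : ∀ w : ℕ, w.Prime → q < w → ¬ w ∣ d := by
    intro w hw hqw hwd
    have := hmax w hw (by rw [← hqd]; exact hwd.mul_left q)
    omega
  by_cases hq19 : q < 19
  · have hq' : q = 17 ∨ q = 18 := by omega
    rcases hq' with rfl | rfl
    · exact ⟨19, by norm_num, by norm_num, hnot 19 (by norm_num) (by norm_num),
        Or.inr (by norm_num)⟩
    · revert hq; norm_num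
  · obtain ⟨w, hw, h1, h2⟩ := Nat.exists_prime_lt_and_le_two_mul q hq.ne_zero
    have hwo : w % 2 = 1 := by
      rcases hw.eq_two_or_odd with h | h
      · omega
      · exact h
    refine ⟨w, hw, hwo, hnot w hw h1, Or.inr ?_⟩
    have h3 : w / 2 ≤ q - 1 := by omega
    have h4 : 16 * (q - 1) < q * (q - 1) := Nat.mul_lt_mul_of_pos_right (by omega) (by omega)
    omega

/-- an element of order `n` -/
lemma order_gen {d c n : ℕ} (hd : d ≠ 0) (hdn : d = n * Nat.gcd c d) :
    ∃ l τ, l * n = d ∧ τ < n ∧ Nat.Coprime τ n ∧ c ≡ l * τ [MOD d] := by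
  have hg : 0 < Nat.gcd c d := Nat.gcd_pos_of_pos_right _ (Nat.pos_of_ne_zero hd)
  obtain ⟨c', hc'⟩ := Nat.gcd_dvd_left c d
  have hn0 : n ≠ 0 := by rintro rfl; rw [zero_mul] at hdn; exact hd hdn
  refine ⟨Nat.gcd c d, c' % n, by rw [mul_comm]; exact hdn.symm,
    Nat.mod_lt _ (Nat.pos_of_ne_zero hn0), ?_, ?_⟩
  · have h1 : Nat.gcd (c' % n) n = Nat.gcd c' n := (Nat.mod_modEq c' n).gcd_eq
    rw [Nat.Coprime, h1]
    have h2 : Nat.gcd c d = Nat.gcd c d * Nat.gcd c' n := by
      have e : Nat.gcd c d = Nat.gcd (Nat.gcd c d * c') (Nat.gcd c d * n) := by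
        conv_lhs => rw [hc', hdn]
        rw [← hdn, ← hc', mul_comm (Nat.gcd c d) n, ← hdn]
      conv_lhs => rw [e]
      exact Nat.gcd_mul_left _ _ _
    have h3 : Nat.gcd c d * 1 = Nat.gcd c d * Nat.gcd c' n := by rw [mul_one]; exact h2
    exact (Nat.eq_of_mul_eq_mul_left hg h3).symm
  · have h1 : Nat.gcd c d * (c' % n) ≡ Nat.gcd c d * c' [MOD Nat.gcd c d * n] :=
      Nat.ModEq.mul_left' _ (Nat.mod_modEq c' n)
    rw [mul_comm (Nat.gcd c d) n, ← hdn, ← hc'] at h1
    exact h1.symm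

/-- **Relations with at most eight entries of even level.** -/
theorem eight_even (G : ℕ → Prop) (h51 : G 51) (h57 : G 57) (h69 : G 69) (h68 : G 68)
    (P : ℕ → Prop) (hP : ∀ q d, P (q * d) → P d)
    (hbase : ∀ e, e ≠ 0 → e % 2 = 0 → P e → (∀ p, p.Prime → p ∣ e → p ≤ 13) →
      ∀ A : Multiset ℕ, Multiset.card A ≤ 8 → (∀ t, Nat.Coprime t e → SW e A t = 0) →
      ∀ (Q : Type) [AddCommGroup Q] (C : ZMod e → Q), OddDist C → KillsR G e C →
        (A.map fun a : ℕ => C (a : ZMod e)).sum = 0) :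
    ∀ m : ℕ, m ≠ 0 → m % 2 = 0 → P m →
    ∀ A : Multiset ℕ, Multiset.card A ≤ 8 → (∀ t, Nat.Coprime t m → SW m A t = 0) →
    ∀ (Q : Type) [AddCommGroup Q] (C : ZMod m → Q), OddDist C → KillsR G m C →
      (A.map fun a : ℕ => C (a : ZMod m)).sum = 0 := by
  intro m
  induction m using Nat.strong_induction_on with
  | _ m ih =>
  intro hm heven hPm A hcard hrel Q _ C hC hK
  have hN : NeZero m := ⟨hm⟩
  by_cases hg : ∀ p, p.Prime → p ∣ m → p ≤ 13
  · exact hbase m hm heven hPm hg A hcard hrel Q C hC hK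
  obtain ⟨q, hq, ⟨d, hd'⟩, hq17, hmax⟩ : ∃ q, q.Prime ∧ q ∣ m ∧ 17 ≤ q ∧
      ∀ r : ℕ, r.Prime → r ∣ m → r ≤ q := by
    push Not at hg
    obtain ⟨p, hp, hpm, hp13⟩ := hg
    have hne : m.primeFactors.Nonempty := ⟨p, Nat.mem_primeFactors.mpr ⟨hp, hpm, hm⟩⟩
    have hmx := Finset.max'_mem _ hne
    have h1 := Finset.le_max' _ _ (Nat.mem_primeFactors.mpr ⟨hp, hpm, hm⟩)
    have hpr := (Nat.mem_primeFactors.mp hmx).1
    refine ⟨m.primeFactors.max' hne, hpr, (Nat.mem_primeFactors.mp hmx).2.1, ?_, ?_⟩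
    · by_contra hcon
      have h2 : 14 ≤ m.primeFactors.max' hne := by omega
      have h3 : m.primeFactors.max' hne ≤ 16 := by omega
      generalize m.primeFactors.max' hne = z at *
      interval_cases z <;> revert hpr <;> norm_num
    · intro r hr hrm
      exact Finset.le_max' _ _ (Nat.mem_primeFactors.mpr ⟨hr, hrm, hm⟩)
  have hqd : q * d = m := hd'.symm
  have hqo : q % 2 = 1 := by
    rcases hq.eq_two_or_odd with h | h
    · omega
    · exact h
  have H := mkSetE hq hqo hqd hm heven A hrel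
  have hc1 := card_split q A
  have hd := H.hd
  have hdm : d < m := by
    have h4 : 0 < d := Nat.pos_of_ne_zero hd
    rw [← hqd]
    nlinarith
  have hdvd : d ∣ m := Dvd.intro_left q hqd
  have hNd : NeZero d := ⟨hd⟩
  have hCd : OddDist (fun b : ZMod d => C (iota q b)) := hC.comp_iota hqd
  have hKd : KillsR G d (fun b : ZMod d => C (iota q b)) := hK.comp hqd
  have hIH : ∀ B : Multiset ℕ, Multiset.card B ≤ 8 → (∀ t, Nat.Coprime t d → SW d B t = 0) →
      (B.map fun b : ℕ => C ((q * b : ℕ) : ZMod m)).sum = 0 := by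
    intro B hB hBrel
    have h5 := ih d hdm hd H.heven (hP q d (by rw [hqd]; exact hPm))
      B hB hBrel Q (fun b : ZMod d => C (iota q b)) hCd hKd
    rw [← h5]
    congr 1
    apply Multiset.map_congr rfl
    intro b _
    rw [iota_natCast hqd]
  set A1 := A.filter fun a => ¬ q ∣ a with hA1
  set A2 := (A.filter fun a => q ∣ a).map fun a => a / q with hA2
  -- the part prime to `q` has zero sums
  have hzero : (∀ z, Nat.Coprime z d → SW d A1 z = 0) →
      (A.map fun a : ℕ => C (a : ZMod m)).sum = 0 := by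
    intro h0
    obtain ⟨w, hwp, hwo, hwd, hw⟩ := exists_w8 hq hqd hd hq17 hmax
    have hwc : Nat.Coprime w d := (Nat.Prime.coprime_iff_not_dvd hwp).mpr hwd
    obtain ⟨h1, h2⟩ := H.peelE hwo hwp.two_le hwc h0 (by
      rcases hw with hw | hw
      · exact Or.inl hw
      · right
        have h3 : Multiset.card A1 * (w / 2) ≤ 8 * (w / 2) :=
          Nat.mul_le_mul_right _ (by omega)
        omega)
    rw [split_sumE (q := q), h2 Q C hC, zero_add]
    exact hIH A2 (by omega) h1
  obtain ⟨h, hh, hdiv⟩ := H.div_general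
  have hh8 : 8 ≤ h := by rcases hh with ⟨h1, _⟩ | ⟨h1, _⟩ <;> omega
  have hadd := nz_add d A1
  have hnz8 : nz d A1 ≤ 8 := by omega
  have hdz : (0 : ℤ) < d := by exact_mod_cast Nat.pos_of_ne_zero hd
  have hsingle : (∃ c, ¬ d ∣ c ∧ ∀ z, Nat.Coprime z d → SW d A1 z = h * sv d (z * c)) ∨
      ∀ z, Nat.Coprime z d → |SW d A1 z| = h * d := by
    obtain ⟨w, hwp, hwo, hwd⟩ := exists_prime_not_dvd hd
    have hwc : Nat.Coprime w d := (Nat.Prime.coprime_iff_not_dvd hwp).mpr hwd
    refine H.single hwo hwp.two_le hwc (by omega) hdiv ?_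
    have h2 : nz d A1 * (w / 2) ≤ h * (w / 2) := Nat.mul_le_mul_right _ (by omega)
    have h3 : h * (w / 2 + 1) = h * (w / 2) + h := by ring
    omega
  rcases hsingle with ⟨c, hndc, hS⟩ | hbad
  swap
  · exfalso
    have h1 := hbad 1 (Nat.coprime_one_left d)
    have h2 := SW_lt hd A1 1
    rw [h1] at h2
    have h3 : (nz d A1 : ℤ) * ((d : ℤ) - 1) ≤ h * ((d : ℤ) - 1) :=
      mul_le_mul_of_nonneg_right (by exact_mod_cast (by omega : nz d A1 ≤ h)) (by omega)
    have h4 : (8 : ℤ) ≤ h := by exact_mod_cast hh8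
    linarith
  by_cases h2c : d ∣ 2 * c
  · apply hzero
    intro z hz
    rw [hS z hz, sv_two hd (by
      rw [show 2 * (z * c) = z * (2 * c) by ring]; exact h2c.mul_left z), mul_zero]
  obtain ⟨n, z0, hdn, hn, hgp, hz0, hzc⟩ := order_data2 hd h2c
  have hgc : Nat.gcd c d ∣ c := Nat.gcd_dvd_left c d
  have hcases : h ≤ nz d A1 ∨ n = 3 := by
    by_cases hn3 : n = 3
    · exact Or.inr hn3
    · exact Or.inl (order_four hd (Nat.dvd_of_mod_eq_zero H.heven) (by omega) hdn hS)
  have hpar := fun (z : ℕ) (hz : Nat.Coprime z m) => H.parity hz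
  have hnc : d ∣ n * c := by
    obtain ⟨k, hk⟩ := hgc
    refine ⟨k, ?_⟩
    calc n * c = n * (Nat.gcd c d * k) := by rw [← hk]
      _ = (n * Nat.gcd c d) * k := by ring
      _ = d * k := by rw [← hdn]
  rcases hcases with hle | hn3
  · -- the case of many entries: `q = 17`
    have h8 : h = 8 := by omega
    have hnz : nz d A1 = 8 := by omega
    rcases hh with ⟨h1, _⟩ | ⟨h1, hnd⟩
    · omega
    have hq' : q = 17 := by omega
    subst hq'
    have hA20 : A2 = 0 := Multiset.card_eq_zero.mp (by omega)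
    have hrel1 : ∀ t, Nat.Coprime t m → SW m A1 t = 0 := by
      intro t ht
      have h2 := H.hrel t ht
      rw [hA20, Pool.Agent.Y2.SW_zero, mul_zero, add_zero] at h2
      exact h2
    have hcA1 : Multiset.card A1 = 8 := by omega
    have h16 : d ∣ 16 * c := by
      have h2 := H.relE hnd h1 hS (Nat.coprime_one_left d)
      rw [hA20, Pool.Agent.Y2.SW_zero, mul_zero, add_zero, mul_one, one_mul] at h2
      have h3 := sv_inj (d := d) (x := c) (y := 17 * c) (by linarith) h2c
      have h4 := (Nat.modEq_iff_dvd' (Nat.le_mul_of_pos_left _ (by norm_num))).mp h3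
      have : 17 * c - c = 16 * c := by omega
      rwa [this] at h4
    have hn16 : n ∣ 16 := by
      obtain ⟨l, τ, hl, hτ, hτc, hcτ⟩ := order_gen hd hdn
      have h2 : d ∣ 16 * (l * τ) := (((hcτ.mul_left 16).dvd_iff dvd_rfl)).mp h16
      have hl0 : 0 < l := Nat.pos_of_ne_zero (by rintro rfl; rw [zero_mul] at hl; exact hd hl.symm)
      rw [← hl, show 16 * (l * τ) = l * (16 * τ) by ring] at h2
      have h3 := Nat.dvd_of_mul_dvd_mul_left hl0 h2
      exact (Nat.Coprime.dvd_of_dvd_mul_right hτc.symm h3)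
    have hn4 : n = 4 ∨ n = 8 ∨ n = 16 := by
      have h2 : n < 17 := Nat.lt_succ_of_le (Nat.le_of_dvd (by norm_num) hn16)
      have h3 : ∀ k < 17, k ∣ 16 → 3 ≤ k → k = 4 ∨ k = 8 ∨ k = 16 := by decide
      exact h3 n h2 hn16 hn
    rcases hn4 with rfl | rfl | rfl
    · -- order four
      obtain ⟨l, τ, hl, hτ, hτc, hcτ⟩ := order_gen hd hdn
      have hτ' : τ = 1 ∨ τ = 3 := by
        have h3 : ∀ k < 4, Nat.Coprime k 4 → k = 1 ∨ k = 3 := by decide
        exact h3 τ hτ hτc
      rw [h8] at hS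
      rw [split_sumE (q := 17)]
      exact out_evenE H hnd h68 hl hcτ hS (fun z _ => by rw [hA20, Pool.Agent.Y2.SW_zero])
        (exists_E68 τ hτ') Q C hC hK (by rw [hA20]; simp)
    · -- order eight
      exfalso
      rw [h8] at hS
      refine no_eight hm hqd hnd hdn H.hA hcA1 hrel1 ?_
      exact all_eq8 d hd c hdn A1 (fun z hz => by rw [hS z hz, hcA1])
    · -- order sixteen
      exfalso
      obtain ⟨z', hz', hzz⟩ := lift_coprime (d := d) (m := m) hdvd hm hz0
      have hz'd : Nat.Coprime z' d := Nat.Coprime.coprime_dvd_right hdvd hz'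
      obtain ⟨k, hk⟩ := hpar z' hz'
      have h2 : Multiset.card (A1.filter fun a => d ∣ a) = 0 := by omega
      rw [hrel1 z' hz', hS z' hz'd, h2, h8] at hk
      have h3 : sv d (z' * c) = sv d (Nat.gcd c d) := sv_per ((hzz.mul_right c).trans hzc)
      have h4 : ¬ d ∣ Nat.gcd c d := by
        intro h5
        have := Nat.le_of_dvd hgp h5
        omega
      have h5 : Nat.gcd c d % d = Nat.gcd c d := Nat.mod_eq_of_lt (by omega)
      rw [h3, sv_of h4, h5] at hk
      have h6 : (d : ℤ) = 16 * (Nat.gcd c d : ℤ) := by exact_mod_cast hdn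
      have h7 : (0 : ℤ) < (Nat.gcd c d : ℤ) := by exact_mod_cast hgp
      generalize (Nat.gcd c d : ℤ) = g at *
      rw [h6] at hk
      push_cast at hk
      have h9 : g * (112 - 32 * k) = 0 := by linear_combination hk
      rcases mul_eq_zero.mp h9 with h10 | h10 <;> omega
  -- order three
  subst hn3
  have h3d : 3 ∣ d := Dvd.intro _ hdn.symm
  have hthree := (three_bound d hd (Nat.dvd_of_mod_eq_zero H.heven) h3d
    (A1.filter fun a => ¬ d ∣ a) h c hnc hndc (by
      intro z hz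
      rw [← SW_filter hd]; exact hS z hz)).1
  have hnz' : Multiset.card (A1.filter fun a => ¬ d ∣ a) = nz d A1 := rfl
  rw [hnz'] at hthree
  rcases hh with ⟨h1, _⟩ | ⟨h1, hnd⟩
  · omega
  -- the parity at one unit
  have hsv3 := sv_three hd hnc hndc
  have hpar1 := hpar 1 (Nat.coprime_one_left m)
  rw [hS 1 (Nat.coprime_one_left d), one_mul] at hpar1
  have hrel1 := H.hrel 1 (Nat.coprime_one_left m)
  have hadd3 : ∀ k, q + 1 = 3 * k → ∀ z, Nat.Coprime z d → SW d A2 z = - sv d (z * c) := by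
    intro k hk
    apply S2_add H hnd h1 hS
    rw [hk, show 3 * k * c = k * (3 * c) by ring]
    exact hnc.mul_left k
  have hsub3 : ∀ k, q - 1 = 3 * k → ∀ z, Nat.Coprime z d → SW d A2 z = 0 := by
    intro k hk
    apply S2_sub H hnd h1 hS
    rw [hk, show 3 * k * c = k * (3 * c) by ring]
    exact hnc.mul_left k
  have hq33 : q ≤ 33 := by omega
  have hqs : q = 17 ∨ q = 19 ∨ q = 23 ∨ q = 29 ∨ q = 31 := by
    clear hpar hpar1 hrel1 hadd3 hsub3 hzero hIH hCd hKd ih hmax
    interval_cases q <;> first | omega | (exfalso; revert hq; norm_num; done)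
  rcases hqs with rfl | rfl | rfl | rfl | rfl
  · have h8 : h = 8 := by omega
    rw [h8] at hS
    rw [split_sumE (q := 17)]
    exact out_oddE H hnd h51 hndc hnc hS (hadd3 6 (by norm_num)) exists_E17 Q C hC hK
      (fun B hB => hIH B (by omega))
  · have h9 : h = 9 := by omega
    rw [h9] at hS
    obtain ⟨l, τ, hl, hτ, hcτ⟩ := order_three hd hnc hndc
    have hS2 := hsub3 6 (by norm_num)
    rw [split_sumE (q := 19)]
    exact out_evenE (n := 3) H hnd h57 (by rw [hl]; ring) hcτ hS hS2 (by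
      obtain ⟨E, hE1, hE2, hE3⟩ := Pool.Agent.U270.FT14.exists_E19 τ hτ
      exact ⟨E, hE1, fun t ht => by rw [hE2 t ht]; simp, hE3⟩) Q C hC hK
      (hIH A2 (by omega) hS2)
  · have h11 : h = 11 := by omega
    rw [h11] at hS
    rw [split_sumE (q := 23)]
    exact out_oddE H hnd h69 hndc hnc hS (hadd3 8 (by norm_num)) exists_E23 Q C hC hK
      (fun B hB => hIH B (by omega))
  · exfalso
    have h14 : h = 14 := by omega
    have hS2 := hadd3 10 (by norm_num)
    have hA2ne : Multiset.card A2 ≠ 0 := by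
      intro h0
      have h2 : A2 = 0 := Multiset.card_eq_zero.mp h0
      have h3 := hS2 1 (Nat.coprime_one_left d)
      rw [h2, Pool.Agent.Y2.SW_zero, one_mul] at h3
      rcases hsv3 with h4 | h4 <;> omega
    rw [hS2 1 (Nat.coprime_one_left d), one_mul] at hrel1
    have h3 : (Multiset.card (A1.filter fun a => d ∣ a)) % 2 = 1 := by
      obtain ⟨k, hk⟩ := hpar1
      have h4 : SW m A1 1 = 29 * sv d c := by push_cast at hrel1; linarith
      rw [h4, h14] at hk
      push_cast at hk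
      generalize (Multiset.card (A1.filter fun a => d ∣ a)) = δ at *
      rcases hsv3 with h5 | h5
      · have h6 : (d : ℤ) * (5 - δ) = d * (2 * k) := by linear_combination hk - 5 * h5
        have h7 := mul_left_cancel₀ hdz.ne' h6
        omega
      · have h6 : (d : ℤ) * (-5 - δ) = d * (2 * k) := by linear_combination hk - 5 * h5
        have h7 := mul_left_cancel₀ hdz.ne' h6
        omega
    omega
  · exfalso
    have h15 : h = 15 := by omega
    have hS2 := hsub3 10 (by norm_num)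
    rw [hS2 1 (Nat.coprime_one_left d)] at hrel1
    have h3 : (Multiset.card (A1.filter fun a => d ∣ a)) % 2 = 1 := by
      obtain ⟨k, hk⟩ := hpar1
      have h4 : SW m A1 1 = 0 := by push_cast at hrel1; linarith
      rw [h4, h15] at hk
      push_cast at hk
      generalize (Multiset.card (A1.filter fun a => d ∣ a)) = δ at *
      rcases hsv3 with h5 | h5
      · have h6 : (d : ℤ) * (-5 - δ) = d * (2 * k) := by linear_combination hk + 5 * h5
        have h7 := mul_left_cancel₀ hdz.ne' h6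
        omega
      · have h6 : (d : ℤ) * (5 - δ) = d * (2 * k) := by linear_combination hk + 5 * h5
        have h7 := mul_left_cancel₀ hdz.ne' h6
        omega
    omega

end Pool.Agent.U270.FT14
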