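import Pool.Agent.U723.FJHodge
import Pool.Agent.N214.HB.Gauss
import Pool.Agent.U270.FT14.Final14

/-!
# Products of Jacobi sums which are powers of `q` up to roots of unity, characteristic `1` mod `m`

The abelian varieties of Fermat type: for every family of triples (characters of Fermat curves) such
that a power of the product of the Jacobi sums is a power of `q`, the union of the triples is a Hodge
character (`isHodge_of_jacobi`; the comparison of Jacobi sums with Gauss sums is the one of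
`Pool.Agent.N993.CP.Jac` of the starting library), and it is generated for most degrees, and for all
odd degrees if there are at most four triples (`generated_of_jacobi`).
-/

set_option autoImplicit false

namespace Pool.Agent.U270.FT14

open Finset Pool.Agent.H916R2 Pool.Agent.N992 Pool.Agent.N993 Pool.Agent.U723.FJ

lemma gauss_sq14 {k : Type} [Field k] [Fintype k] {m : ℕ} [NeZero m] {θ : MulChar k ℂ}
    (hθ : orderOf θ = m) {ψ : AddChar k ℂ} (hψ : ψ.IsPrimitive)
    {x : ZMod m × ZMod m × ZMod m} (hx : CurveLine m x) :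
    (gaussSum (θ ^ x.1.val) ψ * gaussSum (θ ^ x.2.1.val) ψ * gaussSum (θ ^ x.2.2.val) ψ) ^ 2 =
      ((Fintype.card k : ℂ) * jacobiSum (θ ^ x.1.val) (θ ^ x.2.1.val)) ^ 2 := by
  obtain ⟨h1, h2, h3, h4⟩ := hx
  set χ : MulChar k ℂ := θ ^ x.1.val * θ ^ x.2.1.val with hχ
  have hprod : χ * θ ^ x.2.2.val = 1 := by
    rw [hχ, ← pow_add, ← pow_add]
    apply orderOf_dvd_iff_pow_eq_one.mp
    rw [hθ, ← ZMod.natCast_eq_zero_iff]
    push_cast
    simp only [ZMod.natCast_zmod_val]
    exact h4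
  have hinv : θ ^ x.2.2.val = χ⁻¹ := by
    rw [eq_comm, inv_eq_iff_mul_eq_one]
    exact hprod
  have hne : χ ≠ 1 := by
    intro h
    rw [h, one_mul] at hprod
    have h5 := orderOf_dvd_of_pow_eq_one hprod
    rw [hθ] at h5
    have h6 := Nat.eq_zero_of_dvd_of_lt h5 (ZMod.val_lt _)
    exact h3 ((ZMod.val_eq_zero _).1 h6)
  have e1 : gaussSum χ ψ * jacobiSum (θ ^ x.1.val) (θ ^ x.2.1.val) =
      gaussSum (θ ^ x.1.val) ψ * gaussSum (θ ^ x.2.1.val) ψ := jacobiSum_mul_nontrivial hne ψ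
  have e2 : gaussSum χ ψ * gaussSum χ⁻¹ ψ⁻¹ = (Fintype.card k : ℂ) :=
    gaussSum_mul_gaussSum_eq_card hne hψ
  have e3 : χ⁻¹ (-1) * gaussSum χ⁻¹ ψ⁻¹ = gaussSum χ⁻¹ ψ := mul_gaussSum_inv_eq_gaussSum _ _
  have e4 : (χ⁻¹ (-1)) ^ 2 = 1 := by
    rw [← map_pow, neg_one_sq, map_one]
  rw [← e1, hinv, ← e3]
  calc (gaussSum χ ψ * jacobiSum (θ ^ x.1.val) (θ ^ x.2.1.val) *
        (χ⁻¹ (-1) * gaussSum χ⁻¹ ψ⁻¹)) ^ 2
      = (χ⁻¹ (-1)) ^ 2 * ((gaussSum χ ψ * gaussSum χ⁻¹ ψ⁻¹) *
          jacobiSum (θ ^ x.1.val) (θ ^ x.2.1.val)) ^ 2 := by ring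
    _ = _ := by rw [e4, e2, one_mul]

lemma gauss_prod14 {k : Type} [Field k] [Fintype k] {m : ℕ} [NeZero m] {θ : MulChar k ℂ}
    (hθ : orderOf θ = m) {ψ : AddChar k ℂ} (hψ : ψ.IsPrimitive)
    (L : Multiset (ZMod m × ZMod m × ZMod m)) (hL : ∀ x ∈ L, CurveLine m x) :
    (((L.bind fun x => {x.1, x.2.1, x.2.2}).map fun a => gaussSum (θ ^ a.val) ψ).prod) ^ 2 =
      ((Fintype.card k : ℂ) ^ Multiset.card L *
        (L.map fun x => jacobiSum (θ ^ x.1.val) (θ ^ x.2.1.val)).prod) ^ 2 := by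
  induction L using Multiset.induction_on with
  | empty => simp
  | cons x L ih =>
    have h1 := ih fun y hy => hL y (Multiset.mem_cons_of_mem hy)
    have h2 := gauss_sq14 hθ hψ (hL x (Multiset.mem_cons_self _ _))
    rw [Multiset.cons_bind, Multiset.map_add, Multiset.prod_add, mul_pow, h1]
    have h3 : ((({x.1, x.2.1, x.2.2} : Multiset (ZMod m)).map
        fun a => gaussSum (θ ^ a.val) ψ).prod) ^ 2 =
        ((Fintype.card k : ℂ) * jacobiSum (θ ^ x.1.val) (θ ^ x.2.1.val)) ^ 2 := by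
      rw [← h2]
      simp only [Multiset.insert_eq_cons, Multiset.map_cons, Multiset.map_singleton,
        Multiset.prod_cons, Multiset.prod_singleton]
      ring
    rw [h3, Multiset.map_cons, Multiset.prod_cons, Multiset.card_cons]
    ring

/-- A family of triples such that a power of the product of the Jacobi sums over a finite field with
`q` elements is a power of `q ^ i` has, in characteristic `1` modulo `m`, a Hodge character as union. -/
theorem isHodge_of_jacobi {k : Type} [Field k] [Fintype k] {p m : ℕ} [hp : Fact p.Prime] [CharP k p]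
    [NeZero m] (hmp : m ∣ p - 1) (θ : MulChar k ℂ) (hθ : orderOf θ = m)
    (L : Multiset (ZMod m × ZMod m × ZMod m)) (hL : ∀ x ∈ L, CurveLine m x) (i : ℕ)
    (hcard : Multiset.card L = 2 * i) (e : ℕ) (he : 0 < e)
    (h : ((L.map fun x => jacobiSum (θ ^ x.1.val) (θ ^ x.2.1.val)).prod) ^ e =
      ((Fintype.card k : ℂ) ^ i) ^ e) :
    IsHodge m (L.bind fun x => {x.1, x.2.1, x.2.2}) := by
  have hmk : m ∣ Fintype.card k - 1 := by
    obtain ⟨F, hpr, hq⟩ := FiniteField.card k p
    rw [hq]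
    exact hmp.trans (Nat.sub_one_dvd_pow_sub_one p F)
  obtain ⟨ψ, hψ⟩ : ∃ ψ : AddChar k ℂ, ψ.IsPrimitive :=
    ⟨_, AddChar.FiniteField.primitiveChar_to_Complex_isPrimitive k⟩
  have hψ1 : ψ ≠ 1 := by
    intro h1
    apply hψ one_ne_zero
    rw [h1]
    ext x
    simp
  have hcard3 : Multiset.card (L.bind fun x => ({x.1, x.2.1, x.2.2} : Multiset (ZMod m))) =
      2 * (3 * i) := by
    rw [card_bind3, hcard]
    ring
  have h0 : (0 : ZMod m) ∉ (L.bind fun x => ({x.1, x.2.1, x.2.2} : Multiset (ZMod m))) := by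
    rw [Multiset.mem_bind]
    rintro ⟨x, hx, h0⟩
    obtain ⟨h1, h2, h3, _⟩ := hL x hx
    simp only [Multiset.insert_eq_cons, Multiset.mem_cons, Multiset.mem_singleton] at h0
    rcases h0 with h0 | h0 | h0
    · exact h1 h0.symm
    · exact h2 h0.symm
    · exact h3 h0.symm
  have hsum : (L.bind fun x => ({x.1, x.2.1, x.2.2} : Multiset (ZMod m))).sum = 0 := by
    rw [Multiset.sum_bind]
    apply Multiset.sum_eq_zero
    intro y hy
    obtain ⟨x, hx, rfl⟩ := Multiset.mem_map.mp hy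
    have := (hL x hx).2.2.2
    simp only [Multiset.insert_eq_cons, Multiset.sum_cons, Multiset.sum_singleton]
    rw [← this]; ring
  have hT : Pool.Agent.H916T.IsTate p m (L.bind fun x => {x.1, x.2.1, x.2.2}) := by
    refine Pool.Agent.N214.HB.isTate_of_gauss (k := k) hmk θ hθ ψ hψ1 _ h0 hsum (3 * i) hcard3
      (2 * e) (by omega) ?_
    rw [pow_mul, gauss_prod14 hθ hψ L hL, ← pow_mul, mul_comm 2 e, pow_mul, mul_pow _ _ e, h, hcard]
    ring
  have hp1 : ((p : ℕ) : ZMod m) = 1 := by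
    have h3 : ((p - 1 : ℕ) : ZMod m) = 0 := (ZMod.natCast_eq_zero_iff _ _).mpr hmp
    have h4 : p = (p - 1) + 1 := (Nat.succ_pred_prime hp.out).symm
    rw [h4, Nat.cast_add, h3, zero_add, Nat.cast_one]
  refine ⟨h0, hT.2.1, hsum, ?_⟩
  intro t
  have h5 := hT.2.2.2 t
  rw [hp1, orderOf_one, Finset.sum_range_one, one_mul] at h5
  simpa using h5

/-- For every degree `m` there is one positive `l` such that the Tate classes on the abelian varieties of
Fermat type of degree `m` in characteristic `1` modulo `m` are generated in degree `l m`: all of them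
for most degrees, those of codimension at most two for every odd degree. -/
theorem generated_of_jacobi (m : ℕ) [NeZero m] :
    ∃ l : ℕ, ∃ _ : NeZero (l * m), ((∀ p : ℕ, p.Prime → p ∣ m → p % 4 ≠ 1) → l = 1) ∧
      ∀ (k : Type) [Field k] [Fintype k] (p : ℕ) [Fact p.Prime] [CharP k p], m ∣ p - 1 →
      ∀ (θ : MulChar k ℂ), orderOf θ = m →
      ∀ L : Multiset (ZMod m × ZMod m × ZMod m), (∀ x ∈ L, CurveLine m x) →
      ∀ i : ℕ, 0 < i → Multiset.card L = 2 * i →
      (MutualSquares m ∨ ThreePrimes m ∨ (m ≤ 147 ∧ m ≠ 87 ∧ m ≠ 116 ∧ m ≠ 123) ∨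
        (Odd m ∧ i ≤ 2)) →
      ∀ e : ℕ, 0 < e →
      ((L.map fun x => jacobiSum (θ ^ x.1.val) (θ ^ x.2.1.val)).prod) ^ e =
        ((Fintype.card k : ℂ) ^ i) ^ e →
      Generated (l * m) (FourBase (l * m))
        ((L.bind fun x => {x.1, x.2.1, x.2.2}).map
          fun a => ((l * a.val : ℕ) : ZMod (l * m))) := by
  have hne : ∀ L : Multiset (ZMod m × ZMod m × ZMod m), ∀ i : ℕ, 0 < i →
      Multiset.card L = 2 * i →
      (L.bind fun x => ({x.1, x.2.1, x.2.2} : Multiset (ZMod m))) ≠ 0 := by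
    intro L i hi hL h
    have h3 := congrArg Multiset.card h
    rw [card_bind3, Multiset.card_zero] at h3
    omega
  by_cases hm : MutualSquares m ∨ ThreePrimes m ∨ m ≤ 86
  · obtain ⟨l, hl, h1, h2⟩ := mainT m hm
    exact ⟨l, hl, h1, fun k _ _ p _ _ hmp θ hθ L hC i hi hL _ e he h =>
      h2 _ (isHodge_of_jacobi hmp θ hθ L hC i hL e he h) (hne L i hi hL)⟩
  · have h147 : ¬ (m ≤ 147 ∧ m ≠ 87 ∧ m ≠ 116 ∧ m ≠ 123) := fun h =>
      hm (Or.inr (Or.inl (threePrimes_147 (NeZero.ne m) h.1 h.2.1 h.2.2.1 h.2.2.2)))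
    have hsq : ¬ ∀ p : ℕ, p.Prime → p ∣ m → p % 4 ≠ 1 := fun h =>
      hm (Or.inl fun p hp hpm hp4 => absurd hp4 (h p hp hpm))
    by_cases hodd : Odd m
    · obtain ⟨l, hl, h2⟩ := Pool.Agent.U270.FT14.main_fourteen (Nat.odd_iff.mp hodd)
      refine ⟨l, hl, fun h => absurd h hsq, fun k _ _ p _ _ hmp θ hθ L hC i hi hL hcase e he h => ?_⟩
      have h4 : i ≤ 2 := by
        rcases hcase with h | h | h | h
        · exact absurd (Or.inl h) hm
        · exact absurd (Or.inr (Or.inl h)) hm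
        · exact absurd h h147
        · exact h.2
      refine h2 _ (isHodge_of_jacobi hmp θ hθ L hC i hL e he h) ?_ (hne L i hi hL)
      rw [card_bind3]
      omega
    · refine ⟨1, ⟨by rw [one_mul]; exact NeZero.ne m⟩, fun h => absurd h hsq, ?_⟩
      intro k _ _ p _ _ hmp θ hθ L hC i hi hL hcase e he h
      exfalso
      rcases hcase with h | h | h | h
      · exact hm (Or.inl h)
      · exact hm (Or.inr (Or.inl h))
      · exact h147 h
      · exact hodd h.1

end Pool.Agent.U270.FT14
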