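import Mathlib

/-!
# Point masses on the residues modulo `m`

A residue `x` modulo `m` is written as `g ξ`, `g = gcd (x, m)`. The functions `dl m p u` are the
indicators of the set of the `x` whose `p`-part is not zero with `ξ` congruent to `u` at `p`.
-/

set_option autoImplicit false

namespace Pool.Agent.U270.FT14

open Finset

/-- the exact power of `p` in `m` -/
def pp (m p : ℕ) : ℕ := p ^ (m.factorization p)

/-- the indicator -/
def dl (m p : ℕ) (u : ℤ) (x : ℕ) : ZMod 2 :=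
  if ¬ pp m p ∣ x ∧ ((pp m p : ℕ) : ℤ) ∣ (x : ℤ) - (Nat.gcd x m : ℤ) * u then 1 else 0

/-- the indicator of the residues with zero `r`-part -/
def zr (m r : ℕ) (x : ℕ) : ZMod 2 := if pp m r ∣ x then 1 else 0

lemma pp_dvd (m p : ℕ) : pp m p ∣ m := Nat.ordProj_dvd m p

lemma dvd_congr {P x y : ℕ} (h : x ≡ y [MOD P]) : P ∣ x ↔ P ∣ y := h.dvd_iff dvd_rfl

lemma int_dvd_congr {P x y : ℕ} (h : x ≡ y [MOD P]) (c : ℤ) :
    ((P : ℕ) : ℤ) ∣ (x : ℤ) - c ↔ ((P : ℕ) : ℤ) ∣ (y : ℤ) - c := by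
  have h1 : ((P : ℕ) : ℤ) ∣ (y : ℤ) - x := Nat.modEq_iff_dvd.mp h
  constructor
  · intro h2
    have h3 := dvd_add h1 h2
    have e : (y : ℤ) - x + (x - c) = y - c := by ring
    rwa [e] at h3
  · intro h2
    have h3 := dvd_sub h2 h1
    have e : (y : ℤ) - c - (y - x) = x - c := by ring
    rwa [e] at h3

lemma dl_per {m p : ℕ} {u : ℤ} {x y : ℕ} (h : x ≡ y [MOD m]) : dl m p u x = dl m p u y := by
  have h1 : Nat.gcd x m = Nat.gcd y m := h.gcd_eq
  have h2 := h.of_dvd (pp_dvd m p)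
  unfold dl
  rw [h1]
  exact if_congr (and_congr (not_congr (dvd_congr h2)) (int_dvd_congr h2 _)) rfl rfl

lemma zr_per {m r : ℕ} {x y : ℕ} (h : x ≡ y [MOD m]) : zr m r x = zr m r y := by
  unfold zr
  exact if_congr (dvd_congr (h.of_dvd (pp_dvd m r))) rfl rfl

lemma dl_neg {m p : ℕ} {u : ℤ} {x y : ℕ} (h : m ∣ x + y) : dl m p u y = dl m p (-u) x := by
  have h1 : Nat.gcd y m = Nat.gcd x m := by
    apply Nat.dvd_antisymm
    · apply Nat.dvd_gcd _ (Nat.gcd_dvd_right _ _)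
      have h2 : Nat.gcd y m ∣ x + y := (Nat.gcd_dvd_right y m).trans h
      exact (Nat.dvd_add_left (Nat.gcd_dvd_left y m)).mp h2
    · apply Nat.dvd_gcd _ (Nat.gcd_dvd_right _ _)
      have h2 : Nat.gcd x m ∣ x + y := (Nat.gcd_dvd_right x m).trans h
      exact (Nat.dvd_add_right (Nat.gcd_dvd_left x m)).mp h2
  have hP := (pp_dvd m p).trans h
  have h2 : pp m p ∣ y ↔ pp m p ∣ x := by
    constructor
    · intro h3; exact (Nat.dvd_add_left h3).mp hP
    · intro h3; exact (Nat.dvd_add_right h3).mp hP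
  have hPz : ((pp m p : ℕ) : ℤ) ∣ (x : ℤ) + y := by exact_mod_cast hP
  have h3 : ((pp m p : ℕ) : ℤ) ∣ (y : ℤ) - (Nat.gcd x m : ℤ) * u ↔
      ((pp m p : ℕ) : ℤ) ∣ (x : ℤ) - (Nat.gcd x m : ℤ) * (-u) := by
    constructor
    · intro h4
      have h5 := dvd_sub hPz h4
      have e : (x : ℤ) + y - (y - (Nat.gcd x m : ℤ) * u) = x - (Nat.gcd x m : ℤ) * (-u) := by ring
      rwa [e] at h5
    · intro h4
      have h5 := dvd_sub hPz h4
      have e : (x : ℤ) + y - (x - (Nat.gcd x m : ℤ) * (-u)) = y - (Nat.gcd x m : ℤ) * u := by ring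
      rwa [e] at h5
  unfold dl
  rw [h1]
  exact if_congr (and_congr (not_congr h2) h3) rfl rfl

lemma zr_neg {m r : ℕ} {x y : ℕ} (h : m ∣ x + y) : zr m r y = zr m r x := by
  have hP := (pp_dvd m r).trans h
  have h2 : pp m r ∣ y ↔ pp m r ∣ x := by
    constructor
    · intro h3; exact (Nat.dvd_add_left h3).mp hP
    · intro h3; exact (Nat.dvd_add_right h3).mp hP
  unfold zr
  exact if_congr h2 rfl rfl

section rel

variable {m q d : ℕ}

/-- the parts of the level -/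
lemma parts (hq : q.Prime) (hqd : q * d = m) (hm : m ≠ 0) :
    ∃ Q' d' : ℕ, pp m q = q * Q' ∧ d = Q' * d' ∧ ¬ q ∣ d' ∧ Nat.Coprime (pp m q) d' ∧
      (∃ a, Q' = q ^ a) := by
  have h1 : 0 < m.factorization q := hq.factorization_pos_of_dvd hm (Dvd.intro _ hqd)
  obtain ⟨a, ha⟩ : ∃ a, m.factorization q = a + 1 := ⟨m.factorization q - 1, by omega⟩
  have h2 : pp m q = q * q ^ a := by unfold pp; rw [ha, pow_succ]; ring
  obtain ⟨d', hd'⟩ := pp_dvd m q
  have hd0 : d' ≠ 0 := by rintro rfl; rw [mul_zero] at hd'; exact hm hd'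
  have h3 : d = q ^ a * d' := by
    have h4 : q * d = q * (q ^ a * d') := by rw [hqd]; conv_lhs => rw [hd', h2]
                                             ring
    exact Nat.eq_of_mul_eq_mul_left hq.pos h4
  have h4 : ¬ q ∣ d' := by
    rintro ⟨w, hw⟩
    have h5 : q ^ (a + 2) ∣ m := by
      rw [hd', h2, hw]
      exact ⟨w, by ring⟩
    have h6 := (hq.pow_dvd_iff_le_factorization hm).mp h5
    omega
  refine ⟨q ^ a, d', h2, h3, h4, ?_, a, rfl⟩
  unfold pp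
  exact Nat.Coprime.pow_left _ ((Nat.Prime.coprime_iff_not_dvd hq).mpr h4)

lemma gcd_a (hq : q.Prime) (hqd : q * d = m) (hm : m ≠ 0) {x : ℕ} (hx : ¬ pp m q ∣ x) :
    Nat.gcd x m = Nat.gcd x d := by
  obtain ⟨Q', d', h1, h2, h3, h4, a, ha⟩ := parts hq hqd hm
  have hm' : m = pp m q * d' := by
    rw [h1]
    calc m = q * d := hqd.symm
      _ = q * Q' * d' := by rw [h2]; ring
  have hc' : Nat.Coprime Q' d' := Nat.Coprime.coprime_dvd_left ⟨q, by rw [h1]; ring⟩ h4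
  have e1 : Nat.gcd x m = Nat.gcd x (pp m q) * Nat.gcd x d' := by
    conv_lhs => rw [hm']
    exact Nat.Coprime.gcd_mul x h4
  have e2 : Nat.gcd x d = Nat.gcd x Q' * Nat.gcd x d' := by
    rw [h2]; exact Nat.Coprime.gcd_mul x hc'
  rw [e1, e2]
  congr 1
  apply Nat.dvd_antisymm
  · apply Nat.dvd_gcd (Nat.gcd_dvd_left _ _)
    have h5 : Nat.gcd x (pp m q) ∣ q ^ (a + 1) := by
      have : pp m q = q ^ (a + 1) := by rw [h1, ha, pow_succ]; ring
      rw [← this]; exact Nat.gcd_dvd_right _ _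
    obtain ⟨b, hb, hb'⟩ := (Nat.dvd_prime_pow hq).mp h5
    rw [hb', ha]
    apply pow_dvd_pow
    by_contra hcon
    have hb2 : b = a + 1 := by omega
    apply hx
    have : pp m q = q ^ (a + 1) := by rw [h1, ha, pow_succ]; ring
    rw [this, ← hb2, ← hb']
    exact Nat.gcd_dvd_left _ _
  · exact Nat.gcd_dvd_gcd_of_dvd_right x ⟨q, by rw [h1]; ring⟩

lemma gcd_b (hq : q.Prime) (hqd : q * d = m) (hm : m ≠ 0) {x : ℕ} (hx : pp m q ∣ x) :
    Nat.gcd x m = q * Nat.gcd x d := by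
  obtain ⟨Q', d', h1, h2, h3, h4, a, ha⟩ := parts hq hqd hm
  have hm' : m = pp m q * d' := by
    rw [h1]
    calc m = q * d := hqd.symm
      _ = q * Q' * d' := by rw [h2]; ring
  have hc' : Nat.Coprime Q' d' := Nat.Coprime.coprime_dvd_left ⟨q, by rw [h1]; ring⟩ h4
  have e1 : Nat.gcd x m = Nat.gcd x (pp m q) * Nat.gcd x d' := by
    conv_lhs => rw [hm']
    exact Nat.Coprime.gcd_mul x h4
  have e2 : Nat.gcd x d = Nat.gcd x Q' * Nat.gcd x d' := by
    rw [h2]; exact Nat.Coprime.gcd_mul x hc'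
  have hQ' : Q' ∣ x := Dvd.dvd.trans ⟨q, by rw [h1]; ring⟩ hx
  rw [e1, e2, Nat.gcd_eq_right hx, Nat.gcd_eq_right hQ', h1]
  ring

lemma pp_dvd_d (hq : q.Prime) (hqd : q * d = m) (_hm : m ≠ 0) {p : ℕ} (hp : p.Prime) (hpq : p ≠ q) :
    pp m p ∣ d := by
  have h1 : pp m p ∣ q * d := by rw [hqd]; exact pp_dvd m p
  apply Nat.Coprime.dvd_of_dvd_mul_left _ h1
  exact Nat.Coprime.pow_left _ ((Nat.coprime_primes hp hq).mpr hpq)

lemma pp_coprime (hq : q.Prime) {p : ℕ} (hp : p.Prime) (hpq : p ≠ q) : Nat.Coprime (pp m p) q :=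
  Nat.Coprime.pow_left _ ((Nat.coprime_primes hp hq).mpr hpq)

lemma int_dvd_mul {P : ℕ} (h : Nat.Coprime P q) (z : ℤ) :
    ((P : ℕ) : ℤ) ∣ (q : ℤ) * z ↔ ((P : ℕ) : ℤ) ∣ z :=
  ⟨fun h1 => (Nat.isCoprime_iff_coprime.mpr h).dvd_of_dvd_mul_left h1, fun h1 => h1.mul_left _⟩

/-- constant at `q` -/
def Cst (m q d : ℕ) (F : ℕ → ZMod 2) : Prop :=
  ∀ A x : ℕ, x ≡ A [MOD d] → ¬ pp m q ∣ x → F x = F (q * A)

/-- linear at `q` -/
def Lin (m q d : ℕ) (F : ℕ → ZMod 2) : Prop :=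
  (∀ x, pp m q ∣ x → F x = 0) ∧ ∀ A : ℕ, ∑ i ∈ range q, F (A + i * d) = F (q * A)

lemma Cst.add {F G : ℕ → ZMod 2} (hF : Cst m q d F) (hG : Cst m q d G) :
    Cst m q d (fun x => F x + G x) := fun A x h1 h2 => by
  beta_reduce; rw [hF A x h1 h2, hG A x h1 h2]

lemma Cst.mul {F G : ℕ → ZMod 2} (hF : Cst m q d F) (hG : Cst m q d G) :
    Cst m q d (fun x => F x * G x) := fun A x h1 h2 => by
  beta_reduce; rw [hF A x h1 h2, hG A x h1 h2]

lemma Lin.add {F G : ℕ → ZMod 2} (hF : Lin m q d F) (hG : Lin m q d G) :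
    Lin m q d (fun x => F x + G x) := by
  refine ⟨fun x h => ?_, fun A => ?_⟩
  · beta_reduce; rw [hF.1 x h, hG.1 x h, add_zero]
  · rw [sum_add_distrib, hF.2, hG.2]

lemma shift_mod (A i : ℕ) : A + i * d ≡ A [MOD d] := by
  have : A + i * d ≡ A + 0 [MOD d] :=
    Nat.ModEq.add_left A ((Nat.modEq_zero_iff_dvd).mpr (Dvd.intro_left _ rfl))
  exact this

lemma sum_cst {F G : ℕ → ZMod 2} (hF : Cst m q d F) (hG : ∀ x, pp m q ∣ x → G x = 0) (A : ℕ) :
    ∑ i ∈ range q, F (A + i * d) * G (A + i * d) =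
      F (q * A) * ∑ i ∈ range q, G (A + i * d) := by
  rw [mul_sum]
  refine sum_congr rfl fun i _ => ?_
  by_cases h : pp m q ∣ A + i * d
  · rw [hG _ h, mul_zero, mul_zero]
  · rw [hF A _ (shift_mod A i) h]

lemma Cst.mul_lin {F G : ℕ → ZMod 2} (hF : Cst m q d F) (hG : Lin m q d G) :
    Lin m q d (fun x => F x * G x) := by
  refine ⟨fun x h => ?_, fun A => ?_⟩
  · beta_reduce; rw [hG.1 x h, mul_zero]
  · rw [sum_cst hF hG.1, hG.2]

lemma dl_cst (hq : q.Prime) (hqd : q * d = m) (hm : m ≠ 0) {p : ℕ} (hp : p.Prime) (hpq : p ≠ q)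
    (u : ℤ) : Cst m q d (dl m p u) := by
  intro A x hx hQ
  have hPd := pp_dvd_d hq hqd hm hp hpq
  have hPq := pp_coprime (m := m) hq hp hpq
  have e1 : Nat.gcd x m = Nat.gcd A d := by rw [gcd_a hq hqd hm hQ]; exact hx.gcd_eq
  have e2 : Nat.gcd (q * A) m = q * Nat.gcd A d := by rw [← hqd, Nat.gcd_mul_left]
  have h1 : pp m p ∣ x ↔ pp m p ∣ q * A := by
    rw [dvd_congr (hx.of_dvd hPd)]
    exact ⟨fun h => h.mul_left q, fun h => hPq.dvd_of_dvd_mul_left h⟩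
  have h2 : ((pp m p : ℕ) : ℤ) ∣ (x : ℤ) - (Nat.gcd A d : ℤ) * u ↔
      ((pp m p : ℕ) : ℤ) ∣ ((q * A : ℕ) : ℤ) - ((q * Nat.gcd A d : ℕ) : ℤ) * u := by
    rw [int_dvd_congr (hx.of_dvd hPd), ← int_dvd_mul hPq]
    have e : (q : ℤ) * ((A : ℤ) - (Nat.gcd A d : ℤ) * u) =
        ((q * A : ℕ) : ℤ) - ((q * Nat.gcd A d : ℕ) : ℤ) * u := by push_cast; ring
    rw [e]
  unfold dl
  rw [e1, e2]
  exact if_congr (and_congr (not_congr h1) h2) rfl rfl

/-- at the zero of the `q`-part -/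
lemma dl_zero_part (hq : q.Prime) (hqd : q * d = m) (hm : m ≠ 0) {p : ℕ} (hp : p.Prime)
    (hpq : p ≠ q) (u : ℤ) {A x : ℕ} (hx : x ≡ A [MOD d]) (hQ : pp m q ∣ x) :
    dl m p u x = dl m p (q * u) (q * A) := by
  have hPd := pp_dvd_d hq hqd hm hp hpq
  have hPq := pp_coprime (m := m) hq hp hpq
  have e1 : Nat.gcd x m = q * Nat.gcd A d := by
    rw [gcd_b hq hqd hm hQ]; congr 1; exact hx.gcd_eq
  have e2 : Nat.gcd (q * A) m = q * Nat.gcd A d := by rw [← hqd, Nat.gcd_mul_left]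
  have h1 : pp m p ∣ x ↔ pp m p ∣ q * A := by
    rw [dvd_congr (hx.of_dvd hPd)]
    exact ⟨fun h => h.mul_left q, fun h => hPq.dvd_of_dvd_mul_left h⟩
  have h2 : ((pp m p : ℕ) : ℤ) ∣ (x : ℤ) - ((q * Nat.gcd A d : ℕ) : ℤ) * u ↔
      ((pp m p : ℕ) : ℤ) ∣ ((q * A : ℕ) : ℤ) - ((q * Nat.gcd A d : ℕ) : ℤ) * (q * u) := by
    rw [int_dvd_congr (hx.of_dvd hPd), ← int_dvd_mul hPq]
    have e : (q : ℤ) * ((A : ℤ) - ((q * Nat.gcd A d : ℕ) : ℤ) * u) =
        ((q * A : ℕ) : ℤ) - ((q * Nat.gcd A d : ℕ) : ℤ) * (q * u) := by push_cast; ring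
    rw [e]
  unfold dl
  rw [e1, e2]
  exact if_congr (and_congr (not_congr h1) h2) rfl rfl

lemma zr_cst (hq : q.Prime) (hqd : q * d = m) (hm : m ≠ 0) {r : ℕ} (hr : r.Prime) (hrq : r ≠ q) :
    Cst m q d (zr m r) := by
  intro A x hx _
  have hPd := pp_dvd_d hq hqd hm hr hrq
  have hPq := pp_coprime (m := m) hq hr hrq
  have h1 : pp m r ∣ x ↔ pp m r ∣ q * A := by
    rw [dvd_congr (hx.of_dvd hPd)]
    exact ⟨fun h => h.mul_left q, fun h => hPq.dvd_of_dvd_mul_left h⟩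
  unfold zr
  exact if_congr h1 rfl rfl

lemma sum_one (hq : q.Prime) {d' : ℕ} (hd' : ¬ q ∣ d') (w : ℤ) :
    ∑ i ∈ range q, (if ((q : ℕ) : ℤ) ∣ w + (i : ℤ) * d' then (1 : ZMod 2) else 0) = 1 := by
  have hqF : Fact q.Prime := ⟨hq⟩
  have hdz : (d' : ZMod q) ≠ 0 := by
    rw [Ne, ZMod.natCast_eq_zero_iff]; exact hd'
  set z : ZMod q := - (w : ZMod q) * (d' : ZMod q)⁻¹ with hz
  have h1 : ∀ i ∈ range q, (((q : ℕ) : ℤ) ∣ w + (i : ℤ) * d' ↔ i = z.val) := by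
    intro i hi
    have h2 : ((q : ℕ) : ℤ) ∣ w + (i : ℤ) * d' ↔ ((w + (i : ℤ) * d' : ℤ) : ZMod q) = 0 :=
      (ZMod.intCast_zmod_eq_zero_iff_dvd _ _).symm
    rw [h2]
    push_cast
    constructor
    · intro h3
      have h4 : (i : ZMod q) = z := by
        rw [hz]
        field_simp
        linear_combination h3
      rw [← h4, ZMod.val_natCast, Nat.mod_eq_of_lt (mem_range.mp hi)]
    · intro h3
      have h4 : (i : ZMod q) = z := by rw [h3, ZMod.natCast_zmod_val]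
      rw [h4, hz]
      field_simp
      ring
  rw [sum_congr rfl fun i hi => if_congr (h1 i hi) rfl rfl, sum_ite_eq' (range q) z.val]
  rw [if_pos (mem_range.mpr (ZMod.val_lt z))]

/-- the sum of the indicators at the own prime -/
lemma dl_sum (hq : q.Prime) (hqd : q * d = m) (hm : m ≠ 0) {u : ℤ} (hu : ¬ (q : ℤ) ∣ u) (A : ℕ) :
    ∑ i ∈ range q, dl m q u (A + i * d) = if pp m q ∣ q * A then 1 else dl m q u (q * A) := by
  obtain ⟨Q', d', h1, h2, h3, h4, a, ha⟩ := parts hq hqd hm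
  have hQ'0 : (Q' : ℤ) ≠ 0 := by
    rw [ha]; exact_mod_cast (pow_pos hq.pos a).ne'
  set g := Nat.gcd A d with hg
  have hgd : g ∣ d := Nat.gcd_dvd_right _ _
  have hngd : ¬ pp m q ∣ d := by
    rw [h1, h2, mul_comm q Q']
    intro h
    exact h3 (Nat.dvd_of_mul_dvd_mul_left (by rw [ha]; exact pow_pos hq.pos a) h)
  have hcop : ∀ z : ℤ, ((pp m q : ℕ) : ℤ) ∣ z * u → ((pp m q : ℕ) : ℤ) ∣ z := by
    intro z hz
    have h5 : IsCoprime ((pp m q : ℕ) : ℤ) u := by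
      unfold pp
      push_cast
      apply IsCoprime.pow_left
      rw [Int.isCoprime_iff_gcd_eq_one]
      have h6 : Int.gcd (q : ℤ) u ∣ q := by
        have := Int.gcd_dvd_left (a := (q : ℤ)) (b := u)
        exact_mod_cast this
      rcases (Nat.dvd_prime hq).mp h6 with h7 | h7
      · exact h7
      · exfalso
        apply hu
        have := Int.gcd_dvd_right (a := (q : ℤ)) (b := u)
        rwa [h7] at this
    exact h5.dvd_of_dvd_mul_right hz
  -- the terms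
  have hterm : ∀ i ∈ range q, dl m q u (A + i * d) =
      if ((pp m q : ℕ) : ℤ) ∣ ((A : ℤ) - g * u) + (i : ℤ) * d then 1 else 0 := by
    intro i _
    have e0 : ((A : ℤ) - g * u) + (i : ℤ) * d = ((A + i * d : ℕ) : ℤ) - g * u := by
      push_cast; ring
    rw [e0]
    have hgi : Nat.gcd (A + i * d) d = g := (shift_mod A i).gcd_eq
    by_cases hQ : pp m q ∣ A + i * d
    · have hR : ¬ ((pp m q : ℕ) : ℤ) ∣ ((A + i * d : ℕ) : ℤ) - g * u := by
        intro h5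
        have h6 : ((pp m q : ℕ) : ℤ) ∣ ((A + i * d : ℕ) : ℤ) := by exact_mod_cast hQ
        have h7 := dvd_sub h6 h5
        have e : ((A + i * d : ℕ) : ℤ) - (((A + i * d : ℕ) : ℤ) - g * u) = g * u := by ring
        rw [e] at h7
        have h8 := hcop _ h7
        exact hngd ((by exact_mod_cast h8 : pp m q ∣ g).trans hgd)
      unfold dl
      rw [if_neg (fun h => h.1 hQ), if_neg hR]
    · unfold dl
      rw [gcd_a hq hqd hm hQ, hgi]
      simp only [hQ, not_false_eq_true, true_and]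
  rw [sum_congr rfl hterm]
  have e2 : Nat.gcd (q * A) m = q * g := by rw [← hqd, Nat.gcd_mul_left]
  have hppz : ((pp m q : ℕ) : ℤ) = q * Q' := by rw [h1]; push_cast; rfl
  by_cases hw : (Q' : ℤ) ∣ (A : ℤ) - g * u
  · obtain ⟨w, hw⟩ := hw
    have h5 : ∀ i ∈ range q, ((((pp m q : ℕ) : ℤ) ∣ ((A : ℤ) - g * u) + (i : ℤ) * d) ↔
        ((q : ℕ) : ℤ) ∣ w + (i : ℤ) * d') := by
      intro i _
      have e : ((A : ℤ) - g * u) + (i : ℤ) * d = Q' * (w + i * d') := by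
        rw [hw, h2]; push_cast; ring
      rw [e, hppz, mul_comm (q : ℤ) (Q' : ℤ)]
      exact mul_dvd_mul_iff_left hQ'0
    rw [sum_congr rfl fun i hi => if_congr (h5 i hi) rfl rfl, sum_one hq h3]
    split_ifs with h6
    · rfl
    · unfold dl
      rw [if_pos]
      refine ⟨h6, ?_⟩
      rw [e2, hppz]
      have e : ((q * A : ℕ) : ℤ) - ((q * g : ℕ) : ℤ) * u = q * Q' * w := by
        push_cast
        linear_combination (q : ℤ) * hw
      rw [e]
      exact Dvd.intro w rfl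
  · have h5 : ∀ i ∈ range q, ¬ (((pp m q : ℕ) : ℤ) ∣ ((A : ℤ) - g * u) + (i : ℤ) * d) := by
      intro i _ h6
      apply hw
      have h7 : (Q' : ℤ) ∣ ((A : ℤ) - g * u) + (i : ℤ) * d :=
        Dvd.dvd.trans ⟨q, by rw [hppz]; ring⟩ h6
      have h8 : (Q' : ℤ) ∣ (i : ℤ) * d := by
        rw [h2]; exact ⟨i * d', by push_cast; ring⟩
      have h9 := dvd_sub h7 h8
      have e : ((A : ℤ) - g * u) + (i : ℤ) * d - (i : ℤ) * d = A - g * u := by ring
      rwa [e] at h9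
    rw [sum_congr rfl fun i hi => if_neg (h5 i hi), sum_const_zero]
    have h6 : ¬ pp m q ∣ q * A := by
      intro h7
      rw [h1] at h7
      have h8 : Q' ∣ A := Nat.dvd_of_mul_dvd_mul_left hq.pos h7
      have h9 : Q' ∣ g := Nat.dvd_gcd h8 (by rw [h2]; exact dvd_mul_right _ _)
      apply hw
      apply dvd_sub (by exact_mod_cast h8)
      exact (by exact_mod_cast h9 : (Q' : ℤ) ∣ (g : ℤ)).mul_right u
    rw [if_neg h6]
    unfold dl
    rw [if_neg]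
    rintro ⟨-, h7⟩
    apply hw
    rw [e2, hppz] at h7
    have e : ((q * A : ℕ) : ℤ) - ((q * g : ℕ) : ℤ) * u = q * ((A : ℤ) - g * u) := by
      push_cast; ring
    rw [e] at h7
    have hq0 : (q : ℤ) ≠ 0 := by exact_mod_cast hq.pos.ne'
    exact (mul_dvd_mul_iff_left hq0).mp h7

lemma dl_of_dvd {u : ℤ} {x : ℕ} (h : pp m q ∣ x) : dl m q u x = 0 := by
  unfold dl; rw [if_neg (fun h' => h'.1 h)]

/-- the sum of two indicators at the own prime -/
lemma dl_lin (hq : q.Prime) (hqd : q * d = m) (hm : m ≠ 0) {u v : ℤ} (hu : ¬ (q : ℤ) ∣ u)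
    (hv : ¬ (q : ℤ) ∣ v) : Lin m q d (fun x => dl m q u x + dl m q v x) := by
  refine ⟨fun x h => by beta_reduce; rw [dl_of_dvd h, dl_of_dvd h, add_zero], fun A => ?_⟩
  rw [sum_add_distrib, dl_sum hq hqd hm hu, dl_sum hq hqd hm hv]
  split_ifs with h
  · beta_reduce
    rw [dl_of_dvd h, dl_of_dvd h]; decide
  · rfl

end rel

end Pool.Agent.U270.FT14
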