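import Pool.Agent.U270.FT14.Eval5

/-!
# Points and counts for the levels divisible by four
-/

set_option autoImplicit false
set_option linter.unusedSectionVars false

namespace Pool.Agent.U270.FT14

open Finset Pool.Agent.H916R2 Pool.Agent.N992 Pool.Agent.N993 Pool.Agent.N993.Dat

/-- the prime of an index -/
def P2 (x : ℕ) : ℕ := if x = 4 then 2 else x

/-- odd primes or four -/
def Good4 (S : Finset ℕ) : Prop := ∀ x ∈ S, (x.Prime ∧ x % 2 = 1) ∨ x = 4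

lemma P2_prime {S : Finset ℕ} (hS : Good4 S) {x : ℕ} (hx : x ∈ S) : (P2 x).Prime := by
  unfold P2
  rcases hS x hx with h | h
  · split_ifs
    · exact Nat.prime_two
    · exact h.1
  · rw [if_pos h]; exact Nat.prime_two

lemma P2_pow {S : Finset ℕ} (hS : Good4 S) {x : ℕ} (hx : x ∈ S) :
    ∃ j, 1 ≤ j ∧ x = P2 x ^ j := by
  unfold P2
  rcases hS x hx with h | h
  · split_ifs with h4
    · exact ⟨2, by norm_num, by rw [h4]; norm_num⟩
    · exact ⟨1, le_rfl, (pow_one x).symm⟩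
  · rw [if_pos h]; exact ⟨2, by norm_num, by rw [h]; norm_num⟩

lemma P2_inj {S : Finset ℕ} (hS : Good4 S) {x y : ℕ} (hx : x ∈ S) (hy : y ∈ S)
    (h : P2 x = P2 y) : x = y := by
  unfold P2 at h
  rcases hS x hx with h1 | h1 <;> rcases hS y hy with h2 | h2
  · split_ifs at h with h3 h4 h4
    · rw [h3, h4]
    · omega
    · omega
    · exact h
  · rw [if_pos h2] at h
    split_ifs at h with h3
    · rw [h3, h2]
    · omega
  · rw [if_pos h1] at h
    split_ifs at h with h3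
    · rw [h3, h1]
    · omega
  · rw [h1, h2]

lemma P2_dvd {S : Finset ℕ} (hS : Good4 S) {x : ℕ} (hx : x ∈ S) : P2 x ∣ x := by
  obtain ⟨j, hj, h⟩ := P2_pow hS hx
  conv_rhs => rw [h]
  exact dvd_pow_self _ (by omega)

lemma coprime_iff4 {S : Finset ℕ} (hS : Good4 S) {x B : ℕ} (hx : x ∈ S) :
    Nat.Coprime B x ↔ ¬ P2 x ∣ B := by
  obtain ⟨j, hj, h⟩ := P2_pow hS hx
  have hp := P2_prime hS hx
  constructor
  · intro h1 h2
    have h3 := Nat.dvd_gcd h2 (P2_dvd hS hx)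
    rw [h1] at h3
    exact hp.one_lt.ne' (Nat.dvd_one.mp h3)
  · intro h1
    rw [h]
    exact Nat.Coprime.pow_right _ ((Nat.Prime.coprime_iff_not_dvd hp).mpr h1).symm

lemma coprime4 {S : Finset ℕ} (hS : Good4 S) {x y : ℕ} (hx : x ∈ S) (hy : y ∈ S) (hne : x ≠ y) :
    Nat.Coprime x y := by
  rw [coprime_iff4 hS hy]
  intro h
  have hx1 := P2_prime hS hx
  have hy1 := P2_prime hS hy
  obtain ⟨j, hj, h2⟩ := P2_pow hS hx
  rw [h2] at h
  have h3 := hy1.dvd_of_dvd_pow h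
  have h4 := (Nat.prime_dvd_prime_iff_eq hy1 hx1).mp h3
  exact hne (P2_inj hS hx hy h4.symm)

lemma pp_dvd_iff4 {m k m1 p j : ℕ} (hp : p.Prime) (hj : 1 ≤ j) (hm : m ≠ 0)
    (hk : k * (p ^ j * m1) = m) (h1 : ¬ p ∣ m1) (z : ℤ) :
    ((pp m p : ℕ) : ℤ) ∣ (k : ℤ) * z ↔ ((p ^ j : ℕ) : ℤ) ∣ z := by
  have hk0 : k ≠ 0 := by rintro rfl; rw [zero_mul] at hk; exact hm hk.symm
  obtain ⟨v, k', hk', rfl⟩ := Nat.exists_eq_pow_mul_and_not_dvd hk0 p hp.ne_one
  have hv : m.factorization p = v + j := by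
    apply le_antisymm
    · by_contra hcon
      have h2 : p ^ (v + j + 1) ∣ m := (hp.pow_dvd_iff_le_factorization hm).mpr (by omega)
      rw [← hk] at h2
      have h3 : p ^ (v + j) * p ∣ p ^ (v + j) * (k' * m1) := by
        have e1 : p ^ (v + j + 1) = p ^ (v + j) * p := pow_succ _ _
        have e2 : p ^ v * k' * (p ^ j * m1) = p ^ (v + j) * (k' * m1) := by rw [pow_add]; ring
        rw [e1, e2] at h2; exact h2
      have h4 := Nat.dvd_of_mul_dvd_mul_left (pow_pos hp.pos _) h3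
      rcases (Nat.Prime.dvd_mul hp).mp h4 with h | h
      · exact hk' h
      · exact h1 h
    · rw [← hp.pow_dvd_iff_le_factorization hm, ← hk]
      exact ⟨k' * m1, by rw [pow_add]; ring⟩
  have hpi := Nat.prime_iff_prime_int.mp hp
  unfold pp
  rw [hv]
  push_cast
  have e : (p : ℤ) ^ v * (k' : ℤ) * z = (p : ℤ) ^ v * (k' * z) := by ring
  rw [e, pow_add, mul_dvd_mul_iff_left (pow_ne_zero _ hpi.ne_zero)]
  constructor
  · intro h
    have h2 : IsCoprime ((p : ℤ) ^ j) (k' : ℤ) := by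
      apply IsCoprime.pow_left
      exact Nat.isCoprime_iff_coprime.mpr ((Nat.Prime.coprime_iff_not_dvd hp).mpr hk')
    exact h2.dvd_of_dvd_mul_left h
  · intro h; exact h.mul_left _

lemma prod_erase4 {S : Finset ℕ} (hS : Good4 S) {x : ℕ} (hx : x ∈ S) :
    ∏ q ∈ S, q = x * ∏ q ∈ S.erase x, q ∧ ¬ P2 x ∣ ∏ q ∈ S.erase x, q := by
  refine ⟨(mul_prod_erase S (fun q => q) hx).symm, ?_⟩
  intro h
  have hp := P2_prime hS hx
  obtain ⟨q, hq, hpq⟩ := (Nat.Prime.prime hp).exists_mem_finset_dvd h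
  have hqS := mem_of_mem_erase hq
  have h1 := coprime4 hS hqS hx (ne_of_mem_erase hq)
  exact (coprime_iff4 hS hx).mp h1 hpq

lemma pp_iff4 {S : Finset ℕ} (hS : Good4 S) {m k : ℕ} (hm : m ≠ 0)
    (hk : k * ∏ p ∈ S, p = m) {x : ℕ} (hx : x ∈ S) (z : ℤ) :
    ((pp m (P2 x) : ℕ) : ℤ) ∣ (k : ℤ) * z ↔ (x : ℤ) ∣ z := by
  obtain ⟨h1, h2⟩ := prod_erase4 hS hx
  obtain ⟨j, hj, h3⟩ := P2_pow hS hx
  have h4 := pp_dvd_iff4 (P2_prime hS hx) hj hm (by rw [← h3, ← h1]; exact hk) h2 z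
  rw [h4, ← h3]

lemma pp_iff_nat4 {S : Finset ℕ} (hS : Good4 S) {m k : ℕ} (hm : m ≠ 0)
    (hk : k * ∏ p ∈ S, p = m) {x : ℕ} (hx : x ∈ S) (B : ℕ) : pp m (P2 x) ∣ k * B ↔ x ∣ B := by
  have h := pp_iff4 hS hm hk hx (B : ℤ)
  rw [← Nat.cast_mul, Int.natCast_dvd_natCast, Int.natCast_dvd_natCast] at h
  exact h

lemma gcd_prod4 {S T : Finset ℕ} (hS : Good4 S) (hT : T ⊆ S) {B : ℕ}
    (h1 : ∀ p ∈ T, Nat.Coprime B p) (h2 : ∀ p ∈ S \ T, p ∣ B) :
    Nat.gcd B (∏ p ∈ S, p) = ∏ p ∈ S \ T, p := by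
  have e : ∏ p ∈ S, p = (∏ p ∈ T, p) * ∏ p ∈ S \ T, p := by
    rw [mul_comm]; exact (prod_sdiff hT).symm
  have hc : Nat.Coprime B (∏ p ∈ T, p) := Nat.Coprime.prod_right fun p hp => h1 p hp
  rw [e, Nat.Coprime.gcd_mul_left_cancel_right _ hc.symm]
  apply Nat.gcd_eq_right
  have h3 : ((∏ p ∈ S \ T, p : ℕ) : ℤ) ∣ (B : ℤ) := by
    push_cast
    apply Finset.prod_dvd_of_coprime
    · intro a ha b hb hab
      exact Nat.isCoprime_iff_coprime.mpr
        (coprime4 hS (mem_sdiff.mp ha).1 (mem_sdiff.mp hb).1 hab)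
    · intro i hi
      exact_mod_cast h2 i hi
  exact_mod_cast h3

lemma dl_eval4 {S T : Finset ℕ} (hS : Good4 S) (hT : T ⊆ S) {m k : ℕ} (hm : m ≠ 0)
    (hk : k * ∏ p ∈ S, p = m) {B : ℕ} (h1 : ∀ p ∈ T, Nat.Coprime B p)
    (h2 : ∀ p ∈ S \ T, p ∣ B) (u : ℤ) {x : ℕ} (hx : x ∈ T) :
    dl m (P2 x) u (k * B) =
      if ((B : ℕ) : ZMod x) = (((∏ q ∈ S \ T, q : ℕ) : ℤ) * u : ℤ) then 1 else 0 := by
  have hg : Nat.gcd (k * B) m = k * ∏ q ∈ S \ T, q := by
    rw [← hk, Nat.gcd_mul_left, gcd_prod4 hS hT h1 h2]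
  unfold dl
  rw [hg]
  have hx1 : 1 < x := by
    rcases hS x (hT hx) with h | h
    · exact h.1.one_lt
    · omega
  have h3 : ¬ pp m (P2 x) ∣ k * B := by
    rw [pp_iff_nat4 hS hm hk (hT hx)]
    intro h4
    have h5 := Nat.dvd_gcd h4 dvd_rfl
    rw [h1 x hx] at h5
    have := Nat.dvd_one.mp h5
    omega
  have h4 : ((pp m (P2 x) : ℕ) : ℤ) ∣ ((k * B : ℕ) : ℤ) - ((k * ∏ q ∈ S \ T, q : ℕ) : ℤ) * u ↔
      ((B : ℕ) : ZMod x) = (((∏ q ∈ S \ T, q : ℕ) : ℤ) * u : ℤ) := by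
    have e : ((k * B : ℕ) : ℤ) - ((k * ∏ q ∈ S \ T, q : ℕ) : ℤ) * u =
        (k : ℤ) * ((B : ℤ) - ((∏ q ∈ S \ T, q : ℕ) : ℤ) * u) := by
      rw [Nat.cast_mul, Nat.cast_mul]; ring
    rw [e, pp_iff4 hS hm hk (hT hx), ← ZMod.intCast_zmod_eq_zero_iff_dvd, Int.cast_sub, sub_eq_zero,
      Int.cast_natCast]
  exact if_congr (by rw [h4]; simp [h3]) rfl rfl

/-- the list of the primes -/
noncomputable def pl (T : Finset ℕ) : List ℕ := T.toList.map P2

lemma mem_pl {T : Finset ℕ} {x : ℕ} (hx : x ∈ T) : P2 x ∈ pl T :=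
  List.mem_map.mpr ⟨x, Finset.mem_toList.mpr hx, rfl⟩

lemma pl_prime {S T : Finset ℕ} (hS : Good4 S) (hT : T ⊆ S) : ∀ p ∈ pl T, p.Prime := by
  intro p hp
  obtain ⟨x, hx, rfl⟩ := List.mem_map.mp hp
  exact P2_prime hS (hT (Finset.mem_toList.mp hx))

lemma pl_ne {S T : Finset ℕ} (hS : Good4 S) (hT : T ⊆ S) {r : ℕ} (hr : r ∈ S) (hrT : r ∉ T) :
    ∀ p ∈ pl T, p.Prime ∧ p ≠ P2 r := by
  intro p hp
  obtain ⟨x, hx, rfl⟩ := List.mem_map.mp hp
  have hxT := Finset.mem_toList.mp hx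
  refine ⟨P2_prime hS (hT hxT), fun h => hrT ?_⟩
  rw [← P2_inj hS (hT hxT) hr h]; exact hxT

lemma pl_nodup {S T : Finset ℕ} (hS : Good4 S) (hT : T ⊆ S) : (pl T).Nodup := by
  unfold pl
  rw [List.nodup_map_iff_inj_on (Finset.nodup_toList T)]
  intro x hx y hy h
  exact P2_inj hS (hT (Finset.mem_toList.mp hx)) (hT (Finset.mem_toList.mp hy)) h

lemma pl_length (T : Finset ℕ) : (pl T).length = T.card := by
  unfold pl
  rw [List.length_map, Finset.length_toList]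

lemma II_prod4 {m : ℕ} {T : Finset ℕ} {u : ℤ} {x : ℕ} :
    II m (pl T) u x = ∏ p ∈ T, (dl m (P2 p) u x + dl m (P2 p) (-u) x) := by
  unfold II pl
  rw [List.map_map, ← Finset.prod_map_toList]
  rfl

lemma coord_some4 {S : Finset ℕ} [∀ i : Ix S, NeZero (nn S i)] {m0 : ℕ}
    [NeZero m0] (E : (∀ i, ZMod (nn S i)) ≃+* ZMod m0) (y : (cyc (nn S)).Pt) {i : Ix S}
    {v : (ZMod (nn S i))ˣ} (hi : y i = some v) :
    (((E (emb y)).val : ℕ) : ZMod (nn S i)) = v ∧ Nat.Coprime (E (emb y)).val (i : ℕ) := by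
  have h1 := coord E y i
  have h2 : emb y i = v := by
    unfold emb
    rw [hi]
  rw [h2] at h1
  refine ⟨h1, ?_⟩
  rw [← ZMod.isUnit_iff_coprime]
  have h3 : IsUnit ((((E (emb y)).val : ℕ)) : ZMod (nn S i)) := by rw [h1]; exact v.isUnit
  exact h3

/-- the value at a point -/
lemma II_eval4 {S : Finset ℕ} [∀ i : Ix S, NeZero (nn S i)] (hS : Good4 S) {m k m0 : ℕ}
    [NeZero m0] (hm : m ≠ 0) (hm0 : ∏ p ∈ S, p = m0) (hk : k * m0 = m)
    (E : (∀ i, ZMod (nn S i)) ≃+* ZMod m0) (T : Finset (Ix S)) (T' : Finset ℕ)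
    (hTT : T.map (Function.Embedding.subtype _) = T') {u : ℕ} (hu : Nat.Coprime u m)
    (y : (cyc (nn S)).Pt) (hy : (cyc (nn S)).Supp T y) :
    II m (pl T') u (k * (E (emb y)).val) =
      ((top (D := cyc (nn S)) (fun i => unOf ((∏ q ∈ S \ T', q) * u) (nn S i)) T y : ℤ) : ZMod 2) := by
  have hk' : k * ∏ p ∈ S, p = m := by rw [hm0]; exact hk
  have hT'S : T' ⊆ S := by
    intro p hp
    rw [← hTT, mem_map] at hp
    obtain ⟨i, _, rfl⟩ := hp
    exact i.2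
  have hmem : ∀ i : Ix S, i ∈ T ↔ (i : ℕ) ∈ T' := by
    intro i
    rw [← hTT, mem_map]
    constructor
    · intro h; exact ⟨i, h, rfl⟩
    · rintro ⟨j, hj, he⟩
      have : j = i := Subtype.ext he
      rwa [← this]
  by_cases hfull : ∀ i ∈ T, y i ≠ none
  · have h1 : ∀ p ∈ T', Nat.Coprime (E (emb y)).val p := by
      intro p hp
      have hiT : (⟨p, hT'S hp⟩ : Ix S) ∈ T := (hmem _).mpr hp
      cases hyi : y ⟨p, hT'S hp⟩ with
      | none => exact absurd hyi (hfull _ hiT)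
      | some v => exact (coord_some4 E y hyi).2
    have h2 : ∀ p ∈ S \ T', p ∣ (E (emb y)).val := by
      intro p hp
      obtain ⟨hp1, hp2⟩ := mem_sdiff.mp hp
      exact coord_none E y (i := ⟨p, hp1⟩) (hy _ (fun h => hp2 ((hmem _).mp h)))
    rw [II_prod4, ← hTT, prod_map, hTT]
    unfold top
    push_cast
    refine prod_congr rfl fun i hi => ?_
    have hiT' : (i : ℕ) ∈ T' := (hmem i).mp hi
    change dl m (P2 (i : ℕ)) (u : ℤ) _ + dl m (P2 (i : ℕ)) (-(u : ℤ)) _ = _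
    rw [dl_eval4 hS hT'S hm hk' h1 h2 _ hiT', dl_eval4 hS hT'S hm hk' h1 h2 _ hiT']
    cases hyi : y i with
    | none => exact absurd hyi (hfull i hi)
    | some v =>
      have hv := (coord_some4 E y hyi).1
      have hcop : Nat.Coprime ((∏ q ∈ S \ T', q) * u) (nn S i) := by
        apply Nat.Coprime.mul_left
        · apply Nat.Coprime.prod_left
          intro q hq
          obtain ⟨hq1, hq2⟩ := mem_sdiff.mp hq
          exact coprime4 hS hq1 i.2 (fun e => hq2 (e ▸ hiT'))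
        · apply Nat.Coprime.coprime_dvd_right _ hu
          rw [← hk']
          exact (dvd_prod_of_mem (fun p => p) i.2).mul_left k
      have hw := unOf_val hcop
      have e1 : (((E (emb y)).val : ℕ) : ZMod (i : ℕ)) =
          ((((∏ q ∈ S \ T', q : ℕ) : ℤ) * (u : ℤ) : ℤ) : ZMod (i : ℕ)) ↔
          v = unOf ((∏ q ∈ S \ T', q) * u) (nn S i) := by
        rw [Units.ext_iff, hw]
        have e2 : ((((∏ q ∈ S \ T', q : ℕ) : ℤ) * (u : ℤ) : ℤ) : ZMod (i : ℕ)) =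
            (((∏ q ∈ S \ T', q) * u : ℕ) : ZMod (nn S i)) := by push_cast; rfl
        rw [e2]
        have e3 : (((E (emb y)).val : ℕ) : ZMod (i : ℕ)) = (v : ZMod (nn S i)) := hv
        rw [e3]
      have e4 : (((E (emb y)).val : ℕ) : ZMod (i : ℕ)) =
          ((((∏ q ∈ S \ T', q : ℕ) : ℤ) * (-(u : ℤ)) : ℤ) : ZMod (i : ℕ)) ↔
          v = (cyc (nn S)).c i * unOf ((∏ q ∈ S \ T', q) * u) (nn S i) := by
        rw [Units.ext_iff]
        have e5 : (((cyc (nn S)).c i * unOf ((∏ q ∈ S \ T', q) * u) (nn S i) : (ZMod (nn S i))ˣ) :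
            ZMod (nn S i)) = -(((∏ q ∈ S \ T', q) * u : ℕ) : ZMod (nn S i)) := by
          rw [Units.val_mul, hw]
          change ((-1 : (ZMod (nn S i))ˣ) : ZMod (nn S i)) * _ = _
          rw [Units.val_neg, Units.val_one, neg_one_mul]
        rw [e5]
        have e2 : ((((∏ q ∈ S \ T', q : ℕ) : ℤ) * (-(u : ℤ)) : ℤ) : ZMod (i : ℕ)) =
            -(((∏ q ∈ S \ T', q) * u : ℕ) : ZMod (nn S i)) := by push_cast; ring
        rw [e2]
        have e3 : (((E (emb y)).val : ℕ) : ZMod (i : ℕ)) = (v : ZMod (nn S i)) := hv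
        rw [e3]
      rw [if_congr e1 rfl rfl, if_congr e4 rfl rfl]
      unfold zt
      push_cast
      have h3 : ∀ a b : ZMod 2, a + b = a - b := by decide
      exact h3 _ _
  · push Not at hfull
    obtain ⟨i, hi, hyi⟩ := hfull
    rw [top_none hi hyi, Int.cast_zero]
    apply II_zero (q := P2 (i : ℕ)) (mem_pl ((hmem i).mp hi))
    rw [pp_iff_nat4 hS hm hk' i.2]
    exact coord_none E y hyi

end Pool.Agent.U270.FT14
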