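import Pool.Agent.U270.FT14.Main14

/-!
# Relations with at most fourteen entries, the levels with a property of the divisors
-/

set_option autoImplicit false

namespace Pool.Agent.U270.FT14

open Finset Pool.Agent.H916R2 Pool.Agent.Y2 Pool.Agent.U270.SX

/-- **Relations with at most `K` entries, `K ≤ 14`, of the levels with the property `P`.** -/
theorem zero_of_base (G : ℕ → Prop) (h51 : G 51) (h57 : G 57) {K : ℕ} (hK14 : K ≤ 14)
    (P : ℕ → Prop) (hPd : ∀ e m, e ∣ m → P m → P e) (hP69 : ∀ m, P m → 11 < K → ¬ 69 ∣ m)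
    (hbase : ∀ e, e % 2 = 1 → P e →
      (∀ p, p.Prime → p ∣ e → p ∈ ({3, 5, 7, 11, 13} : Finset ℕ)) →
      ∀ A : Multiset ℕ, Multiset.card A ≤ K →
      (∀ a ∈ A, ¬ e ∣ a) → (∀ t, Nat.Coprime t e → SW e A t = 0) →
      ∀ (Q : Type) [AddCommGroup Q] (C : ZMod e → Q), OddDist C → KillsG G e C →
        (A.map fun a : ℕ => C (a : ZMod e)).sum = 0) :
    ∀ m : ℕ, m % 2 = 1 → P m → ∀ A : Multiset ℕ, Multiset.card A ≤ K →
    (∀ a ∈ A, ¬ m ∣ a) → (∀ t, Nat.Coprime t m → SW m A t = 0) →
    ∀ (Q : Type) [AddCommGroup Q] (C : ZMod m → Q), OddDist C → KillsG G m C →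
      (A.map fun a : ℕ => C (a : ZMod m)).sum = 0 := by
  intro m
  induction m using Nat.strong_induction_on with
  | _ m ih =>
  intro hodd hPm A hcard hA hrel Q _ C hC hK
  have hm : m ≠ 0 := by rintro rfl; simp at hodd
  have hN : NeZero m := ⟨hm⟩
  by_cases hg : ∀ p, p.Prime → p ∣ m → p ∈ ({3, 5, 7, 11, 13} : Finset ℕ)
  · exact hbase m hodd hPm hg A hcard hA hrel Q C hC hK
  have hev := card_even hodd hA hrel
  -- the induction hypothesis at level `d`
  have hIH : ∀ q d : ℕ, q.Prime → q * d = m → ∀ B : Multiset ℕ, Multiset.card B ≤ K →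
      (∀ b ∈ B, ¬ d ∣ b) → (∀ t, Nat.Coprime t d → SW d B t = 0) →
      (B.map fun b : ℕ => C ((q * b : ℕ) : ZMod m)).sum = 0 := by
    intro q d hq hqd B hB hB0 hBrel
    have hd0 : d ≠ 0 := by rintro rfl; rw [mul_zero] at hqd; exact hm hqd.symm
    have hdodd : d % 2 = 1 := by
      rw [← hqd, ← Nat.odd_iff, Nat.odd_mul] at hodd
      exact Nat.odd_iff.mp hodd.2
    have hdm : d < m := by
      rw [← hqd]
      have h3 := hq.two_le
      have h4 : 0 < d := Nat.pos_of_ne_zero hd0
      nlinarith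
    have hNd : NeZero d := ⟨hd0⟩
    have h5 := ih d hdm hdodd (hPd d m (Dvd.intro_left q hqd) hPm) B hB hB0 hBrel Q (fun b : ZMod d => C (iota q b))
      (hC.comp_iota hqd) (hK.comp hqd)
    rw [← h5]
    congr 1
    apply Multiset.map_congr rfl
    intro b _
    rw [iota_natCast hqd]
  -- the case of vanishing signs
  have hzero : ∀ q d : ℕ, q.Prime → q * d = m →
      (∀ z, Nat.Coprime z d → ST d (A.filter fun a => ¬ q ∣ a) z = 0) →
      (¬ q ∣ d ∨ 28 < q * (q - 1)) →
      (A.map fun a : ℕ => C (a : ZMod m)).sum = 0 := by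
    intro q d hq hqd h0 hsm
    have H := mkSetting hq hqd hodd A hrel
    have hc1 := card_split q A
    obtain ⟨h1, h2⟩ := H.peel0 h0 (hsm.imp id fun h => by omega)
    rw [split_sumE (q := q), h2 Q C hC, zero_add]
    exact hIH q d hq hqd _ (by omega) (ndvd_split hqd hA) h1
  -- large primes
  have hlarge : ∀ q, q.Prime → q ∣ m → 31 ≤ q → (A.map fun a : ℕ => C (a : ZMod m)).sum = 0 := by
    intro q hq hqm h19
    obtain ⟨d, hd⟩ := hqm
    have H := mkSetting hq hd.symm hodd A hrel
    have hc1 := card_split q A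
    refine hzero q d hq hd.symm (case_big8 H (N := 14) (by omega) (Or.inr (by omega))) (Or.inr ?_)
    have : 30 ≤ q - 1 := by omega
    nlinarith
  by_cases h31 : ∃ q, q.Prime ∧ q ∣ m ∧ 31 ≤ q
  · obtain ⟨q, hq, hqm, h⟩ := h31
    exact hlarge q hq hqm h
  push Not at h31
  have hpow : ∀ q d : ℕ, q.Prime → q * d = m → 17 ≤ q → q ∣ d →
      (A.map fun a : ℕ => C (a : ZMod m)).sum = 0 := by
    intro q d hq hqd h11 hqdd
    have H := mkSetting hq hqd hodd A hrel
    have hc1 := card_split q A
    refine hzero q d hq hqd (case_big8 H (N := 14) (by omega) (Or.inl ⟨hqdd, by omega⟩)) (Or.inr ?_)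
    have : 16 ≤ q - 1 := by omega
    nlinarith
  -- the prime divisors
  have hprimes : ∀ p, p.Prime → p ∣ m →
      p = 3 ∨ p = 5 ∨ p = 7 ∨ p = 11 ∨ p = 13 ∨ p = 17 ∨ p = 19 ∨ p = 23 ∨ p = 29 := by
    intro p hp hpd
    have h1 := h31 p hp hpd
    have h2 := hp.two_le
    have h3 : p ≠ 2 := by
      rintro rfl
      omega
    interval_cases p
    all_goals first
      | (exfalso; revert hp; norm_num; done)
      | omega
  -- the dichotomy
  have key : ∀ q d h : ℕ, q.Prime → q * d = m → ¬ q ∣ d → 2 * h = q - 1 → 8 ≤ h →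
      (∀ j, 1 ≤ j → h + 2 * j ≤ 14 → Chain d h j) →
      (A.map fun a : ℕ => C (a : ZMod m)).sum = 0 ∨
      ∃ c, ¬ d ∣ c ∧
        (∀ z, Nat.Coprime z d → SW d (A.filter fun a => ¬ q ∣ a) z = h * sv d (z * c)) ∧
        h ≤ Multiset.card (A.filter fun a => ¬ q ∣ a) ∧
        ((Multiset.card ((A.filter fun a => q ∣ a).map fun a => a / q) % 2 = 0 ∧ d ∣ (q - 1) * c ∧
          ∀ z, Nat.Coprime z d → SW d ((A.filter fun a => q ∣ a).map fun a => a / q) z = 0) ∨
        (Multiset.card ((A.filter fun a => q ∣ a).map fun a => a / q) % 2 = 1 ∧ d ∣ (q + 1) * c ∧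
          ∀ z, Nat.Coprime z d → SW d ((A.filter fun a => q ∣ a).map fun a => a / q) z =
            - sv d (z * c))) := by
    intro q d h hq hqd hnd hh h8 hch
    have H := mkSetting hq hqd hodd A hrel
    have hc1 := card_split q A
    have hdne := H.hd
    rcases dichotomy H hnd hh (by omega) (by omega) (ndvd_split hqd hA) (by
      intro hex
      by_cases hd1 : d = 1
      · have h1 := hex 1 (Nat.coprime_one_left d)
        have h2 := SW_abs hdne ((A.filter fun a => ¬ q ∣ a).filter fun a => ¬ d ∣ a) 1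
        rw [h1, hd1] at h2
        have h3 : (8 : ℤ) ≤ h := by exact_mod_cast h8
        norm_num at h2
        omega
      · refine no_const_gen (by have := H.dodd; omega) H.dodd _
          (fun a ha => (Multiset.mem_filter.mp ha).2) h (by omega) ?_ hex
        intro j hj1 hj2
        apply hch j hj1
        have h4 : Multiset.card ((A.filter fun a => ¬ q ∣ a).filter fun a => ¬ d ∣ a) ≤
          Multiset.card (A.filter fun a => ¬ q ∣ a) := Multiset.card_le_card (Multiset.filter_le _ _)
        omega) with h0 | ⟨c, hc, hS, hc8, h9⟩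
    · exact Or.inl (hzero q d hq hqd h0 (Or.inl hnd))
    · exact Or.inr ⟨c, hc, hS, hc8, h9⟩
  by_cases h29 : 29 ∣ m
  · obtain ⟨d, hd⟩ := h29
    have hq : Nat.Prime 29 := by norm_num
    by_cases hqd : 29 ∣ d
    · exact hpow 29 d hq hd.symm (by norm_num) hqd
    have H := mkSetting hq hd.symm hodd A hrel
    have hc1 := card_split 29 A
    rcases key 29 d 14 hq hd.symm hqd (by norm_num) (by norm_num) (fun j h1 h2 => by omega) with
      h0 | ⟨c, hc, hS, hc8, ⟨-, h10, -⟩ | ⟨h2, -, -⟩⟩
    · exact h0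
    · exfalso
      have h7c : d ∣ 7 * c := dvd_odd_mul (k := 2) H.dodd (by norm_num : 4 = 2 ^ 2) (by
        rw [← mul_assoc]; exact h10)
      exact fine H hqd (h := 14) rfl hc (by norm_num : Nat.Prime 7) (by norm_num) h7c hS
    · omega
  by_cases h23 : 23 ∣ m
  · obtain ⟨d, hd⟩ := h23
    have hq : Nat.Prime 23 := by norm_num
    by_cases hqd : 23 ∣ d
    · exact hpow 23 d hq hd.symm (by norm_num) hqd
    have H := mkSetting hq hd.symm hodd A hrel
    have hc1 := card_split 23 A
    have hdm : d ∣ m := ⟨23, by rw [hd]; ring⟩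
    have hP : ∀ p, p.Prime → p ∣ d → p ∈ ({3, 5, 7, 11, 13, 17, 19} : Finset ℕ) := by
      intro p hp hpd
      simp only [mem_insert, mem_singleton]
      rcases hprimes p hp (hpd.trans hdm) with h | h | h | h | h | h | h | h | h
      all_goals first
        | (exfalso; subst h; exact hqd hpd)
        | (exfalso; subst h; exact h29 (hpd.trans hdm))
        | omega
    rcases key 23 d 11 hq hd.symm hqd (by norm_num) (by norm_num)
      (fun j h1 h2 => chain_eleven H.dodd hP (by omega)) with
      h0 | ⟨c, hc, hS, hc8, ⟨-, h10, -⟩ | ⟨hpar, h10, hS2⟩⟩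
    · exact h0
    · exfalso
      have h7c : d ∣ 11 * c := dvd_odd_mul (k := 1) H.dodd (by norm_num : 2 = 2 ^ 1) (by
        rw [← mul_assoc]; exact h10)
      exact fine H hqd (h := 11) rfl hc (by norm_num : Nat.Prime 11) (by norm_num) h7c hS
    · exfalso
      have h3c : d ∣ 3 * c := dvd_odd_mul (k := 3) H.dodd (by norm_num : 8 = 2 ^ 3) (by
        rw [← mul_assoc]; exact h10)
      obtain ⟨l, τ, hl, -, -⟩ := order_three H.hd h3c hc
      exact hP69 m hPm (by omega) ⟨l, by rw [hd, hl]; ring⟩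
  by_cases h19 : 19 ∣ m
  · obtain ⟨d, hd⟩ := h19
    have hq : Nat.Prime 19 := by norm_num
    by_cases hqd : 19 ∣ d
    · exact hpow 19 d hq hd.symm (by norm_num) hqd
    have H := mkSetting hq hd.symm hodd A hrel
    have hc1 := card_split 19 A
    have hdm : d ∣ m := ⟨19, by rw [hd]; ring⟩
    have hP : ∀ p, p.Prime → p ∣ d → p ∈ ({3, 5, 7, 11, 13, 17} : Finset ℕ) := by
      intro p hp hpd
      simp only [mem_insert, mem_singleton]
      rcases hprimes p hp (hpd.trans hdm) with h | h | h | h | h | h | h | h | h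
      all_goals first
        | (exfalso; subst h; exact hqd hpd)
        | (exfalso; subst h; exact h29 (hpd.trans hdm))
        | (exfalso; subst h; exact h23 (hpd.trans hdm))
        | omega
    rcases key 19 d 9 hq hd.symm hqd (by norm_num) (by norm_num)
      (fun j h1 h2 => chain_nine H.dodd hP (by omega)) with
      h0 | ⟨c, hc, hS, hc8, ⟨-, h10, hS2⟩ | ⟨-, h10, -⟩⟩
    · exact h0
    · have h9c : d ∣ 9 * c := dvd_odd_mul (k := 1) H.dodd (by norm_num : 2 = 2 ^ 1) (by
        rw [← mul_assoc]; exact h10)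
      by_cases h3c : d ∣ 3 * c
      · rw [split_sumE (q := 19)]
        exact out_even H hqd h57 hc h3c hS hS2 exists_E19 Q C hC hK
          (hIH 19 d hq hd.symm _ (by omega) (ndvd_split hd.symm hA) hS2)
      · exact (fine_nine H hqd (h := 9) rfl h3c h9c hS).elim
    · exfalso
      have h7c : d ∣ 5 * c := dvd_odd_mul (k := 2) H.dodd (by norm_num : 4 = 2 ^ 2) (by
        rw [← mul_assoc]; exact h10)
      exact fine H hqd (h := 9) rfl hc (by norm_num : Nat.Prime 5) (by norm_num) h7c hS
  by_cases h17 : 17 ∣ m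
  · obtain ⟨d, hd⟩ := h17
    have hq : Nat.Prime 17 := by norm_num
    by_cases hqd : 17 ∣ d
    · exact hpow 17 d hq hd.symm (by norm_num) hqd
    have H := mkSetting hq hd.symm hodd A hrel
    have hc1 := card_split 17 A
    have hdm : d ∣ m := ⟨17, by rw [hd]; ring⟩
    have hP : ∀ p, p.Prime → p ∣ d → p ∈ ({3, 5, 7, 11, 13} : Finset ℕ) := by
      intro p hp hpd
      simp only [mem_insert, mem_singleton]
      rcases hprimes p hp (hpd.trans hdm) with h | h | h | h | h | h | h | h | h
      all_goals first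
        | (exfalso; subst h; exact hqd hpd)
        | (exfalso; subst h; exact h29 (hpd.trans hdm))
        | (exfalso; subst h; exact h23 (hpd.trans hdm))
        | (exfalso; subst h; exact h19 (hpd.trans hdm))
        | omega
    rcases key 17 d 8 hq hd.symm hqd (by norm_num) (by norm_num)
      (fun j h1 h2 => chain_small H.dodd hP (by omega)) with
      h0 | ⟨c, hc, hS, hc8, ⟨-, h10, -⟩ | ⟨-, h10, hS2⟩⟩
    · exact h0
    · exact absurd (dvd_odd_mul (k := 4) H.dodd (by norm_num) h10) hc
    · have h9c : d ∣ 9 * c := dvd_odd_mul (k := 1) H.dodd (by norm_num : 2 = 2 ^ 1) (by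
        rw [← mul_assoc]; exact h10)
      by_cases h3c : d ∣ 3 * c
      · rw [split_sumE (q := 17)]
        exact out_odd H hqd h51 hc h3c hS hS2 exists_E17 Q C hC hK (ndvd_split hd.symm hA)
          (fun B hB => hIH 17 d hq hd.symm B (by omega))
      · exact (fine_nine H hqd (h := 8) rfl h3c h9c hS).elim
  -- no large prime factor
  exfalso
  apply hg
  intro p hp hpm
  simp only [mem_insert, mem_singleton]
  rcases hprimes p hp hpm with h | h | h | h | h | h | h | h | h
  all_goals first
    | (exfalso; subst h; exact h29 hpm)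
    | (exfalso; subst h; exact h23 hpm)
    | (exfalso; subst h; exact h19 hpm)
    | (exfalso; subst h; exact h17 hpm)
    | omega

end Pool.Agent.U270.FT14
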