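import Pool.Agent.U270.SX.Main

/-!
# Sums of sawtooth values of constant absolute value do not exist
-/

set_option autoImplicit false

namespace Pool.Agent.U270.FT14

open Finset Pool.Agent.H916R2 Pool.Agent.Y2 Pool.Agent.U270.SX

/-- The chain condition. -/
def Chain (d h j : ℕ) : Prop :=
  ∀ R : ℕ → ℕ, (∀ x y, R (x + y) ≤ R x + R y) →
    (∀ k, Nat.Coprime k d → R k = j * d ∨ R k = (h + j) * d) → R 1 = j * d →
    ∀ k, 1 ≤ k → Nat.Coprime k d → R k = j * d

theorem no_const_gen {d : ℕ} (hd1 : 1 < d) (hodd : d % 2 = 1)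
    (A : Multiset ℕ) (hA : ∀ a ∈ A, ¬ d ∣ a) (h : ℕ) (h1 : 1 ≤ h)
    (hch : ∀ j, 1 ≤ j → Multiset.card A = h + 2 * j → Chain d h j)
    (hS : ∀ z, Nat.Coprime z d → |SW d A z| = h * d) : False := by
  have hd : d ≠ 0 := by omega
  obtain ⟨n, hn'⟩ : ∃ n, n = Multiset.card A := ⟨_, rfl⟩
  have hdz : (0 : ℤ) < d := by exact_mod_cast Nat.pos_of_ne_zero hd
  have hval : ∀ z, Nat.Coprime z d → 2 * RS d A z = (n + h) * d ∨
      2 * RS d A z + h * d = n * d := by
    intro z hz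
    have h1 := hS z hz
    rw [SW_RS hd A hA hz] at h1
    rcases abs_cases (2 * (RS d A z : ℤ) - (Multiset.card A : ℕ) * d) with ⟨h2, _⟩ | ⟨h2, _⟩
    · left
      rw [h2] at h1
      have : (2 * (RS d A z : ℤ)) = (n + h) * d := by rw [← hn'] at h1; linarith
      exact_mod_cast this
    · right
      rw [h2] at h1
      have : (2 * (RS d A z : ℤ)) + h * d = n * d := by rw [← hn'] at h1; linarith
      exact_mod_cast this
  have hz1 := Nat.coprime_one_left d
  have hpar : (n + h) % 2 = 0 := by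
    rcases hval 1 hz1 with h1 | h1
    · have h2 : Even ((n + h) * d) := ⟨RS d A 1, by omega⟩
      rcases Nat.even_mul.mp h2 with h3 | h3
      · exact Nat.even_iff.mp h3
      · have := Nat.even_iff.mp h3; omega
    · have h2 : Even ((n + h) * d) := ⟨RS d A 1 + h * d, by
        have : (n + h) * d = n * d + h * d := by ring
        omega⟩
      rcases Nat.even_mul.mp h2 with h3 | h3
      · exact Nat.even_iff.mp h3
      · have := Nat.even_iff.mp h3; omega
  have hbig : h < n := by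
    have h2 := SW_abs hd A 1
    rw [hS 1 hz1, ← hn'] at h2
    by_contra hcon
    push Not at hcon
    have h3 : (n : ℤ) ≤ h := by exact_mod_cast hcon
    have h4 : (1 : ℤ) ≤ h := by exact_mod_cast h1
    nlinarith
  obtain ⟨j, hj⟩ : ∃ j, n = h + 2 * j := ⟨(n - h) / 2, by omega⟩
  have hj1 : 1 ≤ j := by omega
  have hval' : ∀ z, Nat.Coprime z d → RS d A z = (h + j) * d ∨ RS d A z = j * d := by
    intro z hz
    rcases hval z hz with h1 | h1
    · left
      rw [hj] at h1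
      have : (h + 2 * j + h) * d = 2 * ((h + j) * d) := by ring
      omega
    · right
      rw [hj] at h1
      have : (h + 2 * j) * d = h * d + 2 * (j * d) := by ring
      omega
  have hcop1 : Nat.Coprime (d - 1) d := by
    have h1 := Nat.coprime_self_sub_right (m := 1) (n := d) (by omega)
    rw [Nat.coprime_comm]
    exact h1.mpr (Nat.coprime_one_right d)
  obtain ⟨u, hu, hRu⟩ : ∃ u, Nat.Coprime u d ∧ RS d A u = j * d := by
    rcases hval' 1 hz1 with h1 | h1
    · refine ⟨d - 1, hcop1, ?_⟩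
      have h2 := RS_neg hd A hA hz1 (y := d - 1) (by
        have : 1 + (d - 1) = d := by omega
        rw [this])
      rw [h1, ← hn', hj] at h2
      have : (h + 2 * j) * d = (h + j) * d + j * d := by ring
      omega
    · exact ⟨1, hz1, h1⟩
  have hall := hch j hj1 (by rw [← hn', hj]) (fun k => RS d A (k * u)) (by
      intro x y
      beta_reduce
      rw [add_mul]
      exact RS_add_le d A _ _) (by
      intro k hk
      exact (hval' _ (Nat.Coprime.mul_left hk hu)).symm) (by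
      beta_reduce
      rw [one_mul]; exact hRu)
  have h1' := hall (d - 1) (by omega) hcop1
  beta_reduce at h1'
  have h2 := RS_neg hd A hA hu (y := (d - 1) * u) (by
    refine ⟨u, ?_⟩
    obtain ⟨k, rfl⟩ : ∃ k, d = k + 1 := ⟨d - 1, by omega⟩
    simp only [Nat.add_sub_cancel]
    ring)
  rw [h1', hRu, ← hn', hj] at h2
  have : (h + 2 * j) * d = h * d + (j * d + j * d) := by ring
  have h3 : 1 * d ≤ h * d := Nat.mul_le_mul_right d h1
  omega

/-! ### Chains -/

/-- multiples of `p` in an interval -/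
lemma card_mult (a L p : ℕ) :
    ((Ioc a (a + L)).filter fun x => p ∣ x).card ≤ L / p + 1 := by
  rcases Nat.eq_zero_or_pos p with rfl | hp
  · have : ((Ioc a (a + L)).filter fun x => 0 ∣ x) = ∅ := by
      ext x
      simp only [mem_filter, mem_Ioc, zero_dvd_iff, notMem_empty, iff_false]
      omega
    rw [this]; simp
  · have h1 := Nat.Ioc_filter_dvd_card_eq_div (a + L) p
    have h2 := Nat.Ioc_filter_dvd_card_eq_div a p
    have h3 : (Ioc 0 (a + L)).filter (fun x => p ∣ x) =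
        (Ioc 0 a).filter (fun x => p ∣ x) ∪ (Ioc a (a + L)).filter (fun x => p ∣ x) := by
      ext x
      simp only [mem_filter, mem_Ioc, mem_union]
      omega
    have h4 : Disjoint ((Ioc 0 a).filter (fun x => p ∣ x))
        ((Ioc a (a + L)).filter (fun x => p ∣ x)) := by
      rw [disjoint_left]
      intro x hx hy
      simp only [mem_filter, mem_Ioc] at hx hy
      omega
    rw [h3, card_union_of_disjoint h4, h2] at h1
    have h5 : (a + L) / p ≤ a / p + L / p + 1 := by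
      rw [Nat.add_div hp]
      split_ifs <;> omega
    omega

/-- a number without the given prime factors in an interval -/
lemma exists_coprime_in (P : Finset ℕ) (a L : ℕ) (hL : ∑ p ∈ P, (L / p + 1) < L) :
    ∃ x, a < x ∧ x ≤ a + L ∧ ∀ p ∈ P, ¬ p ∣ x := by
  by_contra hcon
  push Not at hcon
  have h1 : Ioc a (a + L) ⊆ P.biUnion fun p => (Ioc a (a + L)).filter fun x => p ∣ x := by
    intro x hx
    rw [mem_Ioc] at hx
    obtain ⟨p, hp, hpx⟩ := hcon x hx.1 hx.2
    rw [mem_biUnion]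
    exact ⟨p, hp, mem_filter.mpr ⟨mem_Ioc.mpr hx, hpx⟩⟩
  have h2 := card_le_card h1
  have h3 : (P.biUnion fun p => (Ioc a (a + L)).filter fun x => p ∣ x).card ≤
      ∑ p ∈ P, (L / p + 1) :=
    card_biUnion_le.trans (sum_le_sum fun p _ => card_mult a L p)
  rw [Nat.card_Ioc] at h2
  omega

lemma coprime_of_not {d x : ℕ} {P : Finset ℕ} (hP : ∀ p, p.Prime → p ∣ d → p ∈ P)
    (hx : ∀ p ∈ P, ¬ p ∣ x) : Nat.Coprime x d := by
  apply Nat.Coprime.symm
  apply Nat.coprime_of_dvd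
  intro p hp hpd hpx
  exact hx p (hP p hp hpd) hpx

/-- the gaps -/
def G20 : Finset ℕ := {1, 2, 3, 4, 5, 6, 8, 9, 10, 12, 16, 17, 18, 19, 20}

lemma gap_105 : ∀ r < 105, 5 ≤ (G20.filter fun g => (r + 105 - g) % 3 ≠ 0 ∧
    (r + 105 - g) % 5 ≠ 0 ∧ (r + 105 - g) % 7 ≠ 0).card := by
  decide +kernel

lemma gap_11 : ∀ r < 11, (G20.filter fun g => g % 11 = r).card ≤ 2 := by decide +kernel

lemma gap_13 : ∀ r < 13, (G20.filter fun g => g % 13 = r).card ≤ 2 := by decide +kernel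

lemma gap5 {d : ℕ} (hP : ∀ p, p.Prime → p ∣ d → p ∈ ({3, 5, 7, 11, 13} : Finset ℕ)) {k : ℕ}
    (hk : 21 ≤ k) : ∃ g ∈ G20, Nat.Coprime (k - g) d := by
  have h0 := gap_105 (k % 105) (Nat.mod_lt _ (by norm_num))
  have h11 := gap_11 (k % 11) (Nat.mod_lt _ (by norm_num))
  have h13 := gap_13 (k % 13) (Nat.mod_lt _ (by norm_num))
  have hG : ∀ g ∈ G20, g ≤ 20 := by decide
  by_contra hcon
  push Not at hcon
  set F := G20.filter fun g => (k % 105 + 105 - g) % 3 ≠ 0 ∧
    (k % 105 + 105 - g) % 5 ≠ 0 ∧ (k % 105 + 105 - g) % 7 ≠ 0 with hF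
  have h1 : F ⊆ (G20.filter fun g => g % 11 = k % 11) ∪ (G20.filter fun g => g % 13 = k % 13) := by
    intro g hg
    rw [hF, mem_filter] at hg
    obtain ⟨hg, h3, h5, h7⟩ := hg
    have hg20 := hG g hg
    have key : ∀ n, n ∣ 105 → (k % 105 + 105 - g) % n = (k - g) % n := by
      intro n hn
      obtain ⟨w, hw⟩ := hn
      have h1 := Nat.div_add_mod k 105
      have h2 : (k - g) + 105 = (k % 105 + 105 - g) + 105 * (k / 105) := by omega
      have h3 : ((k - g) + n * w) % n = ((k % 105 + 105 - g) + n * (w * (k / 105))) % n := by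
        rw [← mul_assoc, ← hw, h2]
      rw [Nat.add_mul_mod_self_left, Nat.add_mul_mod_self_left] at h3
      exact h3.symm
    rw [key 3 (by norm_num)] at h3
    rw [key 5 (by norm_num)] at h5
    rw [key 7 (by norm_num)] at h7
    by_contra hcon2
    rw [mem_union, not_or, mem_filter, mem_filter] at hcon2
    apply hcon g hg
    apply coprime_of_not hP
    intro p hp
    simp only [mem_insert, mem_singleton] at hp
    rcases hp with rfl | rfl | rfl | rfl | rfl
    · exact fun h => h3 (Nat.mod_eq_zero_of_dvd h)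
    · exact fun h => h5 (Nat.mod_eq_zero_of_dvd h)
    · exact fun h => h7 (Nat.mod_eq_zero_of_dvd h)
    · intro h
      apply hcon2.1
      refine ⟨hg, ?_⟩
      omega
    · intro h
      apply hcon2.2
      refine ⟨hg, ?_⟩
      omega
  have h2 := (card_le_card h1).trans (card_union_le _ _)
  omega

lemma chain_small {d h j : ℕ} (hodd : d % 2 = 1)
    (hP : ∀ p, p.Prime → p ∣ d → p ∈ ({3, 5, 7, 11, 13} : Finset ℕ)) (hj : 2 * j < h) :
    Chain d h j := by
  intro R hadd hval hR1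
  have hd0 : 0 < d := by omega
  obtain ⟨J, hJ⟩ : ∃ J, J = j * d := ⟨_, rfl⟩
  obtain ⟨J2, hJ2⟩ : ∃ J2, J2 = (h + j) * d := ⟨_, rfl⟩
  have h3J : 3 * J < J2 := by
    have h1 : (3 * j + 1) * d ≤ (h + j) * d := Nat.mul_le_mul_right d (by omega)
    have h2 : (3 * j + 1) * d = 3 * (j * d) + d := by ring
    omega
  rw [← hJ] at hR1 ⊢
  rw [← hJ, ← hJ2] at hval
  clear hJ hJ2
  have low : ∀ n, R n ≤ 3 * J → Nat.Coprime n d → R n = J := by
    intro n h1 h2
    rcases hval n h2 with h3 | h3 <;> omega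
  have h2c := two_coprime hodd
  have c4 : Nat.Coprime 4 d := by
    rw [show 4 = 2 * 2 by norm_num]; exact Nat.Coprime.mul_left h2c h2c
  have c8 : Nat.Coprime 8 d := by
    rw [show 8 = 4 * 2 by norm_num]; exact Nat.Coprime.mul_left c4 h2c
  have c16 : Nat.Coprime 16 d := by
    rw [show 16 = 8 * 2 by norm_num]; exact Nat.Coprime.mul_left c8 h2c
  have r2 : R 2 = J := low 2 (by have := hadd 1 1; norm_num at this; omega) h2c
  have r4 : R 4 = J := low 4 (by have := hadd 2 2; norm_num at this; omega) c4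
  have r8 : R 8 = J := low 8 (by have := hadd 4 4; norm_num at this; omega) c8
  have r16 : R 16 = J := low 16 (by have := hadd 8 8; norm_num at this; omega) c16
  have r3 : R 3 ≤ 2 * J := by have := hadd 1 2; norm_num at this; omega
  have r5 : R 5 ≤ 2 * J := by have := hadd 1 4; norm_num at this; omega
  have r6 : R 6 ≤ 2 * J := by have := hadd 2 4; norm_num at this; omega
  have r7 : R 7 ≤ 3 * J := by have := hadd 1 6; norm_num at this; omega
  have r9 : R 9 ≤ 2 * J := by have := hadd 1 8; norm_num at this; omega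
  have r10 : R 10 ≤ 2 * J := by have := hadd 2 8; norm_num at this; omega
  have r11 : R 11 ≤ 3 * J := by have := hadd 3 8; norm_num at this; omega
  have r12 : R 12 ≤ 2 * J := by have := hadd 4 8; norm_num at this; omega
  have r13 : R 13 ≤ 3 * J := by have := hadd 1 12; norm_num at this; omega
  have r14 : R 14 ≤ 3 * J := by have := hadd 2 12; norm_num at this; omega
  intro k
  induction k using Nat.strong_induction_on with
  | _ k ih =>
  intro hk1 hkd
  have r17 : R 17 ≤ 2 * J := by have := hadd 1 16; norm_num at this; omega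
  have r18 : R 18 ≤ 2 * J := by have := hadd 2 16; norm_num at this; omega
  have r20 : R 20 ≤ 2 * J := by have := hadd 4 16; norm_num at this; omega
  have c19 : Nat.Coprime 19 d := by
    apply coprime_of_not hP
    intro p hp
    simp only [mem_insert, mem_singleton] at hp
    rcases hp with rfl | rfl | rfl | rfl | rfl <;> norm_num
  have r19 : R 19 = J := low 19 (by have := hadd 3 16; norm_num at this; omega) c19
  rcases Nat.lt_or_ge k 21 with h8 | h8
  · apply low _ _ hkd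
    have h15 : k = 15 → R 15 ≤ 3 * J := by
      rintro rfl
      have c5 : Nat.Coprime 5 d := Nat.Coprime.coprime_dvd_left (by norm_num) hkd
      have e5 := low 5 (by omega) c5
      have := hadd 5 10
      norm_num at this
      omega
    interval_cases k
    all_goals first
      | omega
      | exact h15 rfl
  · obtain ⟨g, hg, hgc⟩ := gap5 hP h8
    have hg16 : 1 ≤ g ∧ g ≤ 20 ∧ R g ≤ 2 * J := by
      simp only [G20, mem_insert, mem_singleton] at hg
      rcases hg with rfl | rfl | rfl | rfl | rfl | rfl | rfl | rfl | rfl | rfl | rfl | rfl | rfl |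
        rfl | rfl
      all_goals refine ⟨by norm_num, by norm_num, by omega⟩
    have h1 := ih (k - g) (by omega) (by omega) hgc
    have h2 := hadd (k - g) g
    rw [show k - g + g = k by omega] at h2
    exact low _ (by omega) hkd

lemma chain_nine {d j : ℕ} (_hodd : d % 2 = 1)
    (hP : ∀ p, p.Prime → p ∣ d → p ∈ ({3, 5, 7, 11, 13, 17} : Finset ℕ)) (hj : j ≤ 2) :
    Chain d 9 j := by
  intro R hadd hval hR1
  have hd0 : 0 < d := by omega
  obtain ⟨J, hJ⟩ : ∃ J, J = j * d := ⟨_, rfl⟩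
  obtain ⟨J2, hJ2⟩ : ∃ J2, J2 = (9 + j) * d := ⟨_, rfl⟩
  have h3J : 5 * J < J2 := by
    have h1 : (5 * j + 1) * d ≤ (9 + j) * d := Nat.mul_le_mul_right d (by omega)
    have h2 : (5 * j + 1) * d = 5 * (j * d) + d := by ring
    omega
  rw [← hJ] at hR1 ⊢
  rw [← hJ, ← hJ2] at hval
  clear hJ hJ2
  have low : ∀ n, R n ≤ 5 * J → Nat.Coprime n d → R n = J := by
    intro n h1 h2
    rcases hval n h2 with h3 | h3 <;> omega
  have cop : ∀ n, (∀ p ∈ ({3, 5, 7, 11, 13, 17} : Finset ℕ), ¬ p ∣ n) → Nat.Coprime n d :=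
    fun n h => coprime_of_not hP h
  have r1 : R 1 ≤ 1 * J := by rw [one_mul]; exact hR1.le
  have lo : ∀ n e, e ≤ 5 → R n ≤ e * J → Nat.Coprime n d → R n ≤ 1 * J := by
    intro n e he h1 h2
    rw [one_mul]
    exact (low n (h1.trans (Nat.mul_le_mul_right _ he)) h2).le
  have st : ∀ x y n e f v, x + y = n → e + f = v → R x ≤ e * J → R y ≤ f * J → R n ≤ v * J := by
    intro x y n e f v h1 h2 h3 h4
    rw [← h1, ← h2, add_mul]
    exact (hadd x y).trans (add_le_add h3 h4)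
  have r2 : R 2 ≤ 1 * J := lo 2 2 (by norm_num) (st 1 1 2 1 1 2 rfl rfl r1 r1) (cop 2 (by norm_num))
  have r3 : R 3 ≤ 2 * J := st 1 2 3 1 1 2 rfl rfl r1 r2
  have r4 : R 4 ≤ 1 * J := lo 4 2 (by norm_num) (st 2 2 4 1 1 2 rfl rfl r2 r2) (cop 4 (by norm_num))
  have r5 : R 5 ≤ 2 * J := st 1 4 5 1 1 2 rfl rfl r1 r4
  have r6 : R 6 ≤ 2 * J := st 2 4 6 1 1 2 rfl rfl r2 r4
  have r7 : R 7 ≤ 3 * J := st 1 6 7 1 2 3 rfl rfl r1 r6
  have r8 : R 8 ≤ 1 * J := lo 8 2 (by norm_num) (st 4 4 8 1 1 2 rfl rfl r4 r4) (cop 8 (by norm_num))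
  have r9 : R 9 ≤ 2 * J := st 1 8 9 1 1 2 rfl rfl r1 r8
  have r10 : R 10 ≤ 2 * J := st 2 8 10 1 1 2 rfl rfl r2 r8
  have r11 : R 11 ≤ 3 * J := st 1 10 11 1 2 3 rfl rfl r1 r10
  have r12 : R 12 ≤ 2 * J := st 4 8 12 1 1 2 rfl rfl r4 r8
  have r13 : R 13 ≤ 3 * J := st 1 12 13 1 2 3 rfl rfl r1 r12
  have r14 : R 14 ≤ 3 * J := st 2 12 14 1 2 3 rfl rfl r2 r12
  have r15 : R 15 ≤ 4 * J := st 1 14 15 1 3 4 rfl rfl r1 r14
  have r16 : R 16 ≤ 1 * J := lo 16 2 (by norm_num) (st 8 8 16 1 1 2 rfl rfl r8 r8) (cop 16 (by norm_num))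
  have r17 : R 17 ≤ 2 * J := st 1 16 17 1 1 2 rfl rfl r1 r16
  have r18 : R 18 ≤ 2 * J := st 2 16 18 1 1 2 rfl rfl r2 r16
  have r19 : R 19 ≤ 1 * J := lo 19 3 (by norm_num) (st 1 18 19 1 2 3 rfl rfl r1 r18) (cop 19 (by norm_num))
  have r20 : R 20 ≤ 2 * J := st 1 19 20 1 1 2 rfl rfl r1 r19
  have r21 : R 21 ≤ 2 * J := st 2 19 21 1 1 2 rfl rfl r2 r19
  have r22 : R 22 ≤ 3 * J := st 1 21 22 1 2 3 rfl rfl r1 r21
  have r23 : R 23 ≤ 1 * J := lo 23 2 (by norm_num) (st 4 19 23 1 1 2 rfl rfl r4 r19) (cop 23 (by norm_num))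
  have r24 : R 24 ≤ 2 * J := st 1 23 24 1 1 2 rfl rfl r1 r23
  have r25 : R 25 ≤ 2 * J := st 2 23 25 1 1 2 rfl rfl r2 r23
  have r26 : R 26 ≤ 3 * J := st 1 25 26 1 2 3 rfl rfl r1 r25
  have r27 : R 27 ≤ 2 * J := st 4 23 27 1 1 2 rfl rfl r4 r23
  have r28 : R 28 ≤ 3 * J := st 1 27 28 1 2 3 rfl rfl r1 r27
  have r29 : R 29 ≤ 1 * J := lo 29 3 (by norm_num) (st 2 27 29 1 2 3 rfl rfl r2 r27) (cop 29 (by norm_num))
  have r30 : R 30 ≤ 2 * J := st 1 29 30 1 1 2 rfl rfl r1 r29
  have r31 : R 31 ≤ 1 * J := lo 31 2 (by norm_num) (st 2 29 31 1 1 2 rfl rfl r2 r29) (cop 31 (by norm_num))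
  have r32 : R 32 ≤ 1 * J := lo 32 2 (by norm_num) (st 1 31 32 1 1 2 rfl rfl r1 r31) (cop 32 (by norm_num))
  have r33 : R 33 ≤ 2 * J := st 1 32 33 1 1 2 rfl rfl r1 r32
  have r34 : R 34 ≤ 2 * J := st 2 32 34 1 1 2 rfl rfl r2 r32
  have r35 : R 35 ≤ 2 * J := st 4 31 35 1 1 2 rfl rfl r4 r31
  have r36 : R 36 ≤ 2 * J := st 4 32 36 1 1 2 rfl rfl r4 r32
  have r37 : R 37 ≤ 1 * J := lo 37 2 (by norm_num) (st 8 29 37 1 1 2 rfl rfl r8 r29) (cop 37 (by norm_num))
  have r38 : R 38 ≤ 1 * J := lo 38 2 (by norm_num) (st 1 37 38 1 1 2 rfl rfl r1 r37) (cop 38 (by norm_num))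
  have r39 : R 39 ≤ 2 * J := st 1 38 39 1 1 2 rfl rfl r1 r38
  have r40 : R 40 ≤ 2 * J := st 2 38 40 1 1 2 rfl rfl r2 r38
  have r41 : R 41 ≤ 1 * J := lo 41 2 (by norm_num) (st 4 37 41 1 1 2 rfl rfl r4 r37) (cop 41 (by norm_num))
  have r42 : R 42 ≤ 2 * J := st 1 41 42 1 1 2 rfl rfl r1 r41
  have r43 : R 43 ≤ 1 * J := lo 43 2 (by norm_num) (st 2 41 43 1 1 2 rfl rfl r2 r41) (cop 43 (by norm_num))
  have r44 : R 44 ≤ 2 * J := st 1 43 44 1 1 2 rfl rfl r1 r43
  have r45 : R 45 ≤ 2 * J := st 2 43 45 1 1 2 rfl rfl r2 r43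
  have r46 : R 46 ≤ 1 * J := lo 46 2 (by norm_num) (st 8 38 46 1 1 2 rfl rfl r8 r38) (cop 46 (by norm_num))
  have r47 : R 47 ≤ 1 * J := lo 47 2 (by norm_num) (st 1 46 47 1 1 2 rfl rfl r1 r46) (cop 47 (by norm_num))
  have r48 : R 48 ≤ 2 * J := st 1 47 48 1 1 2 rfl rfl r1 r47
  have r49 : R 49 ≤ 2 * J := st 2 47 49 1 1 2 rfl rfl r2 r47
  have r50 : R 50 ≤ 2 * J := st 4 46 50 1 1 2 rfl rfl r4 r46
  have r51 : R 51 ≤ 2 * J := st 4 47 51 1 1 2 rfl rfl r4 r47
  have r52 : R 52 ≤ 2 * J := st 23 29 52 1 1 2 rfl rfl r23 r29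
  have r53 : R 53 ≤ 1 * J := lo 53 2 (by norm_num) (st 16 37 53 1 1 2 rfl rfl r16 r37) (cop 53 (by norm_num))
  have r54 : R 54 ≤ 2 * J := st 1 53 54 1 1 2 rfl rfl r1 r53
  have r55 : R 55 ≤ 2 * J := st 2 53 55 1 1 2 rfl rfl r2 r53
  have r56 : R 56 ≤ 2 * J := st 19 37 56 1 1 2 rfl rfl r19 r37
  have r57 : R 57 ≤ 2 * J := st 4 53 57 1 1 2 rfl rfl r4 r53
  have r58 : R 58 ≤ 1 * J := lo 58 2 (by norm_num) (st 29 29 58 1 1 2 rfl rfl r29 r29) (cop 58 (by norm_num))
  have r59 : R 59 ≤ 1 * J := lo 59 2 (by norm_num) (st 1 58 59 1 1 2 rfl rfl r1 r58) (cop 59 (by norm_num))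
  have r60 : R 60 ≤ 2 * J := st 1 59 60 1 1 2 rfl rfl r1 r59
  have r61 : R 61 ≤ 1 * J := lo 61 2 (by norm_num) (st 2 59 61 1 1 2 rfl rfl r2 r59) (cop 61 (by norm_num))
  have r62 : R 62 ≤ 1 * J := lo 62 2 (by norm_num) (st 1 61 62 1 1 2 rfl rfl r1 r61) (cop 62 (by norm_num))
  have r63 : R 63 ≤ 2 * J := st 1 62 63 1 1 2 rfl rfl r1 r62
  have s1 : R 1 ≤ 4 * J := r1.trans (Nat.mul_le_mul_right _ (by norm_num))
  have s2 : R 2 ≤ 4 * J := r2.trans (Nat.mul_le_mul_right _ (by norm_num))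
  have s3 : R 3 ≤ 4 * J := r3.trans (Nat.mul_le_mul_right _ (by norm_num))
  have s4 : R 4 ≤ 4 * J := r4.trans (Nat.mul_le_mul_right _ (by norm_num))
  have s5 : R 5 ≤ 4 * J := r5.trans (Nat.mul_le_mul_right _ (by norm_num))
  have s6 : R 6 ≤ 4 * J := r6.trans (Nat.mul_le_mul_right _ (by norm_num))
  have s7 : R 7 ≤ 4 * J := r7.trans (Nat.mul_le_mul_right _ (by norm_num))
  have s8 : R 8 ≤ 4 * J := r8.trans (Nat.mul_le_mul_right _ (by norm_num))
  have s9 : R 9 ≤ 4 * J := r9.trans (Nat.mul_le_mul_right _ (by norm_num))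
  have s10 : R 10 ≤ 4 * J := r10.trans (Nat.mul_le_mul_right _ (by norm_num))
  have s11 : R 11 ≤ 4 * J := r11.trans (Nat.mul_le_mul_right _ (by norm_num))
  have s12 : R 12 ≤ 4 * J := r12.trans (Nat.mul_le_mul_right _ (by norm_num))
  have s13 : R 13 ≤ 4 * J := r13.trans (Nat.mul_le_mul_right _ (by norm_num))
  have s14 : R 14 ≤ 4 * J := r14.trans (Nat.mul_le_mul_right _ (by norm_num))
  have s15 : R 15 ≤ 4 * J := r15.trans (Nat.mul_le_mul_right _ (by norm_num))
  have s16 : R 16 ≤ 4 * J := r16.trans (Nat.mul_le_mul_right _ (by norm_num))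
  have s17 : R 17 ≤ 4 * J := r17.trans (Nat.mul_le_mul_right _ (by norm_num))
  have s18 : R 18 ≤ 4 * J := r18.trans (Nat.mul_le_mul_right _ (by norm_num))
  have s19 : R 19 ≤ 4 * J := r19.trans (Nat.mul_le_mul_right _ (by norm_num))
  have s20 : R 20 ≤ 4 * J := r20.trans (Nat.mul_le_mul_right _ (by norm_num))
  have s21 : R 21 ≤ 4 * J := r21.trans (Nat.mul_le_mul_right _ (by norm_num))
  have s22 : R 22 ≤ 4 * J := r22.trans (Nat.mul_le_mul_right _ (by norm_num))
  have s23 : R 23 ≤ 4 * J := r23.trans (Nat.mul_le_mul_right _ (by norm_num))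
  have s24 : R 24 ≤ 4 * J := r24.trans (Nat.mul_le_mul_right _ (by norm_num))
  have s25 : R 25 ≤ 4 * J := r25.trans (Nat.mul_le_mul_right _ (by norm_num))
  have s26 : R 26 ≤ 4 * J := r26.trans (Nat.mul_le_mul_right _ (by norm_num))
  have s27 : R 27 ≤ 4 * J := r27.trans (Nat.mul_le_mul_right _ (by norm_num))
  have s28 : R 28 ≤ 4 * J := r28.trans (Nat.mul_le_mul_right _ (by norm_num))
  have s29 : R 29 ≤ 4 * J := r29.trans (Nat.mul_le_mul_right _ (by norm_num))
  have s30 : R 30 ≤ 4 * J := r30.trans (Nat.mul_le_mul_right _ (by norm_num))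
  have s31 : R 31 ≤ 4 * J := r31.trans (Nat.mul_le_mul_right _ (by norm_num))
  have s32 : R 32 ≤ 4 * J := r32.trans (Nat.mul_le_mul_right _ (by norm_num))
  have s33 : R 33 ≤ 4 * J := r33.trans (Nat.mul_le_mul_right _ (by norm_num))
  have s34 : R 34 ≤ 4 * J := r34.trans (Nat.mul_le_mul_right _ (by norm_num))
  have s35 : R 35 ≤ 4 * J := r35.trans (Nat.mul_le_mul_right _ (by norm_num))
  have s36 : R 36 ≤ 4 * J := r36.trans (Nat.mul_le_mul_right _ (by norm_num))
  have s37 : R 37 ≤ 4 * J := r37.trans (Nat.mul_le_mul_right _ (by norm_num))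
  have s38 : R 38 ≤ 4 * J := r38.trans (Nat.mul_le_mul_right _ (by norm_num))
  have s39 : R 39 ≤ 4 * J := r39.trans (Nat.mul_le_mul_right _ (by norm_num))
  have s40 : R 40 ≤ 4 * J := r40.trans (Nat.mul_le_mul_right _ (by norm_num))
  have s41 : R 41 ≤ 4 * J := r41.trans (Nat.mul_le_mul_right _ (by norm_num))
  have s42 : R 42 ≤ 4 * J := r42.trans (Nat.mul_le_mul_right _ (by norm_num))
  have s43 : R 43 ≤ 4 * J := r43.trans (Nat.mul_le_mul_right _ (by norm_num))
  have s44 : R 44 ≤ 4 * J := r44.trans (Nat.mul_le_mul_right _ (by norm_num))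
  have s45 : R 45 ≤ 4 * J := r45.trans (Nat.mul_le_mul_right _ (by norm_num))
  have s46 : R 46 ≤ 4 * J := r46.trans (Nat.mul_le_mul_right _ (by norm_num))
  have s47 : R 47 ≤ 4 * J := r47.trans (Nat.mul_le_mul_right _ (by norm_num))
  have s48 : R 48 ≤ 4 * J := r48.trans (Nat.mul_le_mul_right _ (by norm_num))
  have s49 : R 49 ≤ 4 * J := r49.trans (Nat.mul_le_mul_right _ (by norm_num))
  have s50 : R 50 ≤ 4 * J := r50.trans (Nat.mul_le_mul_right _ (by norm_num))
  have s51 : R 51 ≤ 4 * J := r51.trans (Nat.mul_le_mul_right _ (by norm_num))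
  have s52 : R 52 ≤ 4 * J := r52.trans (Nat.mul_le_mul_right _ (by norm_num))
  have s53 : R 53 ≤ 4 * J := r53.trans (Nat.mul_le_mul_right _ (by norm_num))
  have s54 : R 54 ≤ 4 * J := r54.trans (Nat.mul_le_mul_right _ (by norm_num))
  have s55 : R 55 ≤ 4 * J := r55.trans (Nat.mul_le_mul_right _ (by norm_num))
  have s56 : R 56 ≤ 4 * J := r56.trans (Nat.mul_le_mul_right _ (by norm_num))
  have s57 : R 57 ≤ 4 * J := r57.trans (Nat.mul_le_mul_right _ (by norm_num))
  have s58 : R 58 ≤ 4 * J := r58.trans (Nat.mul_le_mul_right _ (by norm_num))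
  have s59 : R 59 ≤ 4 * J := r59.trans (Nat.mul_le_mul_right _ (by norm_num))
  have s60 : R 60 ≤ 4 * J := r60.trans (Nat.mul_le_mul_right _ (by norm_num))
  have s61 : R 61 ≤ 4 * J := r61.trans (Nat.mul_le_mul_right _ (by norm_num))
  have s62 : R 62 ≤ 4 * J := r62.trans (Nat.mul_le_mul_right _ (by norm_num))
  have s63 : R 63 ≤ 4 * J := r63.trans (Nat.mul_le_mul_right _ (by norm_num))
  intro k
  induction k using Nat.strong_induction_on with
  | _ k ih =>
  intro hk1 hkd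
  have hsmall : ∀ g, 1 ≤ g → g ≤ 63 → R g ≤ 4 * J := by
    intro g hg1 hg2
    clear ih low lo st hval hadd
    interval_cases g <;> assumption
  rcases Nat.lt_or_ge k 64 with h8 | h8
  · exact low _ ((hsmall k hk1 (Nat.le_of_lt_succ h8)).trans (Nat.mul_le_mul_right _ (by norm_num)))
      hkd
  · clear r1 r2 r3 r4 r5 r6 r7 r8 r9 r10 r11 r12 r13 r14 r15 r16 r17 r18 r19 r20 r21 r22 r23 r24 r25
    clear r26 r27 r28 r29 r30 r31 r32 r33 r34 r35 r36 r37 r38 r39 r40 r41 r42 r43 r44 r45 r46 r47 r48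
    clear r49 r50 r51 r52 r53 r54 r55 r56 r57 r58 r59 r60 r61 r62 r63
    clear s1 s2 s3 s4 s5 s6 s7 s8 s9 s10 s11 s12 s13 s14 s15 s16 s17 s18 s19 s20 s21 s22 s23 s24 s25
    clear s26 s27 s28 s29 s30 s31 s32 s33 s34 s35 s36 s37 s38 s39 s40 s41 s42 s43 s44 s45 s46 s47 s48
    clear s49 s50 s51 s52 s53 s54 s55 s56 s57 s58 s59 s60 s61 s62 s63
    obtain ⟨x, hx1, hx2, hx3⟩ := exists_coprime_in {3, 5, 7, 11, 13, 17} (k - 64) 63 (by decide)
    have hxc := coprime_of_not hP hx3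
    have h1 := ih x (by omega) (by omega) hxc
    have h2 := hadd x (k - x)
    rw [show x + (k - x) = k by omega] at h2
    have h3 := hsmall (k - x) (by omega) (by omega)
    exact low _ (by omega) hkd

lemma chain_eleven {d j : ℕ} (hodd : d % 2 = 1)
    (hP : ∀ p, p.Prime → p ∣ d → p ∈ ({3, 5, 7, 11, 13, 17, 19} : Finset ℕ)) (hj : j ≤ 1) :
    Chain d 11 j := by
  intro R hadd hval hR1
  have hd0 : 0 < d := by omega
  obtain ⟨J, hJ⟩ : ∃ J, J = j * d := ⟨_, rfl⟩
  obtain ⟨J2, hJ2⟩ : ∃ J2, J2 = (11 + j) * d := ⟨_, rfl⟩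
  have h3J : 9 * J < J2 := by
    have h1 : (9 * j + 1) * d ≤ (11 + j) * d := Nat.mul_le_mul_right d (by omega)
    have h2 : (9 * j + 1) * d = 9 * (j * d) + d := by ring
    omega
  rw [← hJ] at hR1 ⊢
  rw [← hJ, ← hJ2] at hval
  clear hJ hJ2
  have low : ∀ n, R n ≤ 9 * J → Nat.Coprime n d → R n = J := by
    intro n h1 h2
    rcases hval n h2 with h3 | h3 <;> omega
  have h2c := two_coprime hodd
  have hpow : ∀ e, Nat.Coprime (2 ^ e) d := fun e => Nat.Coprime.pow_left _ h2c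
  have rpow : ∀ e, R (2 ^ e) = J := by
    intro e
    induction e with
    | zero => simpa using hR1
    | succ e ihe =>
      have h1 := hadd (2 ^ e) (2 ^ e)
      rw [show 2 ^ e + 2 ^ e = 2 ^ (e + 1) by ring] at h1
      exact low _ (by omega) (hpow _)
  have bits : ∀ n e g, 1 ≤ g → g < 2 ^ n → R (2 ^ e * g) ≤ n * J := by
    intro n
    induction n with
    | zero => intro e g h1 h2; rw [pow_zero] at h2; omega
    | succ n ihn =>
      intro e g h1 h2
      have h3 : (n + 1) * J = n * J + J := by ring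
      rw [pow_succ] at h2
      rcases Nat.lt_or_ge g 2 with h4 | h4
      · have : g = 1 := by omega
        rw [this, mul_one, rpow e]
        have : 0 ≤ n * J := Nat.zero_le _
        omega
      · have h5 := ihn (e + 1) (g / 2) (by omega) (by omega)
        rcases Nat.mod_two_eq_zero_or_one g with h6 | h6
        · have h7 : 2 ^ e * g = 2 ^ (e + 1) * (g / 2) := by
            have : g = 2 * (g / 2) := by omega
            conv_lhs => rw [this]
            ring
          rw [h7]; omega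
        · have h7 : 2 ^ e * g = 2 ^ (e + 1) * (g / 2) + 2 ^ e := by
            have : g = 2 * (g / 2) + 1 := by omega
            conv_lhs => rw [this]
            ring
          rw [h7]
          have h8 := hadd (2 ^ (e + 1) * (g / 2)) (2 ^ e)
          rw [rpow e] at h8
          omega
  have hsmall : ∀ g, 1 ≤ g → g ≤ 255 → R g ≤ 8 * J := by
    intro g hg1 hg2
    have := bits 8 0 g hg1 (by norm_num; omega)
    simpa using this
  intro k
  induction k using Nat.strong_induction_on with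
  | _ k ih =>
  intro hk1 hkd
  rcases Nat.lt_or_ge k 256 with h8 | h8
  · exact low _ (by have := hsmall k hk1 (by omega); omega) hkd
  · obtain ⟨x, hx1, hx2, hx3⟩ := exists_coprime_in {3, 5, 7, 11, 13, 17, 19} (k - 256) 255
      (by decide)
    have hxc := coprime_of_not hP hx3
    have h1 := ih x (by omega) (by omega) hxc
    have h2 := hadd x (k - x)
    rw [show x + (k - x) = k by omega] at h2
    have h3 := hsmall (k - x) (by omega) (by omega)
    exact low _ (by omega) hkd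

end Pool.Agent.U270.FT14
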