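import Pool.Agent.N993.Det

/-!
# The top classes

A system of the right parity whose restrictions to all proper subsets are images is an image, or
becomes one after subtracting a product of differences of point masses.
-/

set_option linter.unusedSectionVars false

namespace Pool.Agent.U270.FT14

open Finset Pool.Agent.N993 Pool.Agent.N993.Dat

variable {ι : Type} [DecidableEq ι] {D : Dat ι}

/-- the local factor -/
def zt (w : D.GG) (i : ι) (o : Option (D.G i)) : ℤ :=
  match o with
  | none => 0
  | some v => (if v = w i then 1 else 0) - (if v = D.c i * w i then 1 else 0)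

/-- the product of differences of point masses -/
def top (w : D.GG) (S : Finset ι) (x : D.Pt) : ℤ := ∏ i ∈ S, zt w i (x i)

lemma zt_sum (w : D.GG) (i : ι) : ∑ u : D.G i, zt w i (some u) = 0 := by
  simp [zt, Finset.sum_sub_distrib]

lemma zt_c (w : D.GG) (i : ι) (u : D.G i) : zt w i (some (D.c i * u)) = - zt w i (some u) := by
  have hcc : ∀ v : D.G i, D.c i * (D.c i * v) = v := fun v => by
    rw [← mul_assoc, D.hc i, one_mul]
  have h1 : (D.c i * u = w i) ↔ (u = D.c i * w i) := by
    constructor
    · intro h; rw [← h, hcc]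
    · intro h; rw [h, hcc]
  have h2 : (D.c i * u = D.c i * w i) ↔ (u = w i) := mul_right_inj _
  simp only [zt, h1, h2]
  ring

lemma top_none {w : D.GG} {S : Finset ι} {x : D.Pt} {i : ι} (hi : i ∈ S) (hx : x i = none) :
    top w S x = 0 := by
  unfold top
  apply Finset.prod_eq_zero hi
  rw [hx]; rfl

lemma top_act (w : D.GG) (S : Finset ι) (x : D.Pt) :
    top w S (D.act D.c x) = (-1) ^ S.card * top w S x := by
  unfold top
  rw [← Finset.prod_const, ← Finset.prod_mul_distrib]
  refine Finset.prod_congr rfl fun i _ => ?_
  cases hxi : x i with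
  | none => rw [act_apply_none hxi]; simp [zt]
  | some u => rw [act_apply_some hxi, zt_c]; ring

lemma top_update {w : D.GG} {S : Finset ι} {x : D.Pt} {i : ι} (hi : i ∉ S) (u : D.G i) :
    top w (insert i S) (Function.update x i (some u)) = zt w i (some u) * top w S x := by
  unfold top
  rw [Finset.prod_insert hi, Function.update_self]
  congr 1
  refine Finset.prod_congr rfl fun j hj => ?_
  have hji : j ≠ i := fun e => hi (e ▸ hj)
  rw [Function.update_of_ne hji]

lemma top_sum {w : D.GG} {S : Finset ι} {x : D.Pt} {i : ι} (hi : i ∈ S) :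
    ∑ u : D.G i, top w S (Function.update x i (some u)) = 0 := by
  have hS : insert i (S.erase i) = S := insert_erase hi
  rw [← hS]
  simp only [top_update (notMem_erase i S)]
  rw [← Finset.sum_mul, zt_sum, zero_mul]

lemma top_isD (w : D.GG) (S : Finset ι) : D.IsD S (top w S) := by
  intro i hi x _ hxi
  rw [top_sum hi, top_none hi (act_apply_none hxi), top_none hi (act_apply_none hxi)]
  simp

/-- the part at the index `i` -/
def hpart (w : D.GG) (S : Finset ι) (i : ι) : D.Pt → D.Ind i ℤ := fun x =>
  ⟨fun u => top w S x * (if u = w i then 1 else 0)⟩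

lemma hpart_isD (w : D.GG) (S : Finset ι) (i : ι) : D.IsD S (hpart w S i) := by
  intro j hj x _ hxj
  apply Ind.ext
  funext u
  rw [ind_sum, ind_sub, ind_smul, ind_smul]
  simp only [hpart]
  rw [← Finset.sum_mul, top_sum hj, top_none hj (act_apply_none hxj),
    top_none hj (act_apply_none hxj)]
  simp

theorem top_or (hfree : ∀ i, D.c i ≠ 1) (w : D.GG) (S : Finset ι) : ∀ (θ : ℤ)
    (_ : θ = (-1) ^ S.card) (f : D.Pt → ℤ) (_ : D.IsD S f) (_ : D.Ty θ S f)
    (_ : ∀ T, T ⊂ S → θ = (-1) ^ T.card → D.Img θ T f),
    D.Img θ S f ∨ D.Img θ S (f - top w S) := by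
  induction S using Finset.induction_on with
  | empty =>
    intro θ hθ f _ _ _
    have hθ1 : θ = 1 := by simpa using hθ
    subst hθ1
    have hx0 : ∀ x : D.Pt, D.Supp ∅ x → x = fun _ => none := fun x hx =>
      funext fun i => hx i (notMem_empty _)
    have main : ∀ g : D.Pt → ℤ, (2 : ℤ) ∣ g (fun _ => none) → D.Img 1 ∅ g := by
      intro g hg
      obtain ⟨k, hk⟩ := hg
      refine ⟨fun _ => k, fun i hi => absurd hi (notMem_empty _), ?_⟩
      intro x hx
      rw [hx0 x hx, hk, Pi.add_apply, Pi.smul_apply, T_triv (triv_int D)]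
      simp
      ring
    by_cases h : (2 : ℤ) ∣ f (fun _ => none)
    · exact Or.inl (main f h)
    · right
      apply main
      rw [Pi.sub_apply]
      have : top w (∅ : Finset ι) (fun _ => none : D.Pt) = 1 := by simp [top]
      rw [this]
      omega
  | insert i S hi ih =>
    intro θ hθ f hf hty h
    have hcard : (insert i S).card = S.card + 1 := card_insert_of_notMem hi
    have hθS : -θ = (-1) ^ S.card := by
      rw [hθ, hcard, pow_succ]; ring
    have hθ1 : θ * θ = 1 := by
      rw [hθ]
      rcases neg_one_pow_eq_or ℤ (insert i S).card with h1 | h1 <;> rw [h1] <;> norm_num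
    have hθ' : (-θ) * (-θ) = 1 := by rw [neg_mul_neg, hθ1]
    have hfS : D.IsD S f := hf.mono (subset_insert _ _)
    have htS : D.Ty θ S f := hty.mono (subset_insert _ _)
    obtain ⟨g0, hg0, hg0'⟩ := detect hfree S θ hθ1 f hfS htS (fun T hT hp =>
      h T (lt_of_le_of_lt hT (ssubset_insert hi)) hp)
    obtain ⟨g1, hg1, hg1'⟩ := tt hfree S (D.Ind i ℤ) (hT_ind i (hfree i)) θ hθ1 (D.un i f)
      (hf.un hi) hty.un
    have hd : D.IsD S (dlt i g0 g1) := dlt_isD hg0 hg1
    have hdt : D.Ty (-θ) S (dlt i g0 g1) := dlt_ty hi hθ1 hf hg0' hg1'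
    have hsub : ∀ T, T ⊂ S → -θ = (-1) ^ T.card → D.Img (-θ) T (dlt i g0 g1) := by
      intro T hT hp
      have hTS := hT.subset
      have hiT : i ∉ T := fun h => hi (hTS h)
      refine img_dlt hfree hiT hθ1 (hg0.mono hTS) (hg0'.mono hTS) (hg1.mono hTS) (hg1'.mono hTS) ?_
      refine h _ ?_ ?_
      · rw [ssubset_iff_subset_ne]
        refine ⟨insert_subset_insert _ hTS, fun e => ?_⟩
        have h1 : T.card + 1 = S.card + 1 := by
          rw [← card_insert_of_notMem hiT, ← card_insert_of_notMem hi, e]
        have h2 := card_lt_card hT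
        omega
      · rw [card_insert_of_notMem hiT, pow_succ, ← hp]; ring
    rcases ih (-θ) hθS (dlt i g0 g1) hd hdt hsub with h1 | h1
    · left
      exact (img_iff hfree hi hθ1 hg0 hg0' hg1 hg1').mpr h1
    · right
      set f' : D.Pt → ℤ := f - top w (insert i S) with hf'
      have hg0'' : D.EqS S f' (g0 + θ • D.T D.c g0) := by
        intro x hx
        rw [hf', Pi.sub_apply, top_none (mem_insert_self _ _) (hx i hi), sub_zero]
        exact hg0' x hx
      have hg1'' : D.EqS S (D.un i f')
          ((g1 - hpart w S i) + θ • D.T D.c (g1 - hpart w S i)) := by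
        intro x hx
        have h2 := hg1' x hx
        have h3 : D.un i f' x = D.un i f x - D.un i (top w (insert i S)) x := by
          apply Ind.ext
          funext u
          rfl
        have h4 : D.un i (top w (insert i S)) x =
            hpart w S i x + θ • D.T D.c (hpart w S i) x := by
          apply Ind.ext
          funext u
          rw [un_ev, top_update hi, ind_add, ind_zsmul, T_apply, ind_smul]
          simp only [hpart, zt]
          rw [top_act, ← hθS]
          have hcc : ∀ v : D.G i, D.c i * (D.c i * v) = v := fun v => by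
            rw [← mul_assoc, D.hc i, one_mul]
          have h5 : (D.c i * u = w i) ↔ (u = D.c i * w i) := by
            constructor
            · intro h; rw [← h, hcc]
            · intro h; rw [h, hcc]
          simp only [h5, triv_int, smul_eq_mul]
          have h6 : θ * (-θ * top w S x * (if u = D.c i * w i then 1 else 0)) =
              - (top w S x * (if u = D.c i * w i then 1 else 0)) := by
            linear_combination (-(top w S x * (if u = D.c i * w i then 1 else 0))) * hθ1
          rw [h6]
          ring
        rw [h3, h2, h4, T_sub]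
        simp only [Pi.add_apply, Pi.sub_apply, Pi.smul_apply, smul_sub]
        abel
      refine (img_iff hfree hi hθ1 hg0 hg0'' (hg1.sub (hpart_isD w S i)) hg1'').mpr ?_
      refine h1.congr (EqS.of_eq ?_)
      funext x
      have h2 : D.nrm i (hpart w S i x) = top w S x := by
        rw [nrm_apply]
        simp [hpart]
      change D.nrm i (g1 x) - (D.T (D.α i) g0 x - D.T (D.β i) g0 x) - top w S x =
        D.nrm i (g1 x - hpart w S i x) - (D.T (D.α i) g0 x - D.T (D.β i) g0 x)
      rw [map_sub, h2]
      ring

end Pool.Agent.U270.FT14
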