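import Pool.Agent.U270.FT14.Base8
import Pool.Agent.U270.FT14.Even8

/-!
# Relations with at most eight entries of the levels congruent to two modulo four
-/

set_option autoImplicit false
set_option linter.unusedSectionVars false

namespace Pool.Agent.U270.FT14

open Finset Pool.Agent.H916R2 Pool.Agent.N992 Pool.Agent.N993 Pool.Agent.N993.Dat Pool.Agent.Y2
  Pool.Agent.U270.SX

/-- four or five primes -/
theorem base_many27 {G : ℕ → Prop} {S : Finset ℕ} (hS13 : S ⊆ {3, 5, 7, 11, 13}) (h4 : 4 ≤ S.card)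
    {m : ℕ} [NeZero m] (hodd : m % 2 = 1) (hSm : m.primeFactors = S)
    (hG : ∀ e, e % 2 = 1 → (∀ p, p.Prime → p ∣ e → p ∈ ({3, 5, 7, 11, 13} : Finset ℕ)) →
      e.primeFactors.card ≤ 3 → G e)
    (A : Multiset ℕ) (hcardA : Multiset.card A ≤ 27) (hrel : ∀ t, Nat.Coprime t m → SW m A t = 0)
    {Q : Type} [AddCommGroup Q] {C : ZMod m → Q} (hC : OddDist C) (hK : KillsG G m C) :
    (A.map fun a : ℕ => C (a : ZMod m)).sum = 0 := by
  classical
  have hm : m ≠ 0 := NeZero.ne m
  have hSp : ∀ p ∈ S, p.Prime := fun p hp => by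
    rw [← hSm] at hp; exact Nat.prime_of_mem_primeFactors hp
  have hSd : ∀ p ∈ S, p ∣ m := fun p hp => by
    rw [← hSm] at hp; exact Nat.dvd_of_mem_primeFactors hp
  have hSo : ∀ p ∈ S, p % 2 = 1 := fun p hp => by
    obtain ⟨z, hz⟩ := hSd p hp
    rcases (hSp p hp).eq_two_or_odd with h | h
    · rw [h] at hz; omega
    · exact h
  have hmem : ∀ p, p.Prime → p ∣ m → p ∈ S := fun p hp hpm => by
    rw [← hSm]; exact Nat.mem_primeFactors.mpr ⟨hp, hpm, hm⟩
  have hadm : ∀ x ∈ S, (x.Prime ∧ x % 2 = 1) ∨ x = 4 := fun x hx => Or.inl ⟨hSp x hx, hSo x hx⟩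
  have hnz : ∀ i : Ix S, NeZero (nn S i) := fun i => ⟨(hSp i i.2).ne_zero⟩
  have hn : Adm' (nn S) := fun i => hadm i i.2
  have hco : Pairwise (fun i j : Ix S => (nn S i).Coprime (nn S j)) := fun i j hij =>
    (Nat.coprime_primes (hSp i i.2) (hSp j j.2)).mpr (fun h => hij (Subtype.ext h))
  have hprod : ∏ i : Ix S, nn S i = ∏ p ∈ S, p := Finset.prod_coe_sort S (fun p => p)
  have hN0 : ∏ i : Ix S, nn S i ≠ 0 := prod_ne_zero_iff.mpr fun i _ => (hnz i).out
  have hNZ : NeZero (∏ i : Ix S, nn S i) := ⟨hN0⟩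
  have hdvd : ∏ i : Ix S, nn S i ∣ m := by
    rw [hprod, ← hSm]; exact Nat.prod_primeFactors_dvd m
  obtain ⟨k, hk⟩ := hdvd
  have hk' : k * ∏ i : Ix S, nn S i = m := (mul_comm _ _).trans hk.symm
  have hk'' : k * ∏ p ∈ S, p = m := by rw [← hprod]; exact hk'
  have hpr : ∀ p, p.Prime → p ∣ m → p ∣ ∏ i : Ix S, nn S i := fun p hp hpm => by
    rw [hprod]; exact dvd_prod_of_mem (fun p => p) (hmem p hp hpm)
  have hcard5 : S.card ≤ 5 := by
    have := card_le_card hS13
    simpa using this
  let E : (∀ i, ZMod (nn S i)) ≃+* ZMod (∏ i : Ix S, nn S i) := (ZMod.prodEquivPi (nn S) hco).symm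
  obtain ⟨U, hU1, hU2⟩ := exists_lifts (m := m) (m0 := ∏ i : Ix S, nn S i) hm ⟨k, hk⟩
  have hGT : ∀ T : Finset (Ix S), T.card ≤ 3 → G (∏ i ∈ T, nn S i) := by
    intro T hT
    have hdT : ∏ i ∈ T, nn S i ∣ m :=
      (prod_dvd_prod_of_subset _ _ _ (subset_univ T)).trans ⟨k, hk⟩
    apply hG
    · obtain ⟨z, hz⟩ := hdT
      by_contra hcon
      have h5 : 2 ∣ ∏ i ∈ T, nn S i := by omega
      obtain ⟨y, hy⟩ := h5
      rw [hy] at hz
      have : m = 2 * (y * z) := by rw [hz]; ring
      omega
    · intro p hp hpd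
      exact hS13 (hmem p hp (hpd.trans hdT))
    · have hsub : (∏ i ∈ T, nn S i).primeFactors ⊆ T.map (Function.Embedding.subtype _) := by
        intro p hp
        have hp1 := Nat.prime_of_mem_primeFactors hp
        obtain ⟨i, hi, hpi⟩ := (Nat.Prime.prime hp1).exists_mem_finset_dvd
          (Nat.dvd_of_mem_primeFactors hp)
        rw [mem_map]
        exact ⟨i, hi, ((Nat.prime_dvd_prime_iff_eq hp1 (hSp i i.2)).mp hpi).symm⟩
      have := card_le_card hsub
      rw [card_map] at this
      omega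
  have hpp : ∀ p ∈ S, ∀ B : ℕ, p ∣ B → pp m p ∣ k * B := fun p hp B h =>
    (pp_iff_nat hSp hm hk'' hp B).mpr h
  by_cases h5 : S.card = 4
  · -- four primes
    have huniv : ∀ T : Finset (Ix S), T.card = 4 → T = univ := by
      intro T hT
      apply Finset.eq_univ_of_card
      rw [hT, Fintype.card_coe, h5]
    have hmap : (univ : Finset (Ix S)).map (Function.Embedding.subtype _) = S := by
      ext p
      simp
    obtain ⟨v, hv⟩ := exists_avoid (V := (ZMod (∏ i : Ix S, nn S i))ˣ) (K := 27) (B := 16) A hcardA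
      (fun v a => II m S.toList (U v) a)
      (fun a _ => bad_four (m := m) hSp hprod.symm h5 hU2 a) (by
        rw [card_param hSp hprod.symm]
        have := prod_bound S (mem_powerset.mpr hS13) h5
        omega)
    have hL : ∀ p ∈ S.toList, p.Prime := fun p hp => hSp p (Finset.mem_toList.mp hp)
    refine base_core hn hco hcard5 rfl E hk' hodd hpr (fun _ => II m S.toList (U v))
      (fun _ _ x y h => II_per h) (fun _ _ x y h => II_neg h) ?_ ?_
      (fun T => fun i => unOf ((∏ q ∈ S \ S, q) * U v) (nn S i)) ?_ ?_ A hrel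
      (fun _ _ a ha => hv a ha) hGT hC hK
    · intro _ _
      obtain ⟨p, hp⟩ : S.Nonempty := card_pos.mp (by omega)
      exact II_zero (q := p) (Finset.mem_toList.mpr hp) (dvd_zero _)
    · intro _ _ q d hq hqd B
      have hqm : q ∣ m := Dvd.intro d hqd
      exact (II_lin hq hqd hm (nd_unit hq hqm (hU1 v)) hL (Finset.nodup_toList S)
        (Finset.mem_toList.mpr (hmem q hq hqm))).2 B
    · intro T hT y hy
      have hTu := huniv T hT
      subst hTu
      exact II_eval hSp hm hprod.symm hk' E univ S hmap (hU1 v) y hy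
    · intro T hT y i _ hyi
      exact II_zero (q := (i : ℕ)) (Finset.mem_toList.mpr i.2) (hpp i i.2 _ (coord_none E y hyi))
  · -- five primes
    have h5' : S.card = 5 := by omega
    have hS5 : S = {3, 5, 7, 11, 13} := by
      apply Finset.eq_of_subset_of_card_le hS13
      rw [h5']; rfl
    have hr0 : ∀ T : Finset (Ix S), ∃ r : Ix S, T.card = 4 → T = univ.erase r := by
      intro T
      by_cases hT : T.card = 4
      · have h6 : (univ \ T).card = 1 := by
          rw [card_sdiff_of_subset (subset_univ T), card_univ, Fintype.card_coe, h5', hT]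
        obtain ⟨r, hr⟩ := card_eq_one.mp h6
        refine ⟨r, fun _ => ?_⟩
        ext i
        rw [mem_erase]
        constructor
        · intro hi
          refine ⟨fun e => ?_, mem_univ _⟩
          have : r ∈ univ \ T := by rw [hr]; exact mem_singleton_self r
          exact (mem_sdiff.mp this).2 (e ▸ hi)
        · rintro ⟨hi, _⟩
          by_contra h7
          have : i ∈ univ \ T := mem_sdiff.mpr ⟨mem_univ _, h7⟩
          rw [hr, mem_singleton] at this
          exact hi this
      · obtain ⟨p, hp⟩ : S.Nonempty := card_pos.mp (by omega)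
        exact ⟨⟨p, hp⟩, fun h => absurd h hT⟩
    choose r hr using hr0
    have hmap : ∀ T : Finset (Ix S), T.card = 4 →
        T.map (Function.Embedding.subtype _) = S.erase (r T : ℕ) := by
      intro T hT
      have h6 := hr T hT
      ext p
      rw [mem_map, mem_erase]
      constructor
      · rintro ⟨i, hi, rfl⟩
        rw [h6, mem_erase] at hi
        exact ⟨fun e => hi.1 (Subtype.ext e), i.2⟩
      · rintro ⟨hp1, hp2⟩
        refine ⟨⟨p, hp2⟩, ?_, rfl⟩
        rw [h6, mem_erase]
        exact ⟨fun e => hp1 (congrArg Subtype.val e), mem_univ _⟩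
    have hr13 : ∀ i : Ix S, (i : ℕ) ≤ 13 := by
      intro i
      have := hS13 i.2
      simp only [mem_insert, mem_singleton] at this
      omega
    have hv0 : ∀ i : Ix S, ∃ v : (ZMod (∏ i : Ix S, nn S i))ˣ, ∀ a ∈ A,
        DD m (S.erase (i : ℕ)).toList (i : ℕ) (U v) a = 0 := by
      intro i
      exact exists_avoid (V := (ZMod (∏ i : Ix S, nn S i))ˣ) (K := 27) (B := 208) A hcardA
        (fun v a => DD m (S.erase (i : ℕ)).toList (i : ℕ) (U v) a)
        (fun a _ => bad_five (m := m) hSp hprod.symm h5' i.2 (hr13 i) hU2 a) (by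
          rw [card_param hSp hprod.symm, hS5]
          decide)
    choose v hv using hv0
    have hL : ∀ j : Ix S, ∀ p ∈ (S.erase (j : ℕ)).toList, p.Prime ∧ p ≠ (j : ℕ) := fun j p hp => by
      have := Finset.mem_toList.mp hp
      exact ⟨hSp p (mem_of_mem_erase this), ne_of_mem_erase this⟩
    have hzero : ∀ (j : Ix S) (q : ℕ), q.Prime → q ∣ m → q ≠ (j : ℕ) → ∀ x, pp m q ∣ x →
        DD m (S.erase (j : ℕ)).toList (j : ℕ) (U (v j)) x = 0 := by
      intro j q hq hqm hqj x hx
      obtain ⟨d, hd⟩ := hqm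
      exact (DD_lin hq hd.symm hm (nd_unit hq (Dvd.intro d hd.symm) (hU1 (v j))) (hSp j j.2)
        (fun e => hqj e.symm) (fun p hp => (hL j p hp).1) (Finset.nodup_toList _)
        (Finset.mem_toList.mpr (mem_erase.mpr ⟨hqj, hmem q hq (Dvd.intro d hd.symm)⟩))).1 x hx
    refine base_core hn hco hcard5 rfl E hk' hodd hpr
      (fun T => DD m (S.erase (r T : ℕ)).toList (r T : ℕ) (U (v (r T))))
      (fun _ _ x y h => DD_per h) (fun _ _ x y h => DD_neg h) ?_ ?_
      (fun T => fun i => unOf ((∏ q ∈ S \ S.erase (r T : ℕ), q) * U (v (r T))) (nn S i)) ?_ ?_ A hrel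
      (fun T _ a ha => hv (r T) a ha) hGT hC hK
    · intro T _
      obtain ⟨p, hp⟩ : (S.erase (r T : ℕ)).Nonempty := card_pos.mp (by
        rw [card_erase_of_mem (r T).2]; omega)
      exact hzero (r T) p (hSp p (mem_of_mem_erase hp)) (hSd p (mem_of_mem_erase hp))
        (ne_of_mem_erase hp) 0 (dvd_zero _)
    · intro T _ q d hq hqd B
      have hqm : q ∣ m := Dvd.intro d hqd
      by_cases hqr : q = (r T : ℕ)
      · rw [← hqr]
        exact DD_rel hq hqd hm (nd_unit hq hqm (hU1 (v (r T)))) (fun p hp => by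
          have := hL (r T) p (by rw [← hqr]; exact hp)
          exact ⟨this.1, hqr ▸ this.2⟩) B
      · exact (DD_lin hq hqd hm (nd_unit hq hqm (hU1 (v (r T)))) (hSp (r T) (r T).2)
          (fun e => hqr e.symm) (fun p hp => (hL (r T) p hp).1) (Finset.nodup_toList _)
          (Finset.mem_toList.mpr (mem_erase.mpr ⟨hqr, hmem q hq hqm⟩))).2 B
    · intro T hT y hy
      have hrn : r T ∉ T := by
        intro h
        exact (Finset.mem_erase.mp ((Finset.ext_iff.mp (hr T hT) (r T)).mp h)).1 rfl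
      have hrT : y (r T) = none := hy _ hrn
      rw [DD_one (hpp (r T) (r T).2 _ (coord_none E y hrT))]
      exact II_eval hSp hm hprod.symm hk' E T (S.erase (r T : ℕ)) (hmap T hT) (hU1 (v (r T))) y hy
    · intro T hT y i hi hyi
      have hir : (i : ℕ) ≠ (r T : ℕ) := by
        intro e
        rw [hr T hT, mem_erase] at hi
        exact hi.1 (Subtype.ext e)
      exact hzero (r T) (i : ℕ) (hSp i i.2) (hSd i i.2) hir _ (hpp i i.2 _ (coord_none E y hyi))


/-- the sawtooth is an odd distribution -/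
lemma saw_oddDist {m : ℕ} [NeZero m] {t : ℕ} (ht : Nat.Coprime t m) :
    OddDist (fun a : ZMod m => saw ((t : ZMod m) * a)) where
  neg := fun a => by beta_reduce; rw [mul_neg, saw_neg]
  half := fun a ha => saw_half (by rw [← mul_add, ha, mul_zero])
  dist := fun p d _ hpd a => by
    have h := saw_dist_unit hpd (ZMod.unitOfCoprime t ht) a
    simpa only [ZMod.coe_unitOfCoprime] using h

/-- the halves of an entry -/
def hlv (n a : ℕ) : Multiset ℕ := if a % 2 = 0 then {a / 2} else {a, (n - 1) * ((a + n) / 2)}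

lemma card_hlv (n a : ℕ) : Multiset.card (hlv n a) ≤ 2 := by
  unfold hlv
  split_ifs <;> simp

lemma hlv_sum {n m : ℕ} (hn : n % 2 = 1) (hm : 2 * n = m) {Q : Type} [AddCommGroup Q]
    {C : ZMod m → Q} (hC : OddDist C) (a : ℕ) :
    ((hlv n a).map fun b : ℕ => C ((2 * b : ℕ) : ZMod m)).sum = C (a : ZMod m) := by
  unfold hlv
  split_ifs with h
  · rw [Multiset.map_singleton, Multiset.sum_singleton]
    congr 2
    omega
  · rw [Multiset.insert_eq_cons, Multiset.map_cons, Multiset.sum_cons, Multiset.map_singleton,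
      Multiset.sum_singleton]
    have h1 := hC.dist 2 n Nat.prime_two hm (a : ZMod m)
    rw [sum_range_succ, sum_range_succ, sum_range_zero, zero_add] at h1
    simp only [Nat.cast_zero, zero_mul, add_zero, Nat.cast_one, one_mul] at h1
    obtain ⟨z, hz⟩ : ∃ z, a + n = 2 * z := ⟨(a + n) / 2, by omega⟩
    have h2 : ((2 * ((n - 1) * ((a + n) / 2)) : ℕ) : ZMod m) = - ((a : ZMod m) + (n : ZMod m)) := by
      rw [eq_neg_iff_add_eq_zero]
      have h3 : ((2 * ((n - 1) * ((a + n) / 2)) + (a + n) : ℕ) : ZMod m) = 0 := by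
        rw [ZMod.natCast_eq_zero_iff, hz, Nat.mul_div_cancel_left z (by norm_num), ← hm]
        refine ⟨z, ?_⟩
        obtain ⟨n', rfl⟩ : ∃ n', n = n' + 1 := ⟨n - 1, by omega⟩
        simp only [Nat.add_sub_cancel]
        ring
      rw [← h3]
      push_cast
      ring
    rw [h2, hC.neg]
    have h4 : ((2 * a : ℕ) : ZMod m) = ((2 : ℕ) : ZMod m) * (a : ZMod m) := by push_cast; rfl
    rw [h4, ← h1]
    abel

lemma hlv_all {n m : ℕ} (hn : n % 2 = 1) (hm : 2 * n = m) {Q : Type} [AddCommGroup Q]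
    {C : ZMod m → Q} (hC : OddDist C) (A : Multiset ℕ) :
    ((A.bind (hlv n)).map fun b : ℕ => C ((2 * b : ℕ) : ZMod m)).sum =
      (A.map fun a : ℕ => C (a : ZMod m)).sum := by
  rw [Multiset.map_bind, Multiset.sum_bind]
  congr 1
  apply Multiset.map_congr rfl
  intro a _
  exact hlv_sum hn hm hC a

lemma card_hlv_all (n : ℕ) (A : Multiset ℕ) :
    Multiset.card (A.bind (hlv n)) ≤ 2 * Multiset.card A := by
  induction A using Multiset.induction_on with
  | empty => simp
  | cons a A ih =>
    rw [Multiset.cons_bind, Multiset.card_add, Multiset.card_cons]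
    have := card_hlv n a
    omega

lemma hlv_rel {n m : ℕ} (hn : n % 2 = 1) (hm : 2 * n = m) (A : Multiset ℕ)
    (hrel : ∀ t, Nat.Coprime t m → SW m A t = 0) :
    ∀ t, Nat.Coprime t n → SW n (A.bind (hlv n)) t = 0 := by
  have hm0 : m ≠ 0 := by omega
  have hN : NeZero m := ⟨hm0⟩
  have h1 : ∀ t, Nat.Coprime t m → SW n (A.bind (hlv n)) t = 0 := by
    intro t ht
    have h2 := hlv_all hn hm (saw_oddDist ht) A
    have h3 : (A.map fun a : ℕ => saw ((t : ZMod m) * (a : ZMod m))).sum = 0 := by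
      rw [← hrel t ht]
      unfold SW
      congr 1
      apply Multiset.map_congr rfl
      intro a _
      rw [Nat.cast_mul]
    rw [h3] at h2
    have h4 := SW_lmul hm0 hm (A.bind (hlv n)) t
    have h5 : SW m ((A.bind (hlv n)).map fun x => 2 * x) t = 0 := by
      rw [← h2]
      unfold SW
      rw [Multiset.map_map]
      congr 1
      apply Multiset.map_congr rfl
      intro a _
      simp only [Function.comp_apply]
      rw [Nat.cast_mul t]
    rw [h5] at h4
    have h6 : ((2 : ℕ) : ℤ) * SW n (A.bind (hlv n)) t = 0 := h4.symm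
    rcases mul_eq_zero.mp h6 with h | h
    · norm_num at h
    · exact h
  intro t ht
  rcases Nat.even_or_odd t with he | ho
  · have h2 : Nat.Coprime (t + n) n := by
      have h3 : Nat.gcd (t + n) n = Nat.gcd t n := (Nat.add_modEq_right (n := n) (a := t)).gcd_eq
      rw [Nat.Coprime, h3]
      exact ht
    have h3 : Nat.Coprime (t + n) m := by
      rw [← hm]
      apply Nat.Coprime.mul_right _ h2
      rw [Nat.coprime_comm, Nat.coprime_two_left, Nat.odd_iff]
      have := Nat.even_iff.mp he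
      omega
    rw [← h1 _ h3]
    apply SW_congr
    exact (Nat.add_modEq_right).symm
  · apply h1
    rw [← hm]
    apply Nat.Coprime.mul_right _ ht
    rw [Nat.coprime_comm, Nat.coprime_two_left]
    exact ho

/-- the levels congruent to two modulo four -/
theorem base_two {m : ℕ} [NeZero m] (heven : m % 2 = 0) (h4 : ¬ 4 ∣ m)
    (hP : ∀ p, p.Prime → p ∣ m → p ≤ 13)
    (A : Multiset ℕ) (hcardA : Multiset.card A ≤ 8) (hrel : ∀ t, Nat.Coprime t m → SW m A t = 0)
    {Q : Type} [AddCommGroup Q] {C : ZMod m → Q} (hC : OddDist C) (hK : KillsR ThreePrimes m C) :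
    (A.map fun a : ℕ => C (a : ZMod m)).sum = 0 := by
  have hm0 : m ≠ 0 := NeZero.ne m
  obtain ⟨n, hn⟩ : ∃ n, 2 * n = m := ⟨m / 2, by omega⟩
  have hno : n % 2 = 1 := by
    by_contra h
    apply h4
    exact ⟨n / 2, by omega⟩
  have hNn : NeZero n := ⟨by omega⟩
  have hC' : OddDist (fun b : ZMod n => C (iota 2 b)) := hC.comp_iota hn
  have hK' : KillsR ThreePrimes n (fun b : ZMod n => C (iota 2 b)) := hK.comp hn
  have hB := hlv_rel hno hn A hrel
  have hcB := card_hlv_all n A
  have hPn : ∀ p, p.Prime → p ∣ n → p ∈ ({3, 5, 7, 11, 13} : Finset ℕ) := by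
    intro p hp hpn
    have h1 := hP p hp (hpn.trans (Dvd.intro_left 2 hn))
    have h2 := hp.two_le
    have h3 : p ≠ 2 := by rintro rfl; omega
    interval_cases p <;> first | decide | omega | (exfalso; revert hp; norm_num; done)
  have hfin : ((A.bind (hlv n)).map fun b : ℕ => (fun b : ZMod n => C (iota 2 b)) (b : ZMod n)).sum =
      0 := by
    by_cases h3 : n.primeFactors.card ≤ 3
    · have h5 := hK' 1 n (one_mul n) (threePrimes_small hno hPn h3) (A.bind (hlv n)) hB
      simpa only [one_mul] using h5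
    · exact base_many27 (G := ThreePrimes) (S := n.primeFactors)
        (fun p hp => hPn p (Nat.prime_of_mem_primeFactors hp) (Nat.dvd_of_mem_primeFactors hp))
        (by omega) hno rfl (fun e he hp hc => threePrimes_small he hp hc) (A.bind (hlv n)) (by omega)
        hB hC' (fun l e hle hg A' _ hr => hK' l e hle hg A' hr)
  rw [← hlv_all hno hn hC A, ← hfin]
  congr 1
  apply Multiset.map_congr rfl
  intro b _
  beta_reduce
  rw [iota_natCast hn]

/-- **Relations with at most eight entries of even level not divisible by 420.** -/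
theorem eight_all {m : ℕ} (hm : m ≠ 0) (heven : m % 2 = 0) (h420 : ¬ 420 ∣ m) (A : Multiset ℕ)
    (hcardA : Multiset.card A ≤ 8) (hrel : ∀ t, Nat.Coprime t m → SW m A t = 0)
    (Q : Type) [AddCommGroup Q] (C : ZMod m → Q) (hC : OddDist C)
    (hK : KillsR ThreePrimes m C) : (A.map fun a : ℕ => C (a : ZMod m)).sum = 0 := by
  have h3 : ∀ p, p.Prime → p % 2 = 1 → (p % 4 = 3 ∨ p = 17) → ThreePrimes (3 * p) :=
    fun p hp hp2 h => threePrimes_two hp rfl hp2 h
  refine eight_even ThreePrimes (h3 17 (by norm_num) (by norm_num) (Or.inr rfl))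
    (h3 19 (by norm_num) (by norm_num) (Or.inl rfl))
    (h3 23 (by norm_num) (by norm_num) (Or.inl rfl)) (threePrimes_of_le (by norm_num) (by norm_num))
    (fun e => ¬ 420 ∣ e) (fun q d h h1 => h (h1.mul_left q)) ?_ m hm heven h420 A hcardA hrel Q C
    hC hK
  intro e he heven' h420' hP A' hcA hrA Q' _ C' hC' hK'
  have hNe : NeZero e := ⟨he⟩
  by_cases h4 : 4 ∣ e
  · exact base_many4 h4 hP h420' A' hcA hrA hC' hK'
  · exact base_two heven' h4 hP A' hcA hrA hC' hK'

end Pool.Agent.U270.FT14
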